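import Pool.Agent.Lib.MP_16b755_an.Spec

/-!
# Vanishing derivatives give a small function
-/

set_option autoImplicit false

namespace MP16b755

open MeasureTheory Metric Set Filter Topology

private lemma van_zero {F : Type} [NormedAddCommGroup F] [NormedSpace ℝ F] {f : ℂ → F} {K : ℕ}
    (h : ∀ j ≤ K, iteratedFDeriv ℝ j f 0 = 0) : f 0 = 0 := by
  have h0 := h 0 (Nat.zero_le K)
  have h1 : ‖iteratedFDeriv ℝ 0 f 0‖ = ‖f 0‖ := norm_iteratedFDeriv_zero
  rw [h0, norm_zero] at h1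
  exact norm_eq_zero.1 h1.symm

private lemma van_aux : ∀ (K : ℕ) (F : Type) [NormedAddCommGroup F] [NormedSpace ℝ F] (f : ℂ → F),
    ContDiffAt ℝ ((⊤ : ℕ∞) : WithTop ℕ∞) f 0 → (∀ j ≤ K, iteratedFDeriv ℝ j f 0 = 0) →
    ∃ C δ : ℝ, 0 < C ∧ 0 < δ ∧ ∀ z : ℂ, ‖z‖ < δ → ‖f z‖ ≤ C * ‖z‖ ^ (K + 1) := by
  intro K
  induction K with
  | zero =>
    intro F _ _ f hf h
    have h0 : f 0 = 0 := van_zero h
    have hf1 : ContDiffAt ℝ 1 f 0 := hf.of_le (by exact_mod_cast le_top)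
    obtain ⟨L, t, ht, hL⟩ := hf1.exists_lipschitzOnWith
    obtain ⟨δ, hδ, hb⟩ := Metric.mem_nhds_iff.1 ht
    refine ⟨L + 1, δ, by positivity, hδ, fun z hz => ?_⟩
    have h1 := hL.dist_le_mul z (hb (mem_ball_zero_iff.2 hz)) 0 (mem_of_mem_nhds ht)
    rw [dist_eq_norm, dist_eq_norm, h0, sub_zero, sub_zero] at h1
    rw [zero_add, pow_one]
    nlinarith [norm_nonneg z]
  | succ K IH =>
    intro F _ _ f hf h
    have h0 : f 0 = 0 := van_zero h
    have h1 : ContDiffAt ℝ ((⊤ : ℕ∞) : WithTop ℕ∞) (fderiv ℝ f) 0 := hf.fderiv_right (by simp)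
    obtain ⟨C, δ, hC, hδ, hb⟩ := IH (ℂ →L[ℝ] F) (fderiv ℝ f) h1 (fun j hj => by
      have h2 := h (j + 1) (by omega)
      have h3 := norm_iteratedFDeriv_fderiv (𝕜 := ℝ) (f := f) (x := (0 : ℂ)) (n := j)
      rw [h2, norm_zero] at h3
      exact norm_eq_zero.1 h3)
    have h4 : ∀ᶠ z in 𝓝 (0 : ℂ), DifferentiableAt ℝ f z := by
      have hf1 : ContDiffAt ℝ 1 f 0 := hf.of_le (by exact_mod_cast le_top)
      filter_upwards [hf1.eventually (by simp)] with z hz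
      exact hz.differentiableAt (by simp)
    obtain ⟨δ', hδ', hd⟩ := Metric.eventually_nhds_iff_ball.1 h4
    refine ⟨C, min δ δ', hC, lt_min hδ hδ', fun z hz => ?_⟩
    have hz1 : ‖z‖ < δ := lt_of_lt_of_le hz (min_le_left _ _)
    have hz2 : ‖z‖ < δ' := lt_of_lt_of_le hz (min_le_right _ _)
    have h5 := (convex_closedBall (0 : ℂ) ‖z‖).norm_image_sub_le_of_norm_fderiv_le (𝕜 := ℝ) (f := f)
      (C := C * ‖z‖ ^ (K + 1)) (x := 0) (y := z)
      (fun w hw => hd w (mem_ball_zero_iff.2 (lt_of_le_of_lt (mem_closedBall_zero_iff.1 hw) hz2)))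
      (fun w hw => (hb w (lt_of_le_of_lt (mem_closedBall_zero_iff.1 hw) hz1)).trans
        (mul_le_mul_of_nonneg_left (pow_le_pow_left₀ (norm_nonneg _)
          (mem_closedBall_zero_iff.1 hw) _) hC.le))
      (mem_closedBall_self (norm_nonneg _)) (mem_closedBall_zero_iff.2 le_rfl)
    rw [h0, sub_zero, sub_zero] at h5
    refine h5.trans (le_of_eq ?_)
    ring

theorem tVan : StmtVan := by
  intro f K hf h
  obtain ⟨C, δ, hC, hδ, hb⟩ := van_aux K ℝ f hf h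
  exact ⟨C, δ, hC, hδ, fun z hz => hb z hz⟩

end MP16b755
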