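import Pool.Agent.Lib.MP_16b755_an.Spec

/-!
# The base map is an automorphism of the disc
-/

set_option autoImplicit false

namespace MP16b755

open MeasureTheory Metric Set Filter Topology

/-- A map of the base which is covered by a holomorphic map is holomorphic. -/
theorem aut_diff {n : ℕ} {Ω : Set (Sp n)} {r : Sp n → ℝ} {k : Fin n} (hD : Dom Ω r k)
    (f : Sp n → Sp n) (g : ℂ → ℂ) (hf : DifferentiableOn ℂ f Ω)
    (hg : ∀ x ∈ Ω, f x k = g (x k)) : DifferentiableOn ℂ g (ball 0 1) := by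
  intro w hw
  rw [mem_ball_zero_iff] at hw
  obtain ⟨x, hx, hxw⟩ := hD.exists_fib hw
  have h1 : ∀ᶠ w' in 𝓝 w, upd x k w' ∈ Ω := by
    refine (continuous_upd_right x k).continuousAt.eventually_mem (hD.op.mem_nhds ?_)
    rw [← hxw, upd_self]
    exact hx
  have h2 : g =ᶠ[𝓝 w] fun w' => f (upd x k w') k := by
    filter_upwards [h1] with w' hw'
    rw [hg _ hw', upd_same]
  have h3 : DifferentiableAt ℂ f (upd x k w) := by
    rw [← hxw, upd_self]
    exact hf.differentiableAt (hD.op.mem_nhds hx)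
  have h4 : DifferentiableAt ℂ (fun w' => f (upd x k w')) w :=
    h3.comp w (differentiable_upd_right x k w)
  have h5 : DifferentiableAt ℂ (fun w' => f (upd x k w') k) w :=
    (EuclideanSpace.proj (𝕜 := ℂ) k).differentiableAt.comp w h4
  exact (h2.differentiableAt_iff.2 h5).differentiableWithinAt

/-- **The base map is an automorphism of the disc.** -/
theorem tAut : StmtAut := by
  intro n Ω r k φ m a b hD hF
  obtain ⟨ψ, hψd, hψm, hψl, hψr⟩ := hF.inv
  have hinv : ∀ y ∈ Ω, m (ψ y k) = y k := by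
    intro y hy
    rw [← hF.base _ (hψm hy), hψr hy]
  have hm' : ∀ w ∈ ball (0 : ℂ) 1, Function.invFunOn m (ball (0 : ℂ) 1) (m w) = w :=
    fun w hw => hF.inj.leftInvOn_invFunOn hw
  have hψ' : ∀ y ∈ Ω, ψ y k = Function.invFunOn m (ball (0 : ℂ) 1) (y k) := by
    intro y hy
    rw [← hinv y hy, hm' _ (hD.coord_mem (hψm hy))]
  have hex : ∀ w ∈ ball (0 : ℂ) 1, ∃ x ∈ Ω, x k = w := fun w hw =>
    hD.exists_fib (by rwa [mem_ball_zero_iff] at hw)
  refine ⟨Function.invFunOn m (ball (0 : ℂ) 1), aut_diff hD φ m hF.hol hF.base,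
    aut_diff hD ψ _ hψd hψ', ?_, ?_, hm', ?_⟩
  · intro w hw
    obtain ⟨x, hx, rfl⟩ := hex w hw
    rw [← hF.base x hx]
    exact hD.coord_mem (hF.bij.mapsTo hx)
  · intro w hw
    obtain ⟨x, hx, rfl⟩ := hex w hw
    rw [← hψ' x hx]
    exact hD.coord_mem (hψm hx)
  · intro w hw
    obtain ⟨x, hx, rfl⟩ := hex w hw
    rw [← hψ' x hx]
    exact hinv x hx

end MP16b755
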