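import Pool.Agent.Lib.MP_16b755_an.Spec

/-!
# MP_16b755_an: the barrier
-/

set_option autoImplicit false

namespace MP16b755

open MeasureTheory Metric Set Filter Topology

theorem tBar (hMinP : StmtMinP) (hThe : StmtThe) : StmtBar := by
  intro h s N d₁ d₂ Y₁ Y₂ hd₁ hd₂ hY₁ hY₁₂ hc hmv hb0 hb1 hb2 hinf σ hσ
  have hY₂ : 0 ≤ Y₂ := hY₁.trans hY₁₂
  obtain ⟨c1, m1, r1, l1, v1⟩ := hThe s Y₁ hY₁
  obtain ⟨c2, m2, r2, l2, v2⟩ := hThe s Y₂ hY₂
  have hss : {ω : ℂ | s < ω.re} ⊆ {ω : ℂ | s ≤ ω.re} := by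
    intro ω hω
    have hω' : s < ω.re := hω
    exact hω'.le
  have hc' : ContinuousOn h {ω : ℂ | s < ω.re} := hc.mono hss
  have hd : ∀ (d e : ℝ), 0 ≤ d → 0 < e → d * (e / (3 * (d + 1))) ≤ e / 3 := by
    intro d e hd he
    rw [mul_div_assoc', div_le_div_iff₀ (by positivity) (by norm_num)]
    nlinarith
  have key := hMinP (fun ω => h ω + -N + d₁ * thet s Y₁ ω + d₂ * thet s Y₂ ω) s
    (((hc'.add continuousOn_const).add (continuousOn_const.mul c1)).add
      (continuousOn_const.mul c2))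
    (fun c hc0 => by
      obtain ⟨ρ₀, h1, h2⟩ := hmv c hc0
      refine ⟨min ρ₀ (c.re - s), lt_min h1 (sub_pos.2 hc0), fun ρ hρ hρ' => ?_⟩
      have h3 : ρ < ρ₀ := hρ'.trans_le (min_le_left _ _)
      have h4 : s + ρ < c.re := by
        have := hρ'.trans_le (min_le_right _ _)
        linarith
      have hsub : closedBall c ρ ⊆ {ω : ℂ | s < ω.re} := by
        intro ω hω
        rw [mem_closedBall, dist_eq_norm] at hω
        have h5 := (Complex.abs_re_le_norm (ω - c)).trans hω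
        rw [Complex.sub_re, abs_le] at h5
        change s < ω.re
        linarith
      have i0 : IntegrableOn h (ball c ρ) := intOn_of_cont (hc'.mono hsub)
      have i1 : IntegrableOn (fun ω => d₁ * thet s Y₁ ω) (ball c ρ) :=
        intOn_of_cont ((continuousOn_const.mul c1).mono hsub)
      have i2 : IntegrableOn (fun ω => d₂ * thet s Y₂ ω) (ball c ρ) :=
        intOn_of_cont ((continuousOn_const.mul c2).mono hsub)
      have i3 : IntegrableOn (fun ω => h ω + -N) (ball c ρ) := i0.add (intOn_const _ _ _)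
      have i4 : IntegrableOn (fun ω => h ω + -N + d₁ * thet s Y₁ ω) (ball c ρ) := i3.add i1
      rw [av_add i4 i2, av_add i3 i1, av_add i0 (intOn_const _ _ _), av_const _ _ hρ,
        av_const_mul, av_const_mul, h2 ρ hρ h3, m1 c ρ hρ h4, m2 c ρ hρ h4])
    (fun z hz e he => by
      have hz' : (s : ℂ) + z.im * Complex.I = z := by
        rw [← hz]
        exact Complex.re_add_im z
      have g0 : ∀ᶠ ω in 𝓝[{ω : ℂ | s < ω.re}] z, h z - e / 3 < h ω := by
        have h1 : ContinuousWithinAt h {ω : ℂ | s ≤ ω.re} z := hc z hz.ge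
        exact (h1.mono hss).eventually (lt_mem_nhds (by linarith))
      have g1 : ∀ᶠ ω in 𝓝[{ω : ℂ | s < ω.re}] z, ω ∈ {ω : ℂ | s < ω.re} := self_mem_nhdsWithin
      rcases lt_or_ge |z.im| Y₂ with hy2 | hy2
      · have g2 := l2 z hz hy2 (e / (3 * (d₂ + 1))) (by positivity)
        have k2 := hd d₂ e hd₂ he
        rcases lt_or_ge |z.im| Y₁ with hy1 | hy1
        · have g3 := l1 z hz hy1 (e / (3 * (d₁ + 1))) (by positivity)
          have k1 := hd d₁ e hd₁ he
          have h3 := hb0 z.im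
          rw [hz'] at h3
          filter_upwards [g0, g1, g2, g3] with ω w0 w1 w2 w3
          have t1 : d₁ * (1 - e / (3 * (d₁ + 1))) ≤ d₁ * thet s Y₁ ω :=
            mul_le_mul_of_nonneg_left w3 hd₁
          have t2 : d₂ * (1 - e / (3 * (d₂ + 1))) ≤ d₂ * thet s Y₂ ω :=
            mul_le_mul_of_nonneg_left w2 hd₂
          rw [mul_sub, mul_one] at t1 t2
          linarith
        · have h3 := hb1 z.im hy1
          rw [hz'] at h3
          filter_upwards [g0, g1, g2] with ω w0 w1 w2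
          have t1 : 0 ≤ d₁ * thet s Y₁ ω := mul_nonneg hd₁ (r1 ω w1).1
          have t2 : d₂ * (1 - e / (3 * (d₂ + 1))) ≤ d₂ * thet s Y₂ ω :=
            mul_le_mul_of_nonneg_left w2 hd₂
          rw [mul_sub, mul_one] at t2
          linarith
      · have h3 := hb2 z.im hy2
        rw [hz'] at h3
        filter_upwards [g0, g1] with ω w0 w1
        have t1 : 0 ≤ d₁ * thet s Y₁ ω := mul_nonneg hd₁ (r1 ω w1).1
        have t2 : 0 ≤ d₂ * thet s Y₂ ω := mul_nonneg hd₂ (r2 ω w1).1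
        linarith)
    (fun e he => by
      obtain ⟨R, hR⟩ := hinf e he
      refine ⟨R, fun ω w1 w2 => ?_⟩
      have h1 := hR ω w1 w2
      have t1 : 0 ≤ d₁ * thet s Y₁ ω := mul_nonneg hd₁ (r1 ω w1).1
      have t2 : 0 ≤ d₂ * thet s Y₂ ω := mul_nonneg hd₂ (r2 ω w1).1
      change -e ≤ h ω + -N + d₁ * thet s Y₁ ω + d₂ * thet s Y₂ ω
      linarith)
    (σ : ℂ) (by rwa [Complex.ofReal_re])
  have t1 : d₁ * thet s Y₁ (σ : ℂ) ≤ d₁ * (Y₁ / (σ - s)) := mul_le_mul_of_nonneg_left (v1 σ hσ) hd₁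
  have t2 : d₂ * thet s Y₂ (σ : ℂ) ≤ d₂ * (Y₂ / (σ - s)) := mul_le_mul_of_nonneg_left (v2 σ hσ) hd₂
  have t3 : (d₁ * Y₁ + d₂ * Y₂) / (σ - s) = d₁ * (Y₁ / (σ - s)) + d₂ * (Y₂ / (σ - s)) := by ring
  have key' : 0 ≤ h (σ : ℂ) + -N + d₁ * thet s Y₁ (σ : ℂ) + d₂ * thet s Y₂ (σ : ℂ) := key
  rw [t3]
  linarith

end MP16b755
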