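import Pool.Agent.Lib.MP_16b755_an.Spec

/-!
# Basic properties of the potentials
-/

set_option autoImplicit false

namespace MP16b755

open MeasureTheory Metric Set Filter Topology

private theorem bas_log {W : ℂ → ℝ} {B C ε c₀ : ℝ} (h : Pot W B C ε c₀) {K : Set ℂ}
    (hK : IsCompact K) (hs : K ⊆ ball (0 : ℂ) 1) :
    ∃ M : ℝ, 0 ≤ M ∧ ∀ z ∈ K, |Real.log (W z)| ≤ M := by
  rcases K.eq_empty_or_nonempty with rfl | hne
  · exact ⟨0, le_rfl, fun z hz => absurd hz (notMem_empty z)⟩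
  obtain ⟨z₀, hz₀, hmin⟩ := LowerSemicontinuousOn.exists_isMinOn hne hK
    (h.lsc.lowerSemicontinuousOn K)
  have hp : 0 < W z₀ := h.pos z₀ (hs hz₀)
  refine ⟨|Real.log (W z₀)| + |Real.log B|, by positivity, fun z hz => ?_⟩
  have h1 : W z₀ ≤ W z := hmin hz
  have h2 : W z ≤ B := h.le z
  have h3 := Real.log_le_log hp h1
  have h4 := Real.log_le_log (hp.trans_le h1) h2
  rw [abs_le]
  constructor
  · have := neg_abs_le (Real.log (W z₀))
    have := abs_nonneg (Real.log B)
    linarith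
  · have := le_abs_self (Real.log B)
    have := abs_nonneg (Real.log (W z₀))
    linarith

private theorem bas_re {c ω : ℂ} {r : ℝ} (hr : r < c.re) (h : ω ∈ closedBall c r) : 0 < ω.re := by
  rw [mem_closedBall, dist_eq_norm] at h
  have h1 := (Complex.abs_re_le_norm (ω - c)).trans h
  rw [Complex.sub_re, abs_le] at h1
  linarith [h1.1]

private theorem bas_ne {ω : ℂ} (h : 0 < ω.re) : ω ≠ 0 := by
  rintro rfl
  simp at h

theorem tBas : StmtBas := by
  intro W B C ε c₀ h
  have hW : Measurable W := h.lsc.measurable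
  have hcay : ∀ ζ : ℂ, Measurable (cay ζ) := by
    intro ζ
    unfold cay
    fun_prop
  have hpsi : ∀ ζ : ℂ, Measurable (psi W ζ) := by
    intro ζ
    exact (Real.measurable_log.comp (hW.comp (hcay ζ))).neg
  have hlow : ∀ ζ β : ℂ, ‖ζ‖ = 1 → 0 < β.re → -Real.log B ≤ psi W ζ β := by
    intro ζ β hζ hβ
    exact neg_le_neg (Real.log_le_log (h.pos _ (cay_mem hζ hβ)) (h.le _))
  refine ⟨hpsi, fun ζ => (hpsi ζ).comp measurable_inv, hlow,
    fun ζ ω hζ hω => hlow ζ ω⁻¹ hζ (inv_re_pos hω), ?_, ?_, ?_⟩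
  · intro c r hr
    have hK : IsCompact ((fun p : ℂ × ℂ => cay p.1 p.2⁻¹) ''
        (sphere (0 : ℂ) 1 ×ˢ closedBall c r)) := by
      refine ((isCompact_sphere 0 1).prod (isCompact_closedBall c r)).image_of_continuousOn ?_
      unfold cay
      have h1 : ContinuousOn (fun p : ℂ × ℂ => p.2⁻¹) (sphere (0 : ℂ) 1 ×ˢ closedBall c r) :=
        continuous_snd.continuousOn.inv₀ fun p hp => bas_ne (bas_re hr hp.2)
      refine (continuous_fst.continuousOn.mul (continuousOn_const.sub h1)).div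
        (continuousOn_const.add h1) fun p hp => one_add_ne (inv_re_pos (bas_re hr hp.2))
    obtain ⟨M, hM, hb⟩ := bas_log h hK (by
      rintro _ ⟨p, hp, rfl⟩
      exact cay_mem (mem_sphere_zero_iff_norm.1 hp.1) (inv_re_pos (bas_re hr hp.2)))
    refine ⟨M, hM, fun ζ ω hζ hω => ?_⟩
    rw [Psi, psi, abs_neg]
    exact hb _ ⟨(ζ, ω), ⟨mem_sphere_zero_iff_norm.2 hζ, hω⟩, rfl⟩
  · intro c r hr
    have hK : IsCompact ((fun p : ℂ × ℂ => cay p.1 p.2) ''
        (sphere (0 : ℂ) 1 ×ˢ closedBall c r)) := by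
      refine ((isCompact_sphere 0 1).prod (isCompact_closedBall c r)).image_of_continuousOn ?_
      unfold cay
      refine (continuous_fst.continuousOn.mul (continuousOn_const.sub
        continuous_snd.continuousOn)).div
        (continuousOn_const.add continuous_snd.continuousOn) fun p hp =>
          one_add_ne (bas_re hr hp.2)
    obtain ⟨M, hM, hb⟩ := bas_log h hK (by
      rintro _ ⟨p, hp, rfl⟩
      exact cay_mem (mem_sphere_zero_iff_norm.1 hp.1) (bas_re hr hp.2))
    refine ⟨M, hM, fun ζ β hζ hβ => ?_⟩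
    rw [psi, abs_neg]
    exact hb _ ⟨(ζ, β), ⟨mem_sphere_zero_iff_norm.2 hζ, hβ⟩, rfl⟩
  · intro ζ β hζ hβ hβε
    have hm0 : 0 < min c₀ 1 := lt_min h.c0 one_pos
    have hm1 : min c₀ 1 ≤ 1 := min_le_right _ _
    have hm2 : min c₀ 1 ≤ c₀ := min_le_left _ _
    set β' : ℂ := ⟨min c₀ 1 * β.re, β.im⟩ with hβ'
    have hre : β'.re = min c₀ 1 * β.re := rfl
    have him : β'.im = β.im := rfl
    have hn : ‖β'‖ ≤ ‖β‖ := by
      have h1 : ‖β'‖ ^ 2 ≤ ‖β‖ ^ 2 := by
        rw [← Complex.normSq_eq_norm_sq, ← Complex.normSq_eq_norm_sq, Complex.normSq_apply,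
          Complex.normSq_apply, hre, him]
        have h2 : min c₀ 1 * β.re ≤ β.re := mul_le_of_le_one_left hβ.le hm1
        have h3 : 0 ≤ min c₀ 1 * β.re := by positivity
        nlinarith
      exact (pow_le_pow_iff_left₀ (norm_nonneg _) (norm_nonneg _) two_ne_zero).1 h1
    have h1 := h.gr ζ β β' hζ hβ (by rw [hre]; positivity) hβε (hn.trans_lt hβε)
      (by rw [hre]; exact mul_le_mul_of_nonneg_right hm2 hβ.le)
      (by
        rw [him, sub_self, abs_zero]
        have := h.c0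
        positivity)
    have h2 := h.nonneg (cay ζ β')
    linarith

end MP16b755
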