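import Pool.Agent.Lib.MP_16b755_an.Spec

/-!
# Monotonicity and comparison with the real axis
-/

set_option autoImplicit false

namespace MP16b755

open MeasureTheory Metric Set Filter Topology

private theorem cmp_le {W : ℂ → ℝ} {B C ε c₀ : ℝ} (h : Pot W B C ε c₀) {ζ ω ω' : ℂ}
    (hζ : ‖ζ‖ = 1) (hω : 0 < ω⁻¹.re) (hle : W (cay ζ ω⁻¹) ≤ W (cay ζ ω'⁻¹)) :
    Psi W ζ ω' ≤ Psi W ζ ω := by
  rw [Psi, Psi, psi, psi]
  exact neg_le_neg (Real.log_le_log (h.pos _ (cay_mem hζ hω)) hle)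

theorem tCmp : StmtCmp := by
  intro W B C ε c₀ h ζ hζ
  have hε := h.e0
  have hC := h.C1
  constructor
  · intro σ τ hσ hστ
    have hσ0 : 0 < σ := lt_trans (by positivity) hσ
    have hτ0 : 0 < τ := hσ0.trans_le hστ
    have hinv : ∀ x : ℝ, 1 / ε < x → x⁻¹ < ε := by
      intro x hx
      have hx0 : 0 < x := lt_trans (by positivity) hx
      rw [div_lt_iff₀ hε] at hx
      rw [inv_lt_iff_one_lt_mul₀ hx0]
      linarith
    refine cmp_le h hζ (by rw [← Complex.ofReal_inv, Complex.ofReal_re]; positivity) ?_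
    rw [← Complex.ofReal_inv, ← Complex.ofReal_inv]
    refine h.nm ζ _ _ hζ (by rw [Complex.ofReal_re]; positivity)
      (by rw [Complex.ofReal_re]; positivity) ?_ ?_ ?_
    · rw [Complex.norm_real, Real.norm_eq_abs, abs_of_pos (by positivity)]
      exact hinv τ (hσ.trans_le hστ)
    · rw [Complex.norm_real, Real.norm_eq_abs, abs_of_pos (by positivity)]
      exact hinv σ hσ
    · simp only [Complex.ofReal_re, Complex.ofReal_im, sub_self, abs_zero, mul_zero, zero_add,
        ne_eq, OfNat.ofNat_ne_zero, not_false_eq_true, zero_pow, add_zero]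
      exact inv_anti₀ hσ0 hστ
  · intro ω hω hn
    have hn0 : 0 < ‖ω‖ := lt_trans (by positivity) hn
    have hr0 : 0 < ω.re := lt_of_lt_of_le (by positivity) hω
    have hrn : ω.re ≤ ‖ω‖ := Complex.re_le_norm ω
    set b : ℂ := ω⁻¹ with hb
    have hbre : b.re = ω.re / ‖ω‖ ^ 2 := inv_re_eq ω
    have hbim : |b.im| ≤ 1 / ‖ω‖ := by
      rw [hb, inv_im_eq, abs_div, abs_neg, abs_of_pos (by positivity : 0 < ‖ω‖ ^ 2)]
      calc |ω.im| / ‖ω‖ ^ 2 ≤ ‖ω‖ / ‖ω‖ ^ 2 :=
            div_le_div_of_nonneg_right (Complex.abs_im_le_norm ω) (by positivity)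
        _ = 1 / ‖ω‖ := by field_simp
    have hb0 : 0 < b.re := by rw [hbre]; positivity
    have hsq : √b.re = √ω.re / ‖ω‖ := by
      rw [hbre, Real.sqrt_div hr0.le, Real.sqrt_sq hn0.le]
    have hC1 : C * √ω.re ≤ ω.re / 4 := by
      have h1 : 4 * C ≤ √ω.re := by
        rw [Real.le_sqrt' (by positivity)]
        nlinarith
      have h2 : √ω.re * √ω.re = ω.re := Real.mul_self_sqrt hr0.le
      have h3 : 0 ≤ √ω.re := Real.sqrt_nonneg _
      nlinarith
    have hC2 : C ≤ ω.re / 16 := by nlinarith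
    have t1 : C * (√b.re * |b.im|) ≤ b.re / 4 := by
      calc C * (√b.re * |b.im|) ≤ C * (√b.re * (1 / ‖ω‖)) := by gcongr
        _ = (C * √ω.re) / ‖ω‖ ^ 2 := by
            rw [hsq]
            field_simp
        _ ≤ (ω.re / 4) / ‖ω‖ ^ 2 := by gcongr
        _ = b.re / 4 := by
            rw [hbre]
            ring
    have t2 : C * b.im ^ 2 ≤ b.re / 16 := by
      calc C * b.im ^ 2 = C * |b.im| ^ 2 := by rw [sq_abs]
        _ ≤ C * (1 / ‖ω‖) ^ 2 := by gcongr
        _ = C / ‖ω‖ ^ 2 := by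
            field_simp
        _ ≤ (ω.re / 16) / ‖ω‖ ^ 2 := by gcongr
        _ = b.re / 16 := by
            rw [hbre]
            ring
    have hbn : ‖b‖ < ε / 2 := by
      rw [hb, norm_inv, inv_lt_iff_one_lt_mul₀ hn0]
      rw [div_lt_iff₀ hε] at hn
      linarith
    have hbren : b.re ≤ ‖b‖ := Complex.re_le_norm b
    have k1 : (((‖ω‖ ^ 2 / (2 * ω.re) : ℝ) : ℂ))⁻¹ = ((2 * b.re : ℝ) : ℂ) := by
      rw [← Complex.ofReal_inv, hbre]
      congr 1
      field_simp
    have k2 : (((4 * ‖ω‖ ^ 2 / ω.re : ℝ) : ℂ))⁻¹ = ((b.re / 4 : ℝ) : ℂ) := by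
      rw [← Complex.ofReal_inv, hbre]
      congr 1
      field_simp
    refine ⟨?_, ?_, ?_⟩
    · refine cmp_le h hζ hb0 ?_
      rw [k1]
      refine h.nm ζ b _ hζ hb0 (by rw [Complex.ofReal_re]; positivity) (by linarith) ?_ ?_
      · rw [Complex.norm_real, Real.norm_eq_abs, abs_of_pos (by positivity)]
        linarith
      · rw [Complex.ofReal_re, Complex.ofReal_im, zero_sub, abs_neg, neg_sq]
        have h0 : 0 < b.re := hb0
        rw [mul_add]
        linarith
    · refine cmp_le h hζ ?_ ?_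
      · rw [k2, Complex.ofReal_re]
        positivity
      rw [k2]
      refine h.nm ζ _ b hζ (by rw [Complex.ofReal_re]; positivity) hb0 ?_ (by linarith) ?_
      · rw [Complex.norm_real, Real.norm_eq_abs, abs_of_pos (by positivity)]
        linarith
      · rw [Complex.ofReal_re, Complex.ofReal_im, sub_zero]
        have h4 : √(b.re / 4) = √b.re / 2 := by
          rw [Real.sqrt_div hb0.le, show (4 : ℝ) = 2 ^ 2 by norm_num,
            Real.sqrt_sq (by norm_num : (0 : ℝ) ≤ 2)]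
        rw [h4, mul_add]
        have e1 : C * (√b.re / 2 * |b.im|) = C * (√b.re * |b.im|) / 2 := by ring
        rw [e1]
        linarith
    · rw [lt_div_iff₀ (by positivity), div_mul_eq_mul_div, one_mul, div_lt_iff₀ hε]
      rw [div_lt_iff₀ hε] at hn
      nlinarith

end MP16b755
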