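import Pool.Agent.Lib.MP_16b755_an.Spec

/-!
# The coefficients are holomorphic without zeros and the width is multiplied by them (Coc)
-/

set_option autoImplicit false

namespace MP16b755

open MeasureTheory Metric Set Filter Topology Pointwise

variable {n : ℕ}

lemma coc_two {Ω : Set (Sp n)} (hΩ : IsOpen Ω) {x : Sp n} (hx : x ∈ Ω) (i : Fin n) :
    ∃ v : ℂ, v ≠ x i ∧ upd x i v ∈ Ω := by
  have hc : Continuous fun w : ℂ => upd x i w := continuous_upd_right x i
  have h1 : ∀ᶠ v in 𝓝 (x i), upd x i v ∈ Ω := by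
    refine hc.continuousAt.eventually_mem (hΩ.mem_nhds ?_)
    rw [upd_self]
    exact hx
  have h2 : ∀ᶠ v in 𝓝[≠] (x i), upd x i v ∈ Ω := eventually_nhdsWithin_of_eventually_nhds h1
  obtain ⟨v, hv1, hv2⟩ := (h2.and self_mem_nhdsWithin).exists
  exact ⟨v, hv2, hv1⟩

lemma coc_near {Ω : Set (Sp n)} (hΩ : IsOpen Ω) {x : Sp n} (hx : x ∈ Ω) (k : Fin n) :
    ∀ᶠ w in 𝓝 (x k), upd x k w ∈ Ω := by
  have hc : Continuous fun w : ℂ => upd x k w := continuous_upd_right x k
  refine hc.continuousAt.eventually_mem (hΩ.mem_nhds ?_)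
  rw [upd_self]
  exact hx

lemma coc_diff {Ω : Set (Sp n)} (hΩ : IsOpen Ω) {φ : Sp n → Sp n} (hφ : DifferentiableOn ℂ φ Ω)
    {x : Sp n} (hx : x ∈ Ω) (k i : Fin n) :
    DifferentiableAt ℂ (fun w : ℂ => φ (upd x k w) i) (x k) := by
  have h1 : DifferentiableAt ℂ (fun w : ℂ => upd x k w) (x k) :=
    (differentiable_upd_right x k).differentiableAt
  have h2 : DifferentiableAt ℂ φ (upd x k (x k)) := by
    rw [upd_self]
    exact hφ.differentiableAt (hΩ.mem_nhds hx)
  have h3 : DifferentiableAt ℂ (fun w : ℂ => φ (upd x k w)) (x k) := h2.comp (x k) h1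
  exact (EuclideanSpace.proj i : Sp n →L[ℂ] ℂ).differentiableAt.comp (x k) h3

/-- **Coc.** -/
theorem tCoc : StmtCoc := by
  intro n Ω r k i φ m a b hD hik hF
  have key : ∀ w₀ ∈ ball (0 : ℂ) 1, DifferentiableAt ℂ (a i) w₀ ∧ a i w₀ ≠ 0 := by
    intro w₀ hw₀
    rw [mem_ball_zero_iff] at hw₀
    obtain ⟨x, hx, hxk⟩ := hD.exists_fib hw₀
    obtain ⟨v, hv, hx'⟩ := coc_two hD.op hx i
    have hx'k : upd x i v k = w₀ := by
      rw [upd_ne x i (Ne.symm hik), hxk]
    have hx'i : upd x i v i = v := upd_same x i v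
    have hvx : v - x i ≠ 0 := sub_ne_zero.2 hv
    constructor
    · have d1 := coc_diff hD.op hF.hol hx k i
      have d2 := coc_diff hD.op hF.hol hx' k i
      have n1 := coc_near hD.op hx k
      have n2 := coc_near hD.op hx' k
      rw [hxk] at d1 n1
      rw [hx'k] at d2 n2
      have d3 : DifferentiableAt ℂ
          (fun w : ℂ => (φ (upd (upd x i v) k w) i - φ (upd x k w) i) / (v - x i)) w₀ :=
        (d2.sub d1).div_const _
      refine d3.congr_of_eventuallyEq ?_
      filter_upwards [n1, n2] with w h1 h2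
      have e1 := hF.fib _ h1 i hik
      have e2 := hF.fib _ h2 i hik
      rw [upd_same, upd_ne x k hik] at e1
      rw [upd_same, upd_ne _ k hik, hx'i] at e2
      rw [e1, e2]
      field_simp
      ring
    · intro h0
      have hinj : φ (upd x i v) = φ x := by
        ext l
        by_cases hl : l = k
        · subst hl
          rw [hF.base _ hx', hF.base _ hx, hx'k, hxk]
        · rw [hF.fib _ hx' l hl, hF.fib _ hx l hl, hx'k, hxk]
          by_cases hli : l = i
          · subst hli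
            rw [h0, zero_mul, zero_mul]
          · rw [upd_ne x i hli]
      have := hF.bij.injOn hx' hx hinj
      apply hv
      rw [← hx'i, this]
  refine ⟨fun w hw => (key w hw).1.differentiableWithinAt, fun w hw => (key w hw).2, ?_⟩
  intro w hw
  have hS : {z : ℂ | ∃ y ∈ Ω, y k = m w ∧ y i = z} =
      b i w +ᵥ (a i w • {z : ℂ | ∃ x ∈ Ω, x k = w ∧ x i = z}) := by
    ext z
    rw [Set.mem_vadd_set]
    constructor
    · rintro ⟨y, hy, hyk, hyi⟩
      obtain ⟨x, hx, rfl⟩ := hF.bij.surjOn hy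
      rw [hF.base x hx] at hyk
      have hxw : x k = w := hF.inj (hD.coord_mem hx) hw hyk
      refine ⟨a i w * x i, ?_, ?_⟩
      · exact Set.smul_mem_smul_set ⟨x, hx, hxw, rfl⟩
      · rw [vadd_eq_add, ← hyi, hF.fib x hx i hik, hxw, add_comm]
    · rintro ⟨u, hu, rfl⟩
      obtain ⟨t, ⟨x, hx, hxk, hxi⟩, rfl⟩ := hu
      refine ⟨φ x, hF.bij.mapsTo hx, ?_, ?_⟩
      · rw [hF.base x hx, hxk]
      · rw [hF.fib x hx i hik, hxk, hxi, vadd_eq_add, add_comm]
        rfl
  rw [wd, wd, hS, diam_vadd, diam_smul₀]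

end MP16b755
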