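import Pool.Agent.Lib.MP_16b755_an.Spec

/-!
# MP_16b755_an: the statement Dec

Power decay of the widths at the limit point.
-/

set_option autoImplicit false

namespace MP16b755

open MeasureTheory Metric Set Filter Topology

/-- The Cayley transform is holomorphic on the half plane. -/
lemma dec_cay (b : ℂ) {η : ℝ} (hη : 0 < η) :
    DifferentiableOn ℂ (fun ω : ℂ => cay b (η * ω)) {ω | 0 < ω.re} := by
  have h : (fun ω : ℂ => cay b (η * ω)) = fun ω : ℂ => b * (1 - η * ω) / (1 + η * ω) := rfl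
  rw [h]
  apply DifferentiableOn.div
  · fun_prop
  · fun_prop
  · intro ω hω
    apply one_add_ne
    rw [Complex.re_ofReal_mul]
    exact mul_pos hη hω

theorem tDec (hWd : StmtWd) (hPNm : StmtPNm) (hPGr : StmtPGr) (hAut : StmtAut) (hCoc : StmtCoc)
    (hMob : StmtMob) (hKak : StmtKak) (hEdge : StmtEdge) (hHor : StmtHor) (hPow : StmtPow) :
    StmtDec := by
  intro n Ω r k i φ m a b q p hD hik hF hq hp hlim
  have hpk := hEdge n Ω r k φ m a b q p hD hF hq hp hlim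
  obtain ⟨hlsc, hpos, B, hB, hle⟩ := hWd n Ω r k i hD hik
  obtain ⟨C, ε₁, hC, hε₁, hε₁', hnm⟩ := hPNm n Ω r k i hD hik
  obtain ⟨c, ε₂, hc, hε₂, hε₂', hgr⟩ := hPGr n Ω r k i hD hik
  have hPot : Pot (wd Ω k i) B C (min ε₁ ε₂) c :=
    { B0 := hB
      C1 := hC
      e0 := lt_min hε₁ hε₂
      e1 := (min_le_left _ _).trans_lt hε₁'
      c0 := hc
      lsc := hlsc
      nonneg := wd_nonneg Ω k i
      pos := hpos
      le := hle
      nm := fun ζ β β' h1 h2 h3 h4 h5 h6 => hnm ζ β β' h1 h2 h3 (h4.trans_le (min_le_left _ _))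
        (h5.trans_le (min_le_left _ _)) h6
      gr := fun ζ β β' h1 h2 h3 h4 h5 h6 h7 => hgr ζ β β' h1 h2 h3
        (h4.trans_le (min_le_right _ _)) (h5.trans_le (min_le_right _ _)) h6 h7 }
  have hM : ∀ j, ∃ e α : ℂ, ‖e‖ = 1 ∧ ‖α‖ < 1 ∧ ∀ w ∈ ball (0 : ℂ) 1,
      m j w = e * (w - α) / (1 - starRingEnd ℂ α * w) := by
    intro j
    obtain ⟨m', h1, h2, h3, h4, h5, h6⟩ := hAut n Ω r k (φ j) (m j) (a j) (b j) hD (hF j)
    exact hMob (m j) m' h1 h2 h3 h4 h5 h6
  choose e α he hα hform using hM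
  have hml : Tendsto (fun j => m j (q k)) atTop (𝓝 (p k)) := by
    have h1 : Continuous fun x : Sp n => x k := by fun_prop
    have h2 : Tendsto (fun j => φ j q k) atTop (𝓝 (p k)) := (h1.tendsto p).comp hlim
    have h3 : (fun j => m j (q k)) = fun j => φ j q k := by
      funext j
      exact ((hF j).base q hq).symm
    rw [h3]
    exact h2
  obtain ⟨J, b', η, ps, hb', hη, hη0, hps, hpsl, hid⟩ :=
    hKak m e α (q k) (p k) he hα hform (hD.norm_lt hq) hpk hml
  have hmem : ∀ (j : ℕ) (ω : ℂ), 0 < ω.re → cay (b' j) (η j * ω) ∈ ball (0 : ℂ) 1 := by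
    intro j ω hω
    apply cay_mem (hb' j)
    rw [Complex.re_ofReal_mul]
    exact mul_pos (hη j) hω
  have hinv := hHor (wd Ω k i) B C _ c hPot b' η ps (p k)
    (fun j ω => a (J j) i (cay (b' j) (η j * ω))) hb' hη hη0 hps hpk hpsl
    (fun j => by
      obtain ⟨h1, -, -⟩ := hCoc n Ω r k i (φ (J j)) (m (J j)) (a (J j)) (b (J j)) hD hik (hF (J j))
      exact h1.comp (dec_cay (b' j) (hη j)) (fun ω hω => hmem j ω hω))
    (fun j ω hω => by
      obtain ⟨-, h1, -⟩ := hCoc n Ω r k i (φ (J j)) (m (J j)) (a (J j)) (b (J j)) hD hik (hF (J j))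
      exact h1 _ (hmem j ω hω))
    (fun j ω hω => by
      obtain ⟨-, -, h1⟩ := hCoc n Ω r k i (φ (J j)) (m (J j)) (a (J j)) (b (J j)) hD hik (hF (J j))
      rw [← hid j ω hω]
      exact h1 _ (hmem j ω hω))
  exact hPow (wd Ω k i) B C _ c hPot (p k) hpk hinv

end MP16b755
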