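import Mathlib

/-!
# Fibred automorphisms of smoothly bounded domains: definitions and basic lemmas

Definitions for the package `Spec.lean` and elementary lemmas about them: the replacement of a coordinate
(`upd`), the width of the fibres (`wd`), the Cayley transform (`cay`), the potentials `psi`, `Psi`, the mean
value over a disc (`av`), the property `Pot` of a width function and the structures `Dom` and `Fib`.
-/

set_option autoImplicit false

namespace MP16b755

open MeasureTheory Metric Set Filter Topology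

/-- The space. -/
abbrev Sp (n : ℕ) := EuclideanSpace ℂ (Fin n)

/-- `x` with its coordinate `k` replaced by `w`. -/
noncomputable def upd {n : ℕ} (x : Sp n) (k : Fin n) (w : ℂ) : Sp n :=
  x + EuclideanSpace.single k (w - x k)

/-- The width in the direction `i` of the fibre of `Ω` over `w` (for the projection `x ↦ x k`). -/
noncomputable def wd {n : ℕ} (Ω : Set (Sp n)) (k i : Fin n) (w : ℂ) : ℝ :=
  Metric.diam {z : ℂ | ∃ x ∈ Ω, x k = w ∧ x i = z}

/-- The Cayley transform; for `‖ζ‖ = 1` it maps the right half plane onto the unit disc and `0` to `ζ`. -/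
noncomputable def cay (ζ β : ℂ) : ℂ := ζ * (1 - β) / (1 + β)

/-- The logarithmic width in the half plane coordinate at `ζ`. -/
noncomputable def psi (W : ℂ → ℝ) (ζ β : ℂ) : ℝ := -Real.log (W (cay ζ β))

/-- The logarithmic width in the half plane coordinate in which `ζ` is at infinity. -/
noncomputable def Psi (W : ℂ → ℝ) (ζ ω : ℂ) : ℝ := psi W ζ ω⁻¹

/-- The mean value of `g` over the disc with centre `c` and radius `r`. -/
noncomputable def av (g : ℂ → ℝ) (c : ℂ) (r : ℝ) : ℝ := (Real.pi * r ^ 2)⁻¹ * ∫ ω in ball c r, g ω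

/-- The properties of the width function of a smoothly bounded domain which are used in the potential
theoretic part: `nm` (going towards the centre of the disc, faster than the tangential motion, does not
decrease the width) and `gr` (a gain of width when one goes far towards the centre). -/
structure Pot (W : ℂ → ℝ) (B C ε c : ℝ) : Prop where
  B0 : 0 < B
  C1 : 1 ≤ C
  e0 : 0 < ε
  e1 : ε < 1
  c0 : 0 < c
  lsc : LowerSemicontinuous W
  nonneg : ∀ z, 0 ≤ W z
  pos : ∀ z ∈ ball (0 : ℂ) 1, 0 < W z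
  le : ∀ z, W z ≤ B
  nm : ∀ ζ β β' : ℂ, ‖ζ‖ = 1 → 0 < β.re → 0 < β'.re → ‖β‖ < ε → ‖β'‖ < ε →
    β.re + C * (√β.re * |β'.im - β.im| + (β'.im - β.im) ^ 2) ≤ β'.re →
    W (cay ζ β) ≤ W (cay ζ β')
  gr : ∀ ζ β β' : ℂ, ‖ζ‖ = 1 → 0 < β.re → 0 < β'.re → ‖β‖ < ε → ‖β'‖ < ε →
    β'.re ≤ c * β.re → |β'.im - β.im| ≤ c * √β.re →
    W (cay ζ β') + c * √β.re ≤ W (cay ζ β)

/-- All mean values over discs in the half plane `s₀ < Re` with the same centre agree. -/
def MVall (g : ℂ → ℝ) (s₀ : ℝ) : Prop :=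
  ∀ (c : ℂ) (r r' : ℝ), 0 < r → 0 < r' → s₀ + r < c.re → s₀ + r' < c.re → av g c r = av g c r'

/-- The harmonic measure of the segment `[s - iY, s + iY]` in the half plane `s < Re`. -/
noncomputable def thet (s Y : ℝ) (ω : ℂ) : ℝ :=
  (Complex.log (ω - s + Y * Complex.I) - Complex.log (ω - s - Y * Complex.I)).im / Real.pi

/-- A smoothly bounded domain whose projection to the coordinate `k` is the unit disc. -/
structure Dom {n : ℕ} (Ω : Set (Sp n)) (r : Sp n → ℝ) (k : Fin n) : Prop where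
  op : IsOpen Ω
  conn : IsConnected Ω
  bdd : Bornology.IsBounded Ω
  smooth : ContDiff ℝ ((⊤ : ℕ∞) : WithTop ℕ∞) r
  eq : Ω = {x | r x < 0}
  reg : ∀ x ∈ frontier Ω, fderiv ℝ r x ≠ 0
  img : (fun x : Sp n => x k) '' Ω = ball (0 : ℂ) 1

/-- An automorphism `φ` of `Ω` which is fibred over the map `m` of the disc and diagonal affine on the
fibres. -/
structure Fib {n : ℕ} (Ω : Set (Sp n)) (k : Fin n) (φ : Sp n → Sp n) (m : ℂ → ℂ)
    (a b : Fin n → ℂ → ℂ) : Prop where
  hol : DifferentiableOn ℂ φ Ω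
  bij : BijOn φ Ω Ω
  inv : ∃ ψ : Sp n → Sp n, DifferentiableOn ℂ ψ Ω ∧ MapsTo ψ Ω Ω ∧ LeftInvOn ψ φ Ω ∧
    RightInvOn ψ φ Ω
  inj : InjOn m (ball (0 : ℂ) 1)
  base : ∀ x ∈ Ω, φ x k = m (x k)
  fib : ∀ x ∈ Ω, ∀ i, i ≠ k → φ x i = a i (x k) * x i + b i (x k)

/-! ## Lemmas about `upd` -/

section Upd

variable {n : ℕ} (x : Sp n) (k : Fin n)

lemma upd_same (w : ℂ) : upd x k w k = w := by
  simp [upd]

lemma upd_ne {i : Fin n} (h : i ≠ k) (w : ℂ) : upd x k w i = x i := by
  simp [upd, h]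

lemma upd_self : upd x k (x k) = x := by
  simp [upd]

lemma norm_upd_sub (w : ℂ) : ‖upd x k w - x‖ = ‖w - x k‖ := by
  simp [upd]

lemma upd_sub_upd (w w' : ℂ) : upd x k w - upd x k w' = EuclideanSpace.single k (w - w') := by
  ext i
  by_cases h : i = k
  · subst h
    simp [upd]
  · simp [upd, h]

lemma norm_upd_sub_upd (w w' : ℂ) : ‖upd x k w - upd x k w'‖ = ‖w - w'‖ := by
  rw [upd_sub_upd]
  simp

lemma norm_upd_sub_upd' (x y : Sp n) (w : ℂ) : ‖upd x k w - upd y k w‖ ≤ ‖x - y‖ := by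
  rw [EuclideanSpace.norm_eq, EuclideanSpace.norm_eq]
  refine Real.sqrt_le_sqrt (Finset.sum_le_sum fun i _ => ?_)
  by_cases h : i = k
  · subst h
    have : (upd x i w - upd y i w) i = 0 := by
      simp [upd]
    rw [this]
    simp
  · have : (upd x k w - upd y k w) i = (x - y) i := by
      simp [upd, h]
    rw [this]

lemma continuous_upd : Continuous fun p : Sp n × ℂ => upd p.1 k p.2 := by
  have h : (fun p : Sp n × ℂ => upd p.1 k p.2) =
      fun p : Sp n × ℂ => p.1 + EuclideanSpace.single k (p.2 - p.1 k) := rfl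
  rw [h]
  have h2 : Continuous fun z : ℂ => (EuclideanSpace.single k z : Sp n) := by
    have : Isometry fun z : ℂ => (EuclideanSpace.single k z : Sp n) := by
      refine Isometry.of_dist_eq fun a b => ?_
      rw [dist_eq_norm, dist_eq_norm, ← PiLp.single_sub]
      simp
    exact this.continuous
  exact continuous_fst.add (h2.comp (continuous_snd.sub (by fun_prop)))

lemma continuous_upd_right : Continuous fun w : ℂ => upd x k w :=
  (continuous_upd k).comp (by fun_prop : Continuous fun w : ℂ => (x, w))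

lemma single_eq_smul (z : ℂ) : (EuclideanSpace.single k z : Sp n) = z • EuclideanSpace.single k 1 := by
  ext i
  by_cases h : i = k
  · subst h
    simp
  · simp [h]

lemma differentiable_upd_right : Differentiable ℂ fun w : ℂ => upd x k w := by
  have h : (fun w : ℂ => upd x k w) = fun w : ℂ => x + (w - x k) • EuclideanSpace.single k (1 : ℂ) := by
    funext w
    rw [upd, single_eq_smul]
  rw [h]
  fun_prop

end Upd

/-! ## Lemmas about `cay` -/

section Cay

lemma one_add_ne {β : ℂ} (h : 0 < β.re) : 1 + β ≠ 0 := by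
  intro h0
  have := congrArg Complex.re h0
  simp at this
  linarith

lemma one_le_norm_one_add {β : ℂ} (h : 0 < β.re) : 1 ≤ ‖1 + β‖ := by
  have := Complex.re_le_norm (1 + β)
  simp at this
  linarith

lemma norm_cay {ζ : ℂ} (hζ : ‖ζ‖ = 1) (β : ℂ) : ‖cay ζ β‖ = ‖1 - β‖ / ‖1 + β‖ := by
  rw [cay, norm_div, norm_mul, hζ, one_mul]

/-- `1 - |cay ζ β|² = 4 Re β / |1 + β|²`. -/
lemma cay_del {ζ β : ℂ} (hζ : ‖ζ‖ = 1) (h : 0 < β.re) :
    1 - ‖cay ζ β‖ ^ 2 = 4 * β.re / ‖1 + β‖ ^ 2 := by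
  have h1 : 0 < ‖1 + β‖ := lt_of_lt_of_le one_pos (one_le_norm_one_add h)
  rw [norm_cay hζ, div_pow, eq_div_iff (by positivity), sub_mul, div_mul_cancel₀ _ (by positivity),
    one_mul, ← Complex.normSq_eq_norm_sq, ← Complex.normSq_eq_norm_sq, Complex.normSq_apply,
    Complex.normSq_apply]
  simp
  ring

lemma cay_mem {ζ β : ℂ} (hζ : ‖ζ‖ = 1) (h : 0 < β.re) : cay ζ β ∈ ball (0 : ℂ) 1 := by
  have h1 : 0 < ‖1 + β‖ := lt_of_lt_of_le one_pos (one_le_norm_one_add h)
  have h2 := cay_del hζ h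
  have h3 : 0 < 4 * β.re / ‖1 + β‖ ^ 2 := by positivity
  rw [mem_ball_zero_iff]
  nlinarith [norm_nonneg (cay ζ β)]

lemma cay_sub {ζ β β' : ℂ} (h : 0 < β.re) (h' : 0 < β'.re) :
    cay ζ β' - cay ζ β = 2 * ζ * (β - β') / ((1 + β) * (1 + β')) := by
  have h1 := one_add_ne h
  have h2 := one_add_ne h'
  rw [cay, cay]
  field_simp
  ring

lemma norm_cay_sub {ζ β β' : ℂ} (hζ : ‖ζ‖ = 1) (h : 0 < β.re) (h' : 0 < β'.re) :
    ‖cay ζ β' - cay ζ β‖ = 2 * ‖β - β'‖ / (‖1 + β‖ * ‖1 + β'‖) := by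
  rw [cay_sub h h', norm_div, norm_mul, norm_mul, norm_mul, hζ]
  norm_num

lemma inv_re_pos {ω : ℂ} (h : 0 < ω.re) : 0 < ω⁻¹.re := by
  rw [Complex.inv_re]
  have : 0 < Complex.normSq ω := by
    rw [Complex.normSq_pos]
    rintro rfl
    simp at h
  positivity

lemma inv_re_eq (ω : ℂ) : ω⁻¹.re = ω.re / ‖ω‖ ^ 2 := by
  rw [Complex.inv_re, Complex.normSq_eq_norm_sq]

lemma inv_im_eq (ω : ℂ) : ω⁻¹.im = -ω.im / ‖ω‖ ^ 2 := by
  rw [Complex.inv_im, Complex.normSq_eq_norm_sq]

end Cay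

/-! ## Lemmas about `av` -/

section Av

lemma av_def (g : ℂ → ℝ) (c : ℂ) (r : ℝ) :
    av g c r = (Real.pi * r ^ 2)⁻¹ * ∫ ω in ball c r, g ω := rfl

lemma volume_ball_real (c : ℂ) {r : ℝ} (hr : 0 ≤ r) : (volume (ball c r)).toReal = Real.pi * r ^ 2 := by
  rw [Complex.volume_ball]
  simp [hr, mul_comm]

lemma av_const (a : ℝ) (c : ℂ) {r : ℝ} (hr : 0 < r) : av (fun _ => a) c r = a := by
  rw [av, setIntegral_const, Measure.real, volume_ball_real c hr.le, smul_eq_mul, ← mul_assoc,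
    inv_mul_cancel₀ (by positivity), one_mul]

lemma av_congr {g g' : ℂ → ℝ} {c : ℂ} {r : ℝ} (h : ∀ ω ∈ ball c r, g ω = g' ω) :
    av g c r = av g' c r := by
  rw [av, av, setIntegral_congr_fun measurableSet_ball h]

lemma av_add {g g' : ℂ → ℝ} {c : ℂ} {r : ℝ} (h : IntegrableOn g (ball c r))
    (h' : IntegrableOn g' (ball c r)) : av (fun ω => g ω + g' ω) c r = av g c r + av g' c r := by
  rw [av, av, av, integral_add h h', mul_add]

lemma av_sub {g g' : ℂ → ℝ} {c : ℂ} {r : ℝ} (h : IntegrableOn g (ball c r))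
    (h' : IntegrableOn g' (ball c r)) : av (fun ω => g ω - g' ω) c r = av g c r - av g' c r := by
  rw [av, av, av, integral_sub h h', mul_sub]

lemma av_const_mul (a : ℝ) (g : ℂ → ℝ) (c : ℂ) (r : ℝ) : av (fun ω => a * g ω) c r = a * av g c r := by
  rw [av, av, integral_const_mul]
  ring

/-- Monotonicity. -/
lemma av_mono {g g' : ℂ → ℝ} {c : ℂ} {r : ℝ} (h : IntegrableOn g (ball c r))
    (h' : IntegrableOn g' (ball c r)) (hle : ∀ ω ∈ ball c r, g ω ≤ g' ω) : av g c r ≤ av g' c r := by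
  rw [av, av]
  exact mul_le_mul_of_nonneg_left (setIntegral_mono_on h h' measurableSet_ball hle) (by positivity)

/-- Translation. -/
lemma av_translate (g : ℂ → ℝ) (c v : ℂ) (r : ℝ) : av g (c + v) r = av (fun ω => g (ω + v)) c r := by
  have h := (measurePreserving_add_right (volume : Measure ℂ) v).setIntegral_preimage_emb
    (measurableEmbedding_addRight v) g (ball (c + v) r)
  have h2 : (fun x : ℂ => x + v) ⁻¹' ball (c + v) r = ball c r := by
    ext x
    simp
  rw [h2] at h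
  rw [av, av, ← h]

/-- A bounded measurable function is integrable on a disc. -/
lemma intOn {g : ℂ → ℝ} (hg : Measurable g) {c : ℂ} {r M : ℝ} (h : ∀ ω ∈ ball c r, |g ω| ≤ M) :
    IntegrableOn g (ball c r) := by
  refine Measure.integrableOn_of_bounded (M := M) measure_ball_lt_top.ne
    hg.aestronglyMeasurable ?_
  rw [ae_restrict_iff' measurableSet_ball]
  exact Filter.Eventually.of_forall fun ω hω => by
    rw [Real.norm_eq_abs]
    exact h ω hω

/-- A function continuous on the closed disc is integrable on the disc. -/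
lemma intOn_of_cont {g : ℂ → ℝ} {c : ℂ} {r : ℝ} (h : ContinuousOn g (closedBall c r)) :
    IntegrableOn g (ball c r) :=
  (h.integrableOn_compact (isCompact_closedBall c r)).mono_set ball_subset_closedBall

lemma intOn_const (a : ℝ) (c : ℂ) (r : ℝ) : IntegrableOn (fun _ : ℂ => a) (ball c r) :=
  integrableOn_const measure_ball_lt_top.ne

lemma av_le {g : ℂ → ℝ} {c : ℂ} {r M : ℝ} (hr : 0 < r) (h : IntegrableOn g (ball c r))
    (hle : ∀ ω ∈ ball c r, g ω ≤ M) : av g c r ≤ M := by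
  have := av_mono h (intOn_const M c r) hle
  rwa [av_const M c hr] at this

lemma le_av {g : ℂ → ℝ} {c : ℂ} {r M : ℝ} (hr : 0 < r) (h : IntegrableOn g (ball c r))
    (hle : ∀ ω ∈ ball c r, M ≤ g ω) : M ≤ av g c r := by
  have := av_mono (intOn_const M c r) h hle
  rwa [av_const M c hr] at this

/-- Comparison of the mean values over two discs of the same radius. -/
lemma av_add_le {g : ℂ → ℝ} {c c' : ℂ} {r κ : ℝ} (hr : 0 < r) (h : IntegrableOn g (ball c r))
    (h' : IntegrableOn g (ball c' r))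
    (hle : ∀ v : ℂ, ‖v‖ < r → g (c + v) + κ ≤ g (c' + v)) : av g c r + κ ≤ av g c' r := by
  have hc : c' = c + (c' - c) := by ring
  have hI : IntegrableOn (fun ω => g (ω + (c' - c))) (ball c r) := by
    have h2 : (fun x : ℂ => x + (c' - c)) ⁻¹' ball c' r = ball c r := by
      ext x
      simp only [mem_preimage, mem_ball, dist_eq_norm]
      rw [show x + (c' - c) - c' = x - c by ring]
    have := ((measurePreserving_add_right (volume : Measure ℂ) (c' - c)).integrableOn_comp_preimage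
      (measurableEmbedding_addRight (c' - c)) (f := g) (s := ball c' r)).2 h'
    rw [h2] at this
    exact this
  have h1 : av g c' r = av (fun ω => g (ω + (c' - c))) c r := by
    conv_lhs => rw [hc]
    exact av_translate g c (c' - c) r
  have h3 : av g c r + κ = av (fun ω => g ω + κ) c r := by
    rw [av_add h (intOn_const κ c r), av_const κ c hr]
  rw [h1, h3]
  refine av_mono (h.add (intOn_const κ c r)) hI fun ω hω => ?_
  have := hle (ω - c) (by simpa [dist_eq_norm] using hω)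
  have e1 : c + (ω - c) = ω := by ring
  have e2 : c' + (ω - c) = ω + (c' - c) := by ring
  rwa [e1, e2] at this

end Av

/-! ## Lemmas about `wd` and `Dom` -/

section Dom

variable {n : ℕ} {Ω : Set (Sp n)} {r : Sp n → ℝ} {k : Fin n}

lemma wd_nonneg (Ω : Set (Sp n)) (k i : Fin n) (w : ℂ) : 0 ≤ wd Ω k i w := Metric.diam_nonneg

lemma wd_bdd (h : Bornology.IsBounded Ω) (k i : Fin n) (w : ℂ) :
    Bornology.IsBounded {z : ℂ | ∃ x ∈ Ω, x k = w ∧ x i = z} := by
  obtain ⟨R, hR⟩ := h.exists_norm_le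
  refine (isBounded_iff_forall_norm_le).2 ⟨R, ?_⟩
  rintro z ⟨x, hx, -, rfl⟩
  exact (PiLp.norm_apply_le x i).trans (hR x hx)

lemma dist_le_wd (h : Bornology.IsBounded Ω) {k i : Fin n} {w : ℂ} {x y : Sp n} (hx : x ∈ Ω)
    (hy : y ∈ Ω) (hxk : x k = w) (hyk : y k = w) : ‖x i - y i‖ ≤ wd Ω k i w := by
  rw [← dist_eq_norm]
  exact Metric.dist_le_diam_of_mem (wd_bdd h k i w) ⟨x, hx, hxk, rfl⟩ ⟨y, hy, hyk, rfl⟩

lemma Dom.mem_iff (h : Dom Ω r k) (x : Sp n) : x ∈ Ω ↔ r x < 0 := by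
  conv_lhs => rw [h.eq]
  rfl

lemma Dom.coord_mem (h : Dom Ω r k) {x : Sp n} (hx : x ∈ Ω) : x k ∈ ball (0 : ℂ) 1 := by
  rw [← h.img]
  exact ⟨x, hx, rfl⟩

lemma Dom.norm_lt (h : Dom Ω r k) {x : Sp n} (hx : x ∈ Ω) : ‖x k‖ < 1 := by
  have := h.coord_mem hx
  rwa [mem_ball_zero_iff] at this

lemma Dom.exists_fib (h : Dom Ω r k) {w : ℂ} (hw : ‖w‖ < 1) : ∃ x ∈ Ω, x k = w := by
  have : w ∈ (fun x : Sp n => x k) '' Ω := by
    rw [h.img]
    rwa [mem_ball_zero_iff]
  obtain ⟨x, hx, hxw⟩ := this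
  exact ⟨x, hx, hxw⟩

/-- Outside the open cylinder over the disc `r` is nonnegative. -/
lemma Dom.nonneg_of (h : Dom Ω r k) {x : Sp n} (hx : 1 ≤ ‖x k‖) : 0 ≤ r x := by
  by_contra hc
  push Not at hc
  exact absurd (h.norm_lt ((h.mem_iff x).2 hc)) (not_lt.2 hx)

lemma Dom.closure_le (h : Dom Ω r k) {x : Sp n} (hx : x ∈ closure Ω) : r x ≤ 0 ∧ ‖x k‖ ≤ 1 := by
  have hc : IsClosed ({x : Sp n | r x ≤ 0} ∩ {x : Sp n | ‖x k‖ ≤ 1}) :=
    (isClosed_le h.smooth.continuous continuous_const).inter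
      (isClosed_le (by fun_prop : Continuous fun x : Sp n => ‖x k‖) continuous_const)
  have hs : Ω ⊆ {x : Sp n | r x ≤ 0} ∩ {x : Sp n | ‖x k‖ ≤ 1} :=
    fun y hy => ⟨((h.mem_iff y).1 hy).le, (h.norm_lt hy).le⟩
  exact closure_minimal hs hc hx

lemma Dom.frontier_eq (h : Dom Ω r k) {x : Sp n} (hx : x ∈ frontier Ω) : r x = 0 := by
  have h1 := (h.closure_le (frontier_subset_closure hx)).1
  have h2 : x ∉ Ω := by
    rw [h.op.frontier_eq] at hx
    exact hx.2
  rw [h.mem_iff, not_lt] at h2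
  exact le_antisymm h1 h2

/-- A point of the closure of `Ω` over the unit circle is a boundary point. -/
lemma Dom.mem_frontier (h : Dom Ω r k) {x : Sp n} (hx : x ∈ closure Ω) (h1 : ‖x k‖ = 1) :
    x ∈ frontier Ω := by
  rw [h.op.frontier_eq]
  exact ⟨hx, fun hc => absurd (h.norm_lt hc) (by rw [h1]; exact lt_irrefl _)⟩

end Dom

end MP16b755
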