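import Pool.Agent.Lib.MP_16b755_an.Spec

set_option autoImplicit false

namespace MP16b755

open MeasureTheory Metric Set Filter Topology

theorem tEdge (hWd : StmtWd) (hAut : StmtAut) (hCoc : StmtCoc) : StmtEdge := by
  intro n Ω r k φ m a b q p hD hF hq hp hlim
  have hcl := hD.closure_le (frontier_subset_closure hp)
  by_contra hne
  have hlt : ‖p k‖ < 1 := lt_of_le_of_ne hcl.2 hne
  have hpn : p ∉ Ω := by
    rw [hD.op.frontier_eq] at hp
    exact hp.2
  apply hpn
  set d := 1 - ‖p k‖ with hd'
  have hd : 0 < d := by linarith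
  choose m' hm hm' hmm hmm' hl hrr using
    fun j => hAut n Ω r k (φ j) (m j) (a j) (b j) hD (hF j)
  obtain ⟨R, hR⟩ := hD.bdd.exists_norm_le
  have hR0 : 0 ≤ R := (norm_nonneg q).trans (hR q hq)
  obtain ⟨ρ', hρ', hball'⟩ := Metric.isOpen_iff.1 hD.op q hq
  set ρ := ρ' / 2 with hρdef
  have hρ : 0 < ρ := by positivity
  have hball : ball q (2 * ρ) ⊆ Ω := by
    rw [hρdef, show 2 * (ρ' / 2) = ρ' by ring]
    exact hball'
  have hv : Tendsto (fun j => ‖p k - φ j q k‖) atTop (𝓝 0) := by
    have h1 : Tendsto (fun j => ‖p - φ j q‖) atTop (𝓝 0) := by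
      have := (tendsto_const_nhds (x := p)).sub hlim
      rw [sub_self] at this
      simpa using this.norm
    refine squeeze_zero (fun j => norm_nonneg _) (fun j => ?_) h1
    have := PiLp.norm_apply_le (p - φ j q) k
    simpa using this
  have hbase : ∀ j, φ j q k = m j (q k) := fun j => (hF j).base q hq
  have hφq : ∀ j, φ j q ∈ Ω := fun j => (hF j).bij.mapsTo hq
  have hpk : p k ∈ ball (0 : ℂ) 1 := by rwa [mem_ball_zero_iff]
  have hqk := hD.coord_mem hq
  -- the preimages
  set u : ℕ → ℂ := fun j => m' j (p k) with hu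
  have hmu : ∀ j, m j (u j) = p k := fun j => hrr j (p k) hpk
  have hub : ∀ j, u j ∈ ball (0 : ℂ) 1 := fun j => hmm' j hpk
  have key1 : ∀ j, ‖p k - φ j q k‖ < d / 4 → ‖u j - q k‖ ≤ 8 / d * ‖p k - φ j q k‖ := by
    intro j hj
    have hsub : ball (φ j q k) (d / 4) ⊆ ball (0 : ℂ) 1 := by
      intro z hz
      rw [mem_ball, dist_eq_norm] at hz
      rw [mem_ball_zero_iff]
      have h1 : ‖z‖ ≤ ‖z - φ j q k‖ + ‖φ j q k - p k‖ + ‖p k‖ := by
        have h2 : z = (z - φ j q k) + (φ j q k - p k) + p k := by ring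
        calc ‖z‖ = ‖(z - φ j q k) + (φ j q k - p k) + p k‖ := by rw [← h2]
          _ ≤ _ := norm_add₃_le
      rw [norm_sub_rev (φ j q k)] at h1
      linarith
    have h3 := Complex.dist_le_div_mul_dist_of_mapsTo_ball (f := m' j) (c := φ j q k)
      (R₁ := d / 4) (R₂ := 2) (z := p k) ((hm' j).mono hsub) ?_ ?_
    · have h4 : m' j (φ j q k) = q k := by
        rw [hbase j]
        exact hl j (q k) hqk
      rw [h4, dist_eq_norm, dist_eq_norm] at h3
      have h5 : 2 / (d / 4) = 8 / d := by
        field_simp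
        norm_num
      rwa [h5] at h3
    · intro z hz
      have h6 := hmm' j (hsub hz)
      have h7 := hmm' j (hD.coord_mem (hφq j))
      rw [mem_ball_zero_iff] at h6 h7
      rw [mem_closedBall, dist_eq_norm]
      linarith [norm_sub_le (m' j z) (m' j (φ j q k))]
    · rw [mem_ball, dist_eq_norm]
      exact hj
  have hev1 : ∀ᶠ j in atTop, ‖p k - φ j q k‖ < d / 4 :=
    hv.eventually (gt_mem_nhds (by positivity))
  have hulim : Tendsto (fun j => ‖u j - q k‖) atTop (𝓝 0) := by
    have h1 : Tendsto (fun j => 8 / d * ‖p k - φ j q k‖) atTop (𝓝 0) := by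
      have := hv.const_mul (8 / d)
      simpa using this
    exact squeeze_zero' (Filter.Eventually.of_forall fun j => norm_nonneg _)
      (hev1.mono fun j hj => key1 j hj) h1
  -- the sections
  set x : ℕ → Sp n := fun j => upd q k (u j) with hx
  have hsec : ∀ w : ℂ, ‖w - q k‖ < ρ → upd q k w ∈ Ω := by
    intro w hw
    apply hball
    rw [mem_ball, dist_eq_norm, norm_upd_sub]
    linarith
  have key2 : ∀ j, ‖u j - q k‖ < ρ → ‖φ j (x j) - φ j q‖ ≤ 2 * R / ρ * ‖u j - q k‖ := by
    intro j hj
    have h1 := Complex.dist_le_div_mul_dist_of_mapsTo_ball (f := fun w => φ j (upd q k w))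
      (c := q k) (R₁ := ρ) (R₂ := 2 * R) (z := u j) ?_ ?_ ?_
    · simp only at h1
      rw [upd_self, dist_eq_norm, dist_eq_norm] at h1
      exact h1
    · intro w hw
      rw [mem_ball, dist_eq_norm] at hw
      have h2 := ((hF j).hol _ (hsec w hw)).differentiableAt (hD.op.mem_nhds (hsec w hw))
      exact (h2.comp w (differentiable_upd_right q k w)).differentiableWithinAt
    · intro w hw
      rw [mem_ball, dist_eq_norm] at hw
      rw [mem_closedBall, dist_eq_norm]
      have h3 := hR _ ((hF j).bij.mapsTo (hsec w hw))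
      have h4 := hR _ ((hF j).bij.mapsTo (hsec (q k) (by simpa using hρ)))
      linarith [norm_sub_le (φ j (upd q k w)) (φ j (upd q k (q k)))]
    · rw [mem_ball, dist_eq_norm]
      exact hj
  have hev2 : ∀ᶠ j in atTop, ‖u j - q k‖ < ρ := hulim.eventually (gt_mem_nhds hρ)
  have hφx : Tendsto (fun j => ‖p - φ j (x j)‖) atTop (𝓝 0) := by
    have h1 : Tendsto (fun j => ‖p - φ j q‖) atTop (𝓝 0) := by
      have := (tendsto_const_nhds (x := p)).sub hlim
      rw [sub_self] at this
      simpa using this.norm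
    have h2 : Tendsto (fun j => ‖p - φ j q‖ + 2 * R / ρ * ‖u j - q k‖) atTop (𝓝 0) := by
      have := h1.add (hulim.const_mul (2 * R / ρ))
      simpa using this
    refine squeeze_zero' (Filter.Eventually.of_forall fun j => norm_nonneg _)
      (hev2.mono fun j hj => ?_) h2
    have h3 := key2 j hj
    have h4 : p - φ j (x j) = (p - φ j q) - (φ j (x j) - φ j q) := by abel
    rw [h4]
    exact (norm_sub_le _ _).trans (by linarith)
  -- the corrections in the fibre directions
  have hcoef : ∀ i, i ≠ k → ∃ c : ℝ, 0 < c ∧ ∀ j, a j i (u j) ≠ 0 ∧ c ≤ ‖a j i (u j)‖ := by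
    intro i hik
    obtain ⟨-, hpos, B, hB, hle⟩ := hWd n Ω r k i hD hik
    refine ⟨wd Ω k i (p k) / B, div_pos (hpos _ hpk) hB, fun j => ?_⟩
    obtain ⟨-, hne0, hco⟩ := hCoc n Ω r k i (φ j) (m j) (a j) (b j) hD hik (hF j)
    refine ⟨hne0 _ (hub j), ?_⟩
    have h1 := hco (u j) (hub j)
    rw [hmu j] at h1
    have h2 := hle (u j)
    rw [div_le_iff₀ hB, h1]
    exact mul_le_mul_of_nonneg_left h2 (norm_nonneg _)
  set S : ℕ → Sp n := fun j =>
    WithLp.toLp 2 (fun i => if i = k then 0 else (p i - φ j (x j) i) / a j i (u j)) with hS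
  have hSlim : Tendsto S atTop (𝓝 0) := by
    have h1 : Tendsto (fun j => (fun i => if i = k then (0 : ℂ) else
        (p i - φ j (x j) i) / a j i (u j) : Fin n → ℂ)) atTop (𝓝 0) := by
      rw [tendsto_pi_nhds]
      intro i
      by_cases hik : i = k
      · simp [hik]
      · simp only [hik, if_false, Pi.zero_apply]
        obtain ⟨c, hc, hcj⟩ := hcoef i hik
        rw [tendsto_zero_iff_norm_tendsto_zero]
        have h2 : Tendsto (fun j => ‖p - φ j (x j)‖ / c) atTop (𝓝 0) := by
          have := hφx.div_const c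
          simpa using this
        refine squeeze_zero (fun j => norm_nonneg _) (fun j => ?_) h2
        rw [norm_div]
        have h3 := PiLp.norm_apply_le (p - φ j (x j)) i
        have h4 : (p - φ j (x j)) i = p i - φ j (x j) i := rfl
        rw [h4] at h3
        exact div_le_div₀ (norm_nonneg _) h3 hc (hcj j).2
    have h5 := ((PiLp.continuous_toLp 2 (fun _ : Fin n => ℂ)).tendsto 0).comp h1
    have h6 : (WithLp.toLp 2 (0 : Fin n → ℂ) : Sp n) = 0 := rfl
    rw [h6] at h5
    exact h5
  have hev3 : ∀ᶠ j in atTop, ‖S j‖ < ρ := by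
    have := hSlim.norm
    rw [norm_zero] at this
    exact this.eventually (gt_mem_nhds hρ)
  obtain ⟨j, h1, h2, h3⟩ := (hev1.and (hev2.and hev3)).exists
  have hxΩ : x j ∈ Ω := hsec _ h2
  have hxk : x j k = u j := upd_same q k (u j)
  have hSk : S j k = 0 := by simp [hS]
  have hzΩ : x j + S j ∈ Ω := by
    apply hball
    rw [mem_ball, dist_eq_norm]
    have h4 : x j + S j - q = (x j - q) + S j := by abel
    rw [h4]
    refine lt_of_le_of_lt (norm_add_le _ _) ?_
    rw [hx]
    simp only [norm_upd_sub]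
    linarith
  have hzk : (x j + S j) k = u j := by
    rw [PiLp.add_apply, hxk, hSk, add_zero]
  have hfin : φ j (x j + S j) = p := by
    ext i
    by_cases hik : i = k
    · subst hik
      rw [(hF j).base _ hzΩ, hzk, hmu j]
    · rw [(hF j).fib _ hzΩ i hik, hzk, PiLp.add_apply]
      have h5 := (hF j).fib _ hxΩ i hik
      rw [hxk] at h5
      have h6 : S j i = (p i - φ j (x j) i) / a j i (u j) := by simp [hS, hik]
      obtain ⟨c, hc, hcj⟩ := hcoef i hik
      have h7 : a j i (u j) ≠ 0 := (hcj j).1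
      have h8 : a j i (u j) * S j i = p i - φ j (x j) i := by
        rw [h6]
        field_simp
      calc a j i (u j) * (x j i + S j i) + b j i (u j)
          = (a j i (u j) * x j i + b j i (u j)) + a j i (u j) * S j i := by ring
        _ = p i := by rw [← h5, h8]; ring
  rw [← hfin]
  exact (hF j).bij.mapsTo hzΩ

end MP16b755
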