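import Pool.Agent.Lib.MP_16b755_an.InfA

/-!
# MP_16b755_an: the gain of the mean values
-/

set_option autoImplicit false

namespace MP16b755

open MeasureTheory Metric Set Filter Topology

theorem tFinA (hBas : StmtBas) : StmtFinA := by
  intro W B C ε c₀ hP ζ hζ
  have hC := infa_C hP
  have hε := hP.e0
  have hc0 := hP.c0
  have hB := hP.B0
  obtain ⟨S, hS⟩ : ∃ S : ℝ, S = 16 * C ^ 2 + 3 := ⟨_, rfl⟩
  have hS0 : 0 < S := by rw [hS]; linarith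
  obtain ⟨K, hK⟩ : ∃ K : ℝ, K = 1 + 12 / c₀ + 32 * S / c₀ := ⟨_, rfl⟩
  have q1 : 0 < 12 / c₀ := by positivity
  have q2 : 0 < 32 * S / c₀ := by positivity
  have q3 : 0 < 24 / c₀ := by positivity
  have hK1 : 1 ≤ K := by linarith
  have hK12 : 12 ≤ c₀ * K := by
    have h1 : 12 / c₀ ≤ K := by linarith
    rw [div_le_iff₀ hc0] at h1
    linarith
  have hK32 : 32 * S ≤ c₀ * K ^ 2 := by
    have h1 : 32 * S / c₀ ≤ K := by linarith
    rw [div_le_iff₀ hc0] at h1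
    have h2 : K ≤ K ^ 2 := le_self_pow₀ hK1 (by norm_num)
    have h3 : c₀ * K ≤ c₀ * K ^ 2 := mul_le_mul_of_nonneg_left h2 hc0.le
    linarith
  refine ⟨K, c₀ / (3 * B), 4 + 24 / c₀ + (2 / ε) ^ 2 + 2 / ε, by linarith, by positivity,
    by positivity, fun σ y hσ hy => ?_⟩
  have q4 : 0 < 2 / ε := by positivity
  have q5 : 0 ≤ (2 / ε) ^ 2 := by positivity
  have hσ4 : 4 ≤ σ := by linarith
  have hσ0 : 0 < σ := by linarith
  have hσε : 2 / ε < σ := by linarith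
  have hσc : 24 ≤ c₀ * σ := by
    have h1 : 24 / c₀ ≤ σ := by linarith
    rw [div_le_iff₀ hc0] at h1
    linarith
  obtain ⟨T, hT⟩ : ∃ T : ℝ, T = √σ := ⟨_, rfl⟩
  have hT2 : T ^ 2 = σ := by rw [hT, Real.sq_sqrt hσ0.le]
  have hTn : 0 ≤ T := by rw [hT]; positivity
  have hT2' : 2 ≤ T := by
    rw [hT]
    exact Real.le_sqrt_of_sq_le (by linarith)
  have hT0 : 0 < T := by linarith
  have hTσ : T ≤ σ := by
    rw [← hT2]
    exact le_self_pow₀ (by linarith) (by norm_num)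
  have hTε : 2 / ε < T := by
    rw [hT]
    exact Real.lt_sqrt_of_sq_lt (by linarith)
  rw [← hT] at hy ⊢
  have hKT : T ≤ K * T := le_mul_of_one_le_left hTn hK1
  have hyT : T ≤ |y| := hKT.trans hy
  have hre1 : ((σ : ℝ) : ℂ).re = σ := Complex.ofReal_re σ
  have him1 : ((σ : ℝ) : ℂ).im = 0 := Complex.ofReal_im σ
  have hnm1 : ‖((σ : ℝ) : ℂ)‖ = σ := by
    rw [Complex.norm_real, Real.norm_eq_abs, abs_of_pos hσ0]
  have hre : (((16 * C ^ 2 + 2 : ℝ) : ℂ) + y * Complex.I).re = 16 * C ^ 2 + 2 := by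
    simp only [Complex.add_re, Complex.mul_re, Complex.ofReal_re, Complex.ofReal_im,
      Complex.I_re, Complex.I_im]
    ring
  have him : (((16 * C ^ 2 + 2 : ℝ) : ℂ) + y * Complex.I).im = y := by
    simp only [Complex.add_im, Complex.mul_im, Complex.ofReal_re, Complex.ofReal_im,
      Complex.I_re, Complex.I_im]
    ring
  obtain ⟨c', hc'⟩ : ∃ c' : ℂ, c' = ((16 * C ^ 2 + 2 : ℝ) : ℂ) + y * Complex.I := ⟨_, rfl⟩
  rw [← hc'] at hre him ⊢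
  refine av_add_le one_pos (infa_int hBas hP hζ (by rw [hre1]; linarith))
    (infa_int hBas hP hζ (by rw [hre]; linarith)) fun v hv => ?_
  obtain ⟨ω, hω⟩ : ∃ ω : ℂ, ω = (σ : ℂ) + v := ⟨_, rfl⟩
  obtain ⟨ω', hω'⟩ : ∃ ω' : ℂ, ω' = c' + v := ⟨_, rfl⟩
  rw [← hω, ← hω']
  have hb : ω ∈ ball (σ : ℂ) 1 := by
    rw [mem_ball, dist_eq_norm, hω, add_sub_cancel_left]
    exact hv
  have hb' : ω' ∈ ball c' 1 := by
    rw [mem_ball, dist_eq_norm, hω', add_sub_cancel_left]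
    exact hv
  obtain ⟨a1, a2, _, a4⟩ := infa_ball hb
  obtain ⟨a1', a2', _, _⟩ := infa_ball hb'
  rw [hre1, abs_lt] at a1
  rw [him1, sub_zero] at a2
  rw [hnm1] at a4
  rw [hre, abs_lt] at a1'
  rw [him] at a2'
  have a5 := Complex.re_le_norm ω
  have hωr : 0 < ω.re := by linarith
  have hωn : 0 < ‖ω‖ := by linarith
  have a5' := Complex.abs_im_le_norm ω'
  have a6' : |y| - 1 < |ω'.im| := by
    have := abs_sub_abs_le_abs_sub y ω'.im
    rw [abs_sub_comm] at this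
    linarith
  have a7' : |y| / 2 ≤ ‖ω'‖ := by linarith
  have hω'r : 0 < ω'.re := by linarith
  have hω'n : 0 < ‖ω'‖ := by linarith
  have b1 : 1 / (8 * σ) ≤ ω⁻¹.re := by
    rw [inv_re_eq, div_le_div_iff₀ (by positivity) (by positivity)]
    have h1 : ‖ω‖ ^ 2 ≤ (σ + 1) ^ 2 := pow_le_pow_left₀ hωn.le a4.le 2
    have h2 : (σ - 1) * (8 * σ) ≤ ω.re * (8 * σ) :=
      mul_le_mul_of_nonneg_right (by linarith) (by linarith)
    have h3 : 4 * σ ≤ σ * σ := mul_le_mul_of_nonneg_right hσ4 hσ0.le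
    have h4 : (σ + 1) ^ 2 = σ * σ + 2 * σ + 1 := by ring
    have h5 : (σ - 1) * (8 * σ) = 8 * (σ * σ) - 8 * σ := by ring
    linarith
  have b1p : 0 < ω⁻¹.re := inv_re_pos hωr
  have b2 : |ω⁻¹.im| ≤ 4 / σ ^ 2 := by
    rw [inv_im_eq, abs_div, abs_neg, abs_of_pos (by positivity : 0 < ‖ω‖ ^ 2),
      div_le_div_iff₀ (by positivity) (by positivity)]
    have h1 : (σ / 2) ^ 2 ≤ ‖ω‖ ^ 2 := pow_le_pow_left₀ (by positivity) (by linarith) 2
    have h2 : |ω.im| * σ ^ 2 ≤ 1 * σ ^ 2 := mul_le_mul_of_nonneg_right a2.le (by positivity)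
    have h3 : (σ / 2) ^ 2 = σ ^ 2 / 4 := by ring
    linarith
  have b3 : ‖ω⁻¹‖ < ε := by
    rw [norm_inv]
    rw [inv_lt_comm₀ hωn hε]
    have h1 : ε⁻¹ = 2 / ε / 2 := by field_simp
    rw [h1]
    linarith
  have b1' : ω'⁻¹.re ≤ c₀ * (1 / (8 * σ)) := by
    have h1 : (|y| / 2) ^ 2 ≤ ‖ω'‖ ^ 2 := pow_le_pow_left₀ (by positivity) a7' 2
    have h2 : (K * T) ^ 2 ≤ |y| ^ 2 := pow_le_pow_left₀ (by positivity) hy 2
    rw [mul_pow, hT2] at h2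
    have h3 : K ^ 2 * σ / 4 ≤ ‖ω'‖ ^ 2 := by linarith
    have h4 : c₀ * (K ^ 2 * σ / 4) ≤ c₀ * ‖ω'‖ ^ 2 := mul_le_mul_of_nonneg_left h3 hc0.le
    have h5 : 32 * S * σ ≤ c₀ * K ^ 2 * σ := mul_le_mul_of_nonneg_right hK32 hσ0.le
    have h6 : ω'.re * (8 * σ) ≤ S * (8 * σ) :=
      mul_le_mul_of_nonneg_right (by linarith) (by linarith)
    rw [inv_re_eq, mul_one_div, div_le_div_iff₀ (by positivity) (by positivity)]
    linarith
  have b1p' : 0 < ω'⁻¹.re := inv_re_pos hω'r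
  have b2n : ‖ω'⁻¹‖ ≤ 2 / (K * T) := by
    rw [norm_inv]
    have h1 : 2 / (K * T) = (K * T / 2)⁻¹ := by rw [inv_div]
    rw [h1]
    exact inv_anti₀ (by positivity) (by linarith)
  have b2' : |ω'⁻¹.im| ≤ 2 / (K * T) := (Complex.abs_im_le_norm _).trans b2n
  have b3' : ‖ω'⁻¹‖ < ε := by
    refine b2n.trans_lt ?_
    rw [div_lt_iff₀ (by positivity)]
    have h1 : 2 < T * ε := by rwa [div_lt_iff₀ hε] at hTε
    have h2 : T * ε ≤ K * T * ε := mul_le_mul_of_nonneg_right hKT hε.le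
    linarith
  have b4 : 1 / (3 * T) ≤ √ω⁻¹.re := by
    apply Real.le_sqrt_of_sq_le
    refine le_trans ?_ b1
    rw [div_pow, mul_pow, hT2, one_pow]
    exact one_div_le_one_div_of_le (by positivity) (by linarith)
  have b5 : |ω'⁻¹.im - ω⁻¹.im| ≤ c₀ * √ω⁻¹.re := by
    have h1 := abs_sub ω'⁻¹.im ω⁻¹.im
    have h2 : 2 / (K * T) ≤ c₀ / (6 * T) := by
      rw [div_le_div_iff₀ (by positivity) (by positivity)]
      have h6 : 12 * T ≤ c₀ * K * T := mul_le_mul_of_nonneg_right hK12 hT0.le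
      linarith
    have h3 : 4 / σ ^ 2 ≤ c₀ / (6 * T) := by
      rw [div_le_div_iff₀ (by positivity) (by positivity)]
      have h6 : 24 * σ ≤ c₀ * σ * σ := mul_le_mul_of_nonneg_right hσc hσ0.le
      have h7 : c₀ * σ ^ 2 = c₀ * σ * σ := by ring
      linarith
    have h4 : c₀ / (6 * T) + c₀ / (6 * T) = c₀ * (1 / (3 * T)) := by
      field_simp
      norm_num
    have h5 : c₀ * (1 / (3 * T)) ≤ c₀ * √ω⁻¹.re := mul_le_mul_of_nonneg_left b4 hc0.le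
    linarith
  have b6 : ω'⁻¹.re ≤ c₀ * ω⁻¹.re := b1'.trans (mul_le_mul_of_nonneg_left b1 hc0.le)
  have key := hP.gr ζ ω⁻¹ ω'⁻¹ hζ b1p b1p' b3 b3' b6 b5
  have w1 : 0 < W (cay ζ ω'⁻¹) := hP.pos _ (cay_mem hζ b1p')
  have w2 : 0 < W (cay ζ ω⁻¹) := hP.pos _ (cay_mem hζ b1p)
  have w3 := hP.le (cay ζ ω⁻¹)
  rw [Psi, Psi, psi, psi]
  have h1 := Real.log_le_sub_one_of_pos (div_pos w1 w2)
  rw [Real.log_div w1.ne' w2.ne'] at h1
  have h2 : c₀ / (3 * B) / T ≤ 1 - W (cay ζ ω'⁻¹) / W (cay ζ ω⁻¹) := by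
    rw [one_sub_div w2.ne', div_div, div_le_div_iff₀ (by positivity) w2]
    have h3 : c₀ * (1 / (3 * T)) ≤ W (cay ζ ω⁻¹) - W (cay ζ ω'⁻¹) := by
      have h4 : c₀ * (1 / (3 * T)) ≤ c₀ * √ω⁻¹.re := mul_le_mul_of_nonneg_left b4 hc0.le
      linarith
    have h5 : c₀ ≤ (W (cay ζ ω⁻¹) - W (cay ζ ω'⁻¹)) * (3 * T) := by
      rw [mul_one_div, div_le_iff₀ (by positivity)] at h3
      exact h3
    calc c₀ * W (cay ζ ω⁻¹) ≤ c₀ * B := mul_le_mul_of_nonneg_left w3 hc0.le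
      _ ≤ (W (cay ζ ω⁻¹) - W (cay ζ ω'⁻¹)) * (3 * T) * B := mul_le_mul_of_nonneg_right h5 hB.le
      _ = (W (cay ζ ω⁻¹) - W (cay ζ ω'⁻¹)) * (3 * B * T) := by ring
  linarith

end MP16b755
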