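import Pool.Agent.Lib.MP_16b755_an.InfA

/-!
# MP_16b755_an: the potential is not bounded in the harmonic case
-/

set_option autoImplicit false

namespace MP16b755

open MeasureTheory Metric Set Filter Topology

theorem tFinB (hBas : StmtBas) (hCmp : StmtCmp) (hMv : StmtMv) (hBar : StmtBar)
    (hFinA : StmtFinA) : StmtFinB := by
  intro W B C ε c₀ hP ζ hζ hMV F hF
  have hC := infa_C hP
  have he : 0 < 1 / ε := one_div_pos.2 hP.e0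
  obtain ⟨E, hE⟩ : ∃ E : ℝ, E = 2 / ε := ⟨_, rfl⟩
  have hE1 : E = 2 * (1 / ε) := by rw [hE]; ring
  obtain ⟨S, hS⟩ : ∃ S : ℝ, S = 16 * C ^ 2 + 2 := ⟨_, rfl⟩
  obtain ⟨_, hm, _, hb4, hb5, _⟩ := hBas W B C ε c₀ hP
  obtain ⟨hc1, hc2⟩ := hCmp W B C ε c₀ hP ζ hζ
  obtain ⟨hMv1, hMv2⟩ := hMv (Psi W ζ) (16 * C ^ 2) (by linarith) (hm ζ)
    (fun c r hcr => by
      obtain ⟨M, hM0, hM⟩ := hb5 c r hcr
      exact ⟨M, hM0, fun ω hω => hM ζ ω hζ hω⟩) hMV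
  -- the supremum
  obtain ⟨F₀, hF1, hF2⟩ : ∃ F₀ : ℝ, (∀ σ : ℝ, 1 / ε < σ → Psi W ζ (σ : ℂ) ≤ F₀) ∧
      ∀ e > 0, ∃ σ : ℝ, 1 / ε < σ ∧ F₀ - e < Psi W ζ (σ : ℂ) := by
    have hne : ((fun σ : ℝ => Psi W ζ (σ : ℂ)) '' Ioi (1 / ε)).Nonempty :=
      ⟨_, 1 / ε + 1, by rw [mem_Ioi]; linarith, rfl⟩
    have hbd : BddAbove ((fun σ : ℝ => Psi W ζ (σ : ℂ)) '' Ioi (1 / ε)) := by
      refine ⟨F, ?_⟩
      rintro _ ⟨σ, hσ, rfl⟩
      exact hF σ hσ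
    refine ⟨sSup ((fun σ : ℝ => Psi W ζ (σ : ℂ)) '' Ioi (1 / ε)), fun σ hσ =>
      le_csSup hbd ⟨σ, hσ, rfl⟩, fun e he' => ?_⟩
    obtain ⟨_, ⟨σ, hσ, rfl⟩, h⟩ := exists_lt_of_lt_csSup hne
      (sub_lt_self (sSup ((fun σ : ℝ => Psi W ζ (σ : ℂ)) '' Ioi (1 / ε))) he')
    exact ⟨σ, hσ, h⟩
  have hup : ∀ ω : ℂ, 16 * C ^ 2 + 1 ≤ ω.re → E + 1 ≤ ‖ω‖ → av (Psi W ζ) ω 1 ≤ F₀ := by
    intro ω hω1 hω2
    refine infa_le hBas hCmp hP hζ hω1 fun z hz => ?_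
    obtain ⟨h1, _, h3, _⟩ := infa_ball hz
    rw [abs_lt] at h1
    have h4 : 2 / ε < ‖z‖ := by rw [← hE]; linarith
    refine ⟨h4, ?_⟩
    have h5 := (hc2 z (by linarith) h4).2.2
    have h6 : 0 < z.re := by linarith
    have h7 : ‖z‖ ^ 2 / (2 * z.re) ≤ 4 * ‖z‖ ^ 2 / z.re := by
      rw [div_le_div_iff₀ (by linarith) h6]
      nlinarith [mul_nonneg (sq_nonneg ‖z‖) h6.le]
    exact hF1 _ (h5.trans_le h7)
  have hlo : ∀ e > 0, ∃ R : ℝ, ∀ ω : ℂ, 16 * C ^ 2 + 1 ≤ ω.re → R ≤ ‖ω‖ →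
      F₀ - e ≤ av (Psi W ζ) ω 1 := by
    intro e he'
    obtain ⟨σ, hσ, h1⟩ := hF2 e he'
    exact ⟨2 * σ + 1, fun ω hω1 hω2 => h1.le.trans (infa_inf hBas hCmp hP hζ hσ hω1 hω2)⟩
  have hre : ∀ y : ℝ, ((S : ℂ) + y * Complex.I).re = S := by
    intro y
    simp only [Complex.add_re, Complex.mul_re, Complex.ofReal_re, Complex.ofReal_im,
      Complex.I_re, Complex.I_im]
    ring
  have him : ∀ y : ℝ, ((S : ℂ) + y * Complex.I).im = y := by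
    intro y
    simp only [Complex.add_im, Complex.mul_im, Complex.ofReal_re, Complex.ofReal_im,
      Complex.I_re, Complex.I_im]
    ring
  have hnl : ∀ y : ℝ, |y| ≤ ‖(S : ℂ) + y * Complex.I‖ := by
    intro y
    have := Complex.abs_im_le_norm ((S : ℂ) + y * Complex.I)
    rwa [him] at this
  obtain ⟨K, c₇, σ₀, hK, hc7, hσ₀, hA⟩ := hFinA W B C ε c₀ hP ζ hζ
  obtain ⟨e', he'⟩ : ∃ e' : ℝ, e' = c₇ / (4 * K) := ⟨_, rfl⟩
  have he0 : 0 < e' := by rw [he']; positivity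
  obtain ⟨R₁, hR₁⟩ := hlo (e' / 2) (by linarith)
  obtain ⟨Y₁, hY₁, hY0, hYR⟩ : ∃ Y₁ : ℝ, Y₁ = max R₁ 0 ∧ 0 ≤ Y₁ ∧ R₁ ≤ Y₁ :=
    ⟨_, rfl, le_max_right _ _, le_max_left _ _⟩
  obtain ⟨d₁, hd₁⟩ : ∃ d₁ : ℝ, d₁ = |F₀| + c₇ + |Real.log B| := ⟨_, rfl⟩
  have hd0 : 0 ≤ d₁ := by rw [hd₁]; positivity
  have hE0 : 0 < E := by rw [hE1]; linarith
  have hS0 : 0 < S := by rw [hS]; linarith
  obtain ⟨T, hT⟩ : ∃ T : ℝ, T = 1 + σ₀ + 8 * K + Y₁ / K + 2 * S + 4 * d₁ * Y₁ / c₇ + (E + 1) :=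
    ⟨_, rfl⟩
  have p1 : 0 ≤ Y₁ / K := by positivity
  have p2 : 0 ≤ 4 * d₁ * Y₁ / c₇ := by positivity
  have hT1 : 1 ≤ T := by linarith
  have hTT : T ≤ T ^ 2 := by nlinarith
  have hT0 : 0 < T := by linarith
  obtain ⟨σ, hσ⟩ : ∃ σ : ℝ, σ = T ^ 2 := ⟨_, rfl⟩
  have hsq : √σ = T := by rw [hσ, Real.sqrt_sq hT0.le]
  have hσ0 : 0 < σ := by rw [hσ]; positivity
  have hσS : 2 * S ≤ σ := by linarith
  have hYT : Y₁ ≤ K * T := by
    have h1 : Y₁ / K ≤ T := by linarith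
    rw [div_le_iff₀ hK] at h1
    linarith
  have hcT : c₇ / T ≤ e' / 2 := by
    rw [he', div_div, div_le_div_iff_of_pos_left hc7 hT0 (by positivity)]
    linarith
  have hcT1 : c₇ / T ≤ c₇ := div_le_self hc7.le hT1
  have hdT : 4 * d₁ * Y₁ < c₇ * T := by
    have h1 : 4 * d₁ * Y₁ / c₇ < T := by linarith
    rw [div_lt_iff₀ hc7] at h1
    linarith
  -- the value at `σ`
  have hnσ : ‖((σ : ℝ) : ℂ)‖ = σ := by
    rw [Complex.norm_real, Real.norm_eq_abs, abs_of_pos hσ0]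
  have hhσ : av (Psi W ζ) (σ : ℂ) 1 ≤ F₀ :=
    hup _ (by rw [Complex.ofReal_re]; linarith) (by rw [hnσ]; linarith)
  obtain ⟨N, hN⟩ : ∃ N : ℝ, N = av (Psi W ζ) (σ : ℂ) 1 + c₇ / T := ⟨_, rfl⟩
  have hline : ∀ y : ℝ, K * T ≤ |y| → N ≤ av (Psi W ζ) ((S : ℂ) + y * Complex.I) 1 := by
    intro y hy
    have h1 := hA σ y (by linarith) (by rw [hsq]; exact hy)
    rw [hsq] at h1
    rw [hN, hS]
    exact h1
  have hNF : N ≤ F₀ := by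
    have h1 : |K * T + (E + 1)| = K * T + (E + 1) := abs_of_pos (by positivity)
    refine (hline (K * T + (E + 1)) (by rw [h1]; linarith)).trans
      (hup _ (by rw [hre]; linarith) ((hnl _).trans' ?_))
    rw [h1]
    nlinarith
  have h1 := hBar (fun ω => av (Psi W ζ) ω 1) S N d₁ e' Y₁ (K * T) hd0 he0.le hY0 hYT
    (hMv1.mono fun ω hω => by
      have hω' : S ≤ ω.re := hω
      change 16 * C ^ 2 + 1 < ω.re
      linarith)
    (fun c hc => ⟨1 / 2, by norm_num, fun ρ h0 h1 => hMv2 c ρ h0 h1.le (by linarith)⟩)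
    (fun y => by
      have h2 := infa_low (c := (S : ℂ) + y * Complex.I) hBas hP hζ (by rw [hre]; linarith)
      change N - d₁ - e' ≤ av (Psi W ζ) ((S : ℂ) + y * Complex.I) 1
      have h3 := le_abs_self F₀
      have h4 := le_abs_self (Real.log B)
      linarith)
    (fun y hy => by
      have h2 := hR₁ ((S : ℂ) + y * Complex.I) (by rw [hre]; linarith)
        ((hYR.trans hy).trans (hnl y))
      change N - e' ≤ av (Psi W ζ) ((S : ℂ) + y * Complex.I) 1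
      linarith)
    (fun y hy => hline y hy)
    (fun e he'' => by
      obtain ⟨R, hR⟩ := hlo e he''
      refine ⟨R, fun ω h2 h3 => ?_⟩
      have h4 := hR ω (by linarith) h3
      change N - e ≤ av (Psi W ζ) ω 1
      linarith)
    σ (by linarith)
  have h2 : N - (d₁ * Y₁ + e' * (K * T)) / (σ - S) ≤ N - c₇ / T := by
    have h3 : av (Psi W ζ) (σ : ℂ) 1 = N - c₇ / T := by rw [hN]; ring
    rw [← h3]
    exact h1
  have h3 : c₇ / T ≤ (d₁ * Y₁ + e' * (K * T)) / (σ - S) := by linarith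
  have h4 : e' * (K * T) = c₇ / 4 * T := by
    rw [he']
    field_simp
  rw [h4, div_le_div_iff₀ hT0 (by linarith)] at h3
  have h5 : σ / 2 ≤ σ - S := by linarith
  have h6 : c₇ * (σ / 2) ≤ c₇ * (σ - S) := mul_le_mul_of_nonneg_left h5 hc7.le
  have h7 : c₇ * (σ / 2) ≤ (d₁ * Y₁ + c₇ / 4 * T) * T := h6.trans h3
  rw [hσ] at h7
  have h8 : 4 * d₁ * Y₁ * T < c₇ * T * T := mul_lt_mul_of_pos_right hdT hT0
  nlinarith

end MP16b755
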