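import Pool.Agent.Lib.MP_16b755_an.NmG

set_option autoImplicit false

namespace MP16b755

open MeasureTheory Metric Set Filter Topology

/-- The constant. -/
lemma grg_const {C₀ A l : ℝ} (hC₀ : 1 ≤ C₀) (hA : 0 < A) (hl : 0 < l) :
    ∃ c : ℝ, 0 < c ∧ c < 1 ∧ C₀ * c ≤ l / 8 ∧ 3 * A * √C₀ * c ≤ l / 8 ∧ 9 * C₀ * c ≤ l / 8 := by
  set D := 8 * (9 * C₀ + 3 * A * √C₀ + 1) / l with hD
  have hD0 : 0 < D := by positivity
  refine ⟨min (1 / 2) (1 / D), by positivity, lt_of_le_of_lt (min_le_left _ _) (by norm_num), ?_⟩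
  have h1 : min (1 / 2) (1 / D) ≤ 1 / D := min_le_right _ _
  set c := min (1 / 2) (1 / D)
  have hc0 : 0 < c := by positivity
  have h2 : c * (8 * (9 * C₀ + 3 * A * √C₀ + 1)) ≤ l := by
    have h3 : c * D ≤ 1 := by
      have := mul_le_mul_of_nonneg_right h1 hD0.le
      rwa [one_div, inv_mul_cancel₀ hD0.ne'] at this
    rw [hD, ← mul_div_assoc, div_le_one hl] at h3
    exact h3
  have h4 : 0 ≤ A * √C₀ * c := by positivity
  have h5 : 0 ≤ C₀ * c := by positivity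
  refine ⟨?_, ?_, ?_⟩ <;> nlinarith

/-- The final arithmetic. -/
lemma grg_arith {C₀ A l c δ s ρ Lu α Lv q : ℝ} (hδ : 0 < δ) (hc0 : 0 < c) (hc1 : c < 1)
    (hC₀ : 1 ≤ C₀) (hA : 0 < A) (hl : 0 < l)
    (h1 : C₀ * c ≤ l / 8) (h2 : 3 * A * √C₀ * c ≤ l / 8) (h3 : 9 * C₀ * c ≤ l / 8)
    (hρ : ρ ≤ C₀ * (c * δ)) (hα : α ≤ -δ / 2) (hLu : l ≤ Lu)
    (hLv : Lv ≤ A * √(C₀ * (c * δ)) * (3 * c * √δ))
    (hq : q ≤ C₀ * (3 * c * √δ) ^ 2) (hs : s ≤ ρ + (α * Lu + Lv) + q) : s < 0 := by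
  have hsq : √δ ^ 2 = δ := Real.sq_sqrt hδ.le
  have e1 : √(C₀ * (c * δ)) ≤ √C₀ * √δ := by
    rw [← Real.sqrt_mul (by linarith)]
    refine Real.sqrt_le_sqrt ?_
    have : c * δ ≤ 1 * δ := mul_le_mul_of_nonneg_right hc1.le hδ.le
    rw [one_mul] at this
    exact mul_le_mul_of_nonneg_left this (by linarith)
  have e2 : Lv ≤ 3 * A * √C₀ * c * δ := by
    refine hLv.trans ?_
    calc A * √(C₀ * (c * δ)) * (3 * c * √δ) ≤ A * (√C₀ * √δ) * (3 * c * √δ) := by
          refine mul_le_mul_of_nonneg_right (mul_le_mul_of_nonneg_left e1 hA.le) (by positivity)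
      _ = 3 * A * √C₀ * c * √δ ^ 2 := by ring
      _ = _ := by rw [hsq]
  have e3 : Lv ≤ l / 8 * δ := e2.trans (mul_le_mul_of_nonneg_right h2 hδ.le)
  have e4 : ρ ≤ l / 8 * δ := by
    refine hρ.trans ?_
    rw [← mul_assoc]
    exact mul_le_mul_of_nonneg_right h1 hδ.le
  have e5 : q ≤ l / 8 * δ := by
    refine hq.trans ?_
    have : C₀ * (3 * c * √δ) ^ 2 = 9 * C₀ * c * c * √δ ^ 2 := by ring
    rw [this, hsq]
    have h4 : 9 * C₀ * c * c ≤ l / 8 := by
      have : 9 * C₀ * c * c ≤ 9 * C₀ * c * 1 := mul_le_mul_of_nonneg_left hc1.le (by positivity)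
      linarith
    exact mul_le_mul_of_nonneg_right h4 hδ.le
  have e6 : α * Lu ≤ -δ / 2 * l := by
    have h5 : α * Lu ≤ α * l := mul_le_mul_of_nonpos_left hLu (by linarith)
    have h6 : α * l ≤ -δ / 2 * l := mul_le_mul_of_nonneg_right hα hl.le
    linarith
  have e7 : 0 < l * δ := by positivity
  linarith

theorem tGrG (hTay : StmtTay) (hGrad : StmtGrad) (hTan : StmtTan) : StmtGrG := by
  intro n Ω r k hD
  obtain ⟨R₀, hR⟩ := hD.bdd.exists_norm_le
  obtain ⟨C₀, hC₀, -, hLip, -, hTy⟩ := hTay n r (R₀ + 3) hD.smooth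
  obtain ⟨A, hA, hT⟩ := hTan n Ω r k hD (R₀ + 3)
  obtain ⟨l, ε, hl, hε, hε1, hg⟩ := hGrad n Ω r k hD
  obtain ⟨c, hc0, hc1, k1, k2, k3⟩ := grg_const hC₀ hA hl
  refine ⟨c, min ε (1 / 2), hc0, hc1, by positivity,
    lt_of_le_of_lt (min_le_left _ _) hε1, ?_⟩
  intro x hx hxε w ξ hξk hδc hwc hξc
  have hxε1 : 1 - ‖x k‖ < ε := lt_of_lt_of_le hxε (min_le_left _ _)
  have hx2 : 1 / 2 < ‖x k‖ := by
    have := lt_of_lt_of_le hxε (min_le_right _ _)
    linarith
  obtain ⟨u, hu, hxu, h1, h2, hr0, hr1, hL, hin⟩ :=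
    nmg_edge hD hR hLip hC₀ hg hx hxε1 hx2
  have hlt := hD.norm_lt hx
  have hδ'0 : 0 < 1 - ‖x k‖ ^ 2 := nmg_a1 (norm_nonneg _) hlt
  set δ' := 1 - ‖x k‖ ^ 2 with hδ'
  set δ := 1 - ‖w‖ ^ 2 with hδ
  have hδ0 : 0 < δ := by
    by_contra hc
    push Not at hc
    have : c * δ ≤ 0 := mul_nonpos_of_nonneg_of_nonpos hc0.le hc
    linarith
  have hδ1 : δ ≤ 1 := by linarith [sq_nonneg ‖w‖]
  have hsq : δ ≤ √δ := nmg_a6 hδ0.le hδ1
  have hsq1 : √δ ≤ 1 := by
    rw [← Real.sqrt_one]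
    exact Real.sqrt_le_sqrt hδ1
  have hsq0 := Real.sqrt_nonneg δ
  set xs := upd x k u with hxs
  set L := fderiv ℝ r xs with hLdef
  set y := upd x k w + ξ with hy
  have hwk : ‖x k - u‖ ≤ c * √δ := by
    have h3 : ‖xs - x‖ = ‖u - x k‖ := norm_upd_sub x k u
    rw [norm_sub_rev, ← h3, h1]
    have h4 : c * δ ≤ c * √δ := mul_le_mul_of_nonneg_left hsq hc0.le
    linarith
  have hwu : ‖w - u‖ ≤ 2 * c * √δ := by
    have h3 : w - u = (w - x k) + (x k - u) := by ring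
    rw [h3]
    exact (norm_add_le _ _).trans (by linarith)
  have hdiff : y - xs = EuclideanSpace.single k (w - u) + ξ := by
    rw [hy, hxs, ← upd_sub_upd x k w u]
    abel
  have hsn : ∀ z : ℂ, ‖(EuclideanSpace.single k z : Sp n)‖ = ‖z‖ := fun z => by simp
  have hyn : ‖y - xs‖ ≤ 3 * c * √δ := by
    rw [hdiff]
    refine (norm_add_le _ _).trans ?_
    rw [hsn]
    linarith
  have hxsR : xs ∈ closedBall (0 : Sp n) (R₀ + 3) :=
    closedBall_subset_closedBall (by linarith) hin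
  have hyR : y ∈ closedBall (0 : Sp n) (R₀ + 3) := by
    rw [mem_closedBall_zero_iff] at hin ⊢
    have h3 : y = (y - x) + x := by abel
    have h4 : y - x = EuclideanSpace.single k (w - x k) + ξ := by
      rw [hy, upd]
      abel
    have h5 : c * √δ ≤ 1 := by
      have := mul_le_mul hc1.le hsq1 hsq0 zero_le_one
      linarith
    rw [h3, h4]
    refine (norm_add_le _ _).trans ?_
    have h6 := norm_add_le (EuclideanSpace.single k (w - x k) : Sp n) ξ
    rw [hsn] at h6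
    linarith [hR x hx]
  have hty := hTy xs hxsR y hyR
  -- decomposition
  obtain ⟨hτ1, hτ2⟩ := nmg_dec hu (w - u)
  set α : ℝ := (starRingEnd ℂ u * (w - u)).re with hα
  set τ : ℂ := w - u - (α : ℂ) * u with hτ
  set v : Sp n := EuclideanSpace.single k τ + ξ with hv
  have hsplit : y - xs = α • EuclideanSpace.single k u + v := by
    rw [hdiff, hv, ← nmg_single_smul, ← add_assoc, ← nmg_single_add]
    congr 2
    rw [hτ]
    ring
  have hLs : L (y - xs) = α * L (EuclideanSpace.single k u) + L v := by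
    rw [hsplit, map_add, map_smul, smul_eq_mul]
  have hvn : ‖v‖ ≤ 3 * c * √δ := by
    rw [hv]
    refine (norm_add_le _ _).trans ?_
    rw [hsn]
    linarith
  have hrs : r xs ≤ C₀ * (c * δ) := hr1.trans (mul_le_mul_of_nonneg_left hδc (by linarith))
  have hLv : L v ≤ A * √(C₀ * (c * δ)) * (3 * c * √δ) := by
    have h3 := hT xs hxsR (by rw [hxs, upd_same, hu]) v (by
      rw [hxs, upd_same]
      have : v k = τ := by
        rw [hv, PiLp.add_apply, hξk]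
        simp
      rw [this]
      exact hτ1)
    refine (le_abs_self _).trans (h3.trans ?_)
    exact mul_le_mul (mul_le_mul_of_nonneg_left (Real.sqrt_le_sqrt hrs) hA.le) hvn
      (norm_nonneg _) (by positivity)
  have hnorm : ‖w‖ ^ 2 = 1 + 2 * α + ‖w - u‖ ^ 2 := by
    have h3 : w = u + (w - u) := by ring
    have h5 : (u * starRingEnd ℂ (w - u)).re = α := by
      rw [hα, ← Complex.conj_re]
      congr 1
      simp
    calc ‖w‖ ^ 2 = Complex.normSq (u + (w - u)) := by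
          rw [← h3, Complex.normSq_eq_norm_sq]
      _ = 1 + 2 * α + ‖w - u‖ ^ 2 := by
          rw [Complex.normSq_add, Complex.normSq_eq_norm_sq, Complex.normSq_eq_norm_sq, h5, hu]
          ring
  have hα2 : α ≤ -δ / 2 := by
    have := sq_nonneg ‖w - u‖
    rw [hδ]
    linarith
  rw [hD.mem_iff]
  have hq : C₀ * ‖y - xs‖ ^ 2 ≤ C₀ * (3 * c * √δ) ^ 2 :=
    mul_le_mul_of_nonneg_left (pow_le_pow_left₀ (norm_nonneg _) hyn 2) (by linarith)
  refine grg_arith hδ0 hc0 hc1 hC₀ hA hl k1 k2 k3 hrs hα2 hL hLv hq ?_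
  have h6 := (abs_le.1 hty).2
  have h7 : fderiv ℝ r xs (y - xs) = α * L (EuclideanSpace.single k u) + L v := hLs
  rw [h7] at h6
  linarith

end MP16b755
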