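import Pool.Agent.Lib.MP_16b755_an.Spec

set_option autoImplicit false

namespace MP16b755

open MeasureTheory Metric Set Filter Topology

lemma grad_norm {a b : ℂ} (ha : ‖a‖ = 1) (hab : 0 ≤ (starRingEnd ℂ a * b).re) {t : ℝ} (ht : 0 ≤ t) :
    1 ≤ ‖a + t * b‖ := by
  have h1 : a.re ^ 2 + a.im ^ 2 = 1 := by
    have : Complex.normSq a = 1 := by rw [Complex.normSq_eq_norm_sq, ha]; norm_num
    rw [Complex.normSq_apply] at this
    linarith
  have h2 : 1 ≤ ‖a + t * b‖ ^ 2 := by
    rw [← Complex.normSq_eq_norm_sq, Complex.normSq_apply]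
    simp only [Complex.mul_re, Complex.conj_re, Complex.conj_im, neg_mul, sub_neg_eq_add] at hab
    simp only [Complex.add_re, Complex.add_im, Complex.mul_re, Complex.mul_im, Complex.ofReal_re,
      Complex.ofReal_im, zero_mul, sub_zero, add_zero]
    nlinarith [mul_nonneg ht hab, mul_nonneg ht ht, sq_nonneg (t * b.re), sq_nonneg (t * b.im)]
  by_contra hc
  push Not at hc
  nlinarith [norm_nonneg (a + t * b)]

/-- One sided derivative. -/
lemma grad_nonneg {n : ℕ} {Ω : Set (Sp n)} {r : Sp n → ℝ} {k : Fin n} (hD : Dom Ω r k) {x : Sp n}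
    (hx : x ∈ closure Ω) (h1 : ‖x k‖ = 1) {v : Sp n} (hv : 0 ≤ (starRingEnd ℂ (x k) * v k).re) :
    0 ≤ fderiv ℝ r x v := by
  have hr0 : r x = 0 := hD.frontier_eq (hD.mem_frontier hx h1)
  have hd : HasFDerivAt r (fderiv ℝ r x) x :=
    (hD.smooth.differentiable (by simp)).differentiableAt.hasFDerivAt
  have hg : HasDerivAt (fun t : ℝ => r (x + t • v)) (fderiv ℝ r x v) 0 := by
    have h2 : HasDerivAt (fun t : ℝ => x + t • v) v 0 := by
      have := ((hasDerivAt_id (0 : ℝ)).smul_const v).const_add x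
      simpa using this
    have h3 : HasFDerivAt r (fderiv ℝ r x) (x + (0 : ℝ) • v) := by
      rw [zero_smul, add_zero]
      exact hd
    exact h3.comp_hasDerivAt (0 : ℝ) h2
  have hs := hg.tendsto_slope_zero_right
  refine ge_of_tendsto hs ?_
  filter_upwards [self_mem_nhdsWithin] with t ht
  have ht0 : 0 < t := ht
  have h4 : 0 ≤ r (x + (0 + t) • v) := by
    refine hD.nonneg_of ?_
    have h5 : (x + (0 + t) • v) k = x k + t * v k := by
      simp
    rw [h5]
    exact grad_norm h1 hv ht0.le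
  have h6 : r (x + (0 : ℝ) • v) = 0 := by
    rw [zero_smul, add_zero, hr0]
  rw [h6, sub_zero, smul_eq_mul]
  positivity

/-- The radial derivative is positive at the points over the circle. -/
lemma grad_pos {n : ℕ} {Ω : Set (Sp n)} {r : Sp n → ℝ} {k : Fin n} (hD : Dom Ω r k) {x : Sp n}
    (hx : x ∈ closure Ω) (h1 : ‖x k‖ = 1) :
    0 < fderiv ℝ r x (EuclideanSpace.single k (x k)) := by
  have hne := hD.reg x (hD.mem_frontier hx h1)
  have hns : (starRingEnd ℂ (x k) * x k).re = 1 := by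
    rw [← Complex.normSq_eq_conj_mul_self, Complex.ofReal_re, Complex.normSq_eq_norm_sq, h1]
    norm_num
  have h2 : 0 ≤ fderiv ℝ r x (EuclideanSpace.single k (x k)) := by
    refine grad_nonneg hD hx h1 ?_
    have : (EuclideanSpace.single k (x k) : Sp n) k = x k := by simp
    rw [this, hns]
    exact zero_le_one
  refine lt_of_le_of_ne h2 fun h0 => hne ?_
  ext v
  show fderiv ℝ r x v = 0
  set ρ : ℝ := (starRingEnd ℂ (x k) * v k).re with hρ
  have h3 : (starRingEnd ℂ (x k) * (v - ρ • EuclideanSpace.single k (x k) : Sp n) k).re = 0 := by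
    have h4 : (v - ρ • EuclideanSpace.single k (x k) : Sp n) k = v k - ρ * x k := by
      simp
    rw [h4, mul_sub, Complex.sub_re, ← hρ]
    have h5 : starRingEnd ℂ (x k) * (ρ * x k) = ρ * (starRingEnd ℂ (x k) * x k) := by ring
    rw [h5, Complex.re_ofReal_mul, hns]
    ring
  have h6 := grad_nonneg hD hx h1 (v := v - ρ • EuclideanSpace.single k (x k)) h3.ge
  have h7 := grad_nonneg hD hx h1 (v := -(v - ρ • EuclideanSpace.single k (x k))) (by
    rw [PiLp.neg_apply, mul_neg, Complex.neg_re, h3, neg_zero])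
  rw [map_neg] at h7
  rw [map_sub, map_smul, ← h0, smul_zero, sub_zero] at h6 h7
  linarith

theorem tGrad : StmtGrad := by
  intro n Ω r k hD
  have hcl : IsCompact (closure Ω) := hD.bdd.isCompact_closure
  have hnk : Continuous fun x : Sp n => ‖x k‖ := by fun_prop
  set Z : Set (Sp n) := closure Ω ∩ {x | ‖x k‖ = 1} with hZ
  have hZc : IsCompact Z := hcl.inter_right (isClosed_eq hnk continuous_const)
  set Λ : Sp n → ℝ := fun y => fderiv ℝ r y (EuclideanSpace.single k (y k)) with hΛ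
  have hΛc : Continuous Λ := by
    have h1 : Continuous (fderiv ℝ r) := hD.smooth.continuous_fderiv (by simp)
    have h2 : Continuous fun y : Sp n => (EuclideanSpace.single k (y k) : Sp n) := by
      have h3 : (fun y : Sp n => (EuclideanSpace.single k (y k) : Sp n)) =
          fun y : Sp n => (y k) • EuclideanSpace.single k (1 : ℂ) := by
        funext y
        exact single_eq_smul k (y k)
      rw [h3]
      fun_prop
    exact h1.clm_apply h2
  have hl : ∃ l : ℝ, 0 < l ∧ ∀ y ∈ Z, l < Λ y := by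
    rcases Z.eq_empty_or_nonempty with h | h
    · exact ⟨1, one_pos, fun y hy => by rw [h] at hy; exact absurd hy (Set.notMem_empty _)⟩
    · obtain ⟨z₀, hz₀, hmin⟩ := hZc.exists_isMinOn h hΛc.continuousOn
      have hp := grad_pos hD hz₀.1 hz₀.2
      refine ⟨Λ z₀ / 2, by positivity, fun y hy => ?_⟩
      have : Λ z₀ ≤ Λ y := hmin hy
      have hp' : 0 < Λ z₀ := hp
      linarith
  obtain ⟨l, hl0, hlZ⟩ := hl
  obtain ⟨δ, hδ, hth⟩ := hZc.exists_thickening_subset_open (isOpen_lt continuous_const hΛc) hlZ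
  set K' : Set (Sp n) := closure Ω \ thickening (δ / 2) Z with hK'
  have hK'c : IsCompact K' := hcl.diff isOpen_thickening
  have hlt : ∀ x ∈ K', ‖x k‖ < 1 := by
    intro x hx
    refine lt_of_le_of_ne (hD.closure_le hx.1).2 fun h => hx.2 ?_
    exact self_subset_thickening (by positivity) Z ⟨hx.1, h⟩
  have hε₁ : ∃ ε₁ : ℝ, 0 < ε₁ ∧ ∀ x ∈ K', ε₁ ≤ 1 - ‖x k‖ := by
    rcases K'.eq_empty_or_nonempty with h | h
    · exact ⟨1, one_pos, fun y hy => by rw [h] at hy; exact absurd hy (Set.notMem_empty _)⟩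
    · obtain ⟨x₀, hx₀, hmax⟩ := hK'c.exists_isMaxOn h hnk.continuousOn
      refine ⟨1 - ‖x₀ k‖, by linarith [hlt x₀ hx₀], fun x hx => ?_⟩
      have : ‖x k‖ ≤ ‖x₀ k‖ := hmax hx
      linarith
  obtain ⟨ε₁, hε₁0, hε₁⟩ := hε₁
  refine ⟨l, min (min ε₁ (δ / 2)) (1 / 2), hl0, by positivity,
    lt_of_le_of_lt (min_le_right _ _) (by norm_num), ?_⟩
  intro x hx hxk y hy
  have h1 : x ∈ thickening (δ / 2) Z := by
    by_contra hc
    have := hε₁ x ⟨subset_closure hx, hc⟩
    have h2 : min (min ε₁ (δ / 2)) (1 / 2) ≤ ε₁ := (min_le_left _ _).trans (min_le_left _ _)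
    linarith
  rw [mem_thickening_iff] at h1
  obtain ⟨z, hz, hxz⟩ := h1
  have h2 : min (min ε₁ (δ / 2)) (1 / 2) ≤ δ / 2 := (min_le_left _ _).trans (min_le_right _ _)
  have h3 : y ∈ thickening δ Z := by
    rw [mem_thickening_iff]
    refine ⟨z, hz, ?_⟩
    calc dist y z ≤ dist y x + dist x z := dist_triangle _ _ _
      _ < δ := by
        rw [dist_eq_norm y x]
        linarith
  have h4 : l < Λ y := hth h3
  exact h4.le

end MP16b755
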