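import Pool.Agent.Lib.MP_16b755_an.Spec

/-!
# Mean value property of harmonic functions
-/

set_option autoImplicit false

namespace MP16b755

open MeasureTheory Metric Set Filter Topology

private theorem har_aux (hPol : StmtPol) {g : ℂ → ℝ} {c : ℂ} {r : ℝ} (hr : 0 < r)
    (hg : ∀ x ∈ closedBall c r, InnerProductSpace.HarmonicAt g x) : av g c r = g c := by
  refine hPol g c r hr (fun x hx => ((hg x hx).1.continuousAt).continuousWithinAt) ?_
  intro t ht htr
  refine InnerProductSpace.HarmonicOnNhd.circleAverage_eq fun x hx => hg x ?_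
  rw [abs_of_pos ht] at hx
  exact closedBall_subset_closedBall htr.le hx

theorem tHar (hPol : StmtPol) : StmtHar := by
  constructor
  · intro U A c r hU hr hsub hA hA0
    exact har_aux hPol hr fun x hx =>
      (hA.analyticAt (hU.mem_nhds (hsub hx))).harmonicAt_log_norm (hA0 x (hsub hx))
  · intro U A c r hU hr hsub hA
    exact har_aux hPol hr fun x hx => (hA.analyticAt (hU.mem_nhds (hsub hx))).harmonicAt_im

end MP16b755
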