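import Pool.Agent.Lib.MP_16b755_an.Spec

/-!
# The differences of mean values are invariant under vertical translations (Hor)
-/

set_option autoImplicit false

namespace MP16b755

open MeasureTheory Metric Set Filter Topology

lemma hor_re_pos {c : ℂ} {r : ℝ} (h : r < c.re) {ω : ℂ} (hω : ω ∈ closedBall c r) : 0 < ω.re := by
  have h1 : ‖ω - c‖ ≤ r := by simpa [dist_eq_norm] using hω
  have h2 : |(ω - c).re| ≤ ‖ω - c‖ := Complex.abs_re_le_norm _
  have h3 := (abs_le.1 (h2.trans h1)).1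
  simp at h3
  linarith

/-- The mean value of `Psi` for one index. -/
lemma hor_one (hBas : StmtBas) (hHar : StmtHar) {W : ℂ → ℝ} {B C ε c₀ : ℝ} (hP : Pot W B C ε c₀)
    {b p : ℂ} {η : ℝ} {A : ℂ → ℂ} (hb : ‖b‖ = 1) (hη : 0 < η)
    (hA : DifferentiableOn ℂ A {ω | 0 < ω.re}) (hA0 : ∀ ω : ℂ, 0 < ω.re → A ω ≠ 0)
    (hW : ∀ ω : ℂ, 0 < ω.re → W (cay p ω⁻¹) = ‖A ω‖ * W (cay b (η * ω)))
    (c : ℂ) (r : ℝ) (hr : 0 < r) (hc : r < c.re) :
    av (Psi W p) c r = av (fun ω => psi W b (η * ω)) c r - Real.log ‖A c‖ := by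
  obtain ⟨h1, -, -, -, -, h6, -⟩ := hBas W B C ε c₀ hP
  have hU : IsOpen {ω : ℂ | 0 < ω.re} := isOpen_lt continuous_const Complex.continuous_re
  have hsub : closedBall c r ⊆ {ω : ℂ | 0 < ω.re} := fun ω hω => hor_re_pos hc hω
  have hH := hHar.1 {ω | 0 < ω.re} A c r hU hr hsub hA (fun ω hω => hA0 ω hω)
  have hI1 : IntegrableOn (fun ω => psi W b (η * ω)) (ball c r) := by
    obtain ⟨M, -, hM⟩ := h6 (η * c) (η * r) (by
      rw [Complex.re_ofReal_mul]
      exact mul_lt_mul_of_pos_left hc hη)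
    refine intOn ((h1 b).comp (by fun_prop : Measurable fun ω : ℂ => (η : ℂ) * ω)) (M := M) ?_
    intro ω hω
    refine hM b _ hb ?_
    rw [mem_closedBall, dist_eq_norm, ← mul_sub, norm_mul, Complex.norm_real, Real.norm_eq_abs,
      abs_of_pos hη]
    refine mul_le_mul_of_nonneg_left ?_ hη.le
    rw [← dist_eq_norm]
    exact (mem_ball.1 hω).le
  have hI2 : IntegrableOn (fun ω => Real.log ‖A ω‖) (ball c r) := by
    refine intOn_of_cont ?_
    refine ContinuousOn.log (hA.continuousOn.mono hsub).norm ?_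
    intro ω hω
    exact norm_ne_zero_iff.2 (hA0 ω (hsub hω))
  rw [← hH, ← av_sub hI1 hI2]
  refine av_congr fun ω hω => ?_
  have hω' : 0 < ω.re := hsub (ball_subset_closedBall hω)
  have hpos : 0 < W (cay b (η * ω)) := hP.pos _ (cay_mem hb (by
    rw [Complex.re_ofReal_mul]
    exact mul_pos hη hω'))
  have hAp : 0 < ‖A ω‖ := norm_pos_iff.2 (hA0 ω hω')
  show -Real.log (W (cay p ω⁻¹)) = -Real.log (W (cay b (η * ω))) - Real.log ‖A ω‖
  rw [hW ω hω', Real.log_mul hAp.ne' hpos.ne']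
  ring

/-- **Hor.** -/
theorem tHor (hBas : StmtBas) (hHar : StmtHar) (hNear : StmtNear) (hRot : StmtRot) : StmtHor := by
  intro W B C ε c₀ hP b η ps ζ A hb hη hη0 hps hζ hlim hA hA0 hW c r r' t hr hr' hc hc'
  have hct : (c + t * Complex.I).re = c.re := by simp
  have e1 : ∀ j, av (Psi W (ps j)) c r = _ := fun j =>
    hor_one hBas hHar hP (hb j) (hη j) (hA j) (hA0 j) (hW j) c r hr hc
  have e2 : ∀ j, av (Psi W (ps j)) c r' = _ := fun j =>
    hor_one hBas hHar hP (hb j) (hη j) (hA j) (hA0 j) (hW j) c r' hr' hc'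
  have e3 : ∀ j, av (Psi W (ps j)) (c + t * Complex.I) r = _ := fun j =>
    hor_one hBas hHar hP (hb j) (hη j) (hA j) (hA0 j) (hW j) (c + t * Complex.I) r hr
      (by rw [hct]; exact hc)
  have e4 : ∀ j, av (Psi W (ps j)) (c + t * Complex.I) r' = _ := fun j =>
    hor_one hBas hHar hP (hb j) (hη j) (hA j) (hA0 j) (hW j) (c + t * Complex.I) r' hr'
      (by rw [hct]; exact hc')
  have n1 := hNear W B C ε c₀ hP b η hb hη hη0 c r t hr hc
  have n2 := hNear W B C ε c₀ hP b η hb hη hη0 c r' t hr' hc'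
  have r1 := hRot W B C ε c₀ hP ps ζ hps hζ hlim c r hr hc
  have r2 := hRot W B C ε c₀ hP ps ζ hps hζ hlim c r' hr' hc'
  have r3 := hRot W B C ε c₀ hP ps ζ hps hζ hlim (c + t * Complex.I) r hr (by rw [hct]; exact hc)
  have r4 := hRot W B C ε c₀ hP ps ζ hps hζ hlim (c + t * Complex.I) r' hr'
    (by rw [hct]; exact hc')
  have l1 := (r3.sub r4).sub (r1.sub r2)
  have l2 := n1.sub n2
  have hl : (fun j => av (Psi W (ps j)) (c + t * Complex.I) r -
      av (Psi W (ps j)) (c + t * Complex.I) r' -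
      (av (Psi W (ps j)) c r - av (Psi W (ps j)) c r')) =
      fun j => (av (fun ω => psi W (b j) (η j * ω)) (c + t * Complex.I) r -
      av (fun ω => psi W (b j) (η j * ω)) c r) -
      (av (fun ω => psi W (b j) (η j * ω)) (c + t * Complex.I) r' -
      av (fun ω => psi W (b j) (η j * ω)) c r') := by
    funext j
    rw [e1 j, e2 j, e3 j, e4 j]
    ring
  rw [hl] at l1
  have := tendsto_nhds_unique l1 l2
  linarith

end MP16b755
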