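import Pool.Agent.Lib.MP_16b755_an.Spec

/-!
# MP_16b755_an: the doubling inequality
-/

set_option autoImplicit false

namespace MP16b755

open MeasureTheory Metric Set Filter Topology

section

variable {W : ℂ → ℝ} {B C ε c₀ : ℝ} {ζ : ℂ}

lemma infa_ball {c ω : ℂ} (h : ω ∈ ball c 1) : |ω.re - c.re| < 1 ∧ |ω.im - c.im| < 1 ∧
    ‖c‖ - 1 < ‖ω‖ ∧ ‖ω‖ < ‖c‖ + 1 := by
  rw [mem_ball, dist_eq_norm] at h
  have h1 := Complex.abs_re_le_norm (ω - c)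
  have h2 := Complex.abs_im_le_norm (ω - c)
  rw [Complex.sub_re] at h1
  rw [Complex.sub_im] at h2
  have h3 := norm_sub_norm_le ω c
  have h4 := norm_sub_norm_le c ω
  rw [norm_sub_rev c ω] at h4
  exact ⟨by linarith, by linarith, by linarith, by linarith⟩

lemma infa_int (hBas : StmtBas) (hP : Pot W B C ε c₀) (hζ : ‖ζ‖ = 1) {c : ℂ} (hc : 1 < c.re) :
    IntegrableOn (Psi W ζ) (ball c 1) := by
  obtain ⟨_, h2, _, _, h5, _⟩ := hBas W B C ε c₀ hP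
  obtain ⟨M, _, hM⟩ := h5 c 1 hc
  exact intOn (h2 ζ) fun ω hω => hM ζ ω hζ (ball_subset_closedBall hω)

lemma infa_low (hBas : StmtBas) (hP : Pot W B C ε c₀) (hζ : ‖ζ‖ = 1) {c : ℂ} (hc : 1 < c.re) :
    -Real.log B ≤ av (Psi W ζ) c 1 := by
  obtain ⟨_, _, _, h4, _⟩ := hBas W B C ε c₀ hP
  refine le_av one_pos (infa_int hBas hP hζ hc) fun ω hω => h4 ζ ω hζ ?_
  have := (infa_ball hω).1
  rw [abs_lt] at this
  linarith

lemma infa_C (hP : Pot W B C ε c₀) : 16 ≤ 16 * C ^ 2 := by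
  have := hP.C1
  nlinarith

lemma infa_ge (hBas : StmtBas) (hCmp : StmtCmp) (hP : Pot W B C ε c₀) (hζ : ‖ζ‖ = 1) {c : ℂ}
    {σ : ℝ} (hσ : 1 / ε < σ) (hc : 16 * C ^ 2 + 1 ≤ c.re)
    (h : ∀ ω ∈ ball c 1, 2 / ε < ‖ω‖ ∧ σ ≤ ‖ω‖ ^ 2 / (2 * ω.re)) :
    Psi W ζ (σ : ℂ) ≤ av (Psi W ζ) c 1 := by
  have hC := infa_C hP
  obtain ⟨h1, h2⟩ := hCmp W B C ε c₀ hP ζ hζ
  refine le_av one_pos (infa_int hBas hP hζ (by linarith)) fun ω hω => ?_
  have h3 := (infa_ball hω).1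
  rw [abs_lt] at h3
  obtain ⟨h4, h5⟩ := h ω hω
  exact (h1 _ _ hσ h5).trans (h2 ω (by linarith) h4).1

lemma infa_le (hBas : StmtBas) (hCmp : StmtCmp) (hP : Pot W B C ε c₀) (hζ : ‖ζ‖ = 1) {c : ℂ}
    {F : ℝ} (hc : 16 * C ^ 2 + 1 ≤ c.re)
    (h : ∀ ω ∈ ball c 1, 2 / ε < ‖ω‖ ∧ Psi W ζ ((4 * ‖ω‖ ^ 2 / ω.re : ℝ) : ℂ) ≤ F) :
    av (Psi W ζ) c 1 ≤ F := by
  have hC := infa_C hP
  obtain ⟨h1, h2⟩ := hCmp W B C ε c₀ hP ζ hζ
  refine av_le one_pos (infa_int hBas hP hζ (by linarith)) fun ω hω => ?_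
  have h3 := (infa_ball hω).1
  rw [abs_lt] at h3
  obtain ⟨h4, h5⟩ := h ω hω
  exact (h2 ω (by linarith) h4).2.1.trans h5

/-- The lower bound at infinity. -/
lemma infa_inf (hBas : StmtBas) (hCmp : StmtCmp) (hP : Pot W B C ε c₀) (hζ : ‖ζ‖ = 1) {c : ℂ}
    {σ : ℝ} (hσ : 1 / ε < σ) (hc : 16 * C ^ 2 + 1 ≤ c.re) (h : 2 * σ + 1 ≤ ‖c‖) :
    Psi W ζ (σ : ℂ) ≤ av (Psi W ζ) c 1 := by
  have hC := infa_C hP
  have he : 0 < 1 / ε := one_div_pos.2 hP.e0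
  have he2 : 2 / ε = 2 * (1 / ε) := by ring
  refine infa_ge hBas hCmp hP hζ hσ hc fun ω hω => ?_
  obtain ⟨h1, _, h3, _⟩ := infa_ball hω
  rw [abs_lt] at h1
  have h4 : 0 < ω.re := by linarith
  have h5 := Complex.re_le_norm ω
  refine ⟨by rw [he2]; linarith, ?_⟩
  rw [le_div_iff₀ (by linarith)]
  have h6 : 2 * σ < ‖ω‖ := by linarith
  nlinarith

/-- The lower bound on a vertical line. -/
lemma infa_line (hBas : StmtBas) (hCmp : StmtCmp) (hP : Pot W B C ε c₀) (hζ : ‖ζ‖ = 1)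
    {σ y : ℝ} (hσ : 1 / ε < σ) (hy : 2 / ε + 2 ≤ |y|)
    (h : σ * (8 * (16 * C ^ 2 + 3)) ≤ y ^ 2) :
    Psi W ζ (σ : ℂ) ≤ av (Psi W ζ) (((16 * C ^ 2 + 2 : ℝ) : ℂ) + y * Complex.I) 1 := by
  have hC := infa_C hP
  have he : 0 < 1 / ε := one_div_pos.2 hP.e0
  have he2 : 2 / ε = 2 * (1 / ε) := by ring
  have hre : (((16 * C ^ 2 + 2 : ℝ) : ℂ) + y * Complex.I).re = 16 * C ^ 2 + 2 := by
    simp only [Complex.add_re, Complex.mul_re, Complex.ofReal_re, Complex.ofReal_im,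
      Complex.I_re, Complex.I_im]
    ring
  have him : (((16 * C ^ 2 + 2 : ℝ) : ℂ) + y * Complex.I).im = y := by
    simp only [Complex.add_im, Complex.mul_im, Complex.ofReal_re, Complex.ofReal_im,
      Complex.I_re, Complex.I_im]
    ring
  refine infa_ge hBas hCmp hP hζ hσ (by rw [hre]; linarith) fun ω hω => ?_
  obtain ⟨h1, h2, _, _⟩ := infa_ball hω
  rw [hre, abs_lt] at h1
  rw [him] at h2
  have h3 : |y| - 1 < |ω.im| := by
    have := abs_sub_abs_le_abs_sub y ω.im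
    rw [abs_sub_comm] at this
    linarith
  have h4 := Complex.abs_im_le_norm ω
  refine ⟨by linarith, ?_⟩
  rw [le_div_iff₀ (by linarith)]
  have h5 : |y| / 2 ≤ ‖ω‖ := by linarith
  have h6 : y ^ 2 / 4 ≤ ‖ω‖ ^ 2 := by
    have h7 : (|y| / 2) ^ 2 ≤ ‖ω‖ ^ 2 := pow_le_pow_left₀ (by positivity) h5 2
    rw [div_pow, sq_abs] at h7
    linarith
  have h8 : σ * (2 * ω.re) ≤ σ * (2 * (16 * C ^ 2 + 3)) :=
    mul_le_mul_of_nonneg_left (by linarith) (by linarith)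
  linarith

end

theorem tInfA (hBas : StmtBas) (hCmp : StmtCmp) (hMv : StmtMv) (hBar : StmtBar) : StmtInfA := by
  intro W B C ε c₀ hP ζ hζ hMV _
  have hC := infa_C hP
  have he : 0 < 1 / ε := one_div_pos.2 hP.e0
  obtain ⟨E, hE⟩ : ∃ E : ℝ, E = 2 / ε := ⟨_, rfl⟩
  have hE1 : E = 2 * (1 / ε) := by rw [hE]; ring
  obtain ⟨S, hS⟩ : ∃ S : ℝ, S = 16 * C ^ 2 + 2 := ⟨_, rfl⟩
  obtain ⟨K, hK0, hK⟩ : ∃ K : ℝ, 0 < K ∧ K ^ 2 = 128 * (16 * C ^ 2 + 3) :=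
    ⟨√(128 * (16 * C ^ 2 + 3)), Real.sqrt_pos.2 (by positivity), Real.sq_sqrt (by positivity)⟩
  have hK1 : 1 ≤ K := by
    by_contra hcon
    push Not at hcon
    nlinarith
  obtain ⟨_, hm, _, hb4, hb5, _⟩ := hBas W B C ε c₀ hP
  obtain ⟨hc1, hc2⟩ := hCmp W B C ε c₀ hP ζ hζ
  obtain ⟨hMv1, hMv2⟩ := hMv (Psi W ζ) (16 * C ^ 2) (by linarith) (hm ζ)
    (fun c r hcr => by
      obtain ⟨M, hM0, hM⟩ := hb5 c r hcr
      exact ⟨M, hM0, fun ω hω => hM ζ ω hζ hω⟩) hMV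
  -- the lower bound for all large `σ`
  have key : ∀ σ : ℝ, (E + 2) ^ 2 + 2 * S + 5 ≤ σ →
      (Psi W ζ ((16 * σ : ℝ) : ℂ) + Real.log B) * (1 - 2 * K / √σ) ≤
        Psi W ζ ((8 * σ : ℝ) : ℂ) + Real.log B := by
    intro σ hσ
    have hE0 : 0 < E := by rw [hE1]; linarith
    have hσ0 : 0 < σ := by nlinarith
    have hsq : 0 < √σ := Real.sqrt_pos.2 hσ0
    have hsq2 : √σ ^ 2 = σ := Real.sq_sqrt hσ0.le
    have hsE : E + 2 ≤ √σ := by
      rw [← Real.sqrt_sq (by linarith : (0 : ℝ) ≤ E + 2)]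
      exact Real.sqrt_le_sqrt (by nlinarith)
    obtain ⟨N, hN⟩ : ∃ N : ℝ, N = Psi W ζ ((16 * σ : ℝ) : ℂ) := ⟨_, rfl⟩
    have h16 : 1 / ε < 16 * σ := by nlinarith
    have hd : 0 ≤ N + Real.log B := by
      have := hb4 ζ ((16 * σ : ℝ) : ℂ) hζ (by rw [Complex.ofReal_re]; linarith)
      rw [hN]
      linarith
    have hline : ∀ y : ℝ, K * √σ ≤ |y| → N ≤ av (Psi W ζ) ((S : ℂ) + y * Complex.I) 1 := by
      intro y hy
      rw [hN, hS]
      refine infa_line hBas hCmp hP hζ h16 ?_ ?_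
      · rw [← hE]
        nlinarith
      · have h1 : (K * √σ) ^ 2 ≤ |y| ^ 2 := pow_le_pow_left₀ (by positivity) hy 2
        rw [mul_pow, hsq2, hK, sq_abs] at h1
        linarith
    have h1 := hBar (fun ω => av (Psi W ζ) ω 1) S N (N + Real.log B) 0 (K * √σ) (K * √σ) hd
      le_rfl (by positivity) le_rfl
      (hMv1.mono fun ω hω => by
        have hω' : S ≤ ω.re := hω
        change 16 * C ^ 2 + 1 < ω.re
        linarith)
      (fun c hc => ⟨1 / 2, by norm_num, fun ρ h0 h1 => hMv2 c ρ h0 h1.le (by linarith)⟩)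
      (fun y => by
        have h2 := infa_low (c := (S : ℂ) + y * Complex.I) hBas hP hζ (by
          simp only [Complex.add_re, Complex.mul_re, Complex.ofReal_re, Complex.ofReal_im,
            Complex.I_re, Complex.I_im]
          linarith)
        change N - (N + Real.log B) - 0 ≤ av (Psi W ζ) ((S : ℂ) + y * Complex.I) 1
        linarith)
      (fun y hy => by
        have h2 := hline y hy
        change N - 0 ≤ av (Psi W ζ) ((S : ℂ) + y * Complex.I) 1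
        linarith)
      (fun y hy => hline y hy)
      (fun e he' => ⟨2 * (16 * σ) + 1, fun ω h2 h3 => by
        have h4 := infa_inf (c := ω) hBas hCmp hP hζ h16 (by linarith) h3
        change N - e ≤ av (Psi W ζ) ω 1
        rw [hN]
        linarith⟩)
      σ (by nlinarith)
    have h2 : av (Psi W ζ) (σ : ℂ) 1 ≤ Psi W ζ ((8 * σ : ℝ) : ℂ) := by
      have hre : ((σ : ℝ) : ℂ).re = σ := Complex.ofReal_re σ
      have hnm : ‖((σ : ℝ) : ℂ)‖ = σ := by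
        rw [Complex.norm_real, Real.norm_eq_abs, abs_of_pos hσ0]
      refine infa_le hBas hCmp hP hζ (by rw [hre]; nlinarith) fun ω hω => ?_
      obtain ⟨h3, _, _, h5⟩ := infa_ball hω
      rw [hre, abs_lt] at h3
      rw [hnm] at h5
      have h6 := Complex.re_le_norm ω
      have h7 : 2 / ε < ‖ω‖ := by
        rw [← hE]
        nlinarith
      refine ⟨h7, ?_⟩
      have h8 := (hc2 ω (by nlinarith) h7).2.2
      have h9 : 0 < ω.re := by nlinarith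
      have h10 : ‖ω‖ ^ 2 / (2 * ω.re) ≤ 4 * ‖ω‖ ^ 2 / ω.re := by
        rw [div_le_div_iff₀ (by linarith) h9]
        nlinarith [sq_nonneg ‖ω‖, mul_nonneg (sq_nonneg ‖ω‖) h9.le]
      refine hc1 _ _ (h8.trans_le h10) ?_
      rw [div_le_iff₀ h9]
      have h11 : ‖ω‖ ^ 2 ≤ (σ + 1) ^ 2 := pow_le_pow_left₀ (norm_nonneg ω) h5.le 2
      have h12 : 5 ≤ σ := by nlinarith
      have h13 : 8 * σ * (σ - 1) ≤ 8 * σ * ω.re :=
        mul_le_mul_of_nonneg_left (by linarith) (by linarith)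
      nlinarith
    have h3 : N - ((N + Real.log B) * (K * √σ) + 0 * (K * √σ)) / (σ - S) ≤
        Psi W ζ ((8 * σ : ℝ) : ℂ) := h1.trans h2
    have h4 : (N + Real.log B) * (K * √σ) / (σ - S) ≤ (N + Real.log B) * (2 * K / √σ) := by
      rw [mul_div_assoc]
      refine mul_le_mul_of_nonneg_left ?_ hd
      rw [div_le_div_iff₀ (by nlinarith) hsq]
      have h5 : K * √σ * √σ = K * σ := by rw [mul_assoc, ← sq, hsq2]
      rw [h5]
      nlinarith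
    rw [zero_mul, add_zero] at h3
    rw [← hN]
    linarith
  have h8pos : (0 : ℝ) < √8 := Real.sqrt_pos.2 (by norm_num)
  refine ⟨2 * √8 * K, 8 * ((E + 2) ^ 2 + 2 * S + 5), by positivity, by nlinarith,
    fun τ hτ => ?_⟩
  have h1 := key (τ / 8) (by linarith)
  have e1 : 16 * (τ / 8) = 2 * τ := by ring
  have e2 : 8 * (τ / 8) = τ := by ring
  have hτ0 : 0 < τ := by nlinarith
  have e3 : 2 * K / √(τ / 8) = 2 * √8 * K / √τ := by
    rw [Real.sqrt_div hτ0.le]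
    have h2 : 0 < √τ := Real.sqrt_pos.2 hτ0
    field_simp
  rw [e1, e2, e3] at h1
  exact h1

end MP16b755
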