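import Pool.Agent.Lib.MP_16b755_an.Spec

/-!
# A function with the doubling inequality is bounded
-/

set_option autoImplicit false

namespace MP16b755

theorem tInfB : StmtInfB := by
  intro g K τ₀ hK hg hmono hd
  set τ₁ : ℝ := max (max τ₀ 1) (4 * K ^ 2) with hτ
  have h0 : τ₀ ≤ τ₁ := (le_max_left _ _).trans (le_max_left _ _)
  have h1 : 1 ≤ τ₁ := (le_max_right _ _).trans (le_max_left _ _)
  have h2 : 4 * K ^ 2 ≤ τ₁ := le_max_right _ _
  have hτ1 : 0 < τ₁ := by linarith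
  have hsq : 0 < √τ₁ := Real.sqrt_pos.2 hτ1
  have h3 : 2 * K ≤ √τ₁ := by
    rw [Real.le_sqrt' (by positivity)]
    linarith
  have hx0 : K / √τ₁ ≤ 1 / 2 := by
    rw [div_le_div_iff₀ hsq (by norm_num)]
    linarith
  set x₀ : ℝ := K / √τ₁ with hx
  have hx1 : 0 < x₀ := div_pos hK hsq
  have hge : ∀ j : ℕ, τ₁ ≤ 2 ^ j * τ₁ := fun j =>
    le_mul_of_one_le_left hτ1.le (one_le_pow₀ (by norm_num))
  have hind : ∀ j : ℕ, g (2 ^ j * τ₁) ≤ g τ₁ * Real.exp (8 * x₀ * (1 - (3 / 4) ^ j)) := by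
    intro j
    induction j with
    | zero => simp
    | succ j ih =>
      have hτj : 0 < 2 ^ j * τ₁ := by positivity
      have hs1 : √τ₁ * (4 / 3) ^ j ≤ √(2 ^ j * τ₁) := by
        rw [Real.le_sqrt' (by positivity), mul_pow, Real.sq_sqrt hτ1.le, ← pow_mul, mul_comm j 2,
          pow_mul, mul_comm]
        refine mul_le_mul_of_nonneg_right ?_ hτ1.le
        exact pow_le_pow_left₀ (by norm_num) (by norm_num) j
      have hxj : K / √(2 ^ j * τ₁) ≤ x₀ * (3 / 4) ^ j := by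
        calc K / √(2 ^ j * τ₁) ≤ K / (√τ₁ * (4 / 3) ^ j) :=
              div_le_div_of_nonneg_left hK.le (by positivity) hs1
          _ = x₀ * (3 / 4) ^ j := by
              have e1 : ((3 : ℝ) / 4) ^ j = ((4 / 3) ^ j)⁻¹ := by
                rw [← inv_pow]
                norm_num
              rw [hx, e1, ← div_div, div_eq_mul_inv (K / √τ₁)]
      set x : ℝ := K / √(2 ^ j * τ₁) with hxdef
      have hxp : 0 ≤ x := by positivity
      have hpow : ((3 : ℝ) / 4) ^ j ≤ 1 := pow_le_one₀ (by norm_num) (by norm_num)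
      have hxh : x ≤ 1 / 2 := by
        have : x₀ * (3 / 4) ^ j ≤ x₀ * 1 := mul_le_mul_of_nonneg_left hpow hx1.le
        linarith
      have hdj := hd (2 ^ j * τ₁) (h0.trans (hge j))
      have e2 : 2 * (2 ^ j * τ₁) = 2 ^ (j + 1) * τ₁ := by ring
      rw [e2] at hdj
      have hgn : 0 ≤ g (2 ^ (j + 1) * τ₁) := hg _ (h0.trans (hge (j + 1)))
      have h4 : g (2 ^ (j + 1) * τ₁) ≤ g (2 ^ j * τ₁) * Real.exp (2 * x) := by
        have h5 : 1 ≤ (1 - x) * (1 + 2 * x) := by nlinarith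
        calc g (2 ^ (j + 1) * τ₁) ≤ g (2 ^ (j + 1) * τ₁) * ((1 - x) * (1 + 2 * x)) :=
              le_mul_of_one_le_right hgn h5
          _ = (g (2 ^ (j + 1) * τ₁) * (1 - x)) * (1 + 2 * x) := by ring
          _ ≤ g (2 ^ j * τ₁) * (1 + 2 * x) :=
              mul_le_mul_of_nonneg_right hdj (by linarith)
          _ ≤ g (2 ^ j * τ₁) * Real.exp (2 * x) := by
              refine mul_le_mul_of_nonneg_left ?_ (hg _ (h0.trans (hge j)))
              have := Real.add_one_le_exp (2 * x)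
              linarith
      calc g (2 ^ (j + 1) * τ₁) ≤ g (2 ^ j * τ₁) * Real.exp (2 * x) := h4
        _ ≤ (g τ₁ * Real.exp (8 * x₀ * (1 - (3 / 4) ^ j))) * Real.exp (2 * x) :=
            mul_le_mul_of_nonneg_right ih (Real.exp_pos _).le
        _ = g τ₁ * Real.exp (8 * x₀ * (1 - (3 / 4) ^ j) + 2 * x) := by
            rw [Real.exp_add, mul_assoc]
        _ ≤ g τ₁ * Real.exp (8 * x₀ * (1 - (3 / 4) ^ (j + 1))) := by
            refine mul_le_mul_of_nonneg_left (Real.exp_le_exp.2 ?_) (hg _ h0)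
            rw [pow_succ]
            linarith
  refine ⟨g τ₁ * Real.exp (8 * x₀), fun τ hτ' => ?_⟩
  obtain ⟨j, hj⟩ := pow_unbounded_of_one_lt τ (one_lt_two (α := ℝ))
  have hle : τ ≤ 2 ^ j * τ₁ := hj.le.trans (le_mul_of_one_le_right (by positivity) h1)
  refine ((hmono _ _ hτ' hle).trans (hind j)).trans ?_
  refine mul_le_mul_of_nonneg_left (Real.exp_le_exp.2 ?_) (hg _ h0)
  have : 0 ≤ 8 * x₀ * (3 / 4) ^ j := by positivity
  linarith

end MP16b755
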