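import Pool.Agent.Lib.MP_16b755_an.Spec

/-!
# MP_16b755_an: the statement Kak

The automorphisms of the disc in half plane coordinates.
-/

set_option autoImplicit false

namespace MP16b755

open MeasureTheory Metric Set Filter Topology

lemma kak_den {α w : ℂ} (hα : ‖α‖ < 1) (hw : ‖w‖ < 1) :
    1 - ‖w‖ ≤ ‖1 - starRingEnd ℂ α * w‖ ∧ ‖1 - starRingEnd ℂ α * w‖ ≤ 2 := by
  have h1 : ‖starRingEnd ℂ α * w‖ ≤ ‖w‖ := by
    rw [norm_mul, RCLike.norm_conj]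
    nlinarith [norm_nonneg w, norm_nonneg α]
  constructor
  · have := norm_sub_norm_le (1 : ℂ) (starRingEnd ℂ α * w)
    rw [norm_one] at this
    linarith
  · have := norm_sub_le (1 : ℂ) (starRingEnd ℂ α * w)
    rw [norm_one] at this
    linarith

lemma kak_norm {e α w : ℂ} (he : ‖e‖ = 1) (hα : ‖α‖ < 1) (hw : ‖w‖ < 1) :
    (1 - ‖w‖ ^ 2) * (1 - ‖α‖ ^ 2) ≤
      4 * (1 - ‖e * (w - α) / (1 - starRingEnd ℂ α * w)‖ ^ 2) := by
  obtain ⟨h1, h2⟩ := kak_den hα hw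
  have h3 : 0 < ‖1 - starRingEnd ℂ α * w‖ := by linarith
  have hD : 0 < ‖1 - starRingEnd ℂ α * w‖ ^ 2 := by positivity
  have hD4 : ‖1 - starRingEnd ℂ α * w‖ ^ 2 ≤ 4 := by nlinarith
  have hid : ‖1 - starRingEnd ℂ α * w‖ ^ 2 - ‖w - α‖ ^ 2 = (1 - ‖w‖ ^ 2) * (1 - ‖α‖ ^ 2) := by
    rw [← Complex.normSq_eq_norm_sq, ← Complex.normSq_eq_norm_sq, ← Complex.normSq_eq_norm_sq,
      ← Complex.normSq_eq_norm_sq, Complex.normSq_apply, Complex.normSq_apply,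
      Complex.normSq_apply, Complex.normSq_apply]
    simp
    ring
  have hp : 0 ≤ (1 - ‖w‖ ^ 2) * (1 - ‖α‖ ^ 2) := by
    apply mul_nonneg <;> nlinarith [norm_nonneg w, norm_nonneg α]
  rw [norm_div, norm_mul, he, one_mul, div_pow]
  have h4 : 1 - ‖w - α‖ ^ 2 / ‖1 - starRingEnd ℂ α * w‖ ^ 2 =
      (1 - ‖w‖ ^ 2) * (1 - ‖α‖ ^ 2) / ‖1 - starRingEnd ℂ α * w‖ ^ 2 := by
    rw [← hid, sub_div, div_self hD.ne']
  rw [h4, ← mul_div_assoc, le_div_iff₀ hD]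
  nlinarith

/-- The norms of the centres tend to `1`. -/
lemma kak_lim {m : ℕ → ℂ → ℂ} {e α : ℕ → ℂ} {w₀ ζ : ℂ} (he : ∀ j, ‖e j‖ = 1)
    (hα : ∀ j, ‖α j‖ < 1)
    (hm : ∀ j, ∀ w ∈ ball (0 : ℂ) 1, m j w = e j * (w - α j) / (1 - starRingEnd ℂ (α j) * w))
    (hw : ‖w₀‖ < 1) (hζ : ‖ζ‖ = 1) (hl : Tendsto (fun j => m j w₀) atTop (𝓝 ζ)) :
    Tendsto (fun j => ‖α j‖) atTop (𝓝 1) := by
  have hwb : w₀ ∈ ball (0 : ℂ) 1 := by
    rw [mem_ball_zero_iff]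
    exact hw
  have hc : 0 < 1 - ‖w₀‖ ^ 2 := by nlinarith [norm_nonneg w₀]
  have hlow : ∀ j, 1 - 4 / (1 - ‖w₀‖ ^ 2) * (1 - ‖m j w₀‖ ^ 2) ≤ ‖α j‖ := by
    intro j
    have h1 := kak_norm (he j) (hα j) hw
    rw [← hm j w₀ hwb] at h1
    have h2 : 1 - ‖α j‖ ^ 2 ≤ 4 / (1 - ‖w₀‖ ^ 2) * (1 - ‖m j w₀‖ ^ 2) := by
      rw [div_mul_eq_mul_div, le_div_iff₀ hc]
      linarith
    nlinarith [norm_nonneg (α j), hα j]
  have hlim : Tendsto (fun j => 1 - 4 / (1 - ‖w₀‖ ^ 2) * (1 - ‖m j w₀‖ ^ 2)) atTop (𝓝 1) := by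
    have h1 : Tendsto (fun j => 1 - 4 / (1 - ‖w₀‖ ^ 2) * (1 - ‖m j w₀‖ ^ 2)) atTop
        (𝓝 (1 - 4 / (1 - ‖w₀‖ ^ 2) * (1 - ‖ζ‖ ^ 2))) :=
      (((hl.norm.pow 2).const_sub 1).const_mul _).const_sub 1
    rw [hζ] at h1
    simpa using h1
  exact tendsto_of_tendsto_of_tendsto_of_le_of_le hlim tendsto_const_nhds hlow
    (fun j => (hα j).le)

/-- The map in the half plane coordinate. -/
lemma kak_id {e b ω : ℂ} {a : ℝ} (hb : ‖b‖ = 1) (ha0 : 0 ≤ a) (ha : a < 1) (hω : 0 < ω.re) :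
    e * (cay b (((1 - a) / (1 + a) : ℝ) * ω) - a * b) /
      (1 - starRingEnd ℂ ((a : ℂ) * b) * cay b (((1 - a) / (1 + a) : ℝ) * ω)) =
      cay (-(e * b)) ω⁻¹ := by
  have hω0 : ω ≠ 0 := by
    rintro rfl
    simp at hω
  have h1ω : 1 + ω ≠ 0 := one_add_ne hω
  have h1i : 1 + ω⁻¹ ≠ 0 := one_add_ne (inv_re_pos hω)
  have hbb : starRingEnd ℂ b * b = 1 := by
    rw [mul_comm, Complex.mul_conj, Complex.normSq_eq_norm_sq, hb]
    norm_num
  have hη : 0 < (1 - a) / (1 + a) := div_pos (by linarith) (by linarith)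
  set x : ℂ := ((1 - a) / (1 + a) : ℝ) * ω with hx
  have hx1 : 1 + x ≠ 0 := by
    apply one_add_ne
    rw [hx, Complex.re_ofReal_mul]
    positivity
  have ha1 : (1 : ℂ) - a ≠ 0 := by
    have : (((1 - a : ℝ)) : ℂ) ≠ 0 := by
      exact_mod_cast (by linarith : (0 : ℝ) < 1 - a).ne'
    simpa using this
  have ha2 : (1 : ℂ) + a ≠ 0 := by
    have : (((1 + a : ℝ)) : ℂ) ≠ 0 := by
      exact_mod_cast (by linarith : (0 : ℝ) < 1 + a).ne'
    simpa using this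
  have hxa : (1 + (a : ℂ)) * x = (1 - a) * ω := by
    rw [hx]
    push_cast
    field_simp
  have e1 : e * (cay b x - a * b) = e * b * ((1 - a) * (1 - ω)) / (1 + x) := by
    rw [cay, eq_div_iff hx1]
    have : e * (b * (1 - x) / (1 + x) - a * b) * (1 + x) =
        e * b * ((1 - a) - (1 + (a : ℂ)) * x) := by
      field_simp
      ring
    rw [this, hxa]
    ring
  have e2 : 1 - starRingEnd ℂ ((a : ℂ) * b) * cay b x = (1 - a) * (1 + ω) / (1 + x) := by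
    rw [cay, map_mul, Complex.conj_ofReal, eq_div_iff hx1]
    have : (1 - ↑a * starRingEnd ℂ b * (b * (1 - x) / (1 + x))) * (1 + x) =
        (1 + x) - a * (starRingEnd ℂ b * b) * (1 - x) := by
      field_simp
    rw [this, hbb]
    have h3 : 1 + x - ↑a * 1 * (1 - x) = (1 - a) + (1 + (a : ℂ)) * x := by ring
    rw [h3, hxa]
    ring
  have e3 : cay (-(e * b)) ω⁻¹ = e * b * (1 - ω) / (1 + ω) := by
    have hs : 1 + ω⁻¹ = (1 + ω) / ω := by
      field_simp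
      ring
    have hs' : 1 - ω⁻¹ = (ω - 1) / ω := by
      field_simp
    rw [cay, hs, hs']
    field_simp
    ring
  rw [e1, e2, e3, div_div_div_cancel_right₀ hx1]
  field_simp

/-- The distance of the value at `w` from the point `-e b`. -/
lemma kak_dist {e b w : ℂ} {a : ℝ} (he : ‖e‖ = 1) (hb : ‖b‖ = 1) (ha0 : 0 ≤ a) (ha : a < 1)
    (hw : ‖w‖ < 1) :
    ‖-(e * b) - e * (w - a * b) / (1 - starRingEnd ℂ ((a : ℂ) * b) * w)‖ ≤
      (1 - a) * (2 / (1 - ‖w‖)) := by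
  have hab : ‖(a : ℂ) * b‖ < 1 := by
    rw [norm_mul, hb, mul_one, Complex.norm_real, Real.norm_eq_abs, abs_of_nonneg ha0]
    exact ha
  obtain ⟨h1, -⟩ := kak_den hab hw
  have h3 : 0 < 1 - ‖w‖ := by linarith
  have hne : 1 - starRingEnd ℂ ((a : ℂ) * b) * w ≠ 0 := by
    rw [← norm_pos_iff]
    linarith
  have hbb : starRingEnd ℂ b * b = 1 := by
    rw [mul_comm, Complex.mul_conj, Complex.normSq_eq_norm_sq, hb]
    norm_num
  have e1 : -(e * b) - e * (w - a * b) / (1 - starRingEnd ℂ ((a : ℂ) * b) * w) =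
      -(e * ((((1 - a : ℝ)) : ℂ) * (w + b))) / (1 - starRingEnd ℂ ((a : ℂ) * b) * w) := by
    rw [eq_div_iff hne, sub_mul, div_mul_cancel₀ _ hne, map_mul, Complex.conj_ofReal]
    have : -(e * b) * (1 - ↑a * starRingEnd ℂ b * w) =
        -(e * b) + e * a * (starRingEnd ℂ b * b) * w := by ring
    rw [this, hbb]
    push_cast
    ring
  rw [e1, norm_div, norm_neg, norm_mul, he, one_mul, norm_mul, Complex.norm_real,
    Real.norm_eq_abs, abs_of_pos (by linarith : 0 < 1 - a), mul_div_assoc]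
  apply mul_le_mul_of_nonneg_left _ (by linarith)
  have h4 : ‖w + b‖ ≤ 2 := by
    have := norm_add_le w b
    linarith
  exact div_le_div₀ (by norm_num) h4 h3 h1

theorem tKak : StmtKak := by
  intro m e α w₀ ζ he hα hm hw hζ hl
  have hwb : w₀ ∈ ball (0 : ℂ) 1 := by
    rw [mem_ball_zero_iff]
    exact hw
  have hlim := kak_lim he hα hm hw hζ hl
  obtain ⟨j₀, hj₀⟩ := Filter.eventually_atTop.1 (hlim.eventually (lt_mem_nhds (by norm_num : (0 : ℝ) < 1)))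
  have hJ : Tendsto (fun j : ℕ => j + j₀) atTop atTop := tendsto_add_atTop_nat j₀
  have hpos : ∀ j : ℕ, 0 < ‖α (j + j₀)‖ := fun j => hj₀ _ (by omega)
  have hlim' : Tendsto (fun j : ℕ => ‖α (j + j₀)‖) atTop (𝓝 1) := hlim.comp hJ
  have hb : ∀ j : ℕ, ‖α (j + j₀) / (‖α (j + j₀)‖ : ℂ)‖ = 1 := by
    intro j
    rw [norm_div, Complex.norm_real, norm_norm, div_self (hpos j).ne']
  have hαb : ∀ j : ℕ, α (j + j₀) = (‖α (j + j₀)‖ : ℂ) * (α (j + j₀) / (‖α (j + j₀)‖ : ℂ)) := by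
    intro j
    have : (‖α (j + j₀)‖ : ℂ) ≠ 0 := by
      exact_mod_cast (hpos j).ne'
    field_simp
  refine ⟨fun j => j + j₀, fun j => α (j + j₀) / (‖α (j + j₀)‖ : ℂ),
    fun j => (1 - ‖α (j + j₀)‖) / (1 + ‖α (j + j₀)‖),
    fun j => -(e (j + j₀) * (α (j + j₀) / (‖α (j + j₀)‖ : ℂ))), hb, ?_, ?_, ?_, ?_, ?_⟩
  · intro j
    have := hα (j + j₀)
    have := hpos j
    exact div_pos (by linarith) (by linarith)
  · have h1 : Tendsto (fun j : ℕ => (1 - ‖α (j + j₀)‖) / (1 + ‖α (j + j₀)‖)) atTop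
        (𝓝 ((1 - 1) / (1 + 1))) :=
      (hlim'.const_sub 1).div (hlim'.const_add 1) (by norm_num)
    simpa using h1
  · intro j
    change ‖-(e (j + j₀) * (α (j + j₀) / (‖α (j + j₀)‖ : ℂ)))‖ = 1
    rw [norm_neg, norm_mul, he, hb, mul_one]
  · -- the limit of the points
    have h1 : Tendsto (fun j : ℕ => m (j + j₀) w₀) atTop (𝓝 ζ) := hl.comp hJ
    have h2 : Tendsto (fun j : ℕ => -(e (j + j₀) * (α (j + j₀) / (‖α (j + j₀)‖ : ℂ))) -
        m (j + j₀) w₀) atTop (𝓝 0) := by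
      apply squeeze_zero_norm (a := fun j : ℕ => (1 - ‖α (j + j₀)‖) * (2 / (1 - ‖w₀‖)))
      · intro j
        rw [hm (j + j₀) w₀ hwb]
        have h3 := kak_dist (he (j + j₀)) (hb j) (norm_nonneg (α (j + j₀))) (hα (j + j₀)) hw
        rw [← hαb j] at h3
        exact h3
      · have h3 := (hlim'.const_sub 1).mul_const (2 / (1 - ‖w₀‖))
        simpa using h3
    have h3 := h2.add h1
    simpa using h3
  · intro j ω hω
    have hη : 0 < (1 - ‖α (j + j₀)‖) / (1 + ‖α (j + j₀)‖) := by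
      have := hα (j + j₀)
      have := hpos j
      exact div_pos (by linarith) (by linarith)
    have hmem : cay (α (j + j₀) / (‖α (j + j₀)‖ : ℂ))
        (((1 - ‖α (j + j₀)‖) / (1 + ‖α (j + j₀)‖) : ℝ) * ω) ∈ ball (0 : ℂ) 1 := by
      apply cay_mem (hb j)
      rw [Complex.re_ofReal_mul]
      positivity
    change m (j + j₀) (cay (α (j + j₀) / (‖α (j + j₀)‖ : ℂ))
        (((1 - ‖α (j + j₀)‖) / (1 + ‖α (j + j₀)‖) : ℝ) * ω)) =
      cay (-(e (j + j₀) * (α (j + j₀) / (‖α (j + j₀)‖ : ℂ)))) ω⁻¹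
    rw [hm (j + j₀) _ hmem]
    have h3 := kak_id (e := e (j + j₀)) (hb j) (norm_nonneg (α (j + j₀))) (hα (j + j₀)) hω
    rw [← hαb j] at h3
    exact h3

end MP16b755
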