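import Pool.Agent.Lib.MP_16b755_an.Spec

set_option autoImplicit false

namespace MP16b755

open MeasureTheory Metric Set Filter Topology

/-- The lower bound of the radial derivative near a boundary point over the circle. -/
lemma low_grad (hGrad : StmtGrad) {n : ℕ} {Ω : Set (Sp n)} {r : Sp n → ℝ} {k : Fin n} {p : Sp n}
    (hD : Dom Ω r k) (hp : p ∈ frontier Ω) (h1 : ‖p k‖ = 1) :
    ∃ l ε : ℝ, 0 < l ∧ 0 < ε ∧ ε < 1 ∧ ∀ y : Sp n, ‖y - p‖ < ε →
      l ≤ fderiv ℝ r y (EuclideanSpace.single k (y k)) := by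
  obtain ⟨l, ε, hl, hε, hε1, h⟩ := hGrad n Ω r k hD
  refine ⟨l, ε / 2, hl, by positivity, by linarith, fun y hy => ?_⟩
  obtain ⟨x, hx, hxp⟩ := Metric.mem_closure_iff.1 (frontier_subset_closure hp) (ε / 2)
    (by positivity)
  rw [dist_eq_norm] at hxp
  refine h x hx ?_ y ?_
  · have h2 := PiLp.norm_apply_le (p - x) k
    have h3 : ‖p k‖ ≤ ‖p k - x k‖ + ‖x k‖ := by
      simpa using norm_add_le (p k - x k) (x k)
    have h4 : (p - x) k = p k - x k := rfl
    rw [h4] at h2
    linarith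
  · have h5 : y - x = (y - p) + (p - x) := by abel
    rw [h5]
    exact lt_of_le_of_lt (norm_add_le _ _) (by linarith)

/-- The radial function and its derivative. -/
lemma low_deriv {n : ℕ} {r : Sp n → ℝ} {k : Fin n}
    (hr : ContDiff ℝ ((⊤ : ℕ∞) : WithTop ℕ∞) r) (x : Sp n) (z : ℂ) (t : ℝ) :
    HasDerivAt (fun s : ℝ => r (upd x k (z * s)))
      (fderiv ℝ r (upd x k (z * t)) (EuclideanSpace.single k z)) t := by
  have h1 : HasDerivAt (fun s : ℝ => upd x k (z * s)) (EuclideanSpace.single k z) t := by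
    have h2 : (fun s : ℝ => upd x k (z * s)) = fun s : ℝ =>
        (x - EuclideanSpace.single k (x k)) + s • (EuclideanSpace.single k z : Sp n) := by
      funext s
      ext i
      by_cases hi : i = k
      · subst hi
        simp [upd]
        ring
      · simp [upd, hi]
    rw [h2]
    have h3 := ((hasDerivAt_id t).smul_const (EuclideanSpace.single k z : Sp n)).const_add
      (x - EuclideanSpace.single k (x k))
    simpa using h3
  have h4 : HasFDerivAt r (fderiv ℝ r (upd x k (z * t))) (upd x k (z * t)) :=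
    (hr.differentiable (by simp)).differentiableAt.hasFDerivAt
  exact h4.comp_hasDerivAt t h1

/-- Radial descent. -/
lemma low_desc {n : ℕ} {r : Sp n → ℝ} {k : Fin n} {p : Sp n} {l ε : ℝ}
    (hr : ContDiff ℝ ((⊤ : ℕ∞) : WithTop ℕ∞) r) (hl : 0 < l) (hε : 0 < ε) (hε1 : ε < 1)
    (h : ∀ y : Sp n, ‖y - p‖ < ε → l ≤ fderiv ℝ r y (EuclideanSpace.single k (y k)))
    {x : Sp n} {ζ : ℂ} (hζ : ‖ζ‖ = 1) (hxk : x k = ζ) (hx : ‖x - p‖ < ε / 4) {u : ℝ} (hu : 0 < u)
    (hu1 : u < ε / 8) : r (upd x k (cay ζ u)) ≤ r x - l * u := by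
  set ρ₀ : ℝ := (1 - u) / (1 + u) with hρ₀
  have hρ0 : 0 < ρ₀ := div_pos (by linarith) (by linarith)
  have hρ1 : ρ₀ < 1 := by
    rw [hρ₀, div_lt_one (by linarith)]
    linarith
  have hρ2 : u ≤ 1 - ρ₀ := by
    have : 1 - ρ₀ = 2 * u / (1 + u) := by
      rw [hρ₀]
      field_simp
      ring
    rw [this, le_div_iff₀ (by linarith)]
    nlinarith
  have hρ3 : 1 - ρ₀ ≤ 2 * u := by
    have : 1 - ρ₀ = 2 * u / (1 + u) := by
      rw [hρ₀]
      field_simp
      ring
    rw [this, div_le_iff₀ (by linarith)]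
    nlinarith
  have hcay : cay ζ u = ζ * (ρ₀ : ℂ) := by
    rw [cay, hρ₀]
    push_cast
    ring
  have hx1 : upd x k (ζ * ((1 : ℝ) : ℂ)) = x := by
    rw [Complex.ofReal_one, mul_one, ← hxk, upd_self]
  have hder : ∀ t ∈ Icc ρ₀ 1, l ≤ fderiv ℝ r (upd x k (ζ * t)) (EuclideanSpace.single k ζ) := by
    intro t ht
    have ht0 : 0 < t := lt_of_lt_of_le hρ0 ht.1
    have h2 : ‖upd x k (ζ * t) - p‖ < ε := by
      have h3 : ‖upd x k (ζ * t) - x‖ = 1 - t := by
        rw [norm_upd_sub, hxk]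
        have : ζ * (t : ℂ) - ζ = ζ * ((t - 1 : ℝ) : ℂ) := by
          push_cast
          ring
        rw [this, norm_mul, hζ, one_mul, Complex.norm_real, Real.norm_eq_abs,
          abs_of_nonpos (by linarith [ht.2])]
        ring
      have h4 : upd x k (ζ * t) - p = (upd x k (ζ * t) - x) + (x - p) := by abel
      rw [h4]
      refine lt_of_le_of_lt (norm_add_le _ _) ?_
      rw [h3]
      linarith [ht.1]
    have h5 := h _ h2
    rw [upd_same] at h5
    have h6 : (EuclideanSpace.single k (ζ * (t : ℂ)) : Sp n) = t • EuclideanSpace.single k ζ := by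
      ext i
      by_cases hi : i = k
      · subst hi
        simp [mul_comm]
      · simp [hi]
    rw [h6, map_smul, smul_eq_mul] at h5
    set F := fderiv ℝ r (upd x k (ζ * t)) (EuclideanSpace.single k ζ)
    have hF : 0 < F := by
      by_contra hc
      push Not at hc
      nlinarith
    nlinarith [ht.2]
  have hmain := (convex_Icc ρ₀ 1).mul_sub_le_image_sub_of_le_deriv
    (f := fun s : ℝ => r (upd x k (ζ * s))) (C := l)
    (fun t _ => (low_deriv hr x ζ t).continuousAt.continuousWithinAt)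
    (fun t _ => (low_deriv hr x ζ t).differentiableAt.differentiableWithinAt)
    (fun t ht => by
      rw [(low_deriv hr x ζ t).deriv]
      exact hder t (interior_subset ht))
    ρ₀ ⟨le_rfl, hρ1.le⟩ 1 ⟨hρ1.le, le_rfl⟩ hρ1.le
  simp only [hx1] at hmain
  rw [hcay]
  nlinarith

lemma low_common {n : ℕ} (k : Fin n) (F : Fin n → ℝ → ℝ)
    (h : ∀ i, i ≠ k → ∃ K e u₀ : ℝ, 0 < K ∧ 0 < e ∧ 0 < u₀ ∧ ∀ u : ℝ, 0 < u → u < u₀ →
      F i u ≤ K * u ^ e) :
    ∃ K e u₀ : ℝ, 0 < K ∧ 0 < e ∧ 0 < u₀ ∧ u₀ ≤ 1 ∧ ∀ i, i ≠ k → ∀ u : ℝ, 0 < u → u < u₀ →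
      F i u ≤ K * u ^ e := by
  have key : ∀ s : Finset (Fin n), ∃ K e u₀ : ℝ, 0 < K ∧ 0 < e ∧ 0 < u₀ ∧ u₀ ≤ 1 ∧
      ∀ i ∈ s, i ≠ k → ∀ u : ℝ, 0 < u → u < u₀ → F i u ≤ K * u ^ e := by
    intro s
    induction s using Finset.induction_on with
    | empty => exact ⟨1, 1, 1, one_pos, one_pos, one_pos, le_rfl, by simp⟩
    | insert a s ha ih =>
      obtain ⟨K, e, u₀, hK, he, hu, hu1, hs⟩ := ih
      by_cases hak : a = k
      · refine ⟨K, e, u₀, hK, he, hu, hu1, ?_⟩
        intro i hi hik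
        rw [Finset.mem_insert] at hi
        rcases hi with rfl | hi
        · exact absurd hak hik
        · exact hs i hi hik
      · obtain ⟨K', e', u', hK', he', hu', hs'⟩ := h a hak
        have mono : ∀ (K₁ e₁ u : ℝ), 0 < K₁ → K₁ ≤ max K K' → min e e' ≤ e₁ → 0 < u → u ≤ 1 →
            K₁ * u ^ e₁ ≤ max K K' * u ^ (min e e') := by
          intro K₁ e₁ u h1 h2 h3 h4 h5
          refine mul_le_mul h2 ?_ (by positivity) (by positivity)
          exact Real.rpow_le_rpow_of_exponent_ge h4 h5 h3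
        refine ⟨max K K', min e e', min u₀ u', by positivity, by positivity, by positivity,
          (min_le_left _ _).trans hu1, ?_⟩
        intro i hi hik u hu0 hu2
        have hu3 : u < u₀ := lt_of_lt_of_le hu2 (min_le_left _ _)
        have hu4 : u < u' := lt_of_lt_of_le hu2 (min_le_right _ _)
        rw [Finset.mem_insert] at hi
        rcases hi with rfl | hi
        · exact (hs' u hu0 hu4).trans
            (mono K' e' u hK' (le_max_right _ _) (min_le_right _ _) hu0 (by linarith))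
        · exact (hs i hi hik u hu0 hu3).trans
            (mono K e u hK (le_max_left _ _) (min_le_left _ _) hu0 (by linarith))
  obtain ⟨K, e, u₀, h1, h2, h3, h4, h5⟩ := key Finset.univ
  exact ⟨K, e, u₀, h1, h2, h3, h4, fun i hi => h5 i (Finset.mem_univ i) hi⟩

lemma low_norm {n : ℕ} (hn : 1 ≤ n) (x : Sp n) {T : ℝ} (hT : 0 ≤ T) (h : ∀ i, ‖x i‖ ≤ T) :
    ‖x‖ ≤ n * T := by
  have h1 : ‖x‖ ^ 2 ≤ (n * T) ^ 2 := by
    rw [EuclideanSpace.norm_sq_eq]
    calc ∑ i, ‖x i‖ ^ 2 ≤ ∑ _i : Fin n, T ^ 2 :=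
          Finset.sum_le_sum fun i _ => pow_le_pow_left₀ (norm_nonneg _) (h i) 2
      _ = n * T ^ 2 := by simp
      _ ≤ (n * T) ^ 2 := by
        have hn' : (1 : ℝ) ≤ n := by exact_mod_cast hn
        rw [mul_pow]
        have : (n : ℝ) ≤ (n : ℝ) ^ 2 := by nlinarith
        exact mul_le_mul_of_nonneg_right this (by positivity)
  exact (pow_le_pow_iff_left₀ (norm_nonneg _) (by positivity) two_ne_zero).1 h1

theorem tLow (hGrad : StmtGrad) : StmtLow := by
  intro n Ω r k p hD hp h1 hdec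
  obtain ⟨l, ε, hl, hε, hε1, hg⟩ := low_grad hGrad hD hp h1
  have hrp : r p = 0 := hD.frontier_eq hp
  obtain ⟨K, e, u₀, hK, he, hu₀, hu₀1, hw⟩ :=
    low_common k (fun i u => wd Ω k i (cay (p k) (u : ℂ))) hdec
  have hn : 1 ≤ n := Nat.one_le_iff_ne_zero.2 fun h => by
    subst h
    exact k.elim0
  have hn' : (1 : ℝ) ≤ n := by exact_mod_cast hn
  set A : ℝ := n * K with hA
  have hA0 : 0 < A := by positivity
  set u₁ : ℝ := min u₀ (ε / 8) with hu₁
  have hu₁0 : 0 < u₁ := by positivity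
  have hu₁1 : u₁ ≤ 1 := (min_le_left _ _).trans hu₀1
  -- the main estimate
  have main : ∀ x : Sp n, x k = p k → ‖x - p‖ < ε / 4 → ∀ u, 0 < u → u < u₁ → r x < l * u →
      ‖x - p‖ ≤ A * u ^ e := by
    intro x hxk hx u hu hu2 hrx
    have hu3 : u < ε / 8 := lt_of_lt_of_le hu2 (min_le_right _ _)
    have hu4 : u < u₀ := lt_of_lt_of_le hu2 (min_le_left _ _)
    have hx1 : upd x k (cay (p k) u) ∈ Ω := by
      rw [hD.mem_iff]
      have := low_desc hD.smooth hl hε hε1 hg h1 hxk hx hu hu3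
      linarith
    have hp1 : upd p k (cay (p k) u) ∈ Ω := by
      rw [hD.mem_iff]
      have := low_desc (p := p) hD.smooth hl hε hε1 hg h1 (x := p) rfl (by simp; positivity) hu hu3
      rw [hrp] at this
      have h5 : 0 < l * u := by positivity
      linarith
    have hT : ‖x - p‖ ≤ n * (K * u ^ e) := by
      refine low_norm hn (x - p) (by positivity) fun i => ?_
      by_cases hik : i = k
      · subst hik
        have : (x - p) i = 0 := by
          rw [PiLp.sub_apply, hxk, sub_self]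
        rw [this, norm_zero]
        positivity
      · have h6 := dist_le_wd hD.bdd (i := i) hx1 hp1 (upd_same x k _) (upd_same p k _)
        rw [upd_ne x k hik, upd_ne p k hik] at h6
        rw [PiLp.sub_apply]
        exact h6.trans (hw i hik u hu hu4)
    rw [hA]
    linarith
  set N : ℕ := ⌈1 / e⌉₊ with hN
  have hN1 : 1 ≤ N := Nat.one_le_iff_ne_zero.2 (Nat.ceil_pos.2 (by positivity)).ne'
  have hNe : 1 / e ≤ N := Nat.le_ceil _
  refine ⟨N, l / A ^ N, min (ε / 4) (A * u₁ ^ e), hN1, by positivity, by positivity, ?_⟩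
  intro x hxk hx
  have hx1 : ‖x - p‖ < ε / 4 := lt_of_lt_of_le hx (min_le_left _ _)
  have hx2 : ‖x - p‖ < A * u₁ ^ e := lt_of_lt_of_le hx (min_le_right _ _)
  have hrx0 : 0 ≤ r x := hD.nonneg_of (by rw [hxk, h1])
  rcases (norm_nonneg (x - p)).eq_or_lt with h0 | h0
  · rw [← h0, zero_pow (by omega), mul_zero]
    exact hrx0
  set D := ‖x - p‖ with hDdef
  set v : ℝ := (D / A) ^ (1 / e) with hv
  have hDA : 0 < D / A := by positivity
  have hv0 : 0 < v := by positivity
  have hve : A * v ^ e = D := by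
    rw [hv, ← Real.rpow_mul hDA.le, one_div, inv_mul_cancel₀ he.ne', Real.rpow_one]
    field_simp
  have hvu : v < u₁ := by
    by_contra hc
    push Not at hc
    have : u₁ ^ e ≤ v ^ e := Real.rpow_le_rpow hu₁0.le hc he.le
    have := mul_le_mul_of_nonneg_left this hA0.le
    linarith
  have hlow : l * v ≤ r x := by
    by_contra hc
    push Not at hc
    have h7 : r x / l < v := by
      rw [div_lt_iff₀ hl]
      linarith
    have h8 : 0 ≤ r x / l := by positivity
    set v' := (r x / l + v) / 2 with hv'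
    have h9 : r x / l < v' := by rw [hv']; linarith
    have h10 : v' < v := by rw [hv']; linarith
    have h11 : r x < l * v' := by
      rw [div_lt_iff₀ hl] at h9
      linarith
    have h12 := main x hxk hx1 v' (by linarith) (by linarith) h11
    have h13 : v' ^ e < v ^ e := Real.rpow_lt_rpow (by linarith) h10 he
    have h14 := mul_lt_mul_of_pos_left h13 hA0
    linarith
  have hDA1 : D / A ≤ 1 := by
    rw [div_le_one hA0]
    have h15 : u₁ ^ e ≤ 1 := Real.rpow_le_one hu₁0.le hu₁1 he.le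
    have := mul_le_mul_of_nonneg_left h15 hA0.le
    linarith
  have hpow : (D / A) ^ N ≤ v := by
    rw [hv, ← Real.rpow_natCast]
    exact Real.rpow_le_rpow_of_exponent_ge hDA hDA1 hNe
  calc l / A ^ N * D ^ N = l * (D / A) ^ N := by
        rw [div_pow]
        field_simp
    _ ≤ l * v := mul_le_mul_of_nonneg_left hpow hl.le
    _ ≤ r x := hlow

end MP16b755
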