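import Pool.Agent.Lib.MP_16b755_an.Spec

/-!
# Assembly of the theorem
-/

set_option autoImplicit false

namespace MP16b755

open MeasureTheory Metric Set Filter Topology

theorem tMain (hEdge : StmtEdge) (hDec : StmtDec) (hLow : StmtLow) (hTypB : StmtTypB) :
    StmtMain := by
  intro n Ω r k hop hconn hbdd hsm heq hreg himg φ q p h1 h2 hq hp hlim
  have hD : Dom Ω r k := ⟨hop, hconn, hbdd, hsm, heq, hreg, himg⟩
  choose m a b hinj hfib using h2
  have hF : ∀ j, Fib Ω k (φ j) (m j) (a j) (b j) := fun j =>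
    ⟨(h1 j).1, (h1 j).2.1, (h1 j).2.2, hinj j, fun x hx => (hfib j x hx).1,
      fun x hx => (hfib j x hx).2⟩
  have hpk : ‖p k‖ = 1 := hEdge n Ω r k φ m a b q p hD hF hq hp hlim
  obtain ⟨N, c, ρ, hN, hc, hρ, hx⟩ := hLow n Ω r k p hD hp hpk
    fun i hi => hDec n Ω r k i φ m a b q p hD hi hF hq hp hlim
  obtain ⟨M, hM⟩ := hTypB n Ω r k p hD hp hpk N c ρ hN hc hρ hx
  exact ⟨M, fun γ hγ hγ0 m' hm' _ hne => hM γ hγ hγ0 m' hm' hne⟩

end MP16b755
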