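import Pool.Agent.Lib.MP_16b755_an.Spec

/-!
# Minimum principle in a half plane
-/

set_option autoImplicit false

namespace MP16b755

open MeasureTheory Metric Set Filter Topology

private theorem minp_open (s : ℝ) : IsOpen {ω : ℂ | s < ω.re} :=
  isOpen_lt continuous_const Complex.continuous_re

theorem tMinP : StmtMinP := by
  intro G s hG hmv hbd hinf
  -- the sublevel sets are compact
  have hcomp : ∀ a : ℝ, a < 0 → IsCompact {ω : ℂ | s < ω.re ∧ G ω ≤ a} := by
    intro a ha
    rw [isCompact_iff_isClosed_bounded]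
    constructor
    · rw [isClosed_iff_frequently]
      intro z hz
      have h1 : s ≤ z.re := by
        by_contra hlt
        push Not at hlt
        have h2 : ∀ᶠ y in 𝓝 z, y.re < s :=
          (isOpen_lt Complex.continuous_re continuous_const).mem_nhds hlt
        obtain ⟨y, hy1, hy2⟩ := (hz.and_eventually h2).exists
        exact absurd hy1.1 (not_lt.2 hy2.le)
      rcases h1.eq_or_lt with h1 | h1
      · have h2 := hbd z h1.symm (-a / 2) (by linarith)
        rw [eventually_nhdsWithin_iff] at h2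
        obtain ⟨y, hy1, hy2⟩ := (hz.and_eventually h2).exists
        have := hy2 hy1.1
        have := hy1.2
        linarith
      · refine ⟨h1, ?_⟩
        by_contra hlt
        push Not at hlt
        have hc : ContinuousAt G z := hG.continuousAt ((minp_open s).mem_nhds h1)
        have h2 : ∀ᶠ y in 𝓝 z, a < G y := hc.eventually (eventually_gt_nhds hlt)
        obtain ⟨y, hy1, hy2⟩ := (hz.and_eventually h2).exists
        exact absurd hy1.2 (not_le.2 hy2)
    · obtain ⟨R, hR⟩ := hinf (-a / 2) (by linarith)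
      rw [isBounded_iff_forall_norm_le]
      refine ⟨R, fun ω hω => ?_⟩
      by_contra hlt
      push Not at hlt
      have := hR ω hω.1 hlt.le
      have := hω.2
      linarith
  intro ω₀ hω₀
  by_contra hneg
  push Not at hneg
  obtain ⟨c₁, hc₁, hmin⟩ := (hcomp (G ω₀) hneg).exists_isMinOn ⟨ω₀, hω₀, le_rfl⟩
    (hG.mono fun ω hω => hω.1)
  have hμ : G c₁ < 0 := lt_of_le_of_lt hc₁.2 hneg
  have hmin' : ∀ ω : ℂ, s < ω.re → G c₁ ≤ G ω := by
    intro ω hω
    by_cases h : G ω ≤ G ω₀
    · exact hmin ⟨hω, h⟩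
    · push Not at h
      exact hc₁.2.trans h.le
  obtain ⟨c, hc, hcmin⟩ := (hcomp (G c₁) hμ).exists_isMinOn ⟨c₁, hc₁.1, le_rfl⟩
    Complex.continuous_re.continuousOn
  have hGc : G c = G c₁ := le_antisymm hc.2 (hmin' c hc.1)
  obtain ⟨ρ₀, hρ₀, hav⟩ := hmv c hc.1
  have hcs : 0 < c.re - s := sub_pos.2 hc.1
  set ρ : ℝ := min ρ₀ (c.re - s) / 2 with hρdef
  have hρ : 0 < ρ := by positivity
  have hρ1 : ρ < ρ₀ := by
    have := min_le_left ρ₀ (c.re - s)
    linarith
  have hρ2 : ρ < c.re - s := by
    have := min_le_right ρ₀ (c.re - s)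
    linarith
  have hsub : closedBall c ρ ⊆ {ω : ℂ | s < ω.re} := by
    intro ω hω
    rw [mem_closedBall, dist_eq_norm] at hω
    have h1 := (Complex.abs_re_le_norm (ω - c)).trans hω
    rw [Complex.sub_re, abs_le] at h1
    change s < ω.re
    linarith [h1.1]
  have hcont : ContinuousOn G (closedBall c ρ) := hG.mono hsub
  have hint : IntegrableOn G (ball c ρ) := intOn_of_cont hcont
  have hI : ∫ ω in ball c ρ, (G ω - G c₁) = 0 := by
    have h1 : av (fun ω => G ω - G c₁) c ρ = 0 := by
      rw [av_sub hint (intOn_const _ c ρ), av_const _ c hρ, hav ρ hρ hρ1, hGc, sub_self]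
    rw [av_def] at h1
    rcases mul_eq_zero.1 h1 with h2 | h2
    · have : 0 < (Real.pi * ρ ^ 2)⁻¹ := by positivity
      exact absurd h2 this.ne'
    · exact h2
  have hnn : 0 ≤ᵐ[volume.restrict (ball c ρ)] fun ω => G ω - G c₁ := by
    rw [EventuallyLE, ae_restrict_iff' measurableSet_ball]
    refine Eventually.of_forall fun ω hω => ?_
    exact sub_nonneg.2 (hmin' ω (hsub (ball_subset_closedBall hω)))
  have hae := (setIntegral_eq_zero_iff_of_nonneg_ae hnn (hint.sub (intOn_const _ c ρ))).1 hI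
  have heq := Measure.eqOn_open_of_ae_eq hae isOpen_ball
    ((hcont.mono ball_subset_closedBall).sub continuousOn_const) continuousOn_const
  have hmem : c - ((ρ / 2 : ℝ) : ℂ) ∈ ball c ρ := by
    rw [mem_ball, dist_eq_norm, sub_sub_cancel_left, norm_neg, Complex.norm_real,
      Real.norm_eq_abs, abs_of_pos (by positivity)]
    linarith
  have h1 := heq hmem
  simp only [Pi.zero_apply] at h1
  have h2 : c - ((ρ / 2 : ℝ) : ℂ) ∈ {ω : ℂ | s < ω.re ∧ G ω ≤ G c₁} :=
    ⟨hsub (ball_subset_closedBall hmem), by linarith⟩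
  have h3 := hcmin h2
  have h4 : c.re ≤ (c - ((ρ / 2 : ℝ) : ℂ)).re := h3
  rw [Complex.sub_re, Complex.ofReal_re] at h4
  linarith

end MP16b755
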