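import Pool.Agent.Lib.MP_16b755_an.Spec

/-!
# Automorphisms of the unit disc are Moebius maps
-/

set_option autoImplicit false

namespace MP16b755

open MeasureTheory Metric Set Filter Topology

private noncomputable def mobM (α z : ℂ) : ℂ := (z + α) / (1 + starRingEnd ℂ α * z)

private lemma mob_den {α z : ℂ} (hα : ‖α‖ < 1) (hz : ‖z‖ < 1) : 1 + starRingEnd ℂ α * z ≠ 0 := by
  intro h
  have h1 : ‖starRingEnd ℂ α * z‖ < 1 := by
    rw [norm_mul, RCLike.norm_conj]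
    nlinarith [norm_nonneg α, norm_nonneg z]
  have h2 : starRingEnd ℂ α * z = -1 := by linear_combination h
  rw [h2, norm_neg, norm_one] at h1
  exact lt_irrefl _ h1

private lemma mob_lt {α z : ℂ} (hα : ‖α‖ < 1) (hz : ‖z‖ < 1) : ‖mobM α z‖ < 1 := by
  have h0 := mob_den hα hz
  rw [mobM, norm_div, div_lt_one (norm_pos_iff.2 h0)]
  have h1 : Complex.normSq (1 + starRingEnd ℂ α * z) - Complex.normSq (z + α) =
      (1 - Complex.normSq α) * (1 - Complex.normSq z) := by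
    rw [Complex.normSq_apply, Complex.normSq_apply, Complex.normSq_apply, Complex.normSq_apply]
    simp
    ring
  rw [Complex.normSq_eq_norm_sq, Complex.normSq_eq_norm_sq, Complex.normSq_eq_norm_sq,
    Complex.normSq_eq_norm_sq] at h1
  have h2 : 0 < (1 - ‖α‖ ^ 2) * (1 - ‖z‖ ^ 2) := by
    have h3 := norm_nonneg α
    have h4 := norm_nonneg z
    refine mul_pos ?_ ?_ <;> nlinarith
  have h3 : ‖z + α‖ ^ 2 < ‖1 + starRingEnd ℂ α * z‖ ^ 2 := by linarith
  exact lt_of_pow_lt_pow_left₀ 2 (norm_nonneg _) h3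

private lemma mob_diff {α : ℂ} (hα : ‖α‖ < 1) : DifferentiableOn ℂ (mobM α) (ball 0 1) := by
  refine DifferentiableOn.div (by fun_prop) (by fun_prop) fun z hz => ?_
  exact mob_den hα (mem_ball_zero_iff.1 hz)

private lemma mob_inv {α z : ℂ} (hα : ‖α‖ < 1) (hz : ‖z‖ < 1) : mobM α (mobM (-α) z) = z := by
  have hα' : ‖-α‖ < 1 := by rwa [norm_neg]
  have h1 := mob_den hα (mob_lt hα' hz)
  have h2 := mob_den hα' hz
  have h3 : mobM (-α) z * (1 + starRingEnd ℂ (-α) * z) = z + -α := by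
    rw [mobM, div_mul_cancel₀ _ h2]
  rw [mobM, div_eq_iff h1]
  have h4 : (mobM (-α) z + α - z * (1 + starRingEnd ℂ α * mobM (-α) z)) *
      (1 + starRingEnd ℂ (-α) * z) = 0 := by
    have h5 : starRingEnd ℂ (-α) = -starRingEnd ℂ α := map_neg _ _
    rw [h5] at h3 ⊢
    linear_combination (1 - z * starRingEnd ℂ α) * h3
  have h6 := (mul_eq_zero.1 h4).resolve_right h2
  linear_combination h6

theorem tMob : StmtMob := by
  intro m m' hm hm' hM hM' h1 h2
  have hα : ‖m' 0‖ < 1 := mem_ball_zero_iff.1 (hM' (mem_ball_self one_pos))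
  have hα' : ‖-m' 0‖ < 1 := by rwa [norm_neg]
  have hT : MapsTo (mobM (m' 0)) (ball 0 1) (ball 0 1) := fun z hz =>
    mem_ball_zero_iff.2 (mob_lt hα (mem_ball_zero_iff.1 hz))
  have hS : MapsTo (mobM (-m' 0)) (ball 0 1) (ball 0 1) := fun z hz =>
    mem_ball_zero_iff.2 (mob_lt hα' (mem_ball_zero_iff.1 hz))
  have hfd : DifferentiableOn ℂ (fun z => m (mobM (m' 0) z)) (ball 0 1) := hm.comp (mob_diff hα) hT
  have hgd : DifferentiableOn ℂ (fun z => mobM (-m' 0) (m' z)) (ball 0 1) :=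
    (mob_diff hα').comp hm' hM'
  have hfM : MapsTo (fun z => m (mobM (m' 0) z)) (ball 0 1) (ball 0 1) := fun z hz => hM (hT hz)
  have hgM : MapsTo (fun z => mobM (-m' 0) (m' z)) (ball 0 1) (ball 0 1) := fun z hz => hS (hM' hz)
  have hf0 : m (mobM (m' 0) 0) = 0 := by
    have : mobM (m' 0) 0 = m' 0 := by simp [mobM]
    rw [this]
    exact h2 0 (mem_ball_self one_pos)
  have hg0 : (fun z => mobM (-m' 0) (m' z)) 0 = 0 := by simp [mobM]
  have hgf : ∀ z : ℂ, ‖z‖ < 1 → mobM (-m' 0) (m' (m (mobM (m' 0) z))) = z := by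
    intro z hz
    rw [h1 _ (hT (mem_ball_zero_iff.2 hz))]
    have := mob_inv (α := -m' 0) hα' hz
    rwa [neg_neg] at this
  have hn : ∀ z : ℂ, ‖z‖ < 1 → ‖m (mobM (m' 0) z)‖ = ‖z‖ := by
    intro z hz
    have h3 : ‖m (mobM (m' 0) z)‖ ≤ ‖z‖ :=
      Complex.norm_le_norm_of_mapsTo_ball hfd (hfM.mono_right ball_subset_closedBall) hf0 hz
    have h4 : ‖mobM (-m' 0) (m' (m (mobM (m' 0) z)))‖ ≤ ‖m (mobM (m' 0) z)‖ :=
      Complex.norm_le_norm_of_mapsTo_ball hgd (hgM.mono_right ball_subset_closedBall) hg0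
        (mem_ball_zero_iff.1 (hfM (mem_ball_zero_iff.2 hz)))
    rw [hgf z hz] at h4
    exact le_antisymm h3 h4
  have hhalf : ‖(1 / 2 : ℂ)‖ < 1 := by norm_num
  obtain ⟨e, he, hEq⟩ := Complex.affine_of_mapsTo_ball_of_exists_norm_dslope_eq_div'
    (f := fun z => m (mobM (m' 0) z)) (c := 0) (R₁ := 1) (R₂ := 1) hfd
    (by
      change MapsTo _ _ (closedBall (m (mobM (m' 0) 0)) 1)
      rw [hf0]
      exact hfM.mono_right ball_subset_closedBall)
    ⟨1 / 2, mem_ball_zero_iff.2 hhalf, by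
      rw [dslope_of_ne _ (by norm_num), slope_def_field]
      change ‖(m (mobM (m' 0) (1 / 2)) - m (mobM (m' 0) 0)) / (1 / 2 - 0)‖ = 1 / 1
      rw [hf0, sub_zero, sub_zero, norm_div, hn _ hhalf]
      norm_num⟩
  refine ⟨e, m' 0, by rw [he]; norm_num, hα, fun w hw => ?_⟩
  have h3 := hEq (hS hw)
  have h4 : (fun z => m (mobM (m' 0) z)) (mobM (-m' 0) w) = m w := by
    change m (mobM (m' 0) (mobM (-m' 0) w)) = m w
    rw [mob_inv hα (mem_ball_zero_iff.1 hw)]
  rw [h4] at h3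
  change m w = m (mobM (m' 0) 0) + (mobM (-m' 0) w - 0) • e at h3
  rw [hf0, zero_add] at h3
  rw [h3, sub_zero, smul_eq_mul, mobM, map_neg]
  ring

end MP16b755
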