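import Pool.Agent.Lib.MP_16b755_an.Spec

set_option autoImplicit false

namespace MP16b755

open MeasureTheory Metric Set Filter Topology

/-- Mean values of mean values commute. -/
lemma mv_fubini {g : ℂ → ℝ} (hg : Measurable g) {c : ℂ} {ρ ρ' M : ℝ}
    (hM : ∀ ω, ‖ω - c‖ < ρ + ρ' → |g ω| ≤ M) :
    av (fun ω => av g ω ρ') c ρ = av (fun ω => av g ω ρ) c ρ' := by
  have hexp : ∀ s t : ℝ, av (fun ω => av g ω t) c s =
      (Real.pi * s ^ 2)⁻¹ * ((Real.pi * t ^ 2)⁻¹ *
        ∫ u in ball (0 : ℂ) s, ∫ v in ball (0 : ℂ) t, g (u + v + c)) := by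
    intro s t
    have h1 : av (fun ω => av g ω t) c s = av (fun u => av g (u + c) t) 0 s := by
      have := av_translate (fun ω => av g ω t) 0 c s
      rwa [zero_add] at this
    have h2 : ∀ u : ℂ, av g (u + c) t =
        (Real.pi * t ^ 2)⁻¹ * ∫ v in ball (0 : ℂ) t, g (u + v + c) := by
      intro u
      have := av_translate g 0 (u + c) t
      rw [zero_add] at this
      rw [this, av]
      have h3 : (fun v : ℂ => g (v + (u + c))) = fun v => g (u + v + c) := by
        funext v
        congr 1
        ring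
      rw [h3]
    rw [h1, av]
    simp_rw [h2]
    rw [integral_const_mul]
  rw [hexp, hexp]
  have hint : Integrable (Function.uncurry fun u v : ℂ => g (u + v + c))
      ((volume.restrict (ball (0 : ℂ) ρ)).prod (volume.restrict (ball (0 : ℂ) ρ'))) := by
    rw [Measure.prod_restrict]
    refine Measure.integrableOn_of_bounded (M := M) ?_ ?_ ?_
    · rw [Measure.prod_prod]
      exact ENNReal.mul_ne_top measure_ball_lt_top.ne measure_ball_lt_top.ne
    · refine Measurable.aestronglyMeasurable ?_
      exact hg.comp (by fun_prop : Measurable fun p : ℂ × ℂ => p.1 + p.2 + c)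
    · rw [ae_restrict_iff' (measurableSet_ball.prod measurableSet_ball)]
      refine Filter.Eventually.of_forall fun p hp => ?_
      have h1 : ‖p.1‖ < ρ := by simpa using hp.1
      have h2 : ‖p.2‖ < ρ' := by simpa using hp.2
      rw [Real.norm_eq_abs]
      refine hM _ ?_
      rw [add_sub_cancel_right]
      exact lt_of_le_of_lt (norm_add_le _ _) (by linarith)
  have hswap := integral_integral_swap hint
  have h4 : ∫ y in ball (0 : ℂ) ρ', ∫ x in ball (0 : ℂ) ρ, g (x + y + c) =
      ∫ u in ball (0 : ℂ) ρ', ∫ v in ball (0 : ℂ) ρ, g (u + v + c) := by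
    congr 1
    funext y
    congr 1
    funext x
    congr 1
    ring
  rw [hswap, h4]
  ring

theorem tMv (hShift : StmtShift) : StmtMv := by
  intro g s₀ hs₀ hg hM hMV
  have hcont : ContinuousOn (fun c => av g c 1) {c : ℂ | s₀ + 1 < c.re} := by
    intro c hc
    have hc' : s₀ + 1 < c.re := hc
    refine ContinuousAt.continuousWithinAt ?_
    set e := (c.re - 1) / 2 with he
    have he0 : 0 < e := by rw [he]; linarith
    obtain ⟨M, hM0, hMb⟩ := hM c (1 + e) (by rw [he]; linarith)
    have hlim : Tendsto (fun c' : ℂ => 4 * ‖c' - c‖ * M / 1) (𝓝 c) (𝓝 0) := by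
      have h1 : Tendsto (fun c' : ℂ => ‖c' - c‖) (𝓝 c) (𝓝 0) := by
        have : Continuous fun c' : ℂ => ‖c' - c‖ := by fun_prop
        have h2 := this.tendsto c
        simpa using h2
      have := ((h1.const_mul 4).mul_const M).div_const 1
      simpa using this
    rw [ContinuousAt, tendsto_iff_norm_sub_tendsto_zero]
    refine squeeze_zero' (Filter.Eventually.of_forall fun _ => norm_nonneg _) ?_ hlim
    filter_upwards [ball_mem_nhds c he0] with c' hc''
    rw [mem_ball, dist_eq_norm] at hc''
    rw [Real.norm_eq_abs]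
    refine hShift g c' c 1 M one_pos hM0 hg ?_ ?_
    · intro ω hω
      rw [mem_ball, dist_eq_norm] at hω
      refine hMb ω ?_
      rw [mem_closedBall, dist_eq_norm]
      have h3 : ω - c = (ω - c') + (c' - c) := by ring
      rw [h3]
      exact (norm_add_le _ _).trans (by linarith)
    · intro ω hω
      rw [mem_ball, dist_eq_norm] at hω
      refine hMb ω ?_
      rw [mem_closedBall, dist_eq_norm]
      linarith
  refine ⟨hcont, ?_⟩
  intro c ρ hρ hρ2 hc
  have hre : ∀ (s : ℝ), s ≤ 1 / 2 → ∀ ω ∈ ball c s, s₀ + 3 / 2 < ω.re := by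
    intro s hs ω hω
    rw [mem_ball, dist_eq_norm] at hω
    have h1 := (abs_le.1 (Complex.abs_re_le_norm (ω - c))).1
    simp only [Complex.sub_re] at h1
    linarith
  obtain ⟨M, hM0, hMb⟩ := hM c 1 (by linarith)
  have hsym : ∀ ρ', 0 < ρ' → ρ' ≤ 1 / 2 →
      av (fun ω => av g ω 1) c ρ = av (fun ω => av g ω 1) c ρ' := by
    intro ρ' hρ' hρ'2
    have h1 : av (fun ω => av g ω 1) c ρ = av (fun ω => av g ω ρ') c ρ := by
      refine av_congr fun ω hω => ?_
      have := hre ρ hρ2 ω hω
      exact hMV ω 1 ρ' one_pos hρ' (by linarith) (by linarith)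
    have h2 : av (fun ω => av g ω 1) c ρ' = av (fun ω => av g ω ρ) c ρ' := by
      refine av_congr fun ω hω => ?_
      have := hre ρ' hρ'2 ω hω
      exact hMV ω 1 ρ one_pos hρ (by linarith) (by linarith)
    rw [h1, h2]
    refine mv_fubini hg (M := M) fun ω hω => hMb ω ?_
    rw [mem_closedBall, dist_eq_norm]
    linarith
  have hcc : ContinuousAt (fun c => av g c 1) c := by
    refine hcont.continuousAt ?_
    exact (isOpen_lt continuous_const Complex.continuous_re).mem_nhds (by
      show s₀ + 1 < c.re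
      linarith)
  have hlast : ∀ e > 0, |av (fun ω => av g ω 1) c ρ - av g c 1| ≤ e := by
    intro e he
    obtain ⟨δ, hδ, hδb⟩ := Metric.continuousAt_iff.1 hcc e he
    set ρ' := min (δ / 2) (1 / 2) with hρ'
    have hρ'0 : 0 < ρ' := by positivity
    have hρ'1 : ρ' ≤ 1 / 2 := min_le_right _ _
    have hρ'2 : ρ' < δ := lt_of_le_of_lt (min_le_left _ _) (by linarith)
    rw [hsym ρ' hρ'0 hρ'1]
    have hint : IntegrableOn (fun ω => av g ω 1) (ball c ρ') := by
      refine intOn_of_cont (hcont.mono fun ω hω => ?_)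
      rw [mem_closedBall, dist_eq_norm] at hω
      have h1 := (abs_le.1 (Complex.abs_re_le_norm (ω - c))).1
      simp only [Complex.sub_re] at h1
      show s₀ + 1 < ω.re
      linarith
    have hnear : ∀ ω ∈ ball c ρ', |av g ω 1 - av g c 1| < e := by
      intro ω hω
      have := hδb (lt_trans (mem_ball.1 hω) hρ'2)
      rwa [Real.dist_eq] at this
    rw [abs_le]
    constructor
    · have := le_av (M := av g c 1 - e) hρ'0 hint fun ω hω => by
        have := (abs_lt.1 (hnear ω hω)).1
        linarith
      linarith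
    · have := av_le (M := av g c 1 + e) hρ'0 hint fun ω hω => by
        have := (abs_lt.1 (hnear ω hω)).2
        linarith
      linarith
  have h0 : |av (fun ω => av g ω 1) c ρ - av g c 1| ≤ 0 :=
    le_of_forall_pos_le_add fun e he => by simpa using hlast e he
  exact sub_eq_zero.1 (abs_nonpos_iff.1 h0)

end MP16b755
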