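import Pool.Agent.Lib.MP_16b755_an.Spec

set_option autoImplicit false

namespace MP16b755

open MeasureTheory Metric Set Filter Topology

lemma near_le {W : ℂ → ℝ} {B C ε c₀ : ℝ} (hW : Pot W B C ε c₀) {b : ℂ} (hb : ‖b‖ = 1)
    {η κ s t R : ℝ} (hη : 0 < η) {ω : ℂ} (h0 : 0 < ω.re) (h1 : ω.re ≤ s) (hn : ‖ω‖ ≤ R)
    (hκ0 : 0 ≤ κ) (hκ : C * (√η * √s * |t| + η * t ^ 2) ≤ κ) (hε : η * (R + κ + |t|) < ε) :
    psi W b (η * (ω + κ + t * Complex.I)) ≤ psi W b (η * ω) := by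
  have hC := hW.C1
  have e1 : ((η : ℂ) * ω).re = η * ω.re := by simp
  have e2 : ((η : ℂ) * ω).im = η * ω.im := by simp
  have e3 : ((η : ℂ) * (ω + κ + t * Complex.I)).re = η * (ω.re + κ) := by simp
  have e4 : ((η : ℂ) * (ω + κ + t * Complex.I)).im = η * (ω.im + t) := by simp
  have p1 : 0 < ((η : ℂ) * ω).re := by rw [e1]; positivity
  have p2 : 0 < ((η : ℂ) * (ω + κ + t * Complex.I)).re := by rw [e3]; positivity
  have n1 : ‖(η : ℂ) * ω‖ < ε := by
    rw [norm_mul, Complex.norm_real, Real.norm_eq_abs, abs_of_pos hη]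
    refine lt_of_le_of_lt ?_ hε
    have : 0 ≤ |t| := abs_nonneg t
    exact mul_le_mul_of_nonneg_left (by linarith) hη.le
  have n2 : ‖(η : ℂ) * (ω + κ + t * Complex.I)‖ < ε := by
    rw [norm_mul, Complex.norm_real, Real.norm_eq_abs, abs_of_pos hη]
    refine lt_of_le_of_lt ?_ hε
    refine mul_le_mul_of_nonneg_left ?_ hη.le
    have h2 : ‖ω + κ + t * Complex.I‖ ≤ ‖ω + κ‖ + ‖(t : ℂ) * Complex.I‖ := norm_add_le _ _
    have h3 : ‖ω + κ‖ ≤ ‖ω‖ + ‖(κ : ℂ)‖ := norm_add_le _ _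
    have h4 : ‖(κ : ℂ)‖ = κ := by
      rw [Complex.norm_real, Real.norm_eq_abs, abs_of_nonneg hκ0]
    have h5 : ‖(t : ℂ) * Complex.I‖ = |t| := by
      rw [norm_mul, Complex.norm_I, mul_one, Complex.norm_real, Real.norm_eq_abs]
    linarith
  have key := hW.nm b (η * ω) (η * (ω + κ + t * Complex.I)) hb p1 p2 n1 n2 ?_
  · rw [psi, psi]
    have := Real.log_le_log (hW.pos _ (cay_mem hb p1)) key
    linarith
  · rw [e1, e2, e3, e4]
    have h6 : η * (ω.im + t) - η * ω.im = η * t := by ring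
    rw [h6, abs_mul, abs_of_pos hη, Real.sqrt_mul hη.le]
    have h7 : √ω.re ≤ √s := Real.sqrt_le_sqrt h1
    have h8 : C * (√η * √ω.re * |t| + η * t ^ 2) ≤ κ := by
      refine le_trans ?_ hκ
      refine mul_le_mul_of_nonneg_left ?_ (by linarith)
      have : √η * √ω.re * |t| ≤ √η * √s * |t| :=
        mul_le_mul_of_nonneg_right (mul_le_mul_of_nonneg_left h7 (Real.sqrt_nonneg _))
          (abs_nonneg t)
      linarith
    have h9 := mul_le_mul_of_nonneg_left h8 hη.le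
    calc η * ω.re + C * (√η * √ω.re * (η * |t|) + (η * t) ^ 2)
        = η * ω.re + η * (C * (√η * √ω.re * |t| + η * t ^ 2)) := by ring
      _ ≤ η * ω.re + η * κ := by linarith
      _ = η * (ω.re + κ) := by ring

lemma near_bd (hBas : StmtBas) {W : ℂ → ℝ} {B C ε c₀ : ℝ} (hW : Pot W B C ε c₀) {b : ℂ}
    (hb : ‖b‖ = 1) {η a : ℝ} (hη : 0 < η) (ha : 0 < a) {ω : ℂ} (h0 : a ≤ ω.re)
    (hn : η * ‖ω‖ < ε) :
    |psi W b (η * ω)| ≤ |Real.log B| + |Real.log c₀| + |Real.log a| + |Real.log η| := by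
  obtain ⟨-, -, h1, -, -, -, h2⟩ := hBas W B C ε c₀ hW
  have e1 : ((η : ℂ) * ω).re = η * ω.re := by simp
  have p0 : 0 < ω.re := lt_of_lt_of_le ha h0
  have p1 : 0 < ((η : ℂ) * ω).re := by rw [e1]; positivity
  have n1 : ‖(η : ℂ) * ω‖ < ε := by
    rwa [norm_mul, Complex.norm_real, Real.norm_eq_abs, abs_of_pos hη]
  have h3 := h1 b (η * ω) hb p1
  have h4 := h2 b (η * ω) hb p1 n1
  have hc := hW.c0
  have h5 : psi W b (η * ω) ≤ -Real.log (c₀ * √(η * a)) := by
    rw [psi, neg_le_neg_iff]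
    refine Real.log_le_log (by positivity) (le_trans ?_ h4)
    rw [e1]
    have : √(η * a) ≤ √(η * ω.re) := Real.sqrt_le_sqrt (mul_le_mul_of_nonneg_left h0 hη.le)
    exact mul_le_mul_of_nonneg_left this hc.le
  have h6 : Real.log (c₀ * √(η * a)) = Real.log c₀ + (Real.log η + Real.log a) / 2 := by
    rw [Real.log_mul hc.ne' (by positivity), Real.log_sqrt (by positivity),
      Real.log_mul hη.ne' ha.ne']
  rw [h6] at h5
  rw [abs_le]
  have a1 := neg_abs_le (Real.log B)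
  have a2 := le_abs_self (Real.log B)
  have a3 := neg_abs_le (Real.log c₀)
  have a4 := neg_abs_le (Real.log a)
  have a5 := neg_abs_le (Real.log η)
  have a6 := abs_nonneg (Real.log B)
  have a7 := abs_nonneg (Real.log c₀)
  have a8 := abs_nonneg (Real.log a)
  have a9 := abs_nonneg (Real.log η)
  constructor <;> linarith

/-- The estimate for one index. -/
lemma near_one (hShift : StmtShift) (hBas : StmtBas) {W : ℂ → ℝ} {B C ε c₀ : ℝ}
    (hW : Pot W B C ε c₀) {b : ℂ} (hb : ‖b‖ = 1) {η κ r t : ℝ} {c : ℂ} (hη : 0 < η)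
    (hr : 0 < r) (hrc : r < c.re) (hκ0 : 0 ≤ κ) (hκ1 : κ ≤ 1) (hκ2 : κ ≤ (c.re - r) / 2)
    (hκ : C * (√η * √(c.re + r) * |t| + η * t ^ 2) ≤ κ)
    (hε : η * (‖c‖ + r + 2 + 2 * |t|) < ε) :
    |av (fun ω => psi W b (η * ω)) (c + t * Complex.I) r - av (fun ω => psi W b (η * ω)) c r| ≤
      4 * κ * (|Real.log B| + |Real.log c₀| + |Real.log ((c.re - r) / 2)| + |Real.log η|) / r := by
  obtain ⟨hm, -, -, -, -, -, -⟩ := hBas W B C ε c₀ hW
  set M := |Real.log B| + |Real.log c₀| + |Real.log ((c.re - r) / 2)| + |Real.log η| with hM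
  have hM0 : 0 ≤ M := by positivity
  have ha : 0 < (c.re - r) / 2 := by linarith
  have ht0 : 0 ≤ |t| := abs_nonneg t
  set X : ℂ → ℝ := fun ω => psi W b (η * ω) with hX
  set Y : ℂ → ℝ := fun ω => X (ω + t * Complex.I) with hY
  have hXm : Measurable X := (hm b).comp (by fun_prop : Measurable fun ω : ℂ => (η : ℂ) * ω)
  have hYm : Measurable Y := hXm.comp (by fun_prop)
  have htI : ‖(t : ℂ) * Complex.I‖ = |t| := by
    rw [norm_mul, Complex.norm_I, mul_one, Complex.norm_real, Real.norm_eq_abs]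
  have hκn : ‖(κ : ℂ)‖ = κ := by
    rw [Complex.norm_real, Real.norm_eq_abs, abs_of_nonneg hκ0]
  have hball : ∀ ω ∈ ball c r, c.re - r < ω.re ∧ ω.re < c.re + r ∧ ‖ω‖ < ‖c‖ + r := by
    intro ω hω
    rw [mem_ball, dist_eq_norm] at hω
    have h1 := abs_le.1 (Complex.abs_re_le_norm (ω - c))
    simp only [Complex.sub_re] at h1
    have h2 : ‖ω‖ ≤ ‖ω - c‖ + ‖c‖ := by
      simpa using norm_add_le (ω - c) c
    refine ⟨by linarith [h1.1], by linarith [h1.2], by linarith⟩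
  -- bound for X
  have hbd : ∀ ω : ℂ, (c.re - r) / 2 ≤ ω.re → ‖ω‖ ≤ ‖c‖ + r + 1 + |t| → |X ω| ≤ M := by
    intro ω h1 h2
    refine near_bd hBas hW hb hη ha h1 (lt_of_le_of_lt ?_ hε)
    exact mul_le_mul_of_nonneg_left (by linarith) hη.le
  have hYbd : ∀ v : ℝ, |v| ≤ κ → ∀ ω ∈ ball (c + v) r, |Y ω| ≤ M := by
    intro v hv ω hω
    have h1 : ω - v ∈ ball c r := by
      rw [mem_ball, dist_eq_norm] at hω ⊢
      rwa [show ω - (v : ℂ) - c = ω - (c + v) by ring]
    obtain ⟨h2, h3, h4⟩ := hball _ h1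
    simp only [Complex.sub_re, Complex.ofReal_re] at h2 h3
    have hvn : ‖(v : ℂ)‖ ≤ κ := by rwa [Complex.norm_real, Real.norm_eq_abs]
    have hv' := abs_le.1 hv
    refine hbd _ ?_ ?_
    · simp
      linarith [hv'.1]
    · have h5 : ‖ω + t * Complex.I‖ ≤ ‖ω‖ + |t| := by
        rw [← htI]
        exact norm_add_le _ _
      have h6 : ‖ω‖ ≤ ‖ω - v‖ + ‖(v : ℂ)‖ := by
        simpa using norm_add_le (ω - v) (v : ℂ)
      linarith
  have hXbd : ∀ ω ∈ ball c r, |X ω| ≤ M := by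
    intro ω hω
    obtain ⟨h2, h3, h4⟩ := hball _ hω
    exact hbd _ (by linarith) (by linarith)
  have hYt : av X (c + t * Complex.I) r = av Y c r := av_translate X c _ r
  have hXint : IntegrableOn X (ball c r) := intOn hXm hXbd
  -- translated functions
  have hYv : ∀ v : ℝ, |v| ≤ κ → IntegrableOn (fun ω => Y (ω + v)) (ball c r) := by
    intro v hv
    refine intOn (M := M) (hYm.comp (by fun_prop)) ?_
    intro ω hω
    refine hYbd v hv _ ?_
    rw [mem_ball, dist_eq_norm] at hω ⊢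
    rwa [show ω + (v : ℂ) - (c + v) = ω - c by ring]
  have hκa : |κ| ≤ κ := by rw [abs_of_nonneg hκ0]
  have hκb : |-κ| ≤ κ := by rw [abs_neg, abs_of_nonneg hκ0]
  have low : av Y (c + (κ : ℂ)) r ≤ av X c r := by
    rw [av_translate Y c κ r]
    refine av_mono (hYv κ hκa) hXint fun ω hω => ?_
    obtain ⟨h2, h3, h4⟩ := hball _ hω
    refine near_le hW hb (s := c.re + r) (R := ‖c‖ + r) hη (by linarith) h3.le h4.le hκ0 hκ ?_
    refine lt_of_le_of_lt (mul_le_mul_of_nonneg_left ?_ hη.le) hε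
    linarith
  have upp : av X c r ≤ av Y (c + ((-κ : ℝ) : ℂ)) r := by
    rw [av_translate Y c ((-κ : ℝ) : ℂ) r]
    refine av_mono hXint (hYv (-κ) hκb) fun ω hω => ?_
    obtain ⟨h2, h3, h4⟩ := hball _ hω
    have h5 := near_le hW hb (s := c.re + r) (R := ‖c‖ + r + 1 + |t|) (η := η) (κ := κ) (t := -t)
      (ω := ω + ((-κ : ℝ) : ℂ) + t * Complex.I) hη (by simp; linarith) (by simp; linarith) ?_ hκ0
      (by rw [abs_neg, neg_sq]; exact hκ) ?_
    · have e : ω + ((-κ : ℝ) : ℂ) + t * Complex.I + κ + ((-t : ℝ) : ℂ) * Complex.I = ω := by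
        push_cast
        ring
      rw [e] at h5
      exact h5
    · have h6 : ‖ω + ((-κ : ℝ) : ℂ) + t * Complex.I‖ ≤ ‖ω + ((-κ : ℝ) : ℂ)‖ + |t| := by
        rw [← htI]
        exact norm_add_le _ _
      have h7 : ‖ω + ((-κ : ℝ) : ℂ)‖ ≤ ‖ω‖ + κ := by
        refine (norm_add_le _ _).trans ?_
        rw [Complex.norm_real, Real.norm_eq_abs, abs_neg, abs_of_nonneg hκ0]
      linarith
    · rw [abs_neg]
      refine lt_of_le_of_lt (mul_le_mul_of_nonneg_left ?_ hη.le) hε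
      linarith
  have sh : ∀ v : ℝ, |v| ≤ κ → |av Y (c + (v : ℂ)) r - av Y c r| ≤ 4 * κ * M / r := by
    intro v hv
    have h := hShift Y (c + (v : ℂ)) c r M hr hM0 hYm (hYbd v hv) (by
      have := hYbd 0 (by simpa using hκ0)
      simpa using this)
    refine h.trans ?_
    have hvn : ‖c + (v : ℂ) - c‖ ≤ κ := by
      rw [add_sub_cancel_left, Complex.norm_real, Real.norm_eq_abs]
      exact hv
    gcongr
  have s1 := abs_le.1 (sh κ hκa)
  have s2 := abs_le.1 (sh (-κ) hκb)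
  rw [hYt, abs_le]
  constructor
  · linarith [s2.2]
  · linarith [s1.1]

theorem tNear (hShift : StmtShift) (hBas : StmtBas) : StmtNear := by
  intro W B C ε c₀ hW b η hb hη hη0 c r t hr hrc
  set C' : ℝ := C * (√(c.re + r) * |t| + t ^ 2) + 1 with hC'
  have hC1 := hW.C1
  have hC'0 : 0 < C' := by
    have : 0 ≤ C * (√(c.re + r) * |t| + t ^ 2) :=
      mul_nonneg (by linarith) (by positivity)
    linarith
  set M₀ : ℝ := |Real.log B| + |Real.log c₀| + |Real.log ((c.re - r) / 2)| with hM₀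
  have hsq : Tendsto (fun j => √(η j)) atTop (𝓝 0) := by
    have := (Real.continuous_sqrt.tendsto 0).comp hη0
    rw [Real.sqrt_zero] at this
    exact this
  have hη0' : Tendsto η atTop (𝓝[>] 0) :=
    tendsto_nhdsWithin_iff.2 ⟨hη0, Filter.Eventually.of_forall fun j => hη j⟩
  have hlog : Tendsto (fun j => √(η j) * |Real.log (η j)|) atTop (𝓝 0) := by
    have h1 := (tendsto_log_mul_rpow_nhdsGT_zero (r := 1 / 2) (by norm_num)).comp hη0'
    have h2 : Tendsto (fun j => |Real.log (η j) * (η j) ^ (1 / 2 : ℝ)|) atTop (𝓝 0) := by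
      have := h1.abs
      simpa using this
    refine h2.congr fun j => ?_
    rw [abs_mul, ← Real.sqrt_eq_rpow, abs_of_nonneg (Real.sqrt_nonneg _), mul_comm]
  have hbound : Tendsto (fun j => 4 * (C' * √(η j)) * (M₀ + |Real.log (η j)|) / r) atTop (𝓝 0) := by
    have h3 : Tendsto (fun j => 4 * C' / r * (M₀ * √(η j) + √(η j) * |Real.log (η j)|)) atTop
        (𝓝 0) := by
      have := ((hsq.const_mul M₀).add hlog).const_mul (4 * C' / r)
      simpa using this
    refine h3.congr fun j => ?_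
    ring
  refine squeeze_zero_norm' ?_ hbound
  have ev1 : ∀ᶠ j in atTop, η j < 1 := hη0.eventually (gt_mem_nhds one_pos)
  have hκt : Tendsto (fun j => C' * √(η j)) atTop (𝓝 0) := by
    have := hsq.const_mul C'
    simpa using this
  have ev2 : ∀ᶠ j in atTop, C' * √(η j) < 1 := hκt.eventually (gt_mem_nhds one_pos)
  have ev3 : ∀ᶠ j in atTop, C' * √(η j) < (c.re - r) / 2 :=
    hκt.eventually (gt_mem_nhds (by linarith))
  have ev4 : ∀ᶠ j in atTop, η j * (‖c‖ + r + 2 + 2 * |t|) < ε := by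
    have := hη0.mul_const (‖c‖ + r + 2 + 2 * |t|)
    rw [zero_mul] at this
    exact this.eventually (gt_mem_nhds hW.e0)
  filter_upwards [ev1, ev2, ev3, ev4] with j h1 h2 h3 h4
  rw [Real.norm_eq_abs]
  refine near_one hShift hBas hW (hb j) (hη j) hr hrc (by positivity) h2.le h3.le ?_ h4
  have h5 : η j ≤ √(η j) := by
    have h6 := Real.sq_sqrt (hη j).le
    have h7 : √(η j) ≤ 1 := by
      rw [← Real.sqrt_one]
      exact Real.sqrt_le_sqrt h1.le
    nlinarith [Real.sqrt_nonneg (η j)]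
  have h8 : √(η j) * √(c.re + r) * |t| + η j * t ^ 2 ≤ √(η j) * (√(c.re + r) * |t| + t ^ 2) := by
    have : η j * t ^ 2 ≤ √(η j) * t ^ 2 := mul_le_mul_of_nonneg_right h5 (by positivity)
    nlinarith
  have h9 := mul_le_mul_of_nonneg_left h8 (by linarith : (0 : ℝ) ≤ C)
  refine h9.trans ?_
  rw [hC']
  have h10 := Real.sqrt_nonneg (η j)
  nlinarith

end MP16b755
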