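import Pool.Agent.Lib.MP_16b755_an.Spec

set_option autoImplicit false

namespace MP16b755

open MeasureTheory Metric Set Filter Topology

/-- Decomposition of a complex number along a unit vector. -/
lemma nmg_dec {u : ℂ} (hu : ‖u‖ = 1) (z : ℂ) :
    (starRingEnd ℂ u * (z - ((starRingEnd ℂ u * z).re : ℂ) * u)).re = 0 ∧
      ‖z - ((starRingEnd ℂ u * z).re : ℂ) * u‖ ≤ ‖z‖ := by
  have h1 : u.re ^ 2 + u.im ^ 2 = 1 := by
    have : Complex.normSq u = 1 := by rw [Complex.normSq_eq_norm_sq, hu]; norm_num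
    rw [Complex.normSq_apply] at this
    linarith
  have h2 : (starRingEnd ℂ u * z).re = u.re * z.re + u.im * z.im := by
    simp [Complex.mul_re]
  rw [h2]
  set a := u.re * z.re + u.im * z.im with ha
  have h3 : (starRingEnd ℂ u * (z - (a : ℂ) * u)).re = a - a * (u.re ^ 2 + u.im ^ 2) := by
    simp only [Complex.mul_re, Complex.conj_re, Complex.conj_im, Complex.sub_re, Complex.sub_im,
      Complex.mul_im, Complex.ofReal_re, Complex.ofReal_im]
    rw [ha]
    ring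
  constructor
  · rw [h3, h1]
    ring
  · have h4 : ‖z - (a : ℂ) * u‖ ^ 2 ≤ ‖z‖ ^ 2 := by
      rw [← Complex.normSq_eq_norm_sq, ← Complex.normSq_eq_norm_sq, Complex.normSq_apply,
        Complex.normSq_apply]
      simp only [Complex.sub_re, Complex.sub_im, Complex.mul_re, Complex.mul_im,
        Complex.ofReal_re, Complex.ofReal_im]
      have h5 : (z.re - (a * u.re - 0 * u.im)) * (z.re - (a * u.re - 0 * u.im)) +
          (z.im - (a * u.im + 0 * u.re)) * (z.im - (a * u.im + 0 * u.re)) =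
          z.re * z.re + z.im * z.im - 2 * a * (u.re * z.re + u.im * z.im) +
            a ^ 2 * (u.re ^ 2 + u.im ^ 2) := by ring
      rw [h5, h1, ← ha]
      nlinarith [sq_nonneg a]
    exact (pow_le_pow_iff_left₀ (norm_nonneg _) (norm_nonneg _) two_ne_zero).1 h4

/-- The data at the radial projection to the circle. -/
lemma nmg_edge {n : ℕ} {Ω : Set (Sp n)} {r : Sp n → ℝ} {k : Fin n} (hD : Dom Ω r k)
    {R₀ C₀ l ε : ℝ} (hR : ∀ x ∈ Ω, ‖x‖ ≤ R₀)
    (hLip : ∀ x ∈ closedBall (0 : Sp n) (R₀ + 3), ∀ y ∈ closedBall (0 : Sp n) (R₀ + 3),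
      |r y - r x| ≤ C₀ * ‖y - x‖) (hC₀ : 1 ≤ C₀)
    (hg : ∀ x ∈ Ω, 1 - ‖x k‖ < ε → ∀ y : Sp n, ‖y - x‖ < ε →
      l ≤ fderiv ℝ r y (EuclideanSpace.single k (y k)))
    {x : Sp n} (hx : x ∈ Ω) (hxε : 1 - ‖x k‖ < ε) (hx2 : 1 / 2 < ‖x k‖) :
    ∃ u : ℂ, ‖u‖ = 1 ∧ x k = (‖x k‖ : ℂ) * u ∧ ‖upd x k u - x‖ = 1 - ‖x k‖ ∧
      1 - ‖x k‖ ≤ 1 - ‖x k‖ ^ 2 ∧
      0 ≤ r (upd x k u) ∧ r (upd x k u) ≤ C₀ * (1 - ‖x k‖ ^ 2) ∧
      l ≤ fderiv ℝ r (upd x k u) (EuclideanSpace.single k u) ∧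
      upd x k u ∈ closedBall (0 : Sp n) (R₀ + 1) := by
  have hlt := hD.norm_lt hx
  set ρ := ‖x k‖ with hρ
  have hρ0 : 0 < ρ := by linarith
  have hρc : (ρ : ℂ) ≠ 0 := by exact_mod_cast hρ0.ne'
  have hu : ‖x k / (ρ : ℂ)‖ = 1 := by
    rw [norm_div, Complex.norm_real, Real.norm_eq_abs, abs_of_pos hρ0, ← hρ, div_self hρ0.ne']
  have hxu : x k = (ρ : ℂ) * (x k / (ρ : ℂ)) := by
    field_simp
  have h1 : ‖upd x k (x k / (ρ : ℂ)) - x‖ = 1 - ρ := by
    rw [norm_upd_sub]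
    have h2 : x k / (ρ : ℂ) - x k = ((1 - ρ : ℝ) : ℂ) * (x k / (ρ : ℂ)) := by
      push_cast
      rw [sub_mul, one_mul, ← hxu]
    rw [h2, norm_mul, hu, mul_one, Complex.norm_real, Real.norm_eq_abs,
      abs_of_pos (by linarith)]
  have h2 : 1 - ρ ≤ 1 - ρ ^ 2 := by nlinarith
  have hin : upd x k (x k / (ρ : ℂ)) ∈ closedBall (0 : Sp n) (R₀ + 1) := by
    rw [mem_closedBall_zero_iff]
    have h3 : upd x k (x k / (ρ : ℂ)) = (upd x k (x k / (ρ : ℂ)) - x) + x := by abel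
    rw [h3]
    refine (norm_add_le _ _).trans ?_
    rw [h1]
    linarith [hR x hx]
  have hrx := (hD.mem_iff x).1 hx
  refine ⟨x k / (ρ : ℂ), hu, hxu, h1, h2, ?_, ?_, ?_, hin⟩
  · refine hD.nonneg_of ?_
    rw [upd_same, hu]
  · have h4 := hLip x (by
      rw [mem_closedBall_zero_iff]
      linarith [hR x hx]) _ (closedBall_subset_closedBall (by linarith) hin)
    rw [h1] at h4
    have h5 := (abs_le.1 h4).2
    have h6 : C₀ * (1 - ρ) ≤ C₀ * (1 - ρ ^ 2) := mul_le_mul_of_nonneg_left h2 (by linarith)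
    linarith
  · have h7 := hg x hx hxε (upd x k (x k / (ρ : ℂ))) (by
      rw [h1]
      exact hxε)
    rwa [upd_same] at h7

lemma nmg_single_add {n : ℕ} (k : Fin n) (a b : ℂ) :
    (EuclideanSpace.single k (a + b) : Sp n) =
      EuclideanSpace.single k a + EuclideanSpace.single k b := by
  ext i
  by_cases hi : i = k
  · subst hi
    simp
  · simp [hi]

lemma nmg_single_smul {n : ℕ} (k : Fin n) (a : ℝ) (b : ℂ) :
    (EuclideanSpace.single k ((a : ℂ) * b) : Sp n) = a • EuclideanSpace.single k b := by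
  ext i
  by_cases hi : i = k
  · subst hi
    simp
  · simp [hi]

lemma nmg_a1 {s : ℝ} (h0 : 0 ≤ s) (h1 : s < 1) : 0 < 1 - s ^ 2 := by nlinarith

lemma nmg_a3 {s : ℝ} (h0 : 0 ≤ s) (h : 0 ≤ 1 - s ^ 2) : s ≤ 1 := by nlinarith

lemma nmg_a4 {x α e d : ℝ} (hx : 0 < x) (h : 2 * x * α = -e - d ^ 2) (he : 0 ≤ e) : α ≤ 0 := by
  by_contra hc
  push Not at hc
  have : 0 < 2 * x * α := by positivity
  linarith [sq_nonneg d]

lemma nmg_a5 {x α e d : ℝ} (hx : x ≤ 1) (h : 2 * x * α = -e - d ^ 2) (hα : α ≤ 0) :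
    α ≤ -e / 2 := by
  have h1 : 0 ≤ (x - 1) * α := mul_nonneg_of_nonpos_of_nonpos (by linarith) hα
  nlinarith [sq_nonneg d]

lemma nmg_a6 {δ : ℝ} (h0 : 0 ≤ δ) (h1 : δ ≤ 1) : δ ≤ √δ := by
  have h3 := Real.sq_sqrt h0
  have h4 : √δ ≤ 1 := by
    rw [← Real.sqrt_one]
    exact Real.sqrt_le_sqrt h1
  nlinarith [Real.sqrt_nonneg δ]

theorem tNmG (hTay : StmtTay) (hGrad : StmtGrad) (hTan : StmtTan) : StmtNmG := by
  intro n Ω r k hD
  obtain ⟨R₀, hR⟩ := hD.bdd.exists_norm_le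
  obtain ⟨C₀, hC₀, -, hLip, hdLip, -⟩ := hTay n r (R₀ + 3) hD.smooth
  obtain ⟨A, hA, hT⟩ := hTan n Ω r k hD (R₀ + 3)
  obtain ⟨l, ε, hl, hε, hε1, hg⟩ := hGrad n Ω r k hD
  refine ⟨max 1 (2 * (A * √C₀ + C₀) / l), min ε (1 / 2), le_max_left _ _, by positivity,
    lt_of_le_of_lt (min_le_left _ _) hε1, ?_⟩
  intro x hx hxε w' hw'
  have hxε1 : 1 - ‖x k‖ < ε := lt_of_lt_of_le hxε (min_le_left _ _)
  have hx2 : 1 / 2 < ‖x k‖ := by
    have := lt_of_lt_of_le hxε (min_le_right _ _)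
    linarith
  obtain ⟨u, hu, hxu, h1, h2, hr0, hr1, hL, hin⟩ :=
    nmg_edge hD hR hLip hC₀ hg hx hxε1 hx2
  have hlt := hD.norm_lt hx
  have hrx := (hD.mem_iff x).1 hx
  set δ := 1 - ‖x k‖ ^ 2 with hδ
  set d := ‖w' - x k‖ with hd
  have hd0 : 0 ≤ d := norm_nonneg _
  have hδ0 : 0 < δ := nmg_a1 (norm_nonneg _) hlt
  have hδ1 : δ ≤ 1 := by linarith [sq_nonneg ‖x k‖]
  set K := max 1 (2 * (A * √C₀ + C₀) / l) with hK
  have hK0 : 0 ≤ K := le_trans zero_le_one (le_max_left _ _)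
  have hterm : 0 ≤ K * (√δ * d + d ^ 2) := by positivity
  have hw1 : ‖w'‖ ≤ 1 := by
    have : 0 ≤ 1 - ‖w'‖ ^ 2 := by linarith
    exact nmg_a3 (norm_nonneg w') this
  set xs := upd x k u with hxs
  set L := fderiv ℝ r xs with hLdef
  set x' := upd x k w' with hx'
  have hdiff : x' - x = EuclideanSpace.single k (w' - x k) := by
    rw [hx', upd, add_sub_cancel_left]
  have hd2 : d ≤ 2 := by
    have := norm_sub_le w' (x k)
    linarith
  -- the mean value inequality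
  have hmv : |(r x' - L x') - (r x - L x)| ≤ C₀ * (δ + d) * ‖x' - x‖ := by
    have hder : ∀ y ∈ segment ℝ x x', HasFDerivWithinAt (fun y => r y - L y)
        (fderiv ℝ r y - L) (segment ℝ x x') y := fun y _ =>
      ((hD.smooth.differentiable (by simp)).differentiableAt.hasFDerivAt.sub
        L.hasFDerivAt).hasFDerivWithinAt
    have hbound : ∀ y ∈ segment ℝ x x', ‖fderiv ℝ r y - L‖ ≤ C₀ * (δ + d) := by
      intro y hy
      have h3 : ‖y - x‖ ≤ ‖x' - x‖ := norm_sub_le_of_mem_segment hy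
      rw [hx', norm_upd_sub] at h3
      have h4 : y ∈ closedBall (0 : Sp n) (R₀ + 3) := by
        rw [mem_closedBall_zero_iff]
        have h5 : y = (y - x) + x := by abel
        rw [h5]
        refine (norm_add_le _ _).trans ?_
        linarith [hR x hx]
      have h6 := hdLip xs (closedBall_subset_closedBall (by linarith) hin) y h4
      refine h6.trans (mul_le_mul_of_nonneg_left ?_ (by linarith))
      have h7 : y - xs = (y - x) - (xs - x) := by abel
      rw [h7]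
      refine (norm_sub_le _ _).trans ?_
      rw [h1]
      linarith
    have := (convex_segment x x').norm_image_sub_le_of_norm_hasFDerivWithin_le hder hbound
      (left_mem_segment ℝ x x') (right_mem_segment ℝ x x')
    rwa [Real.norm_eq_abs] at this
  have hnd : ‖x' - x‖ = d := by rw [hx', norm_upd_sub]
  rw [hnd] at hmv
  have hmv2 : r x' ≤ r x + L (x' - x) + C₀ * (δ + d) * d := by
    have := (abs_le.1 hmv).2
    rw [map_sub]
    linarith
  -- decomposition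
  obtain ⟨hτ1, hτ2⟩ := nmg_dec hu (w' - x k)
  set α : ℝ := (starRingEnd ℂ u * (w' - x k)).re with hα
  set τ : ℂ := w' - x k - (α : ℂ) * u with hτ
  have hsplit : (EuclideanSpace.single k (w' - x k) : Sp n) =
      α • EuclideanSpace.single k u + EuclideanSpace.single k τ := by
    rw [← nmg_single_smul, ← nmg_single_add]
    congr 1
    rw [hτ]
    ring
  have hLs : L (x' - x) = α * L (EuclideanSpace.single k u) + L (EuclideanSpace.single k τ) := by
    rw [hdiff, hsplit, map_add, map_smul, smul_eq_mul]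
  have hTτ : |L (EuclideanSpace.single k τ)| ≤ A * √C₀ * √δ * d := by
    have h3 := hT xs (closedBall_subset_closedBall (by linarith) hin) (by
      rw [hxs, upd_same, hu]) (EuclideanSpace.single k τ) (by
      rw [hxs, upd_same]
      have : (EuclideanSpace.single k τ : Sp n) k = τ := by simp
      rw [this]
      exact hτ1)
    refine h3.trans ?_
    have h4 : ‖(EuclideanSpace.single k τ : Sp n)‖ = ‖τ‖ := by simp
    rw [h4]
    have h5 : √(r xs) ≤ √C₀ * √δ := by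
      rw [← Real.sqrt_mul (by linarith)]
      exact Real.sqrt_le_sqrt hr1
    calc A * √(r xs) * ‖τ‖ ≤ A * (√C₀ * √δ) * d := by
          refine mul_le_mul (mul_le_mul_of_nonneg_left h5 hA.le) hτ2 (norm_nonneg _) (by positivity)
      _ = A * √C₀ * √δ * d := by ring
  -- the radial part
  have hnorm : ‖w'‖ ^ 2 = ‖x k‖ ^ 2 + 2 * ‖x k‖ * α + d ^ 2 := by
    have h3 : w' = x k + (w' - x k) := by ring
    have h4 : (starRingEnd ℂ (x k) * (w' - x k)).re = ‖x k‖ * α := by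
      have h6 : starRingEnd ℂ (x k) = (‖x k‖ : ℂ) * starRingEnd ℂ u := by
        conv_lhs => rw [hxu]
        rw [map_mul, Complex.conj_ofReal]
      rw [h6, mul_assoc, Complex.re_ofReal_mul]
    have h5 : (x k * starRingEnd ℂ (w' - x k)).re = ‖x k‖ * α := by
      rw [← h4, ← Complex.conj_re]
      congr 1
      simp
    calc ‖w'‖ ^ 2 = Complex.normSq (x k + (w' - x k)) := by
          rw [← h3, Complex.normSq_eq_norm_sq]
      _ = ‖x k‖ ^ 2 + 2 * ‖x k‖ * α + d ^ 2 := by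
          rw [Complex.normSq_add, Complex.normSq_eq_norm_sq, Complex.normSq_eq_norm_sq, h5, hd]
          ring
  set δ' := 1 - ‖w'‖ ^ 2 with hδ'
  have hα1 : 2 * ‖x k‖ * α = -(δ' - δ) - d ^ 2 := by
    rw [hδ', hδ]
    linarith
  have hδδ : K * (√δ * d + d ^ 2) ≤ δ' - δ := by linarith
  have hα0 : α ≤ 0 := nmg_a4 (by linarith) hα1 (by linarith)
  have hα2 : α ≤ -(δ' - δ) / 2 := nmg_a5 hlt.le hα1 hα0
  have hαL : α * L (EuclideanSpace.single k u) ≤ -(δ' - δ) / 2 * l := by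
    have h3 : α * L (EuclideanSpace.single k u) ≤ α * l :=
      mul_le_mul_of_nonpos_left hL hα0
    have h4 : α * l ≤ -(δ' - δ) / 2 * l := mul_le_mul_of_nonneg_right hα2 hl.le
    linarith
  have hsq : δ ≤ √δ := nmg_a6 hδ0.le hδ1
  rw [hD.mem_iff]
  have hKl : A * √C₀ + C₀ ≤ K * l / 2 := by
    have h3 : 2 * (A * √C₀ + C₀) / l ≤ K := le_max_right _ _
    rw [div_le_iff₀ hl] at h3
    linarith
  have hfin : (A * √C₀ + C₀) * (√δ * d + d ^ 2) ≤ (δ' - δ) / 2 * l := by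
    have h3 : (A * √C₀ + C₀) * (√δ * d + d ^ 2) ≤ K * l / 2 * (√δ * d + d ^ 2) :=
      mul_le_mul_of_nonneg_right hKl (by positivity)
    have h4 : K * (√δ * d + d ^ 2) * (l / 2) ≤ (δ' - δ) * (l / 2) :=
      mul_le_mul_of_nonneg_right hδδ (by positivity)
    linarith
  have hC0d : C₀ * (δ + d) * d ≤ C₀ * (√δ * d + d ^ 2) := by
    have h3 : δ * d ≤ √δ * d := mul_le_mul_of_nonneg_right hsq hd0
    have h4 : (δ + d) * d ≤ √δ * d + d ^ 2 := by
      have : (δ + d) * d = δ * d + d ^ 2 := by ring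
      linarith
    have := mul_le_mul_of_nonneg_left h4 (by linarith : (0 : ℝ) ≤ C₀)
    linarith
  have hτu := (abs_le.1 hTτ).2
  have hAd : 0 ≤ A * √C₀ * d ^ 2 := by positivity
  have hexp : (A * √C₀ + C₀) * (√δ * d + d ^ 2) =
      A * √C₀ * √δ * d + A * √C₀ * d ^ 2 + C₀ * (√δ * d + d ^ 2) := by ring
  rw [hLs] at hmv2
  linarith

end MP16b755
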