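import Pool.Agent.Lib.MP_16b755_an.Spec

/-!
# A lower bound for a curve of order m
-/

set_option autoImplicit false

namespace MP16b755

open MeasureTheory Metric Set Filter Topology

theorem tOrd : StmtOrd := by
  intro n γ ε m hε hd hm hne
  have han : AnalyticAt ℂ γ 0 := hd.analyticAt (ball_mem_nhds 0 hε)
  have han' : AnalyticAt ℂ (fun z => γ z - γ 0) 0 := han.sub analyticAt_const
  have hder : iteratedDeriv m (fun z => γ z - γ 0) 0 ≠ 0 := by
    have h1 : iteratedDeriv m (fun z => γ z - γ 0) = iteratedDeriv m γ := by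
      obtain ⟨m', rfl⟩ : ∃ m', m = m' + 1 := ⟨m - 1, by omega⟩
      rw [iteratedDeriv_succ', iteratedDeriv_succ']
      congr 1
      funext z
      exact deriv_sub_const (γ 0)
    rw [h1]
    exact hne
  have hlt : ¬ ((m + 1 : ℕ) : ℕ∞) ≤ analyticOrderAt (fun z => γ z - γ 0) 0 := by
    intro hc
    rw [natCast_le_analyticOrderAt_iff_iteratedDeriv_eq_zero han'] at hc
    exact hder (hc m (Nat.lt_succ_self m))
  have htop : analyticOrderAt (fun z => γ z - γ 0) 0 ≠ ⊤ := by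
    intro hc
    rw [hc] at hlt
    exact hlt le_top
  obtain ⟨s, hs⟩ := ENat.ne_top_iff_exists.1 htop
  have hsm : s ≤ m := by
    rw [← hs] at hlt
    have : ¬ (m + 1 ≤ s) := fun hc => hlt (by exact_mod_cast hc)
    omega
  obtain ⟨g, hg, hg0, hev⟩ := (han'.analyticOrderAt_eq_natCast).1 hs.symm
  have hgn : 0 < ‖g 0‖ := norm_pos_iff.2 hg0
  have h2 : ∀ᶠ z in 𝓝 (0 : ℂ), ‖g 0‖ / 2 < ‖g z‖ :=
    hg.continuousAt.norm.eventually (lt_mem_nhds (by linarith))
  have h3 : ∀ᶠ z in 𝓝 (0 : ℂ), ‖z‖ < 1 := by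
    have : ContinuousAt (fun z : ℂ => ‖z‖) 0 := continuous_norm.continuousAt
    exact this.eventually (gt_mem_nhds (by simp))
  obtain ⟨δ, hδ, hb⟩ := Metric.eventually_nhds_iff_ball.1 (hev.and (h2.and h3))
  refine ⟨‖g 0‖ / 2, δ, by positivity, hδ, fun z hz => ?_⟩
  obtain ⟨h4, h5, h6⟩ := hb z (mem_ball_zero_iff.2 hz)
  rw [h4, sub_zero, norm_smul, norm_pow, mul_comm]
  refine mul_le_mul ?_ h5.le (by positivity) (by positivity)
  exact pow_le_pow_of_le_one (norm_nonneg z) h6.le hsm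

end MP16b755
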