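import Pool.Agent.Lib.MP_16b755_an.Spec

/-!
# Growth by a fixed amount on geometric scales
-/

set_option autoImplicit false

namespace MP16b755

theorem tOscA : StmtOscA := by
  intro f s L κ lam σ₀ hs hκ hlam hmono hL hstep
  set σ₁ : ℝ := max σ₀ s + 1 with hσ
  have h1 : s < σ₁ := by
    have := le_max_right σ₀ s
    linarith
  have h0 : σ₀ ≤ σ₁ := by
    have := le_max_left σ₀ s
    linarith
  have hσ₁ : 0 < σ₁ := hs.trans h1
  have hlog : 0 < Real.log lam := Real.log_pos hlam
  have hge : ∀ m : ℕ, σ₁ ≤ lam ^ m * σ₁ := fun m =>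
    le_mul_of_one_le_left hσ₁.le (one_le_pow₀ hlam.le)
  have hind : ∀ m : ℕ, -L + m * κ ≤ f (lam ^ m * σ₁) := by
    intro m
    induction m with
    | zero => simpa using hL σ₁ h1
    | succ m ih =>
      have h := hstep (lam ^ m * σ₁) (h0.trans (hge m)) (h1.trans_le (hge m))
      have e1 : lam * (lam ^ m * σ₁) = lam ^ (m + 1) * σ₁ := by ring
      rw [e1] at h
      push_cast
      linarith
  refine ⟨Real.exp (L + κ) * σ₁ ^ (κ / Real.log lam), κ / Real.log lam, 1 / σ₁, by positivity,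
    by positivity, by positivity, fun u hu hu0 => ?_⟩
  have hσu : σ₁ < 1 / u := by
    rw [lt_div_iff₀ hu]
    rw [lt_div_iff₀ hσ₁] at hu0
    linarith
  have hq : 0 < 1 / u / σ₁ := by positivity
  have hq1 : 1 < 1 / u / σ₁ := by
    rw [lt_div_iff₀ hσ₁]
    linarith
  have hlq : 0 ≤ Real.log (1 / u / σ₁) := Real.log_nonneg hq1.le
  set m : ℕ := ⌊Real.log (1 / u / σ₁) / Real.log lam⌋₊ with hm
  have hm1 : (m : ℝ) ≤ Real.log (1 / u / σ₁) / Real.log lam :=
    Nat.floor_le (div_nonneg hlq hlog.le)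
  have hm2 : Real.log (1 / u / σ₁) / Real.log lam < m + 1 := Nat.lt_floor_add_one _
  have hle : lam ^ m * σ₁ ≤ 1 / u := by
    rw [← le_div_iff₀ hσ₁]
    rw [le_div_iff₀ hlog] at hm1
    have hl0 : 0 < lam := by linarith
    rw [← Real.log_le_log_iff (by positivity) hq, Real.log_pow]
    exact hm1
  have h2 : -L + m * κ ≤ f (1 / u) :=
    (hind m).trans (hmono _ _ (h1.trans_le (hge m)) hle)
  have h3 : -f (1 / u) ≤ (L + κ) + (κ / Real.log lam) * (Real.log u + Real.log σ₁) := by
    have e1 : Real.log (1 / u / σ₁) = -(Real.log u + Real.log σ₁) := by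
      rw [Real.log_div (by positivity) hσ₁.ne', Real.log_div one_ne_zero hu.ne', Real.log_one]
      ring
    have e2 : κ * (Real.log (1 / u / σ₁) / Real.log lam) =
        -((κ / Real.log lam) * (Real.log u + Real.log σ₁)) := by
      rw [e1]
      ring
    have e3 : κ * (Real.log (1 / u / σ₁) / Real.log lam) < κ * (m + 1) :=
      mul_lt_mul_of_pos_left hm2 hκ
    linarith
  calc Real.exp (-f (1 / u)) ≤
      Real.exp ((L + κ) + (κ / Real.log lam) * (Real.log u + Real.log σ₁)) :=
        Real.exp_le_exp.2 h3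
    _ = Real.exp (L + κ) * σ₁ ^ (κ / Real.log lam) * u ^ (κ / Real.log lam) := by
        rw [Real.rpow_def_of_pos hσ₁, Real.rpow_def_of_pos hu, ← Real.exp_add, ← Real.exp_add]
        congr 1
        ring

end MP16b755
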