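import Pool.Agent.Lib.MP_16b755_an.Spec

/-!
# MP_16b755_an: a nonzero difference of mean values gives power decay
-/

set_option autoImplicit false

namespace MP16b755

open MeasureTheory Metric Set Filter Topology

theorem tOscB (hBas : StmtBas) (hCmp : StmtCmp) (hOscA : StmtOscA) : StmtOscB := by
  intro W B C ε c₀ hP ζ hζ c r r' κ hr hr' hcr hcr' hκ hinv
  have hC1 := hP.C1
  have hε := hP.e0
  have hC : 16 ≤ 16 * C ^ 2 := by nlinarith
  obtain ⟨_, hm, _, hb4, hb5, _⟩ := hBas W B C ε c₀ hP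
  obtain ⟨hc1, hc2⟩ := hCmp W B C ε c₀ hP ζ hζ
  obtain ⟨R, hR, hRr, hRr'⟩ : ∃ R : ℝ, 16 * C ^ 2 + R < c.re ∧ r ≤ R ∧ r' ≤ R :=
    ⟨max r r', by rcases max_choice r r' with h | h <;> rw [h] <;> assumption,
      le_max_left _ _, le_max_right _ _⟩
  have hR0 : 0 < R := by linarith
  obtain ⟨a, ha⟩ : ∃ a : ℝ, a = 16 * C ^ 2 := ⟨_, rfl⟩
  obtain ⟨b, hb⟩ : ∃ b : ℝ, b = c.re + R := ⟨_, rfl⟩
  have ha0 : 0 < a := by linarith
  have hab : a < b := by linarith
  have hb0 : 0 < b := by linarith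
  obtain ⟨D, hD⟩ : ∃ D : ℝ, D = |c.im| + R + b + 2 / ε + 1 := ⟨_, rfl⟩
  have hcim := abs_nonneg c.im
  have h2ε : 0 < 2 / ε := by positivity
  have hD0 : 0 < D := by linarith
  -- the values on the discs
  have hval : ∀ t : ℝ, 2 * D ≤ t → 8 * b / ε < t ^ 2 → ∀ ω ∈ ball (c + t * Complex.I) R,
      Psi W ζ ((t ^ 2 / (8 * b) : ℝ) : ℂ) ≤ Psi W ζ ω ∧
        Psi W ζ ω ≤ Psi W ζ ((16 * t ^ 2 / a : ℝ) : ℂ) := by
    intro t ht ht2 ω hω
    have hre : (c + t * Complex.I).re = c.re := by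
      simp only [Complex.add_re, Complex.mul_re, Complex.ofReal_re, Complex.ofReal_im,
        Complex.I_re, Complex.I_im]
      ring
    have him : (c + t * Complex.I).im = c.im + t := by
      simp only [Complex.add_im, Complex.mul_im, Complex.ofReal_re, Complex.ofReal_im,
        Complex.I_re, Complex.I_im]
      ring
    rw [mem_ball, dist_eq_norm] at hω
    have h1 := (Complex.abs_re_le_norm (ω - (c + t * Complex.I))).trans_lt hω
    have h2 := (Complex.abs_im_le_norm (ω - (c + t * Complex.I))).trans_lt hω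
    rw [Complex.sub_re, hre, abs_lt] at h1
    rw [Complex.sub_im, him, abs_lt] at h2
    have h3 := le_abs_self c.im
    have h4 := neg_abs_le c.im
    have h5 : a ≤ ω.re := by linarith
    have h6 : ω.re ≤ b := by linarith
    have h7 : t / 2 ≤ ω.im := by linarith
    have h8 : ω.im ≤ t + |c.im| + R := by linarith
    have h9 : t / 2 ≤ ‖ω‖ := h7.trans ((le_abs_self _).trans (Complex.abs_im_le_norm ω))
    have h10 : ‖ω‖ ≤ 2 * t := by
      have h11 := Complex.norm_le_abs_re_add_abs_im ω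
      rw [abs_of_pos (by linarith : 0 < ω.re), abs_of_pos (by linarith : 0 < ω.im)] at h11
      linarith
    have h12 : 2 / ε < ‖ω‖ := by linarith
    obtain ⟨k1, k2, k3⟩ := hc2 ω (by linarith) h12
    have h13 : (t / 2) ^ 2 ≤ ‖ω‖ ^ 2 := pow_le_pow_left₀ (by linarith) h9 2
    have h14 : ‖ω‖ ^ 2 ≤ (2 * t) ^ 2 := pow_le_pow_left₀ (norm_nonneg ω) h10 2
    have h15 : t ^ 2 / (8 * b) ≤ ‖ω‖ ^ 2 / (2 * ω.re) := by
      rw [div_le_div_iff₀ (by positivity) (by linarith)]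
      have h16 : t ^ 2 * (2 * ω.re) ≤ t ^ 2 * (2 * b) :=
        mul_le_mul_of_nonneg_left (by linarith) (by positivity)
      have h17 : (t / 2) ^ 2 * (8 * b) ≤ ‖ω‖ ^ 2 * (8 * b) :=
        mul_le_mul_of_nonneg_right h13 (by positivity)
      have h18 : (t / 2) ^ 2 * (8 * b) = t ^ 2 * (2 * b) := by ring
      linarith
    have h19 : 4 * ‖ω‖ ^ 2 / ω.re ≤ 16 * t ^ 2 / a := by
      rw [div_le_div_iff₀ (by linarith) ha0]
      have h20 : 4 * ‖ω‖ ^ 2 * a ≤ 4 * (2 * t) ^ 2 * a :=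
        mul_le_mul_of_nonneg_right (by linarith) ha0.le
      have h21 : 16 * t ^ 2 * a ≤ 16 * t ^ 2 * ω.re :=
        mul_le_mul_of_nonneg_left h5 (by positivity)
      have h22 : 4 * (2 * t) ^ 2 * a = 16 * t ^ 2 * a := by ring
      linarith
    have h23 : 1 / ε < t ^ 2 / (8 * b) := by
      rw [lt_div_iff₀ (by positivity)]
      have h24 : 1 / ε * (8 * b) = 8 * b / ε := by ring
      linarith
    have h25 : ‖ω‖ ^ 2 / (2 * ω.re) ≤ 4 * ‖ω‖ ^ 2 / ω.re := by
      rw [div_le_div_iff₀ (by linarith) (by linarith)]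
      have h26 : 0 ≤ ‖ω‖ ^ 2 * ω.re := mul_nonneg (sq_nonneg _) (by linarith)
      linarith
    exact ⟨(hc1 _ _ h23 h15).trans k1, k2.trans (hc1 _ _ (k3.trans_le h25) h19)⟩
  have hdiff : ∀ t : ℝ, 2 * D ≤ t → 8 * b / ε < t ^ 2 →
      Psi W ζ ((t ^ 2 / (8 * b) : ℝ) : ℂ) + |κ| ≤ Psi W ζ ((16 * t ^ 2 / a : ℝ) : ℂ) := by
    intro t ht ht2
    have hre : (c + t * Complex.I).re = c.re := by
      simp only [Complex.add_re, Complex.mul_re, Complex.ofReal_re, Complex.ofReal_im,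
        Complex.I_re, Complex.I_im]
      ring
    have hav : ∀ s : ℝ, 0 < s → s ≤ R →
        Psi W ζ ((t ^ 2 / (8 * b) : ℝ) : ℂ) ≤ av (Psi W ζ) (c + t * Complex.I) s ∧
        av (Psi W ζ) (c + t * Complex.I) s ≤ Psi W ζ ((16 * t ^ 2 / a : ℝ) : ℂ) := by
      intro s hs hsR
      have hI : IntegrableOn (Psi W ζ) (ball (c + t * Complex.I) s) := by
        obtain ⟨M, _, hM⟩ := hb5 (c + t * Complex.I) s (by rw [hre]; linarith)
        exact intOn (hm ζ) fun ω hω => hM ζ ω hζ (ball_subset_closedBall hω)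
      exact ⟨le_av hs hI fun ω hω => (hval t ht ht2 ω (ball_subset_ball hsR hω)).1,
        av_le hs hI fun ω hω => (hval t ht ht2 ω (ball_subset_ball hsR hω)).2⟩
    obtain ⟨u1, u2⟩ := hav r hr hRr
    obtain ⟨u3, u4⟩ := hav r' hr' hRr'
    have h1 := hinv t
    rcases abs_cases κ with ⟨h2, _⟩ | ⟨h2, _⟩
    · rw [h2]
      linarith
    · rw [h2]
      linarith
  -- the real lemma
  obtain ⟨K, e, u₀, hK, he, hu, h1⟩ := hOscA (fun x => Psi W ζ (x : ℂ)) (1 / ε) (Real.log B) |κ|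
    (128 * b / a) ((2 * D) ^ 2 / (8 * b) + 1) (by positivity) (abs_pos.2 hκ)
    (by
      rw [one_lt_div ha0]
      linarith)
    hc1
    (fun σ hσ => hb4 ζ (σ : ℂ) hζ (by
      rw [Complex.ofReal_re]
      exact lt_trans (by positivity) hσ))
    (fun σ hσ1 hσ2 => by
      have hσ0 : 0 < σ := lt_trans (by positivity) hσ2
      have hb8 : 0 < 8 * b * σ := by positivity
      have h3 : √(8 * b * σ) ^ 2 = 8 * b * σ := Real.sq_sqrt hb8.le
      have h4 := hdiff √(8 * b * σ) (by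
        apply Real.le_sqrt_of_sq_le
        have h5 : (2 * D) ^ 2 / (8 * b) ≤ σ := by linarith
        rw [div_le_iff₀ (by positivity)] at h5
        linarith) (by
        rw [h3]
        have h6 : 8 * b / ε = 8 * b * (1 / ε) := by ring
        rw [h6]
        exact mul_lt_mul_of_pos_left hσ2 (by positivity))
      rw [h3] at h4
      have e1 : 8 * b * σ / (8 * b) = σ := by field_simp
      have e2 : 16 * (8 * b * σ) / a = 128 * b / a * σ := by ring
      rw [e1, e2] at h4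
      exact h4)
  refine ⟨K, e, u₀, hK, he, hu, fun u hu0 hu1 => ?_⟩
  have h2 := h1 u hu0 hu1
  have h3 : Psi W ζ ((1 / u : ℝ) : ℂ) = -Real.log (W (cay ζ (u : ℂ))) := by
    rw [Psi, psi]
    congr 4
    push_cast
    rw [one_div, inv_inv]
  have h4 : 0 < W (cay ζ (u : ℂ)) := hP.pos _ (cay_mem hζ (by rwa [Complex.ofReal_re]))
  have h5 : Real.exp (-Psi W ζ ((1 / u : ℝ) : ℂ)) = W (cay ζ (u : ℂ)) := by
    rw [h3, neg_neg, Real.exp_log h4]
  rw [← h5]
  exact h2

end MP16b755
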