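import Pool.Agent.Lib.MP_16b755_an.Spec

/-!
# The property `gr` of the width function, in half plane coordinates
-/

set_option autoImplicit false

namespace MP16b755

open MeasureTheory Metric Set Filter Topology

/-- A unit vector in the direction of `z` (or `1`). -/
lemma pgr_dir (z : ℂ) {t : ℝ} (ht : 0 ≤ t) : ∃ v : ℂ, ‖v‖ = t ∧ ‖z + v‖ = ‖z‖ + t := by
  by_cases hz : z = 0
  · refine ⟨(t : ℂ), ?_, ?_⟩
    · rw [Complex.norm_real, Real.norm_eq_abs, abs_of_nonneg ht]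
    · rw [hz, zero_add, norm_zero, zero_add, Complex.norm_real, Real.norm_eq_abs, abs_of_nonneg ht]
  · have hn : 0 < ‖z‖ := norm_pos_iff.2 hz
    refine ⟨((t / ‖z‖ : ℝ) : ℂ) * z, ?_, ?_⟩
    · rw [norm_mul, Complex.norm_real, Real.norm_eq_abs, abs_of_nonneg (by positivity),
        div_mul_cancel₀ _ hn.ne']
    · have h1 : z + ((t / ‖z‖ : ℝ) : ℂ) * z = ((1 + t / ‖z‖ : ℝ) : ℂ) * z := by
        push_cast
        ring
      rw [h1, norm_mul, Complex.norm_real, Real.norm_eq_abs, abs_of_nonneg (by positivity)]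
      field_simp

/-- Enlarging the fibre. -/
lemma pgr_wd {n : ℕ} {Ω : Set (Sp n)} {r : Sp n → ℝ} {k i : Fin n} (hD : Dom Ω r k) (hik : i ≠ k)
    {w w' : ℂ} (hw' : ‖w'‖ < 1) {t : ℝ} (ht : 0 ≤ t)
    (h : ∀ y ∈ Ω, y k = w' → ∀ ξ : Sp n, ξ k = 0 → ‖ξ‖ ≤ t → upd y k w + ξ ∈ Ω) :
    wd Ω k i w' + t ≤ wd Ω k i w := by
  have key : ∀ y ∈ Ω, y k = w' → ∀ y' ∈ Ω, y' k = w' → ‖y i - y' i‖ + t ≤ wd Ω k i w := by
    intro y hy hyk y' hy' hyk'
    obtain ⟨v, hv, hv2⟩ := pgr_dir (y i - y' i) ht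
    have hξk : (EuclideanSpace.single i v : Sp n) k = 0 := by
      simp [hik.symm]
    have h1 : upd y k w + EuclideanSpace.single i v ∈ Ω := by
      refine h y hy hyk _ hξk ?_
      rw [PiLp.norm_single, hv]
    have h2 : upd y' k w + 0 ∈ Ω := by
      refine h y' hy' hyk' 0 rfl ?_
      rw [norm_zero]
      exact ht
    rw [add_zero] at h2
    have e1 : (upd y k w + EuclideanSpace.single i v) k = w := by
      rw [PiLp.add_apply, upd_same, hξk, add_zero]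
    have e2 : (upd y k w + EuclideanSpace.single i v) i = y i + v := by
      rw [PiLp.add_apply, upd_ne y k hik w]
      simp
    have h3 := dist_le_wd (i := i) hD.bdd h1 h2 e1 (upd_same y' k w)
    rw [e2, upd_ne y' k hik w, show y i + v - y' i = y i - y' i + v by ring, hv2] at h3
    exact h3
  obtain ⟨y₀, hy₀, hy₀k⟩ := hD.exists_fib hw'
  have h0 := key y₀ hy₀ hy₀k y₀ hy₀ hy₀k
  rw [sub_self, norm_zero, zero_add] at h0
  have h1 : wd Ω k i w' ≤ wd Ω k i w - t := by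
    refine Metric.diam_le_of_forall_dist_le (by linarith) ?_
    rintro z ⟨y, hy, hyk, rfl⟩ z' ⟨y', hy', hyk', rfl⟩
    rw [dist_eq_norm]
    linarith [key y hy hyk y' hy' hyk']
  linarith

theorem tPGr (hGrG : StmtGrG) : StmtPGr := by
  intro n Ω r k i hD hik
  obtain ⟨c₁, ε₁, hc₁, hc₁', hε₁, hε₁', hG⟩ := hGrG n Ω r k hD
  have hε : 0 < min (ε₁ / 10) (c₁ ^ 2 / 64) := by
    refine lt_min ?_ ?_ <;> positivity
  have hε2 : min (ε₁ / 10) (c₁ ^ 2 / 64) ≤ ε₁ / 10 := min_le_left _ _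
  have hε3 : min (ε₁ / 10) (c₁ ^ 2 / 64) ≤ c₁ ^ 2 / 64 := min_le_right _ _
  refine ⟨c₁ / 8, min (ε₁ / 10) (c₁ ^ 2 / 64), by positivity, hε, by linarith, ?_⟩
  generalize min (ε₁ / 10) (c₁ ^ 2 / 64) = ε at *
  intro ζ β β' hζ hβ hβ' hb hb' hr hi
  have hx : β.re < ε := lt_of_le_of_lt (Complex.re_le_norm β) hb
  have hsx : 0 < √β.re := Real.sqrt_pos.2 hβ
  have hsq : √β.re ^ 2 = β.re := Real.sq_sqrt hβ.le
  have hs1 : √β.re ≤ c₁ / 8 := by
    refine Real.sqrt_le_iff.2 ⟨by positivity, ?_⟩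
    rw [div_pow]
    linarith [show c₁ ^ 2 / 8 ^ 2 = c₁ ^ 2 / 64 by norm_num]
  -- the depths
  have hn1 := one_le_norm_one_add hβ
  have hn2 := one_le_norm_one_add hβ'
  have hn3 : ‖1 + β‖ ≤ 11 / 10 := by
    have := norm_add_le (1 : ℂ) β
    rw [norm_one] at this
    linarith
  have hd : 2 * β.re ≤ 1 - ‖cay ζ β‖ ^ 2 := by
    rw [cay_del hζ hβ, le_div_iff₀ (by positivity)]
    have : ‖1 + β‖ ^ 2 ≤ (11 / 10) ^ 2 := pow_le_pow_left₀ (by positivity) hn3 2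
    nlinarith
  have hd' : 1 - ‖cay ζ β'‖ ^ 2 ≤ 4 * β'.re := by
    rw [cay_del hζ hβ', div_le_iff₀ (by positivity)]
    have : (1 : ℝ) ≤ ‖1 + β'‖ ^ 2 := one_le_pow₀ hn2
    nlinarith
  have hx' : β'.re ≤ β.re := by nlinarith
  have hw'1 : ‖cay ζ β'‖ < 1 := by
    have := cay_mem hζ hβ'
    rwa [mem_ball_zero_iff] at this
  have hsδ : √β.re ≤ √(1 - ‖cay ζ β‖ ^ 2) := Real.sqrt_le_sqrt (by linarith)
  -- the distance
  have hdist : ‖cay ζ β - cay ζ β'‖ ≤ c₁ * √(1 - ‖cay ζ β‖ ^ 2) := by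
    have h1 : ‖β - β'‖ ≤ β.re + c₁ / 8 * √β.re := by
      have h2 := Complex.norm_le_abs_re_add_abs_im (β - β')
      rw [Complex.sub_re, Complex.sub_im, abs_sub_comm β.im] at h2
      have h3 : |β.re - β'.re| ≤ β.re := by
        rw [abs_of_nonneg (by linarith)]
        linarith
      linarith
    have h4 : ‖cay ζ β - cay ζ β'‖ ≤ 2 * ‖β - β'‖ := by
      rw [norm_cay_sub hζ hβ' hβ, norm_sub_rev β' β, div_le_iff₀ (by positivity)]
      have h5 : 1 ≤ ‖1 + β'‖ * ‖1 + β‖ := by nlinarith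
      nlinarith [norm_nonneg (β - β')]
    have h6 : β.re ≤ c₁ / 8 * √β.re := by nlinarith
    have h7 : c₁ * √β.re ≤ c₁ * √(1 - ‖cay ζ β‖ ^ 2) := mul_le_mul_of_nonneg_left hsδ hc₁.le
    nlinarith [mul_pos hc₁ hsx]
  have hshallow : 1 - ‖cay ζ β'‖ < ε₁ := by
    have h1 : ‖cay ζ β'‖ ^ 2 ≤ ‖cay ζ β'‖ := by nlinarith [norm_nonneg (cay ζ β')]
    linarith
  have hcomp : 1 - ‖cay ζ β'‖ ^ 2 ≤ c₁ * (1 - ‖cay ζ β‖ ^ 2) := by nlinarith
  refine pgr_wd hD hik hw'1 (by positivity) fun y hy hyk ξ hξ hξn => ?_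
  refine hG y hy (by rw [hyk]; exact hshallow) (cay ζ β) ξ hξ (by rw [hyk]; exact hcomp)
    (by rw [hyk]; exact hdist) ?_
  have h7 : c₁ * √β.re ≤ c₁ * √(1 - ‖cay ζ β‖ ^ 2) := mul_le_mul_of_nonneg_left hsδ hc₁.le
  nlinarith [mul_pos hc₁ hsx]

end MP16b755
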