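import Pool.Agent.Lib.MP_16b755_an.Spec

/-!
# The property `nm` of the width function
-/

set_option autoImplicit false

namespace MP16b755

open MeasureTheory Metric Set Filter Topology

/-- the difference of `1 - |w|²` for two points in half plane coordinates -/
private lemma pnm_frac {x D d N N' : ℝ} (hx : 0 ≤ x) (hD : 0 ≤ D) (hd : 0 ≤ d) (h1 : 1 ≤ N)
    (h1' : 1 ≤ N') (h2 : N' ≤ 2) (h3 : N' - N ≤ 3 * D + d) :
    4 * x / N + (2 * D - 4 * x * (3 * D + d)) ≤ 4 * (x + D) / N' := by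
  have hN : 0 < N := by linarith
  have hN' : 0 < N' := by linarith
  have e1 : 2 * D ≤ 4 * D / N' := by
    rw [le_div_iff₀ hN']
    nlinarith
  have e2 : 1 / N - 1 / N' ≤ 3 * D + d := by
    rw [div_sub_div _ _ hN.ne' hN'.ne', div_le_iff₀ (by positivity)]
    have h4 : 1 ≤ N * N' := by nlinarith
    nlinarith
  have e3 : 4 * x * (1 / N - 1 / N') ≤ 4 * x * (3 * D + d) :=
    mul_le_mul_of_nonneg_left e2 (by positivity)
  have e4 : 4 * (x + D) / N' = 4 * D / N' + 4 * x * (1 / N') := by ring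
  have e5 : 4 * x / N = 4 * x * (1 / N) := by ring
  rw [e4, e5]
  linarith

/-- the real inequality -/
private lemma pnm_real {C₁ e x D d s N N' : ℝ} (hC : 1 ≤ C₁) (he : 0 ≤ e)
    (heC : e * (10000 * C₁ ^ 2) ≤ 1) (hs : 0 ≤ s) (hsx : s ^ 2 = x) (hxe : x ≤ e) (hD : 0 ≤ D)
    (hDe : D ≤ e) (hd : 0 ≤ d) (h1 : 1 ≤ N) (h1' : 1 ≤ N') (h2 : N' ≤ 2)
    (h3 : N' - N ≤ 3 * D + d) (h : (48 + 32 * C₁) * (s * d + d ^ 2) ≤ D) :
    4 * x / N + C₁ * (2 * s * (2 * (D + d)) + (2 * (D + d)) ^ 2) ≤ 4 * (x + D) / N' := by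
  have hx : 0 ≤ x := by rw [← hsx]; positivity
  have hf := pnm_frac hx hD hd h1 h1' h2 h3
  refine le_trans ?_ hf
  have hsC : C₁ * s ≤ 1 / 100 := by
    have h4 : (C₁ * s) ^ 2 ≤ (1 / 100) ^ 2 := by
      rw [mul_pow, hsx]
      nlinarith [sq_nonneg C₁]
    exact le_of_sq_le_sq h4 (by norm_num)
  have hs1 : s ≤ 1 / 100 := by nlinarith
  have heC1 : C₁ * e ≤ 1 / 10000 := by nlinarith
  have he1 : e ≤ 1 / 10000 := by nlinarith
  -- the terms with `D`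
  have t1 : C₁ * s * D ≤ 1 / 100 * D := mul_le_mul_of_nonneg_right hsC hD
  have t2 : C₁ * D ^ 2 ≤ 1 / 10000 * D := by
    have : C₁ * D ≤ 1 / 10000 := by nlinarith
    nlinarith
  have t3 : x * D ≤ 1 / 10000 * D := by nlinarith
  have t4 : x * d ≤ s * d := by
    rw [← hsx]
    nlinarith [mul_nonneg hs hd]
  have t5 : 0 ≤ s * d := mul_nonneg hs hd
  have t6 : C₁ * (D * d) ≤ C₁ * (D ^ 2 + d ^ 2) / 2 := by
    nlinarith [sq_nonneg (D - d)]
  have t7 : 0 ≤ C₁ * (s * d) := by positivity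
  have t8 : 0 ≤ C₁ * d ^ 2 := by positivity
  nlinarith

theorem tPNm (hNmG : StmtNmG) : StmtPNm := by
  intro n Ω r k i hD hik
  obtain ⟨C₁, ε₁, hC₁, hε₁, hε₁', hN⟩ := hNmG n Ω r k hD
  have hC0 : 0 < C₁ := by linarith
  refine ⟨48 + 32 * C₁, min (ε₁ / 10) (1 / (10000 * C₁ ^ 2)), by linarith,
    lt_min (by positivity) (by positivity), lt_of_le_of_lt (min_le_left _ _) (by linarith), ?_⟩
  intro ζ β β' hζ hx hx' hβ hβ' h
  obtain ⟨e, he⟩ : ∃ e : ℝ, e = min (ε₁ / 10) (1 / (10000 * C₁ ^ 2)) := ⟨_, rfl⟩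
  rw [← he] at hβ hβ'
  have he1 : e ≤ ε₁ / 10 := by rw [he]; exact min_le_left _ _
  have heC : e * (10000 * C₁ ^ 2) ≤ 1 := by
    have h1 : e ≤ 1 / (10000 * C₁ ^ 2) := by rw [he]; exact min_le_right _ _
    rwa [le_div_iff₀ (by positivity)] at h1
  -- coordinates
  have hxe : β.re ≤ e := (Complex.re_le_norm β).trans hβ.le
  have hxe' : β'.re ≤ e := (Complex.re_le_norm β').trans hβ'.le
  have hye : |β.im| ≤ e := (Complex.abs_im_le_norm β).trans hβ.le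
  have hye' : |β'.im| ≤ e := (Complex.abs_im_le_norm β').trans hβ'.le
  have he0 : 0 ≤ e := le_trans hx.le hxe
  obtain ⟨s, hs⟩ : ∃ s : ℝ, s = √β.re := ⟨_, rfl⟩
  have hs0 : 0 ≤ s := by rw [hs]; exact Real.sqrt_nonneg _
  have hsx : s ^ 2 = β.re := by rw [hs]; exact Real.sq_sqrt hx.le
  obtain ⟨d, hd⟩ : ∃ d : ℝ, d = |β'.im - β.im| := ⟨_, rfl⟩
  have hd0 : 0 ≤ d := by rw [hd]; exact abs_nonneg _
  have hd2 : (β'.im - β.im) ^ 2 = d ^ 2 := by rw [hd, sq_abs]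
  rw [← hs, ← hd, hd2] at h
  obtain ⟨D, hDD⟩ : ∃ D : ℝ, D = β'.re - β.re := ⟨_, rfl⟩
  have hC : (48 + 32 * C₁) * (s * d + d ^ 2) ≤ D := by rw [hDD]; linarith
  have hD0 : 0 ≤ D := le_trans (by positivity) hC
  have hDe : D ≤ e := by rw [hDD]; linarith
  -- the norms
  have hn : ∀ γ : ℂ, ‖1 + γ‖ ^ 2 = (1 + γ.re) ^ 2 + γ.im ^ 2 := by
    intro γ
    rw [← Complex.normSq_eq_norm_sq, Complex.normSq_apply]
    simp
    ring
  have h10 : e ≤ 1 / 10 := by linarith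
  have hy2 : β.im ^ 2 ≤ e ^ 2 := sq_le_sq' (by linarith [(abs_le.1 hye).1]) (abs_le.1 hye).2
  have hy2' : β'.im ^ 2 ≤ e ^ 2 := sq_le_sq' (by linarith [(abs_le.1 hye').1]) (abs_le.1 hye').2
  have h1 : 1 ≤ ‖1 + β‖ ^ 2 := by
    rw [hn]
    nlinarith [sq_nonneg β.im]
  have h1' : 1 ≤ ‖1 + β'‖ ^ 2 := by
    rw [hn]
    nlinarith [sq_nonneg β'.im]
  have h2 : ‖1 + β'‖ ^ 2 ≤ 2 := by
    rw [hn]
    nlinarith
  have h3 : ‖1 + β'‖ ^ 2 - ‖1 + β‖ ^ 2 ≤ 3 * D + d := by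
    rw [hn, hn]
    have e1 : (1 + β'.re) ^ 2 + β'.im ^ 2 - ((1 + β.re) ^ 2 + β.im ^ 2) =
        D * (2 + (β.re + β'.re)) + (β'.im - β.im) * (β'.im + β.im) := by
      rw [hDD]
      ring
    have e2 : (β'.im - β.im) * (β'.im + β.im) ≤ d * (2 * e) := by
      have e3 : |(β'.im - β.im) * (β'.im + β.im)| ≤ d * (2 * e) := by
        rw [abs_mul, ← hd]
        refine mul_le_mul_of_nonneg_left ?_ hd0
        have := abs_add_le β'.im β.im
        linarith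
      exact (le_abs_self _).trans e3
    have e4 : D * (2 + (β.re + β'.re)) ≤ D * 3 := mul_le_mul_of_nonneg_left (by linarith) hD0
    have e5 : d * (2 * e) ≤ d * 1 := mul_le_mul_of_nonneg_left (by linarith) hd0
    rw [e1]
    linarith
  have hmain := pnm_real hC₁ he0 heC hs0 hsx hxe hD0 hDe hd0 h1 h1' h2 h3 hC
  have hxD : β.re + D = β'.re := by rw [hDD]; ring
  rw [hxD, ← cay_del hζ hx, ← cay_del hζ hx'] at hmain
  have hle4 : 1 - ‖cay ζ β‖ ^ 2 ≤ 4 * β.re := by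
    rw [cay_del hζ hx]
    exact div_le_self (by positivity) h1
  have hdel0 : 0 ≤ 1 - ‖cay ζ β‖ ^ 2 := by
    rw [cay_del hζ hx]
    positivity
  have hsq : √(1 - ‖cay ζ β‖ ^ 2) ≤ 2 * s := by
    rw [Real.sqrt_le_left (by positivity)]
    nlinarith
  have hww : ‖cay ζ β' - cay ζ β‖ ≤ 2 * (D + d) := by
    rw [norm_cay_sub hζ hx hx']
    have f1 : 1 ≤ ‖1 + β‖ * ‖1 + β'‖ := by
      have := one_le_norm_one_add hx
      have := one_le_norm_one_add hx'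
      nlinarith
    refine (div_le_self (by positivity) f1).trans ?_
    have f2 : ‖β - β'‖ ≤ D + d := by
      have f3 := Complex.norm_le_abs_re_add_abs_im (β - β')
      rw [Complex.sub_re, Complex.sub_im, abs_sub_comm, abs_sub_comm β.im, ← hDD, ← hd,
        abs_of_nonneg hD0] at f3
      exact f3
    linarith
  refine Metric.diam_mono ?_ (wd_bdd hD.bdd k i _)
  rintro z ⟨p, hp, hpk, hpi⟩
  refine ⟨upd p k (cay ζ β'), hN p hp ?_ _ ?_, upd_same _ _ _, by rw [upd_ne _ _ hik, hpi]⟩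
  · rw [hpk]
    have hlt : ‖cay ζ β‖ < 1 := by
      have := cay_mem hζ hx
      rwa [mem_ball_zero_iff] at this
    nlinarith [norm_nonneg (cay ζ β)]
  · rw [hpk]
    refine le_trans ?_ hmain
    have g1 : √(1 - ‖cay ζ β‖ ^ 2) * ‖cay ζ β' - cay ζ β‖ ≤ 2 * s * (2 * (D + d)) :=
      mul_le_mul hsq hww (norm_nonneg _) (by positivity)
    have g2 : ‖cay ζ β' - cay ζ β‖ ^ 2 ≤ (2 * (D + d)) ^ 2 :=
      pow_le_pow_left₀ (norm_nonneg _) hww 2
    have g3 := mul_le_mul_of_nonneg_left (add_le_add g1 g2) hC0.le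
    linarith

end MP16b755
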