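import Pool.Agent.Lib.MP_16b755_an.Spec

/-!
# Circle averages and mean values over discs
-/

set_option autoImplicit false

namespace MP16b755

open MeasureTheory Metric Set Filter Topology

private noncomputable def pol_m (p : ℝ × ℝ) : ℂ :=
  p.1 * (Real.cos p.2 + Real.sin p.2 * Complex.I)

private theorem pol_norm (p : ℝ × ℝ) : ‖pol_m p‖ = |p.1| := by
  rw [pol_m, ← Complex.polarCoord_symm_apply, Complex.norm_polarCoord_symm]

private theorem pol_cont : Continuous pol_m := by
  unfold pol_m
  fun_prop

theorem tPol : StmtPol := by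
  intro g c r hr hg hcirc
  have hpi := Real.pi_pos
  -- translation to the origin
  have e1 : ∫ ω in ball c r, g ω = ∫ z in ball (0 : ℂ) r, g (c + z) := by
    have h := (measurePreserving_add_left (volume : Measure ℂ) c).setIntegral_preimage_emb
      (measurableEmbedding_addLeft c) g (ball c r)
    have h2 : (fun x : ℂ => c + x) ⁻¹' ball c r = ball 0 r := by
      ext x
      simp
    rw [h2] at h
    rw [← h]
  -- polar coordinates
  have e2 : ∫ z in ball (0 : ℂ) r, g (c + z) =
      ∫ p in Ioo (0 : ℝ) r ×ˢ Ioo (-Real.pi) Real.pi, p.1 * g (c + pol_m p) := by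
    rw [← integral_indicator measurableSet_ball, ← Complex.integral_comp_polarCoord_symm]
    have h3 : ∀ p ∈ polarCoord.target, p.1 • (ball (0 : ℂ) r).indicator (fun z => g (c + z))
        (Complex.polarCoord.symm p) =
        (Ioo (0 : ℝ) r ×ˢ Ioo (-Real.pi) Real.pi).indicator
          (fun p => p.1 * g (c + pol_m p)) p := by
      intro p hp
      rw [polarCoord_target] at hp
      obtain ⟨hp1, hp2⟩ := hp
      have hp1' : 0 < p.1 := hp1
      have hn : ‖Complex.polarCoord.symm p‖ = p.1 := by
        rw [Complex.norm_polarCoord_symm, abs_of_pos hp1']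
      by_cases h : p.1 < r
      · rw [indicator_of_mem (by rw [mem_ball_zero_iff, hn]; exact h),
          indicator_of_mem (show p ∈ Ioo (0 : ℝ) r ×ˢ Ioo (-Real.pi) Real.pi from
            ⟨⟨hp1', h⟩, hp2⟩), Complex.polarCoord_symm_apply, smul_eq_mul, pol_m]
      · rw [indicator_of_notMem (by rw [mem_ball_zero_iff, hn]; exact h),
          indicator_of_notMem (fun hm => h hm.1.2), smul_zero]
    rw [setIntegral_congr_fun polarCoord.open_target.measurableSet h3, polarCoord_target,
      setIntegral_indicator (measurableSet_Ioo.prod measurableSet_Ioo)]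
    congr 2
    ext p
    constructor
    · exact fun h => h.2
    · exact fun h => ⟨⟨h.1.1, h.2⟩, h⟩
  -- integrability
  have hint : IntegrableOn (fun p : ℝ × ℝ => p.1 * g (c + pol_m p))
      (Ioo (0 : ℝ) r ×ˢ Ioo (-Real.pi) Real.pi) (volume.prod volume) := by
    have hK : IsCompact (Icc (0 : ℝ) r ×ˢ Icc (-Real.pi) Real.pi) := isCompact_Icc.prod isCompact_Icc
    have hc : ContinuousOn (fun p : ℝ × ℝ => p.1 * g (c + pol_m p))
        (Icc (0 : ℝ) r ×ˢ Icc (-Real.pi) Real.pi) := by
      refine continuous_fst.continuousOn.mul (hg.comp (by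
        exact (continuous_const.add pol_cont).continuousOn) ?_)
      intro p hp
      rw [mem_closedBall, dist_eq_norm, add_sub_cancel_left, pol_norm, abs_of_nonneg hp.1.1]
      exact hp.1.2
    exact (hc.integrableOn_compact hK).mono_set (prod_mono Ioo_subset_Icc_self Ioo_subset_Icc_self)
  -- the inner integral
  have hinner : ∀ x ∈ Ioo (0 : ℝ) r, ∫ y in Ioo (-Real.pi) Real.pi, x * g (c + pol_m (x, y)) =
      x * (2 * Real.pi * g c) := by
    intro x hx
    rw [integral_const_mul]
    congr 1
    have h4 : ∀ y : ℝ, c + pol_m (x, y) = circleMap c x y := by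
      intro y
      rw [circleMap, pol_m, Complex.exp_mul_I, Complex.ofReal_cos, Complex.ofReal_sin]
    simp only [h4]
    rw [← integral_Ioc_eq_integral_Ioo, ← intervalIntegral.integral_of_le (by linarith)]
    have h5 : Function.Periodic (fun y : ℝ => g (circleMap c x y)) (2 * Real.pi) := by
      intro y
      change g (circleMap c x (y + 2 * Real.pi)) = g (circleMap c x y)
      rw [periodic_circleMap c x y]
    have h6 := h5.intervalIntegral_add_eq (-Real.pi) 0
    rw [show -Real.pi + 2 * Real.pi = Real.pi by ring, zero_add] at h6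
    rw [h6]
    have h7 := hcirc x hx.1 hx.2
    rw [Real.circleAverage_def, smul_eq_mul] at h7
    rw [← h7, ← mul_assoc, mul_inv_cancel₀ (by positivity), one_mul]
  rw [av_def, e1, e2]
  have e3 : ∫ p in Ioo (0 : ℝ) r ×ˢ Ioo (-Real.pi) Real.pi, p.1 * g (c + pol_m p) =
      ∫ x in Ioo (0 : ℝ) r, ∫ y in Ioo (-Real.pi) Real.pi, x * g (c + pol_m (x, y)) :=
    setIntegral_prod (μ := volume) (ν := volume) (fun p : ℝ × ℝ => p.1 * g (c + pol_m p)) hint
  rw [e3, setIntegral_congr_fun measurableSet_Ioo hinner, integral_mul_const,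
    ← integral_Ioc_eq_integral_Ioo, ← intervalIntegral.integral_of_le hr.le, integral_id]
  field_simp
  ring

end MP16b755
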