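import Pool.Agent.Lib.MP_16b755_an.Spec

/-!
# Power decay of the width at the limit point (assembly)

A nonzero difference of mean values gives the power decay (`StmtOscB`); otherwise all mean values over discs
with the same centre agree, the potential is bounded on the real axis (`StmtInfA`, `StmtInfB`), and this
contradicts `StmtFinB`.
-/

set_option autoImplicit false

namespace MP16b755

open MeasureTheory Metric Set Filter Topology

theorem tPow (hBas : StmtBas) (hCmp : StmtCmp) (hOscB : StmtOscB) (hInfA : StmtInfA) (hInfB : StmtInfB)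
    (hFinB : StmtFinB) : StmtPow := by
  intro W B C ε c₀ hP ζ hζ hinv
  by_cases hMV : MVall (Psi W ζ) (16 * C ^ 2)
  · exfalso
    obtain ⟨-, -, -, hlow, -, -, -⟩ := hBas W B C ε c₀ hP
    obtain ⟨hmono, -⟩ := hCmp W B C ε c₀ hP ζ hζ
    have hε : 0 < 1 / ε := one_div_pos.2 hP.e0
    by_cases hub : ∀ M : ℝ, ∃ σ : ℝ, 1 / ε < σ ∧ M < Psi W ζ (σ : ℂ)
    · obtain ⟨K, τ₀, hK, hτ₀, hdbl⟩ := hInfA W B C ε c₀ hP ζ hζ hMV hub
      obtain ⟨M, hM⟩ := hInfB (fun τ : ℝ => Psi W ζ (τ : ℂ) + Real.log B) K τ₀ hK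
        (fun τ hτ => by
          have h0 : 0 < ((τ : ℂ)).re := by
            rw [Complex.ofReal_re]
            linarith
          have := hlow ζ (τ : ℂ) hζ h0
          show 0 ≤ Psi W ζ (τ : ℂ) + Real.log B
          linarith)
        (fun σ τ hσ hστ => by
          have := hmono σ τ (by linarith) hστ
          show Psi W ζ (σ : ℂ) + Real.log B ≤ Psi W ζ (τ : ℂ) + Real.log B
          linarith)
        (fun τ hτ => hdbl τ hτ)
      refine hFinB W B C ε c₀ hP ζ hζ hMV (M - Real.log B) fun σ hσ => ?_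
      have h1 := hmono σ (max σ τ₀) hσ (le_max_left _ _)
      have h2 : Psi W ζ ((max σ τ₀ : ℝ) : ℂ) + Real.log B ≤ M := hM (max σ τ₀) (le_max_right _ _)
      linarith
    · push Not at hub
      obtain ⟨M, hM⟩ := hub
      exact hFinB W B C ε c₀ hP ζ hζ hMV M hM
  · have hC : 0 ≤ 16 * C ^ 2 := by positivity
    unfold MVall at hMV
    push Not at hMV
    obtain ⟨c, r, r', hr, hr', hc, hc', hne⟩ := hMV
    refine hOscB W B C ε c₀ hP ζ hζ c r r' (av (Psi W ζ) c r - av (Psi W ζ) c r') hr hr' hc hc'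
      (sub_ne_zero.2 hne) fun t => ?_
    exact hinv c r r' t hr hr' (by linarith) (by linarith)

end MP16b755
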