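import Pool.Agent.Lib.MP_16b755_an.Spec

/-!
# MP_16b755_an: the statement Re

A holomorphic function whose real part is almost nonnegative vanishes to high order.
-/

set_option autoImplicit false

namespace MP16b755

open MeasureTheory Metric Set Filter Topology

/-- A direction in which the leading term is negative. -/
lemma re_root (s : ℕ) (hs : s ≠ 0) (g0 : ℂ) (hg : g0 ≠ 0) :
    ∃ θ : ℂ, ‖θ‖ = 1 ∧ θ ^ s * g0 = -(‖g0‖ : ℂ) := by
  have hn : (‖g0‖ : ℂ) ≠ 0 := by
    exact_mod_cast (norm_pos_iff.2 hg).ne'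
  obtain ⟨θ, hθ⟩ := IsAlgClosed.exists_pow_nat_eq (-(starRingEnd ℂ g0) / (‖g0‖ : ℂ))
    (Nat.pos_of_ne_zero hs)
  refine ⟨θ, ?_, ?_⟩
  · have h1 : ‖θ‖ ^ s = 1 := by
      rw [← norm_pow, hθ, norm_div, norm_neg, RCLike.norm_conj, Complex.norm_real, norm_norm,
        div_self (norm_pos_iff.2 hg).ne']
    exact (pow_eq_one_iff_of_nonneg (norm_nonneg _) hs).1 h1
  · rw [hθ, div_mul_eq_mul_div, neg_mul, mul_comm, Complex.mul_conj, Complex.normSq_eq_norm_sq,
      div_eq_iff hn]
    push_cast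
    ring

theorem tRe : StmtRe := by
  intro β δ C L hδ hd h0 hre
  have han : AnalyticAt ℂ β 0 := hd.analyticAt (ball_mem_nhds 0 hδ)
  by_cases hz : ∀ᶠ z in 𝓝 (0 : ℂ), β z = 0
  · obtain ⟨ρ, hρ, h⟩ := Metric.eventually_nhds_iff.1 hz
    refine ⟨1, ρ, one_pos, hρ, fun z hz => ?_⟩
    have h1 : dist z 0 < ρ := by
      rw [dist_zero_right]
      exact hz
    rw [h h1, norm_zero]
    positivity
  · obtain ⟨s, g, hg, hg0, hev⟩ := han.exists_eventuallyEq_pow_smul_nonzero_iff.2 hz
    have hgn : 0 < ‖g 0‖ := norm_pos_iff.2 hg0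
    obtain ⟨ρ, hρ, h⟩ := Metric.eventually_nhds_iff.1 hev
    have hβ : ∀ z : ℂ, ‖z‖ < ρ → β z = z ^ s * g z := by
      intro z hz
      have h1 : dist z 0 < ρ := by
        rw [dist_zero_right]
        exact hz
      have h2 := h h1
      rw [sub_zero, smul_eq_mul] at h2
      exact h2
    have hs : s ≠ 0 := by
      rintro rfl
      have h1 := hβ 0 (by rw [norm_zero]; exact hρ)
      rw [h0, pow_zero, one_mul] at h1
      exact hg0 h1.symm
    obtain ⟨ρ₂, hρ₂, h₂⟩ := Metric.continuousAt_iff.1 hg.continuousAt (min 1 (‖g 0‖ / 2))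
      (lt_min one_pos (by positivity))
    have hgd : ∀ z : ℂ, ‖z‖ < ρ₂ → ‖g z - g 0‖ < min 1 (‖g 0‖ / 2) := by
      intro z hz
      rw [← dist_eq_norm]
      apply h₂
      rw [dist_zero_right]
      exact hz
    rcases le_or_gt L s with hLs | hsL
    · refine ⟨‖g 0‖ + 1, min (min ρ ρ₂) 1, by positivity, lt_min (lt_min hρ hρ₂) one_pos,
        fun z hz => ?_⟩
      have z1 : ‖z‖ < ρ := hz.trans_le ((min_le_left _ _).trans (min_le_left _ _))
      have z2 : ‖z‖ < ρ₂ := hz.trans_le ((min_le_left _ _).trans (min_le_right _ _))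
      have z3 : ‖z‖ ≤ 1 := (hz.trans_le (min_le_right _ _)).le
      have e1 : ‖g z‖ ≤ ‖g 0‖ + 1 := by
        have := (hgd z z2).trans_le (min_le_left _ _)
        have h3 : ‖g z‖ ≤ ‖g z - g 0‖ + ‖g 0‖ := by
          simpa using norm_add_le (g z - g 0) (g 0)
        linarith
      rw [hβ z z1, norm_mul, norm_pow, mul_comm]
      exact mul_le_mul e1 (pow_le_pow_of_le_one (norm_nonneg _) z3 hLs) (by positivity)
        (by positivity)
    · exfalso
      obtain ⟨θ, hθ1, hθ⟩ := re_root s hs (g 0) hg0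
      -- the contradiction as `t → 0`
      have hlim : Tendsto (fun t : ℝ => C * t ^ (L - s)) (𝓝[>] 0) (𝓝 (C * 0 ^ (L - s))) := by
        apply Tendsto.mono_left _ nhdsWithin_le_nhds
        exact (by fun_prop : Continuous fun t : ℝ => C * t ^ (L - s)).tendsto 0
      rw [zero_pow (Nat.sub_ne_zero_of_lt hsL), mul_zero] at hlim
      have hsmall : ∀ᶠ t : ℝ in 𝓝[>] 0, C * t ^ (L - s) < ‖g 0‖ / 2 :=
        hlim.eventually (gt_mem_nhds (by positivity))
      have hpos : ∀ᶠ t : ℝ in 𝓝[>] 0, 0 < t := eventually_mem_nhdsWithin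
      have hlt : ∀ᶠ t : ℝ in 𝓝[>] 0, t < min (min ρ ρ₂) δ :=
        nhdsWithin_le_nhds (gt_mem_nhds (lt_min (lt_min hρ hρ₂) hδ))
      obtain ⟨t, ht1, ht2, ht3⟩ := (hsmall.and (hpos.and hlt)).exists
      have hnz : ‖(t : ℂ) * θ‖ = t := by
        rw [norm_mul, hθ1, mul_one, Complex.norm_real, Real.norm_eq_abs, abs_of_pos ht2]
      have t1 : t < ρ := ht3.trans_le ((min_le_left _ _).trans (min_le_left _ _))
      have t2 : t < ρ₂ := ht3.trans_le ((min_le_left _ _).trans (min_le_right _ _))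
      have t3 : t < δ := ht3.trans_le (min_le_right _ _)
      have hr := hre ((t : ℂ) * θ) (by rw [mem_ball_zero_iff, hnz]; exact t3)
      rw [hnz, hβ _ (by rw [hnz]; exact t1)] at hr
      have hgz := (hgd ((t : ℂ) * θ) (by rw [hnz]; exact t2)).trans_le (min_le_right _ _)
      -- the real part
      have e1 : ((t : ℂ) * θ) ^ s * g ((t : ℂ) * θ) =
          ((t ^ s : ℝ) : ℂ) * (-(‖g 0‖ : ℂ) + θ ^ s * (g ((t : ℂ) * θ) - g 0)) := by
        rw [← hθ]
        push_cast
        ring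
      have e2 : (((t : ℂ) * θ) ^ s * g ((t : ℂ) * θ)).re ≤ t ^ s * (-(‖g 0‖ / 2)) := by
        rw [e1, Complex.re_ofReal_mul]
        apply mul_le_mul_of_nonneg_left _ (by positivity)
        rw [Complex.add_re, Complex.neg_re, Complex.ofReal_re]
        have := Complex.re_le_norm (θ ^ s * (g ((t : ℂ) * θ) - g 0))
        rw [norm_mul, norm_pow, hθ1, one_pow, one_mul] at this
        linarith
      have e3 : t ^ L = t ^ s * t ^ (L - s) := by
        rw [← pow_add]
        congr 1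
        omega
      rw [e3] at hr
      have hts : 0 < t ^ s := by positivity
      have e4 : t ^ s * (‖g 0‖ / 2) ≤ t ^ s * (C * t ^ (L - s)) := by nlinarith
      have e5 := le_of_mul_le_mul_left e4 hts
      linarith

end MP16b755
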