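import Pool.Agent.Lib.MP_16b755_an.Spec

set_option autoImplicit false

namespace MP16b755

open MeasureTheory Metric Set Filter Topology

/-- The map of the disc onto the half plane. -/
noncomputable def rot_F (ζ x : ℂ) : ℂ := (ζ + x) / (ζ - x)

lemma rot_sub_ne {ζ x : ℂ} (hζ : ‖ζ‖ = 1) (hx : ‖x‖ < 1) : ζ - x ≠ 0 := by
  intro h
  have : ζ = x := sub_eq_zero.1 h
  rw [this] at hζ
  linarith

lemma rot_add_ne {ζ x : ℂ} (hζ : ‖ζ‖ = 1) (hx : ‖x‖ < 1) : ζ + x ≠ 0 := by
  intro h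
  have : ζ = -x := eq_neg_of_add_eq_zero_left h
  rw [this, norm_neg] at hζ
  linarith

lemma rot_ne {ζ : ℂ} (hζ : ‖ζ‖ = 1) : ζ ≠ 0 := by
  rintro rfl
  simp at hζ

lemma rot_cay_F {ζ x : ℂ} (hζ : ‖ζ‖ = 1) (hx : ‖x‖ < 1) : cay ζ (rot_F ζ x)⁻¹ = x := by
  have h1 := rot_sub_ne hζ hx
  have h2 := rot_add_ne hζ hx
  have h0 := rot_ne hζ
  have e1 : 1 - (ζ - x) / (ζ + x) = 2 * x / (ζ + x) := by
    field_simp
    ring
  have e2 : 1 + (ζ - x) / (ζ + x) = 2 * ζ / (ζ + x) := by
    field_simp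
    ring
  rw [cay, rot_F, inv_div, e1, e2]
  field_simp

lemma rot_F_cay {ζ ω : ℂ} (hζ : ‖ζ‖ = 1) (hω : 0 < ω.re) : rot_F ζ (cay ζ ω⁻¹) = ω := by
  have h0 := rot_ne hζ
  have hω0 : ω ≠ 0 := by
    rintro rfl
    simp at hω
  have h1 : ω + 1 ≠ 0 := by
    intro h
    have := congrArg Complex.re h
    simp at this
    linarith
  have e : cay ζ ω⁻¹ = ζ * (ω - 1) / (ω + 1) := by
    rw [cay]
    have h2 : 1 + ω⁻¹ ≠ 0 := one_add_ne (inv_re_pos hω)
    rw [div_eq_div_iff h2 h1]
    field_simp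
  have e1 : ζ + ζ * (ω - 1) / (ω + 1) = 2 * ζ * ω / (ω + 1) := by
    field_simp
    ring
  have e2 : ζ - ζ * (ω - 1) / (ω + 1) = 2 * ζ / (ω + 1) := by
    field_simp
    ring
  rw [rot_F, e, e1, e2]
  field_simp

lemma rot_norm_sub {ζ ω : ℂ} (hζ : ‖ζ‖ = 1) (hω : 0 < ω.re) : ‖ζ - cay ζ ω⁻¹‖ = 2 / ‖ω + 1‖ := by
  have hω0 : ω ≠ 0 := by
    rintro rfl
    simp at hω
  have h1 : ω + 1 ≠ 0 := by
    intro h
    have := congrArg Complex.re h
    simp at this
    linarith
  have e : cay ζ ω⁻¹ = ζ * (ω - 1) / (ω + 1) := by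
    rw [cay]
    have h2 : 1 + ω⁻¹ ≠ 0 := one_add_ne (inv_re_pos hω)
    rw [div_eq_div_iff h2 h1]
    field_simp
  have e2 : ζ - ζ * (ω - 1) / (ω + 1) = 2 * ζ / (ω + 1) := by
    field_simp
    ring
  rw [e, e2, norm_div, norm_mul, hζ]
  norm_num

lemma rot_injOn {ζ : ℂ} (hζ : ‖ζ‖ = 1) : InjOn (rot_F ζ) (ball (0 : ℂ) 1) := by
  intro x hx y hy hxy
  rw [mem_ball_zero_iff] at hx hy
  rw [← rot_cay_F hζ hx, ← rot_cay_F hζ hy, hxy]

lemma rot_hasDerivAt {ζ x : ℂ} (hζ : ‖ζ‖ = 1) (hx : ‖x‖ < 1) :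
    HasDerivAt (rot_F ζ) (2 * ζ / (ζ - x) ^ 2) x := by
  have h1 := rot_sub_ne hζ hx
  have h : HasDerivAt (fun y : ℂ => (ζ + y) / (ζ - y))
      ((1 * (ζ - x) - (ζ + x) * (-1)) / (ζ - x) ^ 2) x :=
    ((hasDerivAt_id x).const_add ζ).div ((hasDerivAt_id x).const_sub ζ) h1
  refine HasDerivAt.congr_deriv h ?_
  congr 1
  ring

lemma rot_det (d : ℂ) :
    |((ContinuousLinearMap.toSpanSingleton ℂ d).restrictScalars ℝ : ℂ →L[ℝ] ℂ).det| = ‖d‖ ^ 2 := by
  have : ((ContinuousLinearMap.toSpanSingleton ℂ d).restrictScalars ℝ : ℂ →L[ℝ] ℂ).det =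
      Complex.normSq d := by
    simp [ContinuousLinearMap.det, LinearMap.det_restrictScalars, Algebra.norm_complex_apply]
  rw [this, Complex.normSq_eq_norm_sq, abs_of_nonneg (by positivity)]

/-- The part of the disc which is mapped to the disc in the half plane. -/
def rot_U (ζ c : ℂ) (r : ℝ) : Set ℂ := {x | x ∈ ball (0 : ℂ) 1 ∧ rot_F ζ x ∈ ball c r}

lemma rot_F_cont {ζ : ℂ} (hζ : ‖ζ‖ = 1) : ContinuousOn (rot_F ζ) (ball (0 : ℂ) 1) := fun x hx =>
  (rot_hasDerivAt hζ (by rwa [mem_ball_zero_iff] at hx)).continuousAt.continuousWithinAt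

lemma rot_U_meas {ζ : ℂ} (hζ : ‖ζ‖ = 1) (c : ℂ) (r : ℝ) : MeasurableSet (rot_U ζ c r) :=
  ((rot_F_cont hζ).isOpen_inter_preimage isOpen_ball isOpen_ball).measurableSet

lemma rot_image {ζ : ℂ} (hζ : ‖ζ‖ = 1) {c : ℂ} {r : ℝ} (hr : r < c.re) :
    rot_F ζ '' rot_U ζ c r = ball c r := by
  ext ω
  constructor
  · rintro ⟨x, hx, rfl⟩
    exact hx.2
  · intro hω
    have hre : 0 < ω.re := by
      have h1 := Complex.abs_re_le_norm (ω - c)
      rw [mem_ball, dist_eq_norm] at hω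
      have := (abs_le.1 h1).1
      simp only [Complex.sub_re] at this
      linarith
    exact ⟨cay ζ ω⁻¹, ⟨cay_mem hζ (inv_re_pos hre), by rwa [rot_F_cay hζ hre]⟩, rot_F_cay hζ hre⟩

/-- The change of variables. -/
lemma rot_change (W : ℂ → ℝ) {ζ : ℂ} (hζ : ‖ζ‖ = 1) {c : ℂ} {r : ℝ} (hr : r < c.re) :
    ∫ ω in ball c r, Psi W ζ ω =
      ∫ x in ball (0 : ℂ) 1, (rot_U ζ c r).indicator
        (fun x => (2 / ‖ζ - x‖ ^ 2) ^ 2 * -Real.log (W x)) x := by
  have h1 := integral_image_eq_integral_abs_det_fderiv_smul (volume : Measure ℂ)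
    (s := rot_U ζ c r) (f := rot_F ζ)
    (f' := fun x => (ContinuousLinearMap.toSpanSingleton ℂ (2 * ζ / (ζ - x) ^ 2)).restrictScalars ℝ)
    (rot_U_meas hζ c r)
    (fun x hx => ((rot_hasDerivAt hζ (by simpa using hx.1)).hasFDerivAt.restrictScalars
      ℝ).hasFDerivWithinAt) ((rot_injOn hζ).mono fun x hx => hx.1) (Psi W ζ)
  rw [rot_image hζ hr] at h1
  rw [h1, setIntegral_indicator (rot_U_meas hζ c r)]
  have h2 : ball (0 : ℂ) 1 ∩ rot_U ζ c r = rot_U ζ c r := by
    rw [inter_eq_right]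
    exact fun x hx => hx.1
  rw [h2]
  refine setIntegral_congr_fun (rot_U_meas hζ c r) fun x hx => ?_
  have hx1 : ‖x‖ < 1 := by simpa using hx.1
  have e : Psi W ζ (rot_F ζ x) = -Real.log (W x) := by
    rw [Psi, psi, rot_cay_F hζ hx1]
  simp only [e, smul_eq_mul]
  rw [rot_det]
  rw [norm_div, norm_mul, hζ, norm_pow]
  norm_num

theorem tRot (hBas : StmtBas) : StmtRot := by
  intro W B C ε c₀ hW ζs ζ hζs hζ hlim c r hr hrc
  obtain ⟨-, -, -, -, hM, -, -⟩ := hBas W B C ε c₀ hW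
  obtain ⟨M, hM0, hM⟩ := hM c r hrc
  have hWm : Measurable W := hW.lsc.measurable
  have hpos : ∀ ω ∈ closedBall c r, 0 < ω.re := by
    intro ω hω
    have h1 := Complex.abs_re_le_norm (ω - c)
    rw [mem_closedBall, dist_eq_norm] at hω
    have := (abs_le.1 h1).1
    simp only [Complex.sub_re] at this
    linarith
  have hkey : Tendsto (fun j => ∫ x in ball (0 : ℂ) 1, (rot_U (ζs j) c r).indicator
        (fun x => (2 / ‖ζs j - x‖ ^ 2) ^ 2 * -Real.log (W x)) x) atTop
      (𝓝 (∫ x in ball (0 : ℂ) 1, (rot_U ζ c r).indicator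
        (fun x => (2 / ‖ζ - x‖ ^ 2) ^ 2 * -Real.log (W x)) x)) := by
    refine tendsto_integral_of_dominated_convergence
      (fun _ => (2 * ((‖c‖ + r + 1) / 2) ^ 2) ^ 2 * M) ?_ ?_ ?_ ?_
    · intro j
      refine Measurable.aestronglyMeasurable ?_
      refine Measurable.indicator ?_ (rot_U_meas (hζs j) c r)
      have : Measurable fun x : ℂ => ‖ζs j - x‖ := by fun_prop
      exact ((measurable_const.div (this.pow_const 2)).pow_const 2).mul
        (Real.measurable_log.comp hWm).neg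
    · exact integrableOn_const measure_ball_lt_top.ne
    · intro j
      refine Filter.Eventually.of_forall fun x => ?_
      by_cases hx : x ∈ rot_U (ζs j) c r
      · rw [indicator_of_mem hx]
        have hx1 : ‖x‖ < 1 := by simpa using hx.1
        have hω := ball_subset_closedBall hx.2
        have hre := hpos _ hω
        have e : Psi W (ζs j) (rot_F (ζs j) x) = -Real.log (W x) := by
          rw [Psi, psi, rot_cay_F (hζs j) hx1]
        have hb := hM (ζs j) (rot_F (ζs j) x) (hζs j) hω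
        rw [e] at hb
        have hn := rot_norm_sub (hζs j) hre
        rw [rot_cay_F (hζs j) hx1] at hn
        have hω1 : ‖rot_F (ζs j) x + 1‖ ≤ ‖c‖ + r + 1 := by
          rw [mem_closedBall, dist_eq_norm] at hω
          calc ‖rot_F (ζs j) x + 1‖ = ‖(rot_F (ζs j) x - c) + c + 1‖ := by ring_nf
            _ ≤ ‖(rot_F (ζs j) x - c) + c‖ + ‖(1 : ℂ)‖ := norm_add_le _ _
            _ ≤ ‖rot_F (ζs j) x - c‖ + ‖c‖ + 1 := by
              rw [norm_one]
              linarith [norm_add_le (rot_F (ζs j) x - c) c]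
            _ ≤ ‖c‖ + r + 1 := by linarith
        have hω2 : 0 < ‖rot_F (ζs j) x + 1‖ := by
          have := Complex.re_le_norm (rot_F (ζs j) x + 1)
          simp at this
          linarith
        rw [norm_mul, Real.norm_eq_abs, Real.norm_eq_abs, hn]
        refine mul_le_mul ?_ hb (abs_nonneg _) (by positivity)
        rw [abs_of_nonneg (by positivity)]
        have e3 : 2 / (2 / ‖rot_F (ζs j) x + 1‖) ^ 2 = 2 * (‖rot_F (ζs j) x + 1‖ / 2) ^ 2 := by
          field_simp
        rw [e3]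
        gcongr
      · rw [indicator_of_notMem hx, norm_zero]
        positivity
    · -- pointwise convergence
      have hnull : (volume : Measure ℂ) ((fun ω => cay ζ ω⁻¹) '' sphere c r) = 0 := by
        refine addHaar_image_eq_zero_of_differentiableOn_of_addHaar_eq_zero _ ?_
          (Measure.addHaar_sphere _ c r)
        intro ω hω
        have hre := hpos ω (sphere_subset_closedBall hω)
        have hω0 : ω ≠ 0 := by
          rintro rfl
          simp at hre
        have h2 : 1 + ω⁻¹ ≠ 0 := one_add_ne (inv_re_pos hre)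
        have : DifferentiableAt ℂ (fun ω => cay ζ ω⁻¹) ω := by
          unfold cay
          fun_prop (disch := assumption)
        exact (this.restrictScalars ℝ).differentiableWithinAt
      rw [ae_restrict_iff' measurableSet_ball]
      have hae : ∀ᵐ x ∂(volume : Measure ℂ), x ∉ (fun ω => cay ζ ω⁻¹) '' sphere c r :=
        measure_eq_zero_iff_ae_notMem.1 hnull
      filter_upwards [hae] with x hxN hx
      have hx1 : ‖x‖ < 1 := by simpa using hx
      have hxs : rot_F ζ x ∉ sphere c r := fun h => hxN ⟨_, h, rot_cay_F hζ hx1⟩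
      have hFlim : Tendsto (fun j => rot_F (ζs j) x) atTop (𝓝 (rot_F ζ x)) := by
        unfold rot_F
        exact (hlim.add_const x).div (hlim.sub_const x) (rot_sub_ne hζ hx1)
      by_cases hin : rot_F ζ x ∈ ball c r
      · have hev : ∀ᶠ j in atTop, (rot_U (ζs j) c r).indicator
            (fun x => (2 / ‖ζs j - x‖ ^ 2) ^ 2 * -Real.log (W x)) x =
            (2 / ‖ζs j - x‖ ^ 2) ^ 2 * -Real.log (W x) := by
          filter_upwards [hFlim.eventually (isOpen_ball.mem_nhds hin)] with j hj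
          exact indicator_of_mem (show x ∈ rot_U (ζs j) c r from ⟨hx, hj⟩) _
        rw [indicator_of_mem (show x ∈ rot_U ζ c r from ⟨hx, hin⟩)]
        refine Tendsto.congr' (hev.mono fun j hj => hj.symm) ?_
        refine Tendsto.mul_const _ ?_
        refine Tendsto.pow ?_ 2
        refine Tendsto.div tendsto_const_nhds ((hlim.sub_const x).norm.pow 2) ?_
        have := norm_pos_iff.2 (rot_sub_ne hζ hx1)
        positivity
      · have hout : rot_F ζ x ∈ (closedBall c r)ᶜ := by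
          intro h
          rcases (mem_closedBall.1 h).lt_or_eq with h' | h'
          · exact hin h'
          · exact hxs h'
        have hev : ∀ᶠ j in atTop, (rot_U (ζs j) c r).indicator
            (fun x => (2 / ‖ζs j - x‖ ^ 2) ^ 2 * -Real.log (W x)) x = 0 := by
          filter_upwards [hFlim.eventually (isClosed_closedBall.isOpen_compl.mem_nhds hout)] with j hj
          exact indicator_of_notMem (fun h => hj (ball_subset_closedBall h.2)) _
        rw [indicator_of_notMem (fun h => hin h.2)]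
        exact Tendsto.congr' (hev.mono fun j hj => hj.symm) tendsto_const_nhds
  have hfin : ∀ z : ℂ, ‖z‖ = 1 → av (Psi W z) c r = (Real.pi * r ^ 2)⁻¹ *
      ∫ x in ball (0 : ℂ) 1, (rot_U z c r).indicator
        (fun x => (2 / ‖z - x‖ ^ 2) ^ 2 * -Real.log (W x)) x := fun z hz => by
    rw [av, rot_change W hz hrc]
  rw [hfin ζ hζ]
  simp_rw [fun j => hfin (ζs j) (hζs j)]
  exact hkey.const_mul _

end MP16b755
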