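import Pool.Agent.Lib.MP_16b755_an.Spec

/-!
# Dependence of the mean value on the centre
-/

set_option autoImplicit false

namespace MP16b755

open MeasureTheory Metric Set Filter Topology

private theorem shift_real (c : ℂ) {r : ℝ} (hr : 0 ≤ r) :
    (volume : Measure ℂ).real (ball c r) = Real.pi * r ^ 2 := volume_ball_real c hr

private theorem shift_vol (c c' : ℂ) {r : ℝ} (hr : 0 < r) :
    (volume : Measure ℂ).real (ball c r \ ball c' r) ≤ 2 * Real.pi * r * ‖c - c'‖ := by
  have hpi := Real.pi_pos
  set d := ‖c - c'‖ with hd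
  have hd0 : 0 ≤ d := norm_nonneg _
  by_cases h : d ≤ r
  · have h1 : ball c r \ ball c' r ⊆ ball c r \ ball c (r - d) := by
      refine diff_subset_diff_right ?_
      intro x hx
      rw [mem_ball, dist_eq_norm] at hx ⊢
      have h2 : ‖x - c'‖ ≤ ‖x - c‖ + ‖c - c'‖ := norm_sub_le_norm_sub_add_norm_sub x c c'
      linarith
    have h2 : (volume : Measure ℂ).real (ball c r \ ball c (r - d)) +
        (volume : Measure ℂ).real (ball c (r - d)) = (volume : Measure ℂ).real (ball c r) := by
      rw [← measureReal_union disjoint_sdiff_left measurableSet_ball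
        (ne_top_of_le_ne_top measure_ball_lt_top.ne (measure_mono diff_subset))
        measure_ball_lt_top.ne, diff_union_of_subset (ball_subset_ball (by linarith))]
    rw [shift_real c hr.le, shift_real c (sub_nonneg.2 h)] at h2
    have h3 := measureReal_mono (μ := (volume : Measure ℂ)) h1
      (ne_top_of_le_ne_top measure_ball_lt_top.ne (measure_mono diff_subset))
    have h4 : 0 ≤ Real.pi * d ^ 2 := by positivity
    nlinarith
  · push Not at h
    have h3 := measureReal_mono (μ := (volume : Measure ℂ)) (diff_subset (s := ball c r)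
      (t := ball c' r)) measure_ball_lt_top.ne
    rw [shift_real c hr.le] at h3
    have h4 : Real.pi * r * r ≤ Real.pi * r * d := mul_le_mul_of_nonneg_left h.le (by positivity)
    have h5 : 0 ≤ Real.pi * r * d := by positivity
    nlinarith

theorem tShift : StmtShift := by
  intro g c c' r M hr hM hg hb hb'
  have hpi := Real.pi_pos
  have hI : IntegrableOn g (ball c r) := intOn hg hb
  have hI' : IntegrableOn g (ball c' r) := intOn hg hb'
  have e1 := integral_inter_add_sdiff (μ := volume) (measurableSet_ball (x := c') (ε := r)) hI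
  have e2 := integral_inter_add_sdiff (μ := volume) (measurableSet_ball (x := c) (ε := r)) hI'
  rw [inter_comm] at e2
  have b1 : |∫ x in ball c r \ ball c' r, g x| ≤ M * (2 * Real.pi * r * ‖c - c'‖) := by
    have h := norm_setIntegral_le_of_norm_le_const (μ := (volume : Measure ℂ)) (f := g)
      (s := ball c r \ ball c' r) (C := M)
      (lt_of_le_of_lt (measure_mono diff_subset) measure_ball_lt_top)
      (fun x hx => hb x hx.1)
    exact h.trans (mul_le_mul_of_nonneg_left (shift_vol c c' hr) hM)
  have b2 : |∫ x in ball c' r \ ball c r, g x| ≤ M * (2 * Real.pi * r * ‖c - c'‖) := by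
    have h := norm_setIntegral_le_of_norm_le_const (μ := (volume : Measure ℂ)) (f := g)
      (s := ball c' r \ ball c r) (C := M)
      (lt_of_le_of_lt (measure_mono diff_subset) measure_ball_lt_top)
      (fun x hx => hb' x hx.1)
    rw [norm_sub_rev c c']
    exact h.trans (mul_le_mul_of_nonneg_left (shift_vol c' c hr) hM)
  have e3 : av g c r - av g c' r = (Real.pi * r ^ 2)⁻¹ *
      ((∫ x in ball c r \ ball c' r, g x) - ∫ x in ball c' r \ ball c r, g x) := by
    rw [av_def, av_def, ← e1, ← e2]
    ring
  rw [e3, abs_mul, abs_of_pos (by positivity)]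
  have b3 := (abs_sub (∫ x in ball c r \ ball c' r, g x) (∫ x in ball c' r \ ball c r, g x)).trans
    (add_le_add b1 b2)
  calc (Real.pi * r ^ 2)⁻¹ * |(∫ x in ball c r \ ball c' r, g x) -
      ∫ x in ball c' r \ ball c r, g x| ≤ (Real.pi * r ^ 2)⁻¹ *
        (M * (2 * Real.pi * r * ‖c - c'‖) + M * (2 * Real.pi * r * ‖c - c'‖)) :=
        mul_le_mul_of_nonneg_left b3 (by positivity)
    _ = 4 * ‖c - c'‖ * M / r := by
        field_simp
        ring

end MP16b755
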