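import Pool.Agent.Lib.MP_16b755_an.Defs

/-!
# Boundary orbit accumulation points of fibred domains: statements with complete proofs in the docstrings

**Theorem (goal, `StmtMain`).**  Let `Ω` be a smoothly bounded domain whose projection to the coordinate `k`
is the unit disc, and let `φ_j` be automorphisms of `Ω` which are fibred over injective maps of the disc and
diagonal affine on the fibres.  If `φ_j q → p` for a boundary point `p`, then `p` has finite type.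

**Idea.**  `W(w)` is the width of the fibre over `w` in a direction `i`.  An automorphism over `m` with the
holomorphic coefficient `a` gives `W(m w) = |a w| W(w)`.  In a half plane coordinate `ω` at `ζ = p_k` let
`Ψ(ω) = -log W`.  The orbit gives that `D = av Ψ c r - av Ψ c r'` is invariant under vertical translations of
`c` (the harmonic function `log |a|` does not change `D`, and along the orbit the tangential motion is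
negligible, as `Ω` has a `C²` boundary and is bounded).  If some `D ≠ 0`, then `Ψ(σ)` grows at least like
`log σ`, so `W` decays like a power at `ζ`.  If all `D` vanish, then the mean values `h` of `Ψ` over discs of
radius 1 are harmonic in a half plane and a barrier argument at infinity gives a contradiction (`Ψ` unbounded:
a doubling inequality; `Ψ` bounded: the gain `gr`).  Power decay of all widths gives finite type.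

Each `def StmtX : Prop` is one Lean task: file `GK/X.lean`, i.e. `Pool/Agent/Lib/MP_16b755_an/X.lean`, importing
this file, `theorem tX … : StmtX`; statements listed under *Uses* are hypotheses, in that order.  `Defs.lean`
has many lemmas on `upd`, `cay`, `av`, `wd`, `Dom`.

Notation of the docstrings: `f(σ) = Psi W ζ σ` for real `σ`, `Ψ = Psi W ζ`, `H = {0 < Re}`, `δ(w) = 1 - |w|²`.
-/

set_option autoImplicit false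

namespace MP16b755

open MeasureTheory Metric Set Filter Topology

/-! ## Part 1.  Mean values -/

/-- **Pol.**  If all circle averages are equal to the value at the centre, so is the mean value over the disc.

*Proof.*  `∫_{ball c r} g = ∫_{ball 0 r} g(c + z) dz` (`av_translate`, or `av g c r = av (g(c + ·)) 0 r`).  Polar
coordinates (`Complex.integral_comp_polarCoord_symm`, applied to the indicator function of the ball times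
`g(c + ·)`; on the polar side it is the indicator of `0 < t < r`, `-π < θ < π`) and Fubini
(`MeasureTheory.integral_prod`, `setIntegral_prod`; the function is bounded and measurable on the bounded set
`Ioo 0 r ×ˢ Ioo (-π) π`, since `g` is continuous on `closedBall c r`) give
`∫_0^r t (∫_{-π}^{π} g(c + t e^{iθ}) dθ) dt = ∫_0^r t · 2π g(c) dt = π r² g(c)`: the inner integral is `2π` times
`Real.circleAverage g c t` (periodicity: `Function.Periodic.intervalIntegral_add_eq`). -/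
def StmtPol : Prop :=
  ∀ (g : ℂ → ℝ) (c : ℂ) (r : ℝ), 0 < r → ContinuousOn g (closedBall c r) →
    (∀ t, 0 < t → t < r → Real.circleAverage g c t = g c) → av g c r = g c

/-- **Har.**  Mean value property of `log |A|` and of `Im F`.

*Proof.*  Use *Pol*.  For `0 < t < r` the function is harmonic on a neighbourhood of `closedBall c t`
(`AnalyticAt.harmonicAt_log_norm` for `log ‖A‖`, and `HarmonicAt` of the imaginary part of an analytic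
function, see `Mathlib/Analysis/Complex/Harmonic`, `Mathlib/Analysis/Complex/Harmonic/Analytic` and
`Mathlib/Analysis/InnerProductSpace/Harmonic`; a differentiable function on an open set of `ℂ` is analytic:
`DifferentiableOn.analyticAt`), so `HarmonicOnNhd.circleAverage_eq` gives the circle average.
*Uses*: Pol. -/
def StmtHar : Prop :=
  (∀ (U : Set ℂ) (A : ℂ → ℂ) (c : ℂ) (r : ℝ), IsOpen U → 0 < r → closedBall c r ⊆ U →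
    DifferentiableOn ℂ A U → (∀ ω ∈ U, A ω ≠ 0) →
    av (fun ω => Real.log ‖A ω‖) c r = Real.log ‖A c‖) ∧
  (∀ (U : Set ℂ) (F : ℂ → ℂ) (c : ℂ) (r : ℝ), IsOpen U → 0 < r → closedBall c r ⊆ U →
    DifferentiableOn ℂ F U → av (fun ω => (F ω).im) c r = (F c).im)

/-- **Shift.**  Dependence of the mean value on the centre.

*Proof.*  Let `d = ‖c - c'‖`.  The two integrals differ by the integrals over `ball c r \ ball c' r` and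
`ball c' r \ ball c r`, so `|∫_{ball c r} g - ∫_{ball c' r} g| ≤ M (vol (ball c r \ ball c' r) +
vol (ball c' r \ ball c r))`.  If `d ≤ r`, then `ball c (r - d) ⊆ ball c' r`, so the first volume is at most
`π (r² - (r - d)²) ≤ 2 π r d`; if `d > r` it is at most `π r² ≤ 2 π r d`.  The same for the second.  Divide the
bound `4 π r d M` by `π r²`. -/
def StmtShift : Prop :=
  ∀ (g : ℂ → ℝ) (c c' : ℂ) (r M : ℝ), 0 < r → 0 ≤ M → Measurable g →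
    (∀ ω ∈ ball c r, |g ω| ≤ M) → (∀ ω ∈ ball c' r, |g ω| ≤ M) →
    |av g c r - av g c' r| ≤ 4 * ‖c - c'‖ * M / r

/-- **Bas.**  Basic properties of the potentials.

*Proof.*  `W` is measurable (`LowerSemicontinuous.measurable`), `cay ζ` and the inverse are measurable.
`cay ζ β` is in the unit disc: `cay_mem`; so `0 < W (cay ζ β) ≤ B` and `-log B ≤ psi`.  For the fifth statement
let `K` be the image of the compact set `sphere 0 1 ×ˢ closedBall c r` under the continuous map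
`(ζ, ω) ↦ cay ζ ω⁻¹` (`ω ≠ 0` and `1 + ω⁻¹ ≠ 0` there, as `0 < Re ω`); it is a compact subset of the unit disc, so
the lower semicontinuous function `W` has a positive minimum on it
(`LowerSemicontinuousOn.exists_isMinOn` or similar); `W ≤ B`.  The sixth statement is proved in the same way
(with the map `(ζ, β) ↦ cay ζ β`).  For the last statement apply `gr` with
`β' = ⟨min c₀ 1 * β.re, β.im⟩`, for which `‖β'‖ ≤ ‖β‖`, and `0 ≤ W (cay ζ β')`. -/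
def StmtBas : Prop :=
  ∀ (W : ℂ → ℝ) (B C ε c₀ : ℝ), Pot W B C ε c₀ →
    (∀ ζ : ℂ, Measurable (psi W ζ)) ∧ (∀ ζ : ℂ, Measurable (Psi W ζ)) ∧
    (∀ ζ β : ℂ, ‖ζ‖ = 1 → 0 < β.re → -Real.log B ≤ psi W ζ β) ∧
    (∀ ζ ω : ℂ, ‖ζ‖ = 1 → 0 < ω.re → -Real.log B ≤ Psi W ζ ω) ∧
    (∀ (c : ℂ) (r : ℝ), r < c.re → ∃ M : ℝ, 0 ≤ M ∧ ∀ ζ ω : ℂ, ‖ζ‖ = 1 → ω ∈ closedBall c r →
      |Psi W ζ ω| ≤ M) ∧
    (∀ (c : ℂ) (r : ℝ), r < c.re → ∃ M : ℝ, 0 ≤ M ∧ ∀ ζ β : ℂ, ‖ζ‖ = 1 → β ∈ closedBall c r →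
      |psi W ζ β| ≤ M) ∧
    (∀ ζ β : ℂ, ‖ζ‖ = 1 → 0 < β.re → ‖β‖ < ε → c₀ * √β.re ≤ W (cay ζ β))

/-- **Near.**  Along the orbit the tangential motion is negligible.

*Proof.*  Let `X_j(ω) = psi W (b j) (η j * ω)`, `a = c.re - r > 0`, `b' = c.re + r`,
`C' = C (√(b' + 1) |t| + t²) + 1` and `κ = κ_j = C' √(η j)`.  Let `j` be so large that `η j ≤ 1`, `κ ≤ a/2`,
`κ ≤ 1` and `η j (|c| + r + |t| + 2) < ε`.
*Claim*: for `Re ω ∈ [a/2, b' + 1]`, `‖ω‖ ≤ |c| + r + |t| + 1` and `t' = ± t`, `X_j(ω + κ + i t') ≤ X_j(ω)`.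
Indeed `β = η ω`, `β' = η (ω + κ + i t')` satisfy `β.re + C (√β.re |Δ im| + (Δ im)²) =
η Re ω + C (√(η Re ω) η |t| + η² t²) ≤ η Re ω + η κ = β'.re`, because `C (√η √(b'+1) |t| + η t²) ≤
√η C (√(b'+1) |t| + t²) ≤ κ` (`η ≤ √η`).  So `nm` gives `W(cay b β) ≤ W(cay b β')`, and `W > 0` at these points.
For `ω ∈ ball c r` the claim for `ω`, and for `ω - κ + i t` with `t' = -t`, gives
`X_j(ω + κ + i t) ≤ X_j(ω) ≤ X_j(ω - κ + i t)`.  Let `Y(ω) = X_j(ω + i t)`.  Then (`av_translate`, `av_mono`)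
`av Y (c + κ) r ≤ av X_j c r ≤ av Y (c - κ) r` and `av X_j (c + i t) r = av Y c r`.  By *Shift*,
`|av Y (c ± κ) r - av Y c r| ≤ 4 κ M / r`, where `M` bounds `|Y|` on the discs `ball (c ± κ) r`, `ball c r`, on
which `Re ≥ a/2`: by *Bas*, `-log B ≤ X_j(ω) ≤ -log (c₀ √(η a/2))`, so one can take
`M = |log B| + |log c₀| + |log (a/2)| + |log η|`.  So `|av X_j (c + i t) r - av X_j c r| ≤ 4 κ M / r`, and
`κ_j M_j → 0` because `√η |log η| → 0` as `η → 0+` (`tendsto_log_mul_rpow_nhdsGT_zero`).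
*Uses*: Shift, Bas. -/
def StmtNear : Prop :=
  ∀ (W : ℂ → ℝ) (B C ε c₀ : ℝ), Pot W B C ε c₀ →
    ∀ (b : ℕ → ℂ) (η : ℕ → ℝ), (∀ j, ‖b j‖ = 1) → (∀ j, 0 < η j) → Tendsto η atTop (𝓝 0) →
    ∀ (c : ℂ) (r t : ℝ), 0 < r → r < c.re →
    Tendsto (fun j => av (fun ω => psi W (b j) (η j * ω)) (c + t * Complex.I) r -
      av (fun ω => psi W (b j) (η j * ω)) c r) atTop (𝓝 0)

/-- **Rot.**  Continuity of the mean value in the boundary point.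

*Proof.*  For `‖ζ‖ = 1` let `F_ζ(x) = (ζ + x)/(ζ - x)`; it maps the unit disc injectively onto `H` (inverse
`ω ↦ ζ (ω - 1)/(ω + 1)`), `F_ζ'(x) = 2 ζ/(ζ - x)²` and `cay ζ (F_ζ x)⁻¹ = x`.  Let
`U_ζ = {x ∈ ball 0 1 | F_ζ x ∈ ball c r}`.  Change of variables
(`integral_image_eq_integral_abs_det_fderiv_smul`; the real determinant of the multiplication by a complex
number `z` is `|z|²`): `∫_{ball c r} Psi W ζ = ∫_{U_ζ} 4/|ζ - x|⁴ · (-log W(x)) dx =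
∫_{ball 0 1} 1_{U_ζ}(x) 4/|ζ - x|⁴ (-log W(x)) dx`.  Dominated convergence for `ζ_j → ζ`
(`tendsto_integral_of_dominated_convergence`):
domination: for `x ∈ U_{ζ_j}`, `x = cay ζ_j ω⁻¹` with `ω ∈ ball c r`, so `|-log W(x)| = |Psi W ζ_j ω| ≤ M` (*Bas*)
and `|ζ_j - x| = 2/|ω + 1| ≥ 2/(|c| + r + 1)`; so the integrand is at most the constant
`4 ((|c| + r + 1)/2)⁴ M`.  Pointwise: if `F_ζ x` is not on the circle `sphere c r`, then the indicator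
`1_{U_{ζ_j}}(x)` is eventually constant and equal to `1_{U_ζ}(x)`, as `F_{ζ_j}(x) → F_ζ(x)`.  The exceptional set is
the image of the null set `sphere c r ∩ H` (`Measure.addHaar_sphere`) under the differentiable map
`ω ↦ ζ (ω - 1)/(ω + 1)`, so it is a null set
(`addHaar_image_eq_zero_of_differentiableOn_of_addHaar_eq_zero`).
*Uses*: Bas. -/
def StmtRot : Prop :=
  ∀ (W : ℂ → ℝ) (B C ε c₀ : ℝ), Pot W B C ε c₀ →
    ∀ (ζs : ℕ → ℂ) (ζ : ℂ), (∀ j, ‖ζs j‖ = 1) → ‖ζ‖ = 1 → Tendsto ζs atTop (𝓝 ζ) →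
    ∀ (c : ℂ) (r : ℝ), 0 < r → r < c.re →
    Tendsto (fun j => av (Psi W (ζs j)) c r) atTop (𝓝 (av (Psi W ζ) c r))

/-- **Hor.**  The differences of mean values are invariant under vertical translations.

*Proof.*  Let `X_j(ω) = psi W (b j) (η j * ω)`.  On `H` the functional equation and `W > 0` give
`Psi W (p_j) ω = X_j(ω) - log ‖A_j ω‖`.  By *Har*, `av (log ‖A_j‖) c r = av (log ‖A_j‖) c r'`, so
`av (Psi W p_j) c r - av (Psi W p_j) c r' = av X_j c r - av X_j c r'`, and the same for `c + i t`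
(integrability on the discs: `intOn`, *Bas*; for `X_j` use the bound of `psi` on the closed disc with centre
`η c` and radius `η r`; `log ‖A_j‖` is continuous on `H`, `intOn_of_cont`).  By *Near* (for `r` and `r'`) the right sides for `c + i t` and for `c` differ by
a sequence with limit `0`, and by *Rot* the left sides converge to
`av (Psi W ζ) c r - av (Psi W ζ) c r'` and to the same with `c + i t`.
*Uses*: Bas, Har, Near, Rot. -/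
def StmtHor : Prop :=
  ∀ (W : ℂ → ℝ) (B C ε c₀ : ℝ), Pot W B C ε c₀ →
    ∀ (b : ℕ → ℂ) (η : ℕ → ℝ) (ps : ℕ → ℂ) (ζ : ℂ) (A : ℕ → ℂ → ℂ),
    (∀ j, ‖b j‖ = 1) → (∀ j, 0 < η j) → Tendsto η atTop (𝓝 0) →
    (∀ j, ‖ps j‖ = 1) → ‖ζ‖ = 1 → Tendsto ps atTop (𝓝 ζ) →
    (∀ j, DifferentiableOn ℂ (A j) {ω | 0 < ω.re}) → (∀ j ω, 0 < ω.re → A j ω ≠ 0) →
    (∀ j ω, 0 < ω.re → W (cay (ps j) ω⁻¹) = ‖A j ω‖ * W (cay (b j) (η j * ω))) →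
    ∀ (c : ℂ) (r r' t : ℝ), 0 < r → 0 < r' → r < c.re → r' < c.re →
    av (Psi W ζ) (c + t * Complex.I) r - av (Psi W ζ) (c + t * Complex.I) r' =
      av (Psi W ζ) c r - av (Psi W ζ) c r'

/-! ## Part 2.  Growth -/

/-- **Cmp.**  Monotonicity on the real axis and comparison with the values on the real axis.

*Proof.*  (1) `nm` for `β = τ⁻¹`, `β' = σ⁻¹` (real).  (2) Let `β = ω⁻¹`, so `β.re = Re ω/‖ω‖²`,
`|β.im| ≤ 1/‖ω‖` (`inv_re_eq`, `inv_im_eq`), and `√β.re = √(Re ω)/‖ω‖`.  From `16 C² ≤ Re ω`, `1 ≤ C`: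
`C √(Re ω) ≤ Re ω/4` and `C ≤ Re ω/16`.  Lower bound: the real `x₁ = 2 β.re` satisfies
`β.re + C (√β.re |β.im| + β.im²) ≤ (1 + 1/4 + 1/16) β.re ≤ x₁` and `x₁ ≤ 2/‖ω‖ < ε`, so
`W(cay ζ β) ≤ W(cay ζ x₁)`, and `x₁⁻¹ = ‖ω‖²/(2 Re ω)`.  Upper bound: `x₀ = β.re/4` satisfies
`x₀ + C (√x₀ |β.im| + β.im²) ≤ (1/4 + 1/8 + 1/16) β.re ≤ β.re`, so `W(cay ζ x₀) ≤ W(cay ζ β)`, and
`x₀⁻¹ = 4‖ω‖²/Re ω`.  (`W > 0` and monotonicity of the logarithm.) -/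
def StmtCmp : Prop :=
  ∀ (W : ℂ → ℝ) (B C ε c₀ : ℝ), Pot W B C ε c₀ → ∀ ζ : ℂ, ‖ζ‖ = 1 →
    (∀ σ τ : ℝ, 1 / ε < σ → σ ≤ τ → Psi W ζ (σ : ℂ) ≤ Psi W ζ (τ : ℂ)) ∧
    (∀ ω : ℂ, 16 * C ^ 2 ≤ ω.re → 2 / ε < ‖ω‖ →
      Psi W ζ ((‖ω‖ ^ 2 / (2 * ω.re) : ℝ) : ℂ) ≤ Psi W ζ ω ∧
      Psi W ζ ω ≤ Psi W ζ ((4 * ‖ω‖ ^ 2 / ω.re : ℝ) : ℂ) ∧
      1 / ε < ‖ω‖ ^ 2 / (2 * ω.re))

/-- **OscA.**  A lemma on real functions: growth by a fixed amount on geometric scales.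

*Proof.*  Let `u < 1/σ₀`, `σ = 1/u > σ₀` and `m = ⌊log (σ/σ₀)/log λ⌋₊`.  Then `λ^m σ₀ ≤ σ`, so by monotonicity and
induction on `m`, `f(σ) ≥ f(λ^m σ₀) ≥ f(σ₀) + m κ ≥ -L + κ (log (σ/σ₀)/log λ - 1)`.  So
`exp(-f(1/u)) ≤ exp(L + κ) (σ₀ u)^e` with `e = κ/log λ`.  (`σ₀` may be increased so that `1 ≤ σ₀`; take
`u₀ = 1/σ₀`.) -/
def StmtOscA : Prop :=
  ∀ (f : ℝ → ℝ) (s L κ lam σ₀ : ℝ), 0 < s → 0 < κ → 1 < lam → (∀ σ τ, s < σ → σ ≤ τ → f σ ≤ f τ) →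
    (∀ σ, s < σ → -L ≤ f σ) → (∀ σ, σ₀ ≤ σ → s < σ → f σ + κ ≤ f (lam * σ)) →
    ∃ K e u₀ : ℝ, 0 < K ∧ 0 < e ∧ 0 < u₀ ∧ ∀ u, 0 < u → u < u₀ → Real.exp (-f (1 / u)) ≤ K * u ^ e

/-- **OscB.**  A nonzero difference of mean values gives power decay of the width.

*Proof.*  Let `R = max r r'`, `b = c.re + R`, `a = 16 C²` (so `a ≤ Re ω ≤ b` on the discs `ball (c + i t) r` and
`ball (c + i t) r'`).  For `|t|` large, `t²/2 ≤ ‖ω‖² ≤ 2 t²` on these discs, `‖ω‖ > 2/ε`, and `t²/(4 b) > 1/ε`.  By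
*Cmp* and monotonicity `f(t²/(4b)) ≤ Ψ(ω) ≤ f(8t²/a)`, so both mean values are in this interval (`le_av`,
`av_le`, integrability from *Bas* and `intOn`) and `|κ| ≤ f(8t²/a) - f(t²/(4b))`.  With `σ = t²/(4b)` and
`λ = 32 b/a > 1`: `f(σ) + |κ| ≤ f(λ σ)` for all large `σ`.  Apply *OscA* to `f(σ) = Psi W ζ σ`, `s = 1/ε`,
`L = log B` (*Bas*); for small real `u > 0`, `Psi W ζ (1/u) = psi W ζ u = -log W(cay ζ u)`, so
`exp(-f(1/u)) = W(cay ζ u)`.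
*Uses*: Bas, Cmp, OscA. -/
def StmtOscB : Prop :=
  ∀ (W : ℂ → ℝ) (B C ε c₀ : ℝ), Pot W B C ε c₀ → ∀ ζ : ℂ, ‖ζ‖ = 1 →
    ∀ (c : ℂ) (r r' κ : ℝ), 0 < r → 0 < r' → 16 * C ^ 2 + r < c.re → 16 * C ^ 2 + r' < c.re → κ ≠ 0 →
    (∀ t : ℝ, av (Psi W ζ) (c + t * Complex.I) r - av (Psi W ζ) (c + t * Complex.I) r' = κ) →
    ∃ K e u₀ : ℝ, 0 < K ∧ 0 < e ∧ 0 < u₀ ∧ ∀ u : ℝ, 0 < u → u < u₀ → W (cay ζ u) ≤ K * u ^ e

/-! ## Part 3.  The harmonic case -/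

/-- **Mv.**  The mean values over discs of radius one are continuous and have the mean value property.

*Proof.*  Let `h(ω) = av g ω 1`, which is `av g ω ρ` whenever `0 < ρ` and `s₀ + ρ < Re ω` (for
`s₀ + 1 < Re ω`).  Continuity: *Shift*, with a local bound of `|g|`.  Let `s₀ + 2 < Re c` and `ρ, ρ' ∈ (0, 1/2]`.
Fubini (on `ball 0 ρ ×ˢ ball 0 ρ'`, after translations; `g` is measurable and bounded on
`closedBall c 1`) gives `av (fun ω => av g ω ρ') c ρ = av (fun ω => av g ω ρ) c ρ'`: both are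
`(π ρ²)⁻¹ (π ρ'²)⁻¹ ∫_{|u| < ρ} ∫_{|v| < ρ'} g(c + u + v) dv du`.  On both discs the inner mean value is `h`.  So
`av h c ρ = av h c ρ'`.  For `ρ' → 0` the right side converges to `h(c)` by continuity (for every `e > 0`,
`|h - h(c)| ≤ e` on `ball c ρ'` for small `ρ'`, so `|av h c ρ' - h(c)| ≤ e`).
*Uses*: Shift. -/
def StmtMv : Prop :=
  ∀ (g : ℂ → ℝ) (s₀ : ℝ), 0 ≤ s₀ → Measurable g →
    (∀ (c : ℂ) (r : ℝ), r < c.re → ∃ M : ℝ, 0 ≤ M ∧ ∀ ω ∈ closedBall c r, |g ω| ≤ M) →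
    MVall g s₀ →
    ContinuousOn (fun c => av g c 1) {c : ℂ | s₀ + 1 < c.re} ∧
    ∀ (c : ℂ) (ρ : ℝ), 0 < ρ → ρ ≤ 1 / 2 → s₀ + 2 < c.re → av (fun ω => av g ω 1) c ρ = av g c 1

/-- **MinP.**  Minimum principle in a half plane for functions with the mean value property.

*Proof.*  Suppose `G(ω₀) = -e < 0`.  The set `S = {ω | s < Re ω, G ω ≤ -e}` is compact: it is bounded, as
`-e/2 ≤ G` for `‖ω‖ ≥ R`; it is closed in `ℂ`: a limit point `z` of `S` has `s ≤ Re z`; `Re z = s` is impossible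
because `-e/2 ≤ G` near `z` in the half plane, and for `s < Re z` use continuity.  So `G` has a minimum `μ ≤ -e`
on `S`, which is the minimum on the whole half plane; the set `S' = {ω ∈ S | G ω = μ}` is compact and not empty.
Let `c ∈ S'` have the smallest real part (`IsCompact.exists_isMinOn`).  Take `ρ > 0` small, with
`closedBall c ρ` in the half plane and `av G c ρ = G c = μ`.  The continuous function `G - μ ≥ 0` has integral `0`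
over `ball c ρ`, so it vanishes on `ball c ρ` (otherwise it is `≥ e'` on a small disc inside and the integral is
positive).  So `c - ρ/2` is in `S'` and has a smaller real part, a contradiction. -/
def StmtMinP : Prop :=
  ∀ (G : ℂ → ℝ) (s : ℝ), ContinuousOn G {ω : ℂ | s < ω.re} →
    (∀ c : ℂ, s < c.re → ∃ ρ₀ > 0, ∀ ρ, 0 < ρ → ρ < ρ₀ → av G c ρ = G c) →
    (∀ z : ℂ, z.re = s → ∀ e > 0, ∀ᶠ ω in 𝓝[{ω : ℂ | s < ω.re}] z, -e ≤ G ω) →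
    (∀ e > 0, ∃ R : ℝ, ∀ ω : ℂ, s < ω.re → R ≤ ‖ω‖ → -e ≤ G ω) →
    ∀ ω : ℂ, s < ω.re → 0 ≤ G ω

/-- **The.**  Properties of the harmonic measure `thet s Y`.

*Proof.*  For `s < Re ω` the numbers `ω - s ± i Y` have positive real part, `thet` is `1/π` times the difference
of their arguments (`Complex.log_im`), which are in `(-π/2, π/2)`
(`Complex.abs_arg_lt_pi_div_two_iff`), and the argument (`arctan` of the quotient: `Complex.arg_eq_arctan` or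
`Complex.arg = Real.arcsin (im/‖·‖)`, or `Real.arctan` monotone) increases with the imaginary part when the real
part is fixed and positive: so `0 ≤ thet ≤ 1`.  Continuity: the logarithm is continuous on the slit plane.
Mean value property: *Har* for `F(ω) = log(ω - s + iY) - log(ω - s - iY)` on `U = {s < Re}`, divided by `π`
(`av_const_mul`).  Limit: at `z = s + i y`, `|y| < Y`, the two arguments are `π/2` and `-π/2`, and the argument is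
continuous at these points of the slit plane.  Value at the real `σ > s`: `2 arctan(Y/(σ - s))/π ≤
Y/(σ - s)`, from `arctan x ≤ x` and `2 ≤ π`.
*Uses*: Har. -/
def StmtThe : Prop :=
  ∀ (s Y : ℝ), 0 ≤ Y →
    ContinuousOn (thet s Y) {ω : ℂ | s < ω.re} ∧
    (∀ (c : ℂ) (ρ : ℝ), 0 < ρ → s + ρ < c.re → av (thet s Y) c ρ = thet s Y c) ∧
    (∀ ω : ℂ, s < ω.re → 0 ≤ thet s Y ω ∧ thet s Y ω ≤ 1) ∧
    (∀ z : ℂ, z.re = s → |z.im| < Y → ∀ e > 0, ∀ᶠ ω in 𝓝[{ω : ℂ | s < ω.re}] z, 1 - e ≤ thet s Y ω) ∧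
    (∀ σ : ℝ, s < σ → thet s Y (σ : ℂ) ≤ Y / (σ - s))

/-- **Bar.**  The barrier.

*Proof.*  *MinP* for `G(ω) = h(ω) - N + d₁ thet s Y₁ ω + d₂ thet s Y₂ ω`.  Continuity and the mean value property
for small radii from the hypotheses and *The* (`av_add`, `av_const_mul`, `av_const`, integrability:
`intOn_of_cont`).  At infinity: `thet ≥ 0` and the hypothesis.  At a boundary point `z = s + i y`: `h` is
continuous at `z` within the closed half plane, so `h(ω) ≥ h(z) - e/3` near `z`.  If `Y₂ ≤ |y|`: `h(z) ≥ N` and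
`thet ≥ 0`.  If `Y₁ ≤ |y| < Y₂`: `h(z) ≥ N - d₂`, and `d₂ thet s Y₂ ω ≥ d₂ - e/3` near `z`.  If `|y| < Y₁`: also
`|y| < Y₂`, both `thet` tend to `1` and `h(z) ≥ N - d₁ - d₂`.  So `0 ≤ G(σ)`, and
`thet s Y_i σ ≤ Y_i/(σ - s)`.
*Uses*: MinP, The. -/
def StmtBar : Prop :=
  ∀ (h : ℂ → ℝ) (s N d₁ d₂ Y₁ Y₂ : ℝ), 0 ≤ d₁ → 0 ≤ d₂ → 0 ≤ Y₁ → Y₁ ≤ Y₂ →
    ContinuousOn h {ω : ℂ | s ≤ ω.re} →
    (∀ c : ℂ, s < c.re → ∃ ρ₀ > 0, ∀ ρ, 0 < ρ → ρ < ρ₀ → av h c ρ = h c) →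
    (∀ y : ℝ, N - d₁ - d₂ ≤ h (s + y * Complex.I)) →
    (∀ y : ℝ, Y₁ ≤ |y| → N - d₂ ≤ h (s + y * Complex.I)) →
    (∀ y : ℝ, Y₂ ≤ |y| → N ≤ h (s + y * Complex.I)) →
    (∀ e > 0, ∃ R : ℝ, ∀ ω : ℂ, s < ω.re → R ≤ ‖ω‖ → N - e ≤ h ω) →
    ∀ σ : ℝ, s < σ → N - (d₁ * Y₁ + d₂ * Y₂) / (σ - s) ≤ h (σ : ℂ)

/-- **InfA.**  The doubling inequality if the potential is unbounded.

*Proof.*  Let `s₀ = 16 C²`, `s₁ = s₀ + 2`, `h(ω) = av Ψ ω 1`; *Mv* (with *Bas*) gives that `h` is continuous on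
`{s₀ + 1 < Re}` and has the mean value property for `s₁ < Re c`, `ρ ≤ 1/2`.  `f` is monotone (*Cmp*) and unbounded,
so it tends to infinity.  (1) For large `σ`, `h(σ) ≤ f(8σ)`: for `ω ∈ ball σ 1`,
`4‖ω‖²/Re ω ≤ 4 (σ+1)²/(σ-1) ≤ 8 σ` (`σ ≥ 5`), use *Cmp* and `av_le`.  (2) For large `|y|`,
`h(s₁ + iy) ≥ f(y²/(8(s₁+1)))`: for `ω` in the disc, `s₀ < Re ω < s₁ + 1` and `‖ω‖ ≥ |y| - 1 ≥ |y|/2`.  (3) Let
`K = √(128 (s₁+1))`; for `|y| ≥ K √σ`, `y²/(8(s₁+1)) ≥ 16 σ`, so `h(s₁ + iy) ≥ f(16σ)`.  (4) For `N = f(16σ)` and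
every `e > 0`: `h(ω) ≥ N - e` for `s₁ < Re ω`, `‖ω‖` large: for `ω' ∈ ball ω 1`,
`Ψ(ω') ≥ f(‖ω'‖²/(2 Re ω')) ≥ f(‖ω'‖/2)`, as `Re ω' ≤ ‖ω'‖`, which tends to infinity.  (5) `h ≥ -log B`.
*Bar* with `s = s₁`, `N = f(16σ)`, `d₁ = N + log B ≥ 0`, `d₂ = 0`, `Y₁ = Y₂ = K√σ`:
`h(σ) ≥ N - (N + log B) K √σ/(σ - s₁) ≥ N - (N + log B) 2K/√σ` for `σ ≥ 2 s₁`.  With (1):
`(f(16σ) + log B)(1 - 2K/√σ) ≤ f(8σ) + log B`.  Put `τ = 8σ`, `K' = 2 √8 K` (or any larger `K'`; the factor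
`f(2τ) + log B` is nonnegative).
*Uses*: Bas, Cmp, Mv, Bar. -/
def StmtInfA : Prop :=
  ∀ (W : ℂ → ℝ) (B C ε c₀ : ℝ), Pot W B C ε c₀ → ∀ ζ : ℂ, ‖ζ‖ = 1 → MVall (Psi W ζ) (16 * C ^ 2) →
    (∀ M : ℝ, ∃ σ : ℝ, 1 / ε < σ ∧ M < Psi W ζ (σ : ℂ)) →
    ∃ K τ₀ : ℝ, 0 < K ∧ 1 / ε < τ₀ ∧ ∀ τ : ℝ, τ₀ ≤ τ →
      (Psi W ζ ((2 * τ : ℝ) : ℂ) + Real.log B) * (1 - K / √τ) ≤ Psi W ζ (τ : ℂ) + Real.log B

/-- **InfB.**  A function with the doubling inequality is bounded.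

*Proof.*  Choose `τ₁ ≥ τ₀` with `τ₁ > 0` and `K/√τ₁ ≤ 1/2`.  For `τ ≥ τ₁`, `x = K/√τ ≤ 1/2` and
`1/(1-x) ≤ 1 + 2x ≤ e^{2x}`, so `g(2τ) ≤ g(τ) exp(2K/√τ)`.  By induction
`g(2^j τ₁) ≤ g(τ₁) exp((2K/√τ₁) ∑_{i<j} (√2)^{-i})`, and the geometric sum is at most `4`.  By monotonicity `g` is
bounded by `g(τ₁) exp(8K/√τ₁)` (for `τ ≥ τ₀` choose `j` with `τ ≤ 2^j τ₁`). -/
def StmtInfB : Prop :=
  ∀ (g : ℝ → ℝ) (K τ₀ : ℝ), 0 < K → (∀ τ, τ₀ ≤ τ → 0 ≤ g τ) → (∀ σ τ, τ₀ ≤ σ → σ ≤ τ → g σ ≤ g τ) →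
    (∀ τ, τ₀ ≤ τ → g (2 * τ) * (1 - K / √τ) ≤ g τ) → ∃ M : ℝ, ∀ τ, τ₀ ≤ τ → g τ ≤ M

/-- **FinA.**  The gain of the mean values.

*Proof.*  Let `s₁ = 16C² + 2`, `ω ∈ ball σ 1`, `ω' ∈ ball (s₁ + iy) 1`, `|y| ≥ K√σ`, `σ` large, `β = ω⁻¹`,
`β' = ω'⁻¹`.  `Re ω ≥ σ/2`, `‖ω‖ ≤ 2σ`, so `β.re ≥ 1/(8σ)`; `|β.im| ≤ |Im ω|/‖ω‖² ≤ 4/σ²`; `‖β‖ ≤ 2/σ < ε`.
`‖ω'‖ ≥ |y|/2`, so `0 < β'.re ≤ 4(s₁+1)/y² ≤ 4 (s₁+1)/(K²σ) ≤ c₀ β.re` if `K² ≥ 32(s₁+1)/c₀`;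
`|β'.im| ≤ 2/|y| ≤ 2/(K√σ)`, and `|β'.im - β.im| ≤ 2/(K√σ) + 4/σ² ≤ c₀/(3√σ) ≤ c₀ √β.re` if `K ≥ 12/c₀` and `σ` is
large (`√β.re ≥ 1/(3√σ)`); `‖β'‖ < ε` for large `σ`.  By `gr`, `W(cay ζ β') ≤ W(cay ζ β) - c₀√β.re`, both positive,
so `-log W(cay ζ β') ≥ -log W(cay ζ β) + c₀√β.re/W(cay ζ β)` (`-log (1-x) ≥ x`) and with `W ≤ B`:
`Ψ(ω) + c₇/√σ ≤ Ψ(ω')`, `c₇ = c₀/(3B)`.  Now `av_add_le`, integrability from *Bas* and `intOn`.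
*Uses*: Bas. -/
def StmtFinA : Prop :=
  ∀ (W : ℂ → ℝ) (B C ε c₀ : ℝ), Pot W B C ε c₀ → ∀ ζ : ℂ, ‖ζ‖ = 1 →
    ∃ K c₇ σ₀ : ℝ, 0 < K ∧ 0 < c₇ ∧ 0 < σ₀ ∧ ∀ σ y : ℝ, σ₀ ≤ σ → K * √σ ≤ |y| →
      av (Psi W ζ) (σ : ℂ) 1 + c₇ / √σ ≤
        av (Psi W ζ) (((16 * C ^ 2 + 2 : ℝ) : ℂ) + y * Complex.I) 1

/-- **FinB.**  The potential cannot be bounded on the real axis in the harmonic case.

*Proof.*  Let `s₀ = 16C²`, `s₁ = s₀ + 2`, `h(ω) = av Ψ ω 1` (*Mv* as in *InfA*).  Let `F₀` be the supremum of `f` on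
`(1/ε, ∞)`; `f(σ) → F₀` as `f` is monotone.  (1) `h(σ) ≤ F₀` for large `σ` and `h(s₁ + iy) ≤ F₀` for large `|y|`
(upper bound in *Cmp*).  (2) For every `e > 0` there is `R` with `F₀ - e ≤ h(ω)` for `s₁ ≤ Re ω`, `‖ω‖ ≥ R`:
`Ψ(ω') ≥ f(‖ω'‖²/(2 Re ω')) ≥ f(‖ω'‖/2)`.  (3) `h ≥ -log B` for `Re > 1`.  Let `K, c₇, σ₀` be from *FinA*,
`e' = c₇/(4K)`, and `Y₁ ≥ 0` with `h(s₁ + iy) ≥ F₀ - e'/2` for `|y| ≥ Y₁`.  Let `σ` be large (`σ ≥ σ₀`,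
`c₇/√σ ≤ e'/2`, `Y₁ ≤ K√σ`, `σ ≥ 2s₁`, `σ ≥ 1`), `N = h(σ) + c₇/√σ`, `Y₂ = K√σ`, `d₂ = e'`,
`d₁ = |F₀| + c₇ + |log B|` (not depending on `σ`).  Boundary: `|y| ≥ Y₂`: `h ≥ N` (*FinA*); `|y| ≥ Y₁`:
`h ≥ F₀ - e'/2 ≥ h(σ) + c₇/√σ - e' = N - d₂`; all `y`: `h ≥ -log B ≥ N - d₁ - d₂` as `N ≤ F₀ + c₇`.  At infinity:
`N ≤ h(s₁ + iy) ≤ F₀` for large `|y|`, so `N ≤ F₀` and (2) applies.  *Bar*:
`N - (d₁Y₁ + e'K√σ)/(σ - s₁) ≤ h(σ) = N - c₇/√σ`, so `c₇/√σ ≤ 2 (d₁Y₁ + e'K√σ)/σ`, i.e.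
`c₇ ≤ 2 d₁Y₁/√σ + 2e'K = 2d₁Y₁/√σ + c₇/2`, which is false for large `σ`.
*Uses*: Bas, Cmp, Mv, Bar, FinA. -/
def StmtFinB : Prop :=
  ∀ (W : ℂ → ℝ) (B C ε c₀ : ℝ), Pot W B C ε c₀ → ∀ ζ : ℂ, ‖ζ‖ = 1 → MVall (Psi W ζ) (16 * C ^ 2) →
    ∀ F : ℝ, ¬ ∀ σ : ℝ, 1 / ε < σ → Psi W ζ (σ : ℂ) ≤ F

/-- **Pow.**  Power decay of the width at the limit point.

*Proof.*  If there are `c, r, r'` with `0 < r`, `0 < r'`, `16C² + r < c.re`, `16C² + r' < c.re` and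
`κ = av Ψ c r - av Ψ c r' ≠ 0`, then the invariance and *OscB* give the claim.  Otherwise `MVall Ψ (16C²)`.  If `f`
is not bounded on `(1/ε, ∞)`, *InfA* and *InfB* (for `g(τ) = f(τ) + log B`, nonnegative by *Bas*, monotone by
*Cmp*) give that it is bounded (on `[τ₀, ∞)`, so by monotonicity on `(1/ε, ∞)`), a contradiction.  So it is
bounded, which contradicts *FinB*.
*Uses*: Bas, Cmp, OscB, InfA, InfB, FinB. -/
def StmtPow : Prop :=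
  ∀ (W : ℂ → ℝ) (B C ε c₀ : ℝ), Pot W B C ε c₀ → ∀ ζ : ℂ, ‖ζ‖ = 1 →
    (∀ (c : ℂ) (r r' t : ℝ), 0 < r → 0 < r' → r < c.re → r' < c.re →
      av (Psi W ζ) (c + t * Complex.I) r - av (Psi W ζ) (c + t * Complex.I) r' =
        av (Psi W ζ) c r - av (Psi W ζ) c r') →
    ∃ K e u₀ : ℝ, 0 < K ∧ 0 < e ∧ 0 < u₀ ∧ ∀ u : ℝ, 0 < u → u < u₀ → W (cay ζ u) ≤ K * u ^ e

/-! ## Part 4.  Geometry of the domain near the edge -/

/-- **Tay.**  Uniform first and second order estimates on a ball.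

*Proof.*  `r` is `C^∞`; `fderiv ℝ r` and its derivative are continuous, so they are bounded on the compact convex
set `closedBall 0 R` (proper space); mean value inequality (`Convex.norm_image_sub_le_of_norm_fderiv_le`, and
for the last estimate the same applied to `y ↦ r y - fderiv ℝ r x y` on the segment). -/
def StmtTay : Prop :=
  ∀ (n : ℕ) (r : Sp n → ℝ) (R : ℝ), ContDiff ℝ ((⊤ : ℕ∞) : WithTop ℕ∞) r → ∃ C : ℝ, 1 ≤ C ∧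
    (∀ x ∈ closedBall (0 : Sp n) R, |r x| ≤ C) ∧
    (∀ x ∈ closedBall (0 : Sp n) R, ∀ y ∈ closedBall (0 : Sp n) R, |r y - r x| ≤ C * ‖y - x‖) ∧
    (∀ x ∈ closedBall (0 : Sp n) R, ∀ y ∈ closedBall (0 : Sp n) R,
      ‖fderiv ℝ r y - fderiv ℝ r x‖ ≤ C * ‖y - x‖) ∧
    (∀ x ∈ closedBall (0 : Sp n) R, ∀ y ∈ closedBall (0 : Sp n) R,
      |r y - r x - fderiv ℝ r x (y - x)| ≤ C * ‖y - x‖ ^ 2)

/-- **Grad.**  The radial derivative is bounded below near the edge.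

*Proof.*  (1) Let `x ∈ closure Ω`, `‖x k‖ = 1`; so `x ∈ frontier Ω` and `r x = 0` (`Dom.mem_frontier`,
`Dom.frontier_eq`), and `L = fderiv ℝ r x ≠ 0`.  If `v` has `Re(conj(x k) * v k) > 0`, then `‖(x + t v) k‖ > 1` for
small `t > 0`, so `r(x + t v) ≥ 0 = r(x)` (`Dom.nonneg_of`) and `L v ≥ 0`.  By continuity `L v ≥ 0` whenever
`Re(conj(x k) * v k) ≥ 0` (add a small multiple of `single k (x k)`), hence `L v = 0` if it is `0`.  So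
`L v = Re(conj(x k) * v k) · L(single k (x k))` for all `v` (subtract the multiple of `single k (x k)`), and
`L ≠ 0` gives `0 < L(single k (x k))`.
(2) The set `Z = closure Ω ∩ {‖x k‖ = 1}` is compact.  The function `Λ(y) = fderiv ℝ r y (single k (y k))` is
continuous and positive on `Z`.  So there are `l > 0` (half the minimum; anything if `Z` is empty) and `δ > 0` with
`l ≤ Λ(y)` for all `y` at distance less than `δ` from some point of `Z`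
(`IsCompact.exists_thickening_subset_open`).  On the compact set `closure Ω \ thickening (δ/2) Z` the continuous
function `‖x k‖` is less than `1` (it is at most `1`, and the points with value `1` are in `Z`), so it is at most
`1 - ε₁` there, `ε₁ > 0`.  Take `ε = min ε₁ (δ/2)` (and less than `1`). -/
def StmtGrad : Prop :=
  ∀ (n : ℕ) (Ω : Set (Sp n)) (r : Sp n → ℝ) (k : Fin n), Dom Ω r k →
    ∃ l ε : ℝ, 0 < l ∧ 0 < ε ∧ ε < 1 ∧ ∀ x ∈ Ω, 1 - ‖x k‖ < ε → ∀ y : Sp n, ‖y - x‖ < ε →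
      l ≤ fderiv ℝ r y (EuclideanSpace.single k (y k))

/-- **Tan.**  Tangential derivatives outside the cylinder.

*Proof.*  Let `C` be the constant of *Tay* for `R + 1` (so `|r x| ≤ C` on that ball) and `v ≠ 0`; by homogeneity
assume `‖v‖ = 1`.  `‖(x + t v) k‖² = ‖x k‖² + t² ‖v k‖² ≥ 1` for real `t`, so `0 ≤ r(x + t v) ≤
r x + t s + C t²` for `|t| ≤ 1`, `s = fderiv ℝ r x v` (`Dom.nonneg_of`, *Tay*).  If `r x > 0` take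
`t = -sign(s) √(r x/C)` (`|t| ≤ 1`): `|s| √(r x/C) ≤ 2 r x`, so `|s| ≤ 2 √C √(r x)`.  If `r x = 0` let `t → 0` with
the sign of `-s`: `|s| ≤ C |t|`, so `s = 0`.  Take `A = 2 √C`.
*Uses*: Tay. -/
def StmtTan : Prop :=
  ∀ (n : ℕ) (Ω : Set (Sp n)) (r : Sp n → ℝ) (k : Fin n), Dom Ω r k → ∀ R : ℝ,
    ∃ A : ℝ, 0 < A ∧ ∀ x ∈ closedBall (0 : Sp n) R, 1 ≤ ‖x k‖ → ∀ v : Sp n,
      (starRingEnd ℂ (x k) * v k).re = 0 → |fderiv ℝ r x v| ≤ A * √(r x) * ‖v‖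

/-- **NmG.**  Moving towards the centre faster than the tangential motion stays in `Ω`.

*Proof.*  Let `Ω ⊆ ball 0 R₀`, `R = R₀ + 3`; constants `C₀` of *Tay*, `A` of *Tan*, `l, ε` of *Grad* (with `ε < 1/2`).
Let `w = x k`, `δ = 1 - ‖w‖² > 0`, `u = w/‖w‖` (`‖w‖ > 1/2`), `x* = upd x k u`.  `‖x* - x‖ = 1 - ‖w‖ ≤ δ`.
`0 ≤ r x* ≤ r x + C₀ δ ≤ C₀ δ`.  The hypothesis gives `0 ≤ 1 - ‖w'‖²`, so `‖w'‖ ≤ 1`.  Let `x' = upd x k w'`,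
`x' - x = single k (w' - w)`.  Mean value theorem on the segment (`Convex.norm_image_sub_le…` applied to
`y ↦ r y - fderiv ℝ r x* y`): `|r x' - r x - fderiv ℝ r x* (x' - x)| ≤ C₀ (δ + ‖w' - w‖) ‖w' - w‖`, as the points
of the segment have distance at most `δ + ‖w' - w‖` from `x*`.  Write `w' - w = α u + τ`,
`α = Re(conj u (w' - w))`, `Re(conj u τ) = 0`, `‖τ‖ ≤ ‖w' - w‖`.  By *Tan* (`x* k = u`),
`|fderiv ℝ r x* (single k τ)| ≤ A √(C₀ δ) ‖w' - w‖`.  By *Grad*, `fderiv ℝ r x* (single k u) ≥ l`.  From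
`‖w'‖² = ‖w‖² + 2‖w‖α + ‖w' - w‖²`: `-2‖w‖α = (δ' - δ) + ‖w' - w‖²`, where `δ' = 1 - ‖w'‖² ≥ δ`; so `α ≤ 0` and
`-α ≥ (δ' - δ)/2`.  Altogether, with `δ ≤ √δ`,
`r x' ≤ r x - l (δ' - δ)/2 + (A √C₀ + C₀)(√δ ‖w' - w‖ + ‖w' - w‖²) ≤ r x < 0` if
`C ≥ 2 (A √C₀ + C₀)/l`.
*Uses*: Tay, Grad, Tan. -/
def StmtNmG : Prop :=
  ∀ (n : ℕ) (Ω : Set (Sp n)) (r : Sp n → ℝ) (k : Fin n), Dom Ω r k →
    ∃ C ε : ℝ, 1 ≤ C ∧ 0 < ε ∧ ε < 1 ∧ ∀ x ∈ Ω, 1 - ‖x k‖ < ε → ∀ w' : ℂ,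
      (1 - ‖x k‖ ^ 2) + C * (√(1 - ‖x k‖ ^ 2) * ‖w' - x k‖ + ‖w' - x k‖ ^ 2) ≤ 1 - ‖w'‖ ^ 2 →
      upd x k w' ∈ Ω

/-- **GrG.**  Far towards the centre there is room in the fibre directions.

*Proof.*  Constants as in *NmG*.  Let `w' = x k`, `δ' = 1 - ‖w'‖²`, `δ = 1 - ‖w‖²`, so `0 < δ' ≤ c δ`,
`0 < δ ≤ 1`.  `u = w'/‖w'‖`, `x* = upd x k u`; `‖x* - x‖ = 1 - ‖w'‖ ≤ δ' ≤ c δ`; `0 ≤ r x* ≤ C₀ c δ`.  Let
`y = upd x k w + ξ`; `y - x* = single k (w - u) + ξ`, `‖y - x*‖ ≤ ‖w - w'‖ + ‖w' - u‖ + ‖ξ‖ ≤ 3 c √δ` (`c ≤ 1`).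
Write `w - u = α u + τ`, `α = Re(conj u (w - u))`; `v = single k τ + ξ` has `Re(conj u (v k)) = 0` and
`‖v‖ ≤ 3c√δ`; by *Tan* `|fderiv ℝ r x* v| ≤ A √(C₀ c δ) 3c√δ`.  From `‖w‖² = 1 + 2α + ‖w - u‖²`: `α ≤ -δ/2`, so
`fderiv ℝ r x* (single k (α u)) ≤ -l δ/2`.  *Tay*:
`r y ≤ C₀ c δ - l δ/2 + 3 A √C₀ c^{3/2} δ + 9 C₀ c² δ < 0` for `c` small enough (`c ≤ 1`,
`C₀ c ≤ l/8`, `3A√C₀ c ≤ l/8`, `9C₀c ≤ l/8`; note `√c ≤ 1`).
*Uses*: Tay, Grad, Tan. -/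
def StmtGrG : Prop :=
  ∀ (n : ℕ) (Ω : Set (Sp n)) (r : Sp n → ℝ) (k : Fin n), Dom Ω r k →
    ∃ c ε : ℝ, 0 < c ∧ c < 1 ∧ 0 < ε ∧ ε < 1 ∧ ∀ x ∈ Ω, 1 - ‖x k‖ < ε → ∀ (w : ℂ) (ξ : Sp n), ξ k = 0 →
      1 - ‖x k‖ ^ 2 ≤ c * (1 - ‖w‖ ^ 2) → ‖w - x k‖ ≤ c * √(1 - ‖w‖ ^ 2) →
      ‖ξ‖ ≤ c * √(1 - ‖w‖ ^ 2) → upd x k w + ξ ∈ Ω

/-- **Wd.**  The width function.

*Proof.*  Let `S(w)` be the set in the definition of `wd Ω k i w`; it is bounded (`wd_bdd`), uniformly in `w`.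
Positivity: `x ∈ Ω` with `x k = w` exists (`Dom.exists_fib`); `Ω` is open, so `x + single i s ∈ Ω` for a small
`s ≠ 0`, with the same coordinate `k` (`i ≠ k`); so `S(w)` contains two points (`dist_le_wd`).  Lower
semicontinuity at `w`: let `y < wd w`.  If `y < 0` use `wd_nonneg`.  If `0 ≤ y`, there are `x¹, x² ∈ Ω` over `w` with
`y < ‖x¹ i - x² i‖` (otherwise the diameter is at most `y`: `Metric.diam_le_of_forall_dist_le`).  For `w'` near `w`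
the points `upd x¹ k w'`, `upd x² k w'` are in the open set `Ω` (`continuous_upd_right`, `upd_self`), and their
coordinates `i` are those of `x¹`, `x²`; so `y < wd w'`. -/
def StmtWd : Prop :=
  ∀ (n : ℕ) (Ω : Set (Sp n)) (r : Sp n → ℝ) (k i : Fin n), Dom Ω r k → i ≠ k →
    LowerSemicontinuous (wd Ω k i) ∧ (∀ w ∈ ball (0 : ℂ) 1, 0 < wd Ω k i w) ∧
    ∃ B : ℝ, 0 < B ∧ ∀ w, wd Ω k i w ≤ B

/-- **PNm.**  The property `nm` of the width function.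

*Proof.*  Constants `C₁, ε₁` of *NmG*; `C = 48 + 32 C₁`, `ε = min (ε₁/10) (1/(10000 C₁²))`.  Let `x = β.re`,
`x' = β'.re`, `Δ = x' - x ≥ 0` (from the hypothesis), `d = |β'.im - β.im|`, `w = cay ζ β`, `w' = cay ζ β'`,
`δ = 1 - ‖w‖² = 4x/|1+β|²`, `δ' = 4x'/|1+β'|²` (`cay_del`), `|1+β|, |1+β'| ∈ [1-ε, 1+ε]`.  Then `√δ ≤ 4√x`,
`‖w' - w‖ ≤ 4 ‖β' - β‖ ≤ 4(Δ + d)` (`norm_cay_sub`), so (with `x, Δ ≤ ε`)
`C₁(√δ‖w'-w‖ + ‖w'-w‖²) ≤ C₁((16√ε + 32ε)Δ + 16√x d + 32 d²)`.  And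
`δ' - δ = 4Δ/|1+β'|² + 4x(|1+β|² - |1+β'|²)/(|1+β|²|1+β'|²) ≥ 2Δ - 48 x (Δ + d) ≥ 2Δ - 48εΔ - 48√x d`.
Since `48ε + C₁(16√ε + 32ε) ≤ 1` and `Δ ≥ C(√x d + d²)`, `δ + C₁(…) ≤ δ'`.  Also `1 - ‖w‖ ≤ δ ≤ 8ε < ε₁`.  By *NmG*
every point of `Ω` over `w` moves to a point of `Ω` over `w'` with the same coordinate `i`: the set in the
definition of `wd Ω k i w` is contained in the one for `w'` (`Metric.diam_mono`, `wd_bdd`).
*Uses*: NmG. -/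
def StmtPNm : Prop :=
  ∀ (n : ℕ) (Ω : Set (Sp n)) (r : Sp n → ℝ) (k i : Fin n), Dom Ω r k → i ≠ k →
    ∃ C ε : ℝ, 1 ≤ C ∧ 0 < ε ∧ ε < 1 ∧
      ∀ ζ β β' : ℂ, ‖ζ‖ = 1 → 0 < β.re → 0 < β'.re → ‖β‖ < ε → ‖β'‖ < ε →
        β.re + C * (√β.re * |β'.im - β.im| + (β'.im - β.im) ^ 2) ≤ β'.re →
        wd Ω k i (cay ζ β) ≤ wd Ω k i (cay ζ β')

/-- **PGr.**  The property `gr` of the width function.

*Proof.*  Constants `c₁, ε₁` of *GrG*; `c = c₁/8`, `ε = min (ε₁/10) (c₁²/64)`, and `ε ≤ 1/10`.  Let `x = β.re`,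
`x' = β'.re ≤ c x`, `w = cay ζ β`, `w' = cay ζ β'` (the shallow point), `δ = 1 - ‖w‖² = 4x/|1+β|² ≥ 2x`,
`δ' = 1 - ‖w'‖² ≤ 8x' ≤ 8 c x ≤ c₁ δ`.  `‖w - w'‖ ≤ 4‖β - β'‖ ≤ 4(x + c√x) ≤ 4(√ε + c)√x ≤ c₁√x ≤ c₁√δ`.
`1 - ‖w'‖ ≤ δ' < ε₁`.  So by *GrG*, for `y ∈ Ω` with `y k = w'` and `ξ` with `ξ k = 0`, `‖ξ‖ ≤ c√x`, the point
`upd y k w + ξ` is in `Ω`.  Take two points `y¹, y²` of `Ω` over `w'`, `e = (y¹ i - y² i)/‖y¹ i - y² i‖` (or `1`),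
`ξ¹ = single i (c√x e)`, `ξ² = 0`: `‖y¹ i - y² i‖ + c√x ≤ wd Ω k i w` (`dist_le_wd`).  There is a point over `w'`
(`Dom.exists_fib`, `cay_mem`), so `0 ≤ wd w - c√x`, and `Metric.diam_le_of_forall_dist_le` gives the claim.
*Uses*: GrG. -/
def StmtPGr : Prop :=
  ∀ (n : ℕ) (Ω : Set (Sp n)) (r : Sp n → ℝ) (k i : Fin n), Dom Ω r k → i ≠ k →
    ∃ c ε : ℝ, 0 < c ∧ 0 < ε ∧ ε < 1 ∧
      ∀ ζ β β' : ℂ, ‖ζ‖ = 1 → 0 < β.re → 0 < β'.re → ‖β‖ < ε → ‖β'‖ < ε →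
        β'.re ≤ c * β.re → |β'.im - β.im| ≤ c * √β.re →
        wd Ω k i (cay ζ β') + c * √β.re ≤ wd Ω k i (cay ζ β)

/-! ## Part 5.  Automorphisms -/

/-- **Aut.**  The base map is an automorphism of the disc.

*Proof.*  `m` is holomorphic: for `w₀` in the disc choose `x ∈ Ω` over `w₀`; for `w` near `w₀`, `upd x k w ∈ Ω` and
`m w = φ(upd x k w) k`, a composition of differentiable maps (`differentiable_upd_right`).  `m` maps the disc to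
itself (`φ x ∈ Ω`), and it is onto: for `w` choose `y ∈ Ω` over `w` and `x ∈ Ω` with `φ x = y`.  So `m` is a
bijection of the disc; let `m'` be the inverse.  For `y ∈ Ω`, `x = ψ y ∈ Ω`, `φ x = y`, so `m(x k) = y k` and
`m'(y k) = (ψ y) k`; so `m'(w) = ψ(upd y k w) k` for `w` near `y k`, and `m'` is holomorphic. -/
def StmtAut : Prop :=
  ∀ (n : ℕ) (Ω : Set (Sp n)) (r : Sp n → ℝ) (k : Fin n) (φ : Sp n → Sp n) (m : ℂ → ℂ)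
    (a b : Fin n → ℂ → ℂ), Dom Ω r k → Fib Ω k φ m a b →
    ∃ m' : ℂ → ℂ, DifferentiableOn ℂ m (ball 0 1) ∧ DifferentiableOn ℂ m' (ball 0 1) ∧
      MapsTo m (ball 0 1) (ball 0 1) ∧ MapsTo m' (ball 0 1) (ball 0 1) ∧
      (∀ w ∈ ball (0 : ℂ) 1, m' (m w) = w) ∧ ∀ w ∈ ball (0 : ℂ) 1, m (m' w) = w

/-- **Coc.**  The coefficients are holomorphic without zeros and the width is multiplied by them.

*Proof.*  Let `w₀` be in the disc, `x ∈ Ω` over `w₀` and `s ≠ 0` small with `x' = x + single i s ∈ Ω`.  For `w` near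
`w₀` both `upd x k w` and `upd x' k w` are in `Ω`, and `a i w * s = φ(upd x' k w) i - φ(upd x k w) i`: so `a i` is
differentiable at `w₀`.  If `a i w₀ = 0`, then `φ x' = φ x` (coordinate `k`: `m w₀`; coordinate `i`: `b i w₀`; the
others agree), against injectivity.  The set `S(m w)` of the coordinates `i` of the points of `Ω` over `m w` is
`a i w * S(w) + b i w`: for `x ∈ Ω` over `w`, `φ x` is over `m w`; for `y ∈ Ω` over `m w`, `y = φ x`,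
`m(x k) = m w`, so `x k = w` (injectivity of `m` on the disc).  So the diameter is multiplied by `‖a i w‖`. -/
def StmtCoc : Prop :=
  ∀ (n : ℕ) (Ω : Set (Sp n)) (r : Sp n → ℝ) (k i : Fin n) (φ : Sp n → Sp n) (m : ℂ → ℂ)
    (a b : Fin n → ℂ → ℂ), Dom Ω r k → i ≠ k → Fib Ω k φ m a b →
    DifferentiableOn ℂ (a i) (ball 0 1) ∧ (∀ w ∈ ball (0 : ℂ) 1, a i w ≠ 0) ∧
      ∀ w ∈ ball (0 : ℂ) 1, wd Ω k i (m w) = ‖a i w‖ * wd Ω k i w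

/-- **Mob.**  Automorphisms of the disc.

*Proof.*  Let `α = m'(0)` and `T(z) = (z + α)/(1 + conj α z)`, an automorphism of the disc with inverse
`S(w) = (w - α)/(1 - conj α w)`, `T(0) = α`.  `f = m ∘ T` and `g = S ∘ m'` are holomorphic self maps of the disc,
inverse to each other, with `f(0) = 0`, `g(0) = 0`.  The Schwarz lemma
(`Complex.norm_le_norm_of_mapsTo_ball`) for both gives `‖f z‖ = ‖z‖`.  The function `dslope f 0` is holomorphic on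
the disc with constant norm `1` outside `0`, hence everywhere, so it is constant, `= e` (maximum principle,
`Complex.eqOn_of_isPreconnected_of_isMaxOn_norm`, or `Complex.affine_of_mapsTo_ball_of_norm_dslope_eq_div`).  So
`f z = e z` and `m w = f(S w) = e (w - α)/(1 - conj α w)`. -/
def StmtMob : Prop :=
  ∀ m m' : ℂ → ℂ, DifferentiableOn ℂ m (ball 0 1) → DifferentiableOn ℂ m' (ball 0 1) →
    MapsTo m (ball 0 1) (ball 0 1) → MapsTo m' (ball 0 1) (ball 0 1) →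
    (∀ w ∈ ball (0 : ℂ) 1, m' (m w) = w) → (∀ w ∈ ball (0 : ℂ) 1, m (m' w) = w) →
    ∃ e α : ℂ, ‖e‖ = 1 ∧ ‖α‖ < 1 ∧ ∀ w ∈ ball (0 : ℂ) 1, m w = e * (w - α) / (1 - starRingEnd ℂ α * w)

/-- **Kak.**  The automorphisms in half plane coordinates.

*Proof.*  `1 - |m_j w₀|² = (1 - |w₀|²)(1 - |α_j|²)/|1 - conj α_j w₀|² → 0` and the denominator is at most `4`, so
`|α_j| → 1`; in particular `α_j ≠ 0` for `j ≥ j₀`.  Put `J j = j + j₀` and (for the index `J j`) `b = α/|α|`,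
`η = (1 - |α|)/(1 + |α|) > 0`, `p = -e b`.  For `ω ∈ H` and `w = cay b (ηω) = b (1 - ηω)/(1 + ηω)` a computation
gives `m w = e b (η - ηω)/(η + ηω) = e b (1 - ω)/(1 + ω) = cay p ω⁻¹` (multiply by `1 + ηω`: `w - α` becomes
`b ((1 - |α|) - ηω (1 + |α|))` and `1 - conj α w` becomes `(1 - |α|) + ηω (1 + |α|)`).  `η → 0`.  Limit of `p`: let
`w₀ = cay b (η ω_j)`, i.e. `η ω_j = (b - w₀)/(b + w₀)`, which has positive real part and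
`|η ω_j| ≥ (1 - |w₀|)/2`; so `‖ω_j‖ → ∞`, and `|m w₀ - p| = |cay p ω_j⁻¹ - p| = 2/|ω_j + 1| → 0`; as `m w₀ → ζ`,
`p → ζ`. -/
def StmtKak : Prop :=
  ∀ (m : ℕ → ℂ → ℂ) (e α : ℕ → ℂ) (w₀ ζ : ℂ), (∀ j, ‖e j‖ = 1) → (∀ j, ‖α j‖ < 1) →
    (∀ j, ∀ w ∈ ball (0 : ℂ) 1, m j w = e j * (w - α j) / (1 - starRingEnd ℂ (α j) * w)) →
    ‖w₀‖ < 1 → ‖ζ‖ = 1 → Tendsto (fun j => m j w₀) atTop (𝓝 ζ) →
    ∃ (J : ℕ → ℕ) (b : ℕ → ℂ) (η : ℕ → ℝ) (ps : ℕ → ℂ), (∀ j, ‖b j‖ = 1) ∧ (∀ j, 0 < η j) ∧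
      Tendsto η atTop (𝓝 0) ∧ (∀ j, ‖ps j‖ = 1) ∧ Tendsto ps atTop (𝓝 ζ) ∧
      ∀ (j : ℕ) (ω : ℂ), 0 < ω.re → m (J j) (cay (b j) (η j * ω)) = cay (ps j) ω⁻¹

/-- **Edge.**  The orbit accumulates at the edge.

*Proof.*  `p ∈ closure Ω`, so `‖p k‖ ≤ 1`.  Suppose `‖p k‖ < 1`, `d = 1 - ‖p k‖ > 0`.  We show `p ∈ Ω`, which
contradicts `p ∈ frontier Ω` (`Ω` is open).  Let `w_q = q k`, `v_j = φ_j q k = m_j w_q → p k`, `m'_j` the inverse of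
`m_j` (*Aut*), `‖x‖ ≤ R` on `Ω`, `ball q (2ρ) ⊆ Ω`, `ρ > 0`.  For large `j`, `p k ∈ ball v_j (d/4)` and
`ball v_j (d/4) ⊆ ball 0 1`; `m'_j` maps it into `ball (m'_j v_j) 2`, `m'_j v_j = w_q`; the Schwarz lemma
(`Complex.dist_le_div_mul_dist_of_mapsTo_ball`) gives for `u_j = m'_j(p k)`:
`‖u_j - w_q‖ ≤ (8/d) ‖p k - v_j‖ → 0`.  Let `x_j = upd q k u_j ∈ ball q ρ ⊆ Ω` for large `j`; `φ_j x_j k = m_j u_j = p k`.
The function `g(u) = φ_j(upd q k u) i` is holomorphic on `ball w_q ρ` with `‖g‖ ≤ R`, so it maps it into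
`ball (g w_q) (2R + 1)` and `‖φ_j x_j i - φ_j q i‖ ≤ ((2R+1)/ρ) ‖u_j - w_q‖ → 0`; hence `φ_j x_j i → p i`.  By *Coc*
and *Wd*, `‖a_{j,i}(u_j)‖ = wd(p k)/wd(u_j) ≥ wd(p k)/B > 0` for `i ≠ k`.  Let `s_i = (p i - φ_j x_j i)/a_{j,i}(u_j)`
for `i ≠ k`, `s_k = 0`; `s → 0` as `j → ∞`, so for some `j`, `‖s‖ < ρ` and `x_j + s ∈ ball q (2ρ) ⊆ Ω`; and
`φ_j(x_j + s) = p` (coordinate `k`: `m_j(u_j) = p k`; coordinate `i`: `φ_j x_j i + a s_i = p i`).  So `p ∈ Ω`.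
*Uses*: Wd, Aut, Coc. -/
def StmtEdge : Prop :=
  ∀ (n : ℕ) (Ω : Set (Sp n)) (r : Sp n → ℝ) (k : Fin n) (φ : ℕ → Sp n → Sp n) (m : ℕ → ℂ → ℂ)
    (a b : ℕ → Fin n → ℂ → ℂ) (q p : Sp n), Dom Ω r k → (∀ j, Fib Ω k (φ j) (m j) (a j) (b j)) →
    q ∈ Ω → p ∈ frontier Ω → Tendsto (fun j => φ j q) atTop (𝓝 p) → ‖p k‖ = 1

/-- **Dec.**  Power decay of the widths at the limit point.

*Proof.*  *Edge*: `ζ = p k` has norm `1`.  *Aut* and *Mob* give the normal form of the `m_j`, and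
`m_j(q k) = φ_j q k → p k`; *Kak* gives `J, b, η, ps` with `m_{J j}(cay (b j) (η j ω)) = cay (ps j) ω⁻¹`.  Let
`W = wd Ω k i` and `A_j(ω) = a_{J j, i}(cay (b j) (η j ω))`: by *Coc* it is holomorphic without zeros on `H`
(`cay_mem`) and `W(cay (ps j) ω⁻¹) = ‖A_j ω‖ W(cay (b j) (η j ω))`.  *Wd*, *PNm*, *PGr* give
`Pot W B C ε c₀` (take the smaller of the two `ε`).  *Hor* gives the invariance, *Pow* the decay.
*Uses*: Wd, PNm, PGr, Aut, Coc, Mob, Kak, Edge, Hor, Pow. -/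
def StmtDec : Prop :=
  ∀ (n : ℕ) (Ω : Set (Sp n)) (r : Sp n → ℝ) (k i : Fin n) (φ : ℕ → Sp n → Sp n) (m : ℕ → ℂ → ℂ)
    (a b : ℕ → Fin n → ℂ → ℂ) (q p : Sp n), Dom Ω r k → i ≠ k →
    (∀ j, Fib Ω k (φ j) (m j) (a j) (b j)) →
    q ∈ Ω → p ∈ frontier Ω → Tendsto (fun j => φ j q) atTop (𝓝 p) →
    ∃ K e u₀ : ℝ, 0 < K ∧ 0 < e ∧ 0 < u₀ ∧ ∀ u : ℝ, 0 < u → u < u₀ →
      wd Ω k i (cay (p k) u) ≤ K * u ^ e

/-! ## Part 6.  The type -/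

/-- **Low.**  Power decay of the widths gives a lower bound of the defining function on the face.

*Proof.*  Let `ζ = p k`, `r p = 0`.  Let `l, ε` be from *Grad*; points of `Ω` are arbitrarily close to `p`, so
`l ≤ fderiv ℝ r y (single k (y k))` for `‖y - p‖ < ε/2`.  Let `x k = ζ`, `‖x - p‖ < ε/8`, `0 < u < min (ε/16) 1`,
`x_u = upd x k (cay ζ u)`, `cay ζ u = ζ ρ(u)`, `ρ(u) = (1-u)/(1+u) ∈ (0, 1)`, `u ≤ 1 - ρ(u) ≤ 2u`.  The derivative of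
`ρ ↦ r(upd x k (ζρ))` is `fderiv ℝ r y (single k ζ) = ρ⁻¹ fderiv ℝ r y (single k (y k)) ≥ l` (`y = upd x k (ζρ)`), so
`r x_u ≤ r x - l (1 - ρ(u)) ≤ r x - l u`.  The same for `p`: `r p_u ≤ -l u < 0`, so `p_u ∈ Ω`.  `r x ≥ 0`
(`Dom.nonneg_of`).  If `r x < l u`, then `x_u, p_u ∈ Ω` are both over `cay ζ u`, so for `i ≠ k`
`‖x i - p i‖ ≤ wd Ω k i (cay ζ u) ≤ K u^e` (`dist_le_wd`), where `K, e, u₀` may be taken common to all `i ≠ k` (`u < 1`: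
maximum of the `K`, minimum of the `e`, `u₀`); so `‖x - p‖ ≤ n K u^e` (the coordinate `k` of `x - p` is `0`).
If `r x = 0`, then `u → 0` gives `x = p`.  If `r x > 0` take `u = 2 r x/l`, which is small if `‖x - p‖` is small
(continuity of `r` at `p`): `‖x - p‖ ≤ n K (2 r x/l)^e`, so `(‖x - p‖/(nK))^{1/e} ≤ 2 r x/l`.  Let `N ≥ 1` be an integer
with `1/e ≤ N`; for `‖x - p‖ ≤ n K` (if `n K ≤ 0` everything is trivial) the left side is at least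
`(‖x - p‖/(nK))^N`.
*Uses*: Grad. -/
def StmtLow : Prop :=
  ∀ (n : ℕ) (Ω : Set (Sp n)) (r : Sp n → ℝ) (k : Fin n) (p : Sp n), Dom Ω r k → p ∈ frontier Ω →
    ‖p k‖ = 1 →
    (∀ i, i ≠ k → ∃ K e u₀ : ℝ, 0 < K ∧ 0 < e ∧ 0 < u₀ ∧ ∀ u : ℝ, 0 < u → u < u₀ →
      wd Ω k i (cay (p k) u) ≤ K * u ^ e) →
    ∃ (N : ℕ) (c ρ : ℝ), 1 ≤ N ∧ 0 < c ∧ 0 < ρ ∧ ∀ x : Sp n, x k = p k → ‖x - p‖ < ρ →
      c * ‖x - p‖ ^ N ≤ r x

/-- **Van.**  Vanishing derivatives give a small function.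

*Proof.*  Induction on `K`, for functions with values in an arbitrary normed space `F` (finite dimensional or
complete; state the auxiliary lemma with `F` in a universe large enough, or for `f : ℂ → F` with `F : Type`; for
the step one needs `F' = (ℂ →L[ℝ] F)`).  `K = 0`: `f 0 = 0` (`iteratedFDeriv_zero_apply`) and `f` is
differentiable, hence Lipschitz, near `0`.  Step: `fderiv ℝ f` is `C^∞` near `0` and
`‖iteratedFDeriv ℝ j (fderiv ℝ f) 0‖ = ‖iteratedFDeriv ℝ (j+1) f 0‖ = 0` for `j ≤ K`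
(`norm_iteratedFDeriv_fderiv`), so `‖fderiv ℝ f z‖ ≤ C ‖z‖^(K+1)` near `0`, and the mean value inequality on the ball
of radius `‖z‖` gives `‖f z‖ ≤ C ‖z‖^(K+2)`. -/
def StmtVan : Prop :=
  ∀ (f : ℂ → ℝ) (K : ℕ), ContDiffAt ℝ ((⊤ : ℕ∞) : WithTop ℕ∞) f 0 →
    (∀ j ≤ K, iteratedFDeriv ℝ j f 0 = 0) →
    ∃ C δ : ℝ, 0 < C ∧ 0 < δ ∧ ∀ z : ℂ, ‖z‖ < δ → |f z| ≤ C * ‖z‖ ^ (K + 1)

/-- **Ord.**  A lower bound for a curve of order `m`.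

*Proof.*  `γ - γ 0` is analytic at `0`.  If it is eventually `0`, all derivatives vanish, against the hypothesis.
So `γ z - γ 0 = z^s • g z` near `0` with `g` analytic, `g 0 ≠ 0`
(`AnalyticAt.exists_eventuallyEq_pow_smul_nonzero_iff`).  If `s > m`, then `iteratedDeriv m γ 0 = 0`, a
contradiction (e.g. by the uniqueness of the power series, or
`AnalyticAt.iteratedDeriv_eq…`, or a Taylor estimate); so `s ≤ m` and
`‖γ z - γ 0‖ ≥ ‖z‖^s ‖g 0‖/2 ≥ ‖z‖^m ‖g 0‖/2` near `0` (`‖z‖ ≤ 1`).  (The hypothesis on the lower derivatives is not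
needed.) -/
def StmtOrd : Prop :=
  ∀ (n : ℕ) (γ : ℂ → Sp n) (ε : ℝ) (m : ℕ), 0 < ε → DifferentiableOn ℂ γ (ball 0 ε) → 1 ≤ m →
    iteratedDeriv m γ 0 ≠ 0 →
    ∃ c δ : ℝ, 0 < c ∧ 0 < δ ∧ ∀ z : ℂ, ‖z‖ < δ → c * ‖z‖ ^ m ≤ ‖γ z - γ 0‖

/-- **Re.**  A holomorphic function whose real part is almost nonnegative vanishes to high order.

*Proof.*  If `β` vanishes near `0` the claim is trivial.  Otherwise `β z = z^s g(z)` near `0`, `g` analytic,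
`g 0 ≠ 0`.  If `s ≥ L`: `‖β z‖ ≤ ‖z‖^L (‖g 0‖ + 1)` near `0`.  If `s < L`: `s ≥ 1` since `β 0 = 0`.  Choose `θ` with
`‖θ‖ = 1` and `θ^s = -conj(g 0)/‖g 0‖` (a root exists), and let `z = tθ`, `t → 0+`:
`Re β(tθ) = t^s Re(θ^s g(tθ)) ≤ -t^s ‖g 0‖/2` for small `t`, so `‖g 0‖/2 ≤ C t^{L-s}`, a contradiction as `t → 0`. -/
def StmtRe : Prop :=
  ∀ (β : ℂ → ℂ) (δ C : ℝ) (L : ℕ), 0 < δ → DifferentiableOn ℂ β (ball 0 δ) → β 0 = 0 →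
    (∀ z ∈ ball (0 : ℂ) δ, -(C * ‖z‖ ^ L) ≤ (β z).re) →
    ∃ C' δ' : ℝ, 0 < C' ∧ 0 < δ' ∧ ∀ z : ℂ, ‖z‖ < δ' → ‖β z‖ ≤ C' * ‖z‖ ^ L

/-- **TypA.**  If the defining function is small along a curve, the coordinate `k` is almost constant.

*Proof.*  Let `ζ = p k`, `g(z) = γ z k`, `β(z) = (ζ - g z)/(ζ + g z)`, holomorphic near `0` (`g 0 = ζ`, so
`|ζ + g| ≥ 1` near `0`) with `β 0 = 0`, and `Re β = (1 - |g|²)/|ζ + g|²`.  As in *Low*, *Grad* gives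
`l ≤ fderiv ℝ r y (single k (y k))` for `‖y - p‖ < ε/2`.  If `|g z| ≤ 1`, `Re β ≥ 0`.  If `|g z| > 1` (and `z` small), let
`u = g/|g|`, `x* = upd (γ z) k u`; the derivative of `ρ ↦ r(upd (γ z) k (ρu))`, `1 ≤ ρ ≤ |g| ≤ 2`, is
`ρ⁻¹ fderiv ℝ r y (single k (y k)) ≥ l/2`, and `r x* ≥ 0` (`Dom.nonneg_of`), so
`|g| - 1 ≤ (2/l) r(γ z) ≤ (2C/l) ‖z‖^L` and `-Re β = (|g|² - 1)/|ζ + g|² ≤ 3 (|g| - 1)`.  So
`-(6C/l) ‖z‖^L ≤ Re β` and *Re* gives `‖β z‖ ≤ C'‖z‖^L`; `g - ζ = -2ζβ/(1+β)`, so `|g - ζ| ≤ 4 ‖β‖` near `0`.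
*Uses*: Grad, Re. -/
def StmtTypA : Prop :=
  ∀ (n : ℕ) (Ω : Set (Sp n)) (r : Sp n → ℝ) (k : Fin n) (p : Sp n), Dom Ω r k → p ∈ frontier Ω →
    ‖p k‖ = 1 → ∀ (γ : ℂ → Sp n) (ε C : ℝ) (L : ℕ), 0 < ε → DifferentiableOn ℂ γ (ball 0 ε) →
    γ 0 = p → 0 < C → (∀ z ∈ ball (0 : ℂ) ε, |r (γ z)| ≤ C * ‖z‖ ^ L) →
    ∃ C' δ' : ℝ, 0 < C' ∧ 0 < δ' ∧ ∀ z : ℂ, ‖z‖ < δ' → ‖γ z k - p k‖ ≤ C' * ‖z‖ ^ L

/-- **TypB.**  The lower bound on the face gives finite type.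

*Proof.*  Let `N, c, ρ` be the constants of the hypothesis; the claim holds with `M = N`.  Let `γ, m` be given and
suppose `iteratedFDeriv ℝ j (r ∘ γ) 0 = 0` for all `j ≤ N m`.  `r ∘ γ` is `C^∞` at `0` over `ℝ` (`γ` is analytic at
`0`).  *Van*: `|r(γ z)| ≤ C‖z‖^(Nm+1)` near `0`.  *TypA*: `‖γ z k - p k‖ ≤ C'‖z‖^(Nm+1)` near `0`.  *Ord*:
`c'‖z‖^m ≤ ‖γ z - p‖`.  Let `x' = upd (γ z) k (p k)`; `‖x' - γ z‖ = ‖γ z k - p k‖`.  `r` is Lipschitz near `p` (it is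
`C¹`), so `r x' ≤ C₃‖z‖^(Nm+1)`, and the hypothesis gives `c‖x' - p‖^N ≤ C₃‖z‖^(Nm+1)`.  For small `z`,
`‖x' - p‖ ≥ ‖γ z - p‖ - C'‖z‖^(Nm+1) ≥ (c'/2)‖z‖^m` (`Nm + 1 > m`), so `c (c'/2)^N ‖z‖^(mN) ≤ C₃‖z‖^(Nm+1)`, so
`c (c'/2)^N ≤ C₃‖z‖`, false for small `z ≠ 0`.
*Uses*: Van, Ord, TypA. -/
def StmtTypB : Prop :=
  ∀ (n : ℕ) (Ω : Set (Sp n)) (r : Sp n → ℝ) (k : Fin n) (p : Sp n), Dom Ω r k → p ∈ frontier Ω →
    ‖p k‖ = 1 → ∀ (N : ℕ) (c ρ : ℝ), 1 ≤ N → 0 < c → 0 < ρ →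
    (∀ x : Sp n, x k = p k → ‖x - p‖ < ρ → c * ‖x - p‖ ^ N ≤ r x) →
    ∃ M : ℕ, ∀ γ : ℂ → Sp n, (∃ ε > (0 : ℝ), DifferentiableOn ℂ γ (ball (0 : ℂ) ε)) → γ 0 = p →
      ∀ m : ℕ, 1 ≤ m → iteratedDeriv m γ 0 ≠ 0 →
      ∃ k : ℕ, k ≤ M * m ∧ iteratedFDeriv ℝ k (r ∘ γ) 0 ≠ 0

/-- **Main.**  The theorem.

*Proof.*  The hypotheses give `Dom Ω r k` and, with choice, `Fib Ω k (φ j) (m j) (a j) (b j)` for all `j`.  *Edge*:
`‖p k‖ = 1`.  *Dec*: power decay for all `i ≠ k`.  *Low*, then *TypB*.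
*Uses*: Edge, Dec, Low, TypB. -/
def StmtMain : Prop :=
  ∀ (n : ℕ) (Ω : Set (EuclideanSpace ℂ (Fin n))) (r : EuclideanSpace ℂ (Fin n) → ℝ) (k : Fin n),
    IsOpen Ω → IsConnected Ω → Bornology.IsBounded Ω →
    ContDiff ℝ ((⊤ : ℕ∞) : WithTop ℕ∞) r → Ω = {x | r x < 0} →
    (∀ x ∈ frontier Ω, fderiv ℝ r x ≠ 0) →
    (fun x : EuclideanSpace ℂ (Fin n) => x k) '' Ω = Metric.ball (0 : ℂ) 1 →
    ∀ (φ : ℕ → EuclideanSpace ℂ (Fin n) → EuclideanSpace ℂ (Fin n))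
      (q p : EuclideanSpace ℂ (Fin n)),
      (∀ j, DifferentiableOn ℂ (φ j) Ω ∧ Set.BijOn (φ j) Ω Ω ∧
        ∃ ψ : EuclideanSpace ℂ (Fin n) → EuclideanSpace ℂ (Fin n),
          DifferentiableOn ℂ ψ Ω ∧ Set.MapsTo ψ Ω Ω ∧
          Set.LeftInvOn ψ (φ j) Ω ∧ Set.RightInvOn ψ (φ j) Ω) →
      (∀ j, ∃ (m : ℂ → ℂ) (a b : Fin n → ℂ → ℂ), Set.InjOn m (Metric.ball (0 : ℂ) 1) ∧
        ∀ x ∈ Ω, φ j x k = m (x k) ∧ ∀ i, i ≠ k → φ j x i = a i (x k) * x i + b i (x k)) →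
      q ∈ Ω → p ∈ frontier Ω →
      Filter.Tendsto (fun j => φ j q) Filter.atTop (nhds p) →
      ∃ M : ℕ, ∀ γ : ℂ → EuclideanSpace ℂ (Fin n),
        (∃ ε > (0 : ℝ), DifferentiableOn ℂ γ (Metric.ball (0 : ℂ) ε)) →
        γ 0 = p →
        ∀ m : ℕ, 1 ≤ m →
          (∀ i : ℕ, 1 ≤ i → i < m → iteratedDeriv i γ 0 = 0) →
          iteratedDeriv m γ 0 ≠ 0 →
          ∃ k : ℕ, k ≤ M * m ∧ iteratedFDeriv ℝ k (r ∘ γ) 0 ≠ 0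

end MP16b755
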