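import Pool.Agent.Lib.MP_16b755_an.Spec

/-!
# Tangential derivatives outside the cylinder
-/

set_option autoImplicit false

namespace MP16b755

open MeasureTheory Metric Set Filter Topology

private theorem tan_real {a s C : ℝ} (ha : 0 ≤ a) (haC : a ≤ C) (hC : 1 ≤ C)
    (h : ∀ t : ℝ, |t| ≤ 1 → 0 ≤ a + t * s + C * t ^ 2) : |s| ≤ 2 * √C * √a := by
  have hC0 : 0 < C := by linarith
  have h1 : ∀ t : ℝ, 0 ≤ t → t ≤ 1 → |s| * t ≤ a + C * t ^ 2 := by
    intro t ht ht1
    rcases abs_cases s with ⟨hs, _⟩ | ⟨hs, _⟩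
    · have := h (-t) (by rw [abs_neg, abs_of_nonneg ht]; exact ht1)
      rw [hs]
      nlinarith
    · have := h t (by rw [abs_of_nonneg ht]; exact ht1)
      rw [hs]
      nlinarith
  rcases ha.eq_or_lt with h0 | h0
  · rw [← h0, Real.sqrt_zero, mul_zero]
    by_contra hneg
    push Not at hneg
    have ht : 0 < min 1 (|s| / (2 * C)) := lt_min one_pos (by positivity)
    have h2 := h1 _ ht.le (min_le_left _ _)
    rw [← h0, zero_add] at h2
    have h3 : |s| ≤ C * min 1 (|s| / (2 * C)) := by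
      have h4 : |s| * min 1 (|s| / (2 * C)) ≤
          (C * min 1 (|s| / (2 * C))) * min 1 (|s| / (2 * C)) := by
        rw [mul_assoc, ← sq]
        exact h2
      exact le_of_mul_le_mul_right h4 ht
    have h5 : C * min 1 (|s| / (2 * C)) ≤ C * (|s| / (2 * C)) :=
      mul_le_mul_of_nonneg_left (min_le_right _ _) hC0.le
    have h6 : C * (|s| / (2 * C)) = |s| / 2 := by
      field_simp
    linarith
  · have hsa : 0 < √a := Real.sqrt_pos.2 h0
    have hsC : 0 < √C := Real.sqrt_pos.2 hC0
    have q1 : √a * √a = a := Real.mul_self_sqrt h0.le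
    have q2 : √C * √C = C := Real.mul_self_sqrt hC0.le
    have hle : √a ≤ √C := Real.sqrt_le_sqrt haC
    have h2 := h1 (√a / √C) (by positivity) ((div_le_one hsC).2 hle)
    have h3 : C * (√a / √C) ^ 2 = a := by
      rw [div_pow, sq, sq, q1, q2]
      field_simp
    rw [h3] at h2
    have h4 : |s| * √a ≤ (2 * √C * √a) * √a := by
      have h5 : |s| * (√a / √C) = |s| * √a / √C := by ring
      rw [h5, div_le_iff₀ hsC] at h2
      calc |s| * √a ≤ (a + a) * √C := h2
        _ = (2 * √C * √a) * √a := by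
            rw [mul_assoc (2 * √C), q1]
            ring
    exact le_of_mul_le_mul_right h4 hsa

theorem tTan (hTay : StmtTay) : StmtTan := by
  intro n Ω r k hD R
  obtain ⟨C, hC, hb0, -, -, hb3⟩ := hTay n r (R + 1) hD.smooth
  refine ⟨2 * √C, by positivity, fun x hx hxk v hv => ?_⟩
  rcases eq_or_ne v 0 with rfl | hv0
  · simp
  have hvn : 0 < ‖v‖ := norm_pos_iff.2 hv0
  rw [mem_closedBall, dist_zero_right] at hx
  -- the unit vector
  set u : Sp n := (‖v‖⁻¹ : ℝ) • v with hu
  have hun : ‖u‖ = 1 := by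
    rw [hu, norm_smul, norm_inv, norm_norm, inv_mul_cancel₀ hvn.ne']
  have huk : u k = (‖v‖⁻¹ : ℝ) * v k := by
    rw [hu]
    simp
  have huo : (starRingEnd ℂ (x k) * u k).re = 0 := by
    have e1 : starRingEnd ℂ (x k) * u k = ((‖v‖⁻¹ : ℝ) : ℂ) * (starRingEnd ℂ (x k) * v k) := by
      rw [huk]
      ring
    rw [e1, Complex.re_ofReal_mul, hv, mul_zero]
  have hmem : ∀ t : ℝ, |t| ≤ 1 → x + t • u ∈ closedBall (0 : Sp n) (R + 1) := by
    intro t ht
    rw [mem_closedBall, dist_zero_right]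
    refine (norm_add_le _ _).trans ?_
    rw [norm_smul, hun, Real.norm_eq_abs, mul_one]
    linarith
  have hx1 : x ∈ closedBall (0 : Sp n) (R + 1) := by
    rw [mem_closedBall, dist_zero_right]
    linarith
  have hpos : ∀ t : ℝ, 0 ≤ r (x + t • u) := by
    intro t
    refine hD.nonneg_of ?_
    have e1 : (x + t • u) k = x k + t * u k := by simp
    have e2 : ‖x k + t * u k‖ ^ 2 = ‖x k‖ ^ 2 + t ^ 2 * ‖u k‖ ^ 2 := by
      rw [← Complex.normSq_eq_norm_sq, ← Complex.normSq_eq_norm_sq, ← Complex.normSq_eq_norm_sq,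
        Complex.normSq_apply, Complex.normSq_apply, Complex.normSq_apply]
      rw [Complex.mul_re, Complex.conj_re, Complex.conj_im] at huo
      simp only [Complex.add_re, Complex.add_im, Complex.re_ofReal_mul, Complex.im_ofReal_mul]
      linear_combination 2 * t * huo
    rw [e1]
    have h1 : 1 ≤ ‖x k + t * u k‖ ^ 2 := by
      rw [e2]
      have : 0 ≤ t ^ 2 * ‖u k‖ ^ 2 := by positivity
      nlinarith
    by_contra hlt
    push Not at hlt
    have := norm_nonneg (x k + t * u k)
    nlinarith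
  have hs : |fderiv ℝ r x u| ≤ 2 * √C * √(r x) := by
    refine tan_real ?_ ?_ hC ?_
    · have := hpos 0
      rwa [zero_smul, add_zero] at this
    · exact (le_abs_self _).trans (hb0 x hx1)
    · intro t ht
      have h1 := hb3 x hx1 (x + t • u) (hmem t ht)
      rw [add_sub_cancel_left, map_smul, norm_smul, hun, mul_one, Real.norm_eq_abs, sq_abs,
        smul_eq_mul, abs_le] at h1
      have h2 := hpos t
      linarith [h1.2]
  have e3 : v = ‖v‖ • u := by
    rw [hu, smul_smul, mul_inv_cancel₀ hvn.ne', one_smul]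
  have e4 : fderiv ℝ r x v = ‖v‖ * fderiv ℝ r x u := by
    conv_lhs => rw [e3]
    rw [map_smul, smul_eq_mul]
  rw [e4, abs_mul, abs_of_pos hvn, mul_comm]
  exact mul_le_mul_of_nonneg_right hs hvn.le

end MP16b755
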