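import Pool.Agent.Lib.MP_16b755_an.Spec

/-!
# Uniform first and second order estimates on a ball
-/

set_option autoImplicit false

namespace MP16b755

open MeasureTheory Metric Set Filter Topology

theorem tTay : StmtTay := by
  intro n r R hr
  have hK : IsCompact (closedBall (0 : Sp n) R) := isCompact_closedBall 0 R
  have hconv : Convex ℝ (closedBall (0 : Sp n) R) := convex_closedBall 0 R
  have h1 : ContDiff ℝ ((⊤ : ℕ∞) : WithTop ℕ∞) (fderiv ℝ r) := hr.fderiv_right (by simp)
  have hd0 : Differentiable ℝ r := hr.differentiable (by simp)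
  have hd1 : Differentiable ℝ (fderiv ℝ r) := h1.differentiable (by simp)
  have hc2 : Continuous (fderiv ℝ (fderiv ℝ r)) := h1.continuous_fderiv (by simp)
  obtain ⟨M0, hM0⟩ := hK.exists_bound_of_continuousOn hr.continuous.continuousOn
  obtain ⟨M1, hM1⟩ := hK.exists_bound_of_continuousOn h1.continuous.continuousOn
  have hc3 : Continuous (fun x => ‖fderiv ℝ (fderiv ℝ r) x‖) :=
    (continuous_norm (E := Sp n →L[ℝ] Sp n →L[ℝ] ℝ)).comp hc2
  obtain ⟨M2, hM2'⟩ := hK.exists_bound_of_continuousOn
    (f := fun x => ‖fderiv ℝ (fderiv ℝ r) x‖) hc3.continuousOn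
  have hM2 : ∀ x ∈ closedBall (0 : Sp n) R, ‖fderiv ℝ (fderiv ℝ r) x‖ ≤ M2 := by
    intro x hx
    exact (le_abs_self _).trans (hM2' x hx)
  have a0 := abs_nonneg M0
  have a1 := abs_nonneg M1
  have a2 := abs_nonneg M2
  have b0 := le_abs_self M0
  have b1 := le_abs_self M1
  have b2 := le_abs_self M2
  have e3 : ∀ x ∈ closedBall (0 : Sp n) R, ∀ y ∈ closedBall (0 : Sp n) R,
      ‖fderiv ℝ r y - fderiv ℝ r x‖ ≤ (1 + |M0| + |M1| + |M2|) * ‖y - x‖ := by
    intro x hx y hy
    exact hconv.norm_image_sub_le_of_norm_fderiv_le (fun z _ => hd1 z)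
      (fun z hz => (hM2 z hz).trans (by linarith)) hx hy
  refine ⟨1 + |M0| + |M1| + |M2|, by linarith, fun x hx => ?_, fun x hx y hy => ?_, e3,
    fun x hx y hy => ?_⟩
  · exact (hM0 x hx).trans (by linarith)
  · exact hconv.norm_image_sub_le_of_norm_fderiv_le (fun z _ => hd0 z)
      (fun z hz => (hM1 z hz).trans (by linarith)) hx hy
  · have hseg : segment ℝ x y ⊆ closedBall (0 : Sp n) R := hconv.segment_subset hx hy
    have h := (convex_segment (𝕜 := ℝ) x y).norm_image_sub_le_of_norm_fderiv_le'
      (f := r) (φ := fderiv ℝ r x) (C := (1 + |M0| + |M1| + |M2|) * ‖y - x‖)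
      (fun z _ => hd0 z) (fun z hz => (e3 x hx z (hseg hz)).trans (by
        have h2 : ‖z - x‖ ≤ ‖y - x‖ := by
          obtain ⟨a, b, ha, hb, hab, rfl⟩ := hz
          have h3 : a • x + b • y - x = b • (y - x) := by
            rw [smul_sub, ← sub_eq_zero]
            have : a = 1 - b := by linarith
            rw [this, sub_smul, one_smul]
            abel
          rw [h3, norm_smul, Real.norm_eq_abs, abs_of_nonneg hb]
          exact mul_le_of_le_one_left (norm_nonneg _) (by linarith)
        exact mul_le_mul_of_nonneg_left h2 (by positivity)))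
      (left_mem_segment ℝ x y) (right_mem_segment ℝ x y)
    rw [Real.norm_eq_abs, mul_assoc, ← sq] at h
    exact h

end MP16b755
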