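import Pool.Agent.Lib.MP_16b755_an.Spec

/-!
# The harmonic measure of a segment
-/

set_option autoImplicit false

namespace MP16b755

open MeasureTheory Metric Set Filter Topology

private theorem the_arg {z : ℂ} (h : 0 < z.re) : z.arg = Real.arctan (z.im / z.re) := by
  have h1 : |z.arg| < Real.pi / 2 := Complex.abs_arg_lt_pi_div_two_iff.2 (Or.inl h)
  rw [abs_lt] at h1
  rw [← Complex.tan_arg, Real.arctan_tan h1.1 h1.2]

private theorem the_eq (s Y : ℝ) (ω : ℂ) : thet s Y ω =
    ((ω - s + Y * Complex.I).arg - (ω - s - Y * Complex.I).arg) / Real.pi := by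
  rw [thet, Complex.sub_im, Complex.log_im, Complex.log_im]

private theorem the_re1 (s Y : ℝ) (ω : ℂ) : (ω - s + Y * Complex.I).re = ω.re - s := by
  simp

private theorem the_re2 (s Y : ℝ) (ω : ℂ) : (ω - s - Y * Complex.I).re = ω.re - s := by
  simp

private theorem the_im1 (s Y : ℝ) (ω : ℂ) : (ω - s + Y * Complex.I).im = ω.im + Y := by
  simp

private theorem the_im2 (s Y : ℝ) (ω : ℂ) : (ω - s - Y * Complex.I).im = ω.im - Y := by
  simp

private theorem the_atan {x : ℝ} (h : 0 ≤ x) : Real.arctan x ≤ x := by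
  have h1 : 0 ≤ Real.arctan x := Real.arctan_nonneg.2 h
  have h2 := Real.le_tan h1 (Real.arctan_lt_pi_div_two x)
  rwa [Real.tan_arctan] at h2

private theorem the_cont (s Y : ℝ) {ω : ℂ} (h1 : ω - s + Y * Complex.I ∈ Complex.slitPlane)
    (h2 : ω - s - Y * Complex.I ∈ Complex.slitPlane) : ContinuousAt (thet s Y) ω := by
  unfold thet
  have c1 : ContinuousAt (fun ω : ℂ => Complex.log (ω - s + Y * Complex.I)) ω :=
    ContinuousAt.clog (by fun_prop) h1
  have c2 : ContinuousAt (fun ω : ℂ => Complex.log (ω - s - Y * Complex.I)) ω :=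
    ContinuousAt.clog (by fun_prop) h2
  exact (Complex.continuous_im.continuousAt.comp (c1.sub c2)).div_const _

theorem tThe (hHar : StmtHar) : StmtThe := by
  intro s Y hY
  have hpi := Real.pi_pos
  have hslit : ∀ ω : ℂ, s < ω.re → ω - s + Y * Complex.I ∈ Complex.slitPlane ∧
      ω - s - Y * Complex.I ∈ Complex.slitPlane := by
    intro ω hω
    constructor
    · exact Or.inl (by rw [the_re1]; linarith)
    · exact Or.inl (by rw [the_re2]; linarith)
  refine ⟨fun ω hω => (the_cont s Y (hslit ω hω).1 (hslit ω hω).2).continuousWithinAt,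
    ?_, ?_, ?_, ?_⟩
  · intro c ρ hρ hc
    have h := hHar.2 {ω : ℂ | s < ω.re}
      (fun ω => Complex.log (ω - s + Y * Complex.I) - Complex.log (ω - s - Y * Complex.I)) c ρ
      (isOpen_lt continuous_const Complex.continuous_re) hρ (by
        intro ω hω
        rw [mem_closedBall, dist_eq_norm] at hω
        have h1 := (Complex.abs_re_le_norm (ω - c)).trans hω
        rw [Complex.sub_re, abs_le] at h1
        change s < ω.re
        linarith [h1.1])
      (by
        intro ω hω
        have d1 : DifferentiableAt ℂ (fun ω : ℂ => Complex.log (ω - s + Y * Complex.I)) ω :=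
          DifferentiableAt.clog (by fun_prop) (hslit ω hω).1
        have d2 : DifferentiableAt ℂ (fun ω : ℂ => Complex.log (ω - s - Y * Complex.I)) ω :=
          DifferentiableAt.clog (by fun_prop) (hslit ω hω).2
        exact (d1.sub d2).differentiableWithinAt)
    have e1 : thet s Y = fun ω => Real.pi⁻¹ *
        (Complex.log (ω - s + Y * Complex.I) - Complex.log (ω - s - Y * Complex.I)).im := by
      funext ω
      rw [thet, div_eq_inv_mul]
    rw [e1, av_const_mul, h]
  · intro ω hω
    have hu : 0 < ω.re - s := sub_pos.2 hω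
    rw [the_eq, the_arg (by rw [the_re1]; exact hu), the_arg (by rw [the_re2]; exact hu), the_re1,
      the_re2, the_im1, the_im2]
    have h1 : Real.arctan ((ω.im - Y) / (ω.re - s)) ≤ Real.arctan ((ω.im + Y) / (ω.re - s)) :=
      Real.arctan_mono (div_le_div_of_nonneg_right (by linarith) hu.le)
    have h2 := Real.arctan_lt_pi_div_two ((ω.im + Y) / (ω.re - s))
    have h3 := Real.neg_pi_div_two_lt_arctan ((ω.im - Y) / (ω.re - s))
    constructor
    · exact div_nonneg (by linarith) hpi.le
    · rw [div_le_one hpi]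
      linarith
  · intro z hz hzY e he
    rw [abs_lt] at hzY
    have i1 : (z - s + Y * Complex.I).im = z.im + Y := the_im1 s Y z
    have i2 : (z - s - Y * Complex.I).im = z.im - Y := the_im2 s Y z
    have r1 : (z - s + Y * Complex.I).re = 0 := by rw [the_re1, hz, sub_self]
    have r2 : (z - s - Y * Complex.I).re = 0 := by rw [the_re2, hz, sub_self]
    have hc := the_cont s Y (ω := z)
      (Or.inr (by rw [i1]; linarith : (z - s + Y * Complex.I).im ≠ 0))
      (Or.inr (by rw [i2]; linarith : (z - s - Y * Complex.I).im ≠ 0))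
    have hv : thet s Y z = 1 := by
      have a1 : (z - s + Y * Complex.I).arg = Real.pi / 2 :=
        Complex.arg_eq_pi_div_two_iff.2 ⟨r1, by rw [i1]; linarith⟩
      have a2 : (z - s - Y * Complex.I).arg = -(Real.pi / 2) :=
        Complex.arg_eq_neg_pi_div_two_iff.2 ⟨r2, by rw [i2]; linarith⟩
      rw [the_eq, a1, a2]
      field_simp
      norm_num
    have h1 : ∀ᶠ ω in 𝓝 z, 1 - e < thet s Y ω :=
      hc.eventually (eventually_gt_nhds (by rw [hv]; linarith))
    have h2 : ∀ᶠ ω in 𝓝[{ω : ℂ | s < ω.re}] z, 1 - e < thet s Y ω := nhdsWithin_le_nhds h1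
    exact h2.mono fun ω hω => le_of_lt hω
  · intro σ hσ
    have hu : 0 < σ - s := sub_pos.2 hσ
    rw [the_eq, the_arg (by rw [the_re1, Complex.ofReal_re]; exact hu),
      the_arg (by rw [the_re2, Complex.ofReal_re]; exact hu), the_re1, the_re2, the_im1, the_im2,
      Complex.ofReal_re, Complex.ofReal_im, zero_add, zero_sub, neg_div, Real.arctan_neg]
    have h0 : 0 ≤ Y / (σ - s) := div_nonneg hY hu.le
    have h1 := the_atan h0
    have h2 : 0 ≤ Real.arctan (Y / (σ - s)) := Real.arctan_nonneg.2 h0
    rw [div_le_iff₀ hpi]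
    have h3 : (2 : ℝ) ≤ Real.pi := Real.two_le_pi
    nlinarith

end MP16b755
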