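import Pool.Agent.Lib.MP_16b755_an.Low

set_option autoImplicit false

namespace MP16b755

open MeasureTheory Metric Set Filter Topology

lemma typa_re {a b : ℂ} (ha : ‖a‖ = 1) (hab : a + b ≠ 0) :
    ((a - b) / (a + b)).re = (1 - ‖b‖ ^ 2) / ‖a + b‖ ^ 2 := by
  have h0 : Complex.normSq (a + b) ≠ 0 := by
    rwa [Ne, Complex.normSq_eq_zero]
  have h1 : a.re ^ 2 + a.im ^ 2 = 1 := by
    have : Complex.normSq a = 1 := by rw [Complex.normSq_eq_norm_sq, ha]; norm_num
    rw [Complex.normSq_apply] at this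
    linarith
  rw [Complex.div_re, ← Complex.normSq_eq_norm_sq, ← Complex.normSq_eq_norm_sq,
    Complex.normSq_apply b, ← add_div]
  congr 1
  simp only [Complex.sub_re, Complex.add_re, Complex.sub_im, Complex.add_im]
  nlinarith

/-- The radial ascent outside the disc. -/
lemma typa_out {n : ℕ} {Ω : Set (Sp n)} {r : Sp n → ℝ} {k : Fin n} {p : Sp n} {l ε : ℝ}
    (hD : Dom Ω r k) (hl : 0 < l) (hε1 : ε < 1)
    (h : ∀ y : Sp n, ‖y - p‖ < ε → l ≤ fderiv ℝ r y (EuclideanSpace.single k (y k)))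
    (h1 : ‖p k‖ = 1) {x : Sp n} (hx : ‖x - p‖ < ε / 4) (hout : 1 < ‖x k‖) :
    ‖x k‖ - 1 ≤ 2 / l * r x := by
  set s₀ := ‖x k‖ with hs₀
  have hs1 : s₀ - 1 < ε / 4 := by
    have h2 := PiLp.norm_apply_le (x - p) k
    rw [PiLp.sub_apply] at h2
    have h3 : ‖x k‖ ≤ ‖x k - p k‖ + ‖p k‖ := by
      simpa using norm_add_le (x k - p k) (p k)
    rw [h1] at h3
    linarith
  have hs0 : (s₀ : ℂ) ≠ 0 := by
    have : s₀ ≠ 0 := by positivity
    exact_mod_cast this
  set u : ℂ := x k / s₀ with hu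
  have hun : ‖u‖ = 1 := by
    rw [hu, norm_div, Complex.norm_real, Real.norm_eq_abs, abs_of_pos (by positivity), ← hs₀,
      div_self (by positivity)]
  have hus : u * (s₀ : ℂ) = x k := by
    rw [hu]
    field_simp
  have hder : ∀ t ∈ Icc (1 : ℝ) s₀,
      l / 2 ≤ fderiv ℝ r (upd x k (u * t)) (EuclideanSpace.single k u) := by
    intro t ht
    have ht0 : 0 < t := lt_of_lt_of_le one_pos ht.1
    have h2 : ‖upd x k (u * t) - p‖ < ε := by
      have h3 : ‖upd x k (u * t) - x‖ = s₀ - t := by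
        rw [norm_upd_sub, ← hus]
        have : u * (t : ℂ) - u * s₀ = u * ((t - s₀ : ℝ) : ℂ) := by
          push_cast
          ring
        rw [this, norm_mul, hun, one_mul, Complex.norm_real, Real.norm_eq_abs,
          abs_of_nonpos (by linarith [ht.2])]
        ring
      have h4 : upd x k (u * t) - p = (upd x k (u * t) - x) + (x - p) := by abel
      rw [h4]
      refine lt_of_le_of_lt (norm_add_le _ _) ?_
      rw [h3]
      linarith [ht.1, norm_nonneg (x - p)]
    have h5 := h _ h2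
    rw [upd_same] at h5
    have h6 : (EuclideanSpace.single k (u * (t : ℂ)) : Sp n) = t • EuclideanSpace.single k u := by
      ext i
      by_cases hi : i = k
      · subst hi
        simp [mul_comm]
      · simp [hi]
    rw [h6, map_smul, smul_eq_mul] at h5
    have ht2 : t ≤ 2 := by linarith [ht.2]
    set F := fderiv ℝ r (upd x k (u * t)) (EuclideanSpace.single k u)
    have hF : 0 < F := by
      by_contra hc
      push Not at hc
      nlinarith
    nlinarith
  have hmain := (convex_Icc (1 : ℝ) s₀).mul_sub_le_image_sub_of_le_deriv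
    (f := fun s : ℝ => r (upd x k (u * s))) (C := l / 2)
    (fun t _ => (low_deriv hD.smooth x u t).continuousAt.continuousWithinAt)
    (fun t _ => (low_deriv hD.smooth x u t).differentiableAt.differentiableWithinAt)
    (fun t ht => by
      rw [(low_deriv hD.smooth x u t).deriv]
      exact hder t (interior_subset ht))
    1 ⟨le_rfl, hout.le⟩ s₀ ⟨hout.le, le_rfl⟩ hout.le
  simp only [hus, upd_self] at hmain
  have hst : 0 ≤ r (upd x k (u * ((1 : ℝ) : ℂ))) := by
    refine hD.nonneg_of ?_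
    rw [upd_same, Complex.ofReal_one, mul_one, hun]
  have h7 : l / 2 * (s₀ - 1) ≤ r x := by linarith
  have h8 : s₀ - 1 = 2 / l * (l / 2 * (s₀ - 1)) := by
    field_simp
  rw [h8]
  exact mul_le_mul_of_nonneg_left h7 (by positivity)

theorem tTypA (hGrad : StmtGrad) (hRe : StmtRe) : StmtTypA := by
  intro n Ω r k p hD hp h1 γ ε C L hε hγ hγ0 hC hbd
  obtain ⟨l, e₁, hl, he, he1, hg⟩ := low_grad hGrad hD hp h1
  have hcont : ContinuousAt γ 0 :=
    (hγ.differentiableAt (ball_mem_nhds 0 hε)).continuousAt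
  obtain ⟨δ₁, hδ₁, hδ₁b⟩ := Metric.continuousAt_iff.1 hcont (e₁ / 4) (by positivity)
  set δ := min δ₁ ε with hδ
  have hδ0 : 0 < δ := by positivity
  have hnear : ∀ z : ℂ, ‖z‖ < δ → ‖γ z - p‖ < e₁ / 4 := by
    intro z hz
    have := hδ₁b (x := z) (by
      rw [dist_zero_right]
      exact lt_of_lt_of_le hz (min_le_left _ _))
    rwa [hγ0, dist_eq_norm] at this
  have hcoord : ∀ z : ℂ, ‖z‖ < δ → ‖γ z k - p k‖ < 1 / 4 := by
    intro z hz
    have h2 := PiLp.norm_apply_le (γ z - p) k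
    rw [PiLp.sub_apply] at h2
    linarith [hnear z hz]
  have hlow : ∀ z : ℂ, ‖z‖ < δ → 1 ≤ ‖p k + γ z k‖ := by
    intro z hz
    have h3 : ‖(2 : ℂ) * p k‖ ≤ ‖p k + γ z k‖ + ‖γ z k - p k‖ := by
      have : (2 : ℂ) * p k = (p k + γ z k) - (γ z k - p k) := by ring
      rw [this]
      exact norm_sub_le _ _
    rw [norm_mul, h1] at h3
    norm_num at h3
    linarith [hcoord z hz]
  have hupp : ∀ z : ℂ, ‖z‖ < δ → ‖p k + γ z k‖ ≤ 3 := by
    intro z hz
    have h3 : ‖p k + γ z k‖ ≤ ‖(2 : ℂ) * p k‖ + ‖γ z k - p k‖ := by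
      have : p k + γ z k = (2 : ℂ) * p k + (γ z k - p k) := by ring
      rw [this]
      exact norm_add_le _ _
    rw [norm_mul, h1] at h3
    norm_num at h3
    linarith [hcoord z hz]
  have hne : ∀ z : ℂ, ‖z‖ < δ → p k + γ z k ≠ 0 := by
    intro z hz h0
    have := hlow z hz
    rw [h0, norm_zero] at this
    linarith
  have hdiff : DifferentiableOn ℂ (fun z => (p k - γ z k) / (p k + γ z k)) (ball 0 δ) := by
    intro z hz
    have hz' : ‖z‖ < δ := by simpa using hz
    have h4 : DifferentiableAt ℂ γ z :=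
      hγ.differentiableAt (isOpen_ball.mem_nhds (by
        rw [mem_ball_zero_iff]
        exact lt_of_lt_of_le hz' (min_le_right _ _)))
    have h5 : DifferentiableAt ℂ (fun z => γ z k) z :=
      ((EuclideanSpace.proj (𝕜 := ℂ) k).differentiableAt).comp z h4
    exact (((differentiableAt_const _).sub h5).div ((differentiableAt_const _).add h5)
      (hne z hz')).differentiableWithinAt
  obtain ⟨C', δ', hC', hδ', hβ⟩ := hRe (fun z => (p k - γ z k) / (p k + γ z k)) δ (6 * C / l) L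
    hδ0 hdiff (by simp [hγ0]) (by
      intro z hz
      have hz' : ‖z‖ < δ := by simpa using hz
      have hzp : 0 ≤ ‖z‖ ^ L := by positivity
      simp only
      rw [typa_re h1 (hne z hz')]
      have hden : 1 ≤ ‖p k + γ z k‖ ^ 2 := one_le_pow₀ (hlow z hz')
      by_cases hin : ‖γ z k‖ ≤ 1
      · have h6 : 0 ≤ (1 - ‖γ z k‖ ^ 2) / ‖p k + γ z k‖ ^ 2 := by
          refine div_nonneg ?_ (by positivity)
          nlinarith [norm_nonneg (γ z k)]
        have h7 : 0 ≤ 6 * C / l * ‖z‖ ^ L := by positivity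
        linarith
      · push Not at hin
        have h8 := typa_out hD hl he1 hg h1 (hnear z hz') hin
        have h9 : r (γ z) ≤ C * ‖z‖ ^ L := (le_abs_self _).trans (hbd z (by
          rw [mem_ball_zero_iff]
          exact lt_of_lt_of_le hz' (min_le_right _ _)))
        have h10 : ‖γ z k‖ - 1 ≤ 2 / l * (C * ‖z‖ ^ L) :=
          h8.trans (mul_le_mul_of_nonneg_left h9 (by positivity))
        have h11 : ‖γ z k‖ ≤ 2 := by
          have h12 : ‖γ z k‖ ≤ ‖γ z k - p k‖ + ‖p k‖ := by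
            simpa using norm_add_le (γ z k - p k) (p k)
          rw [h1] at h12
          linarith [hcoord z hz']
        have h13 : ‖γ z k‖ ^ 2 - 1 ≤ 6 * C / l * ‖z‖ ^ L := by
          have h14 : ‖γ z k‖ ^ 2 - 1 ≤ 3 * (‖γ z k‖ - 1) := by nlinarith
          have h15 : 3 * (2 / l * (C * ‖z‖ ^ L)) = 6 * C / l * ‖z‖ ^ L := by ring
          linarith
        have h16 : (‖γ z k‖ ^ 2 - 1) / ‖p k + γ z k‖ ^ 2 ≤ ‖γ z k‖ ^ 2 - 1 :=
          div_le_self (by nlinarith) hden
        have h17 : (1 - ‖γ z k‖ ^ 2) / ‖p k + γ z k‖ ^ 2 =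
            -((‖γ z k‖ ^ 2 - 1) / ‖p k + γ z k‖ ^ 2) := by ring
        rw [h17]
        linarith)
  refine ⟨3 * C', min δ δ', by positivity, by positivity, ?_⟩
  intro z hz
  have hz1 : ‖z‖ < δ := lt_of_lt_of_le hz (min_le_left _ _)
  have hz2 : ‖z‖ < δ' := lt_of_lt_of_le hz (min_le_right _ _)
  have h18 := hβ z hz2
  simp only at h18
  rw [norm_div] at h18
  have hpos : 0 < ‖p k + γ z k‖ := lt_of_lt_of_le one_pos (hlow z hz1)
  rw [div_le_iff₀ hpos] at h18
  rw [norm_sub_rev]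
  calc ‖p k - γ z k‖ ≤ C' * ‖z‖ ^ L * ‖p k + γ z k‖ := h18
    _ ≤ C' * ‖z‖ ^ L * 3 := mul_le_mul_of_nonneg_left (hupp z hz1) (by positivity)
    _ = 3 * C' * ‖z‖ ^ L := by ring

end MP16b755
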