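import Pool.Agent.Lib.MP_16b755_an.Spec

/-!
# GK/TypB: the lower bound on the face gives finite type
-/

set_option autoImplicit false

namespace MP16b755

open MeasureTheory Metric Set Filter Topology

lemma typb_contDiffAt {n : ℕ} {r : Sp n → ℝ} (hr : ContDiff ℝ ((⊤ : ℕ∞) : WithTop ℕ∞) r) {γ : ℂ → Sp n}
    {ε : ℝ} (hε : 0 < ε) (hγ : DifferentiableOn ℂ γ (ball (0 : ℂ) ε)) :
    ContDiffAt ℝ ((⊤ : ℕ∞) : WithTop ℕ∞) (r ∘ γ) 0 := by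
  have h1 : AnalyticAt ℂ γ 0 := hγ.analyticAt (ball_mem_nhds _ hε)
  have h2 : ContDiffAt ℂ ((⊤ : ℕ∞) : WithTop ℕ∞) γ 0 := h1.contDiffAt
  have h3 : ContDiffAt ℝ ((⊤ : ℕ∞) : WithTop ℕ∞) γ 0 := h2.restrict_scalars ℝ
  exact hr.contDiffAt.comp (0 : ℂ) h3

lemma typb_lip {n : ℕ} {r : Sp n → ℝ} (hr : ContDiff ℝ ((⊤ : ℕ∞) : WithTop ℕ∞) r) (p : Sp n) :
    ∃ K δ : ℝ, 0 ≤ K ∧ 0 < δ ∧ ∀ x y : Sp n, ‖x - p‖ < δ → ‖y - p‖ < δ → r x ≤ r y + K * ‖x - y‖ := by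
  have h1 : ContDiffAt ℝ 1 r p := (hr.of_le (by exact_mod_cast le_top)).contDiffAt
  obtain ⟨K, t, ht, hK⟩ := h1.exists_lipschitzOnWith
  obtain ⟨δ, hδ, hb⟩ := Metric.mem_nhds_iff.1 ht
  refine ⟨K, δ, K.2, hδ, ?_⟩
  intro x y hx hy
  have h2 := hK.dist_le_mul x (hb (by rw [mem_ball, dist_eq_norm]; exact hx)) y
    (hb (by rw [mem_ball, dist_eq_norm]; exact hy))
  rw [Real.dist_eq, dist_eq_norm] at h2
  have := le_abs_self (r x - r y)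
  linarith

theorem tTypB (hVan : StmtVan) (hOrd : StmtOrd) (hTypA : StmtTypA) : StmtTypB := by
  intro n Ω r k p hD hp hpk N c ρ hN hc hρ hlow
  refine ⟨N, ?_⟩
  rintro γ ⟨ε, hε, hγ⟩ hγ0 m hm hder
  by_contra hno
  push Not at hno
  have hcd := typb_contDiffAt hD.smooth hε hγ
  obtain ⟨C₁, δ₁, hC₁, hδ₁, hvan⟩ := hVan (r ∘ γ) (N * m) hcd hno
  obtain ⟨C', δ', hC', hδ', htyp⟩ := hTypA n Ω r k p hD hp hpk γ (min ε δ₁) C₁ (N * m + 1)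
    (lt_min hε hδ₁) (hγ.mono (ball_subset_ball (min_le_left _ _))) hγ0 hC₁ (by
      intro z hz
      rw [mem_ball_zero_iff] at hz
      exact hvan z (lt_of_lt_of_le hz (min_le_right _ _)))
  obtain ⟨c', δ₂, hc', hδ₂, hord⟩ := hOrd n γ ε m hε hγ hm hder
  obtain ⟨K, δ₃, hK, hδ₃, hlip⟩ := typb_lip hD.smooth p
  have hcont : ContinuousAt γ 0 :=
    (hγ.differentiableAt (ball_mem_nhds _ hε)).continuousAt
  -- eventual facts
  have e1 : ∀ᶠ z : ℂ in 𝓝 0, ‖γ z - p‖ < min (ρ / 2) (δ₃ / 2) := by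
    have h1 : Tendsto (fun z => ‖γ z - p‖) (𝓝 0) (𝓝 0) := by
      have h2 : Tendsto (fun z => γ z - p) (𝓝 0) (𝓝 0) := by
        have h3 : Tendsto (fun z => γ z - p) (𝓝 0) (𝓝 (γ 0 - p)) := hcont.sub tendsto_const_nhds
        rwa [hγ0, sub_self] at h3
      have := h2.norm
      rwa [norm_zero] at this
    exact h1.eventually (gt_mem_nhds (lt_min (by linarith) (by linarith)))
  have hz0 : Tendsto (fun z : ℂ => ‖z‖) (𝓝 0) (𝓝 0) := by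
    have := (continuous_norm (E := ℂ)).tendsto 0
    rwa [norm_zero] at this
  have e2 : ∀ᶠ z : ℂ in 𝓝 0, C' * ‖z‖ < min (min (ρ / 2) (δ₃ / 2)) (c' / 2) := by
    have h1 : Tendsto (fun z : ℂ => C' * ‖z‖) (𝓝 0) (𝓝 0) := by
      have := hz0.const_mul C'
      rwa [mul_zero] at this
    exact h1.eventually (gt_mem_nhds (lt_min (lt_min (by linarith) (by linarith)) (by linarith)))
  have e3 : ∀ᶠ z : ℂ in 𝓝 0, (C₁ + K * C') * ‖z‖ < c * (c' / 2) ^ N := by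
    have h1 : Tendsto (fun z : ℂ => (C₁ + K * C') * ‖z‖) (𝓝 0) (𝓝 0) := by
      have := hz0.const_mul (C₁ + K * C')
      rwa [mul_zero] at this
    exact h1.eventually (gt_mem_nhds (by positivity))
  have e4 : ∀ᶠ z : ℂ in 𝓝 0, ‖z‖ < min (min δ₁ δ') (min δ₂ 1) :=
    hz0.eventually (gt_mem_nhds (lt_min (lt_min hδ₁ hδ') (lt_min hδ₂ one_pos)))
  have e5 : ∀ᶠ z : ℂ in 𝓝[≠] 0, z ≠ 0 := self_mem_nhdsWithin
  obtain ⟨z, ⟨⟨⟨⟨h1, h2⟩, h3⟩, h4⟩, h5⟩⟩ :=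
    (((((e1.and e2).and e3).and e4).filter_mono nhdsWithin_le_nhds).and e5).exists
  rw [lt_min_iff] at h1 h2
  rw [lt_min_iff] at h2
  rw [lt_min_iff, lt_min_iff, lt_min_iff] at h4
  obtain ⟨⟨h41, h42⟩, h43, h44⟩ := h4
  have hzpos : 0 < ‖z‖ := norm_pos_iff.2 h5
  -- the point on the face
  have hpow : ‖z‖ ^ (N * m + 1) ≤ ‖z‖ ^ m * ‖z‖ := by
    rw [pow_succ]
    refine mul_le_mul_of_nonneg_right ?_ hzpos.le
    refine pow_le_pow_of_le_one hzpos.le h44.le ?_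
    nlinarith
  have hpow1 : ‖z‖ ^ m ≤ 1 := pow_le_one₀ hzpos.le h44.le
  have hk : ‖γ z k - p k‖ ≤ C' * ‖z‖ ^ (N * m + 1) := htyp z h42
  have hk1 : C' * ‖z‖ ^ (N * m + 1) ≤ C' * ‖z‖ * ‖z‖ ^ m := by
    calc C' * ‖z‖ ^ (N * m + 1) ≤ C' * (‖z‖ ^ m * ‖z‖) := mul_le_mul_of_nonneg_left hpow hC'.le
      _ = C' * ‖z‖ * ‖z‖ ^ m := by ring
  have hk2 : C' * ‖z‖ ^ (N * m + 1) ≤ C' * ‖z‖ := by
    refine hk1.trans ?_
    exact mul_le_of_le_one_right (by positivity) hpow1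
  have hx : ‖upd (γ z) k (p k) - γ z‖ ≤ C' * ‖z‖ ^ (N * m + 1) := by
    rw [norm_upd_sub, norm_sub_rev]
    exact hk
  have hxp : ‖upd (γ z) k (p k) - p‖ ≤ ‖upd (γ z) k (p k) - γ z‖ + ‖γ z - p‖ := by
    have := norm_add_le (upd (γ z) k (p k) - γ z) (γ z - p)
    rwa [sub_add_sub_cancel] at this
  have hlow' := hlow (upd (γ z) k (p k)) (upd_same _ _ _) (by linarith [h1.1, h2.1.1])
  have hr := hlip (upd (γ z) k (p k)) (γ z) (by linarith [h1.2, h2.1.2]) (by linarith [h1.2])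
  have hrz : r (γ z) ≤ C₁ * ‖z‖ ^ (N * m + 1) := (le_abs_self _).trans (hvan z h41)
  have hup : c * ‖upd (γ z) k (p k) - p‖ ^ N ≤ (C₁ + K * C') * ‖z‖ ^ (N * m + 1) := by
    have h6 : K * ‖upd (γ z) k (p k) - γ z‖ ≤ K * (C' * ‖z‖ ^ (N * m + 1)) :=
      mul_le_mul_of_nonneg_left hx hK
    calc c * ‖upd (γ z) k (p k) - p‖ ^ N ≤ r (upd (γ z) k (p k)) := hlow'
      _ ≤ C₁ * ‖z‖ ^ (N * m + 1) + K * (C' * ‖z‖ ^ (N * m + 1)) := by linarith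
      _ = (C₁ + K * C') * ‖z‖ ^ (N * m + 1) := by ring
  have hdist : c' / 2 * ‖z‖ ^ m ≤ ‖upd (γ z) k (p k) - p‖ := by
    have h6 := hord z h43
    rw [hγ0] at h6
    have h7 : ‖γ z - p‖ ≤ ‖upd (γ z) k (p k) - p‖ + ‖upd (γ z) k (p k) - γ z‖ := by
      have := norm_sub_le (upd (γ z) k (p k) - p) (upd (γ z) k (p k) - γ z)
      rwa [sub_sub_sub_cancel_left] at this
    have h8 : C' * ‖z‖ * ‖z‖ ^ m ≤ c' / 2 * ‖z‖ ^ m :=
      mul_le_mul_of_nonneg_right h2.2.le (by positivity)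
    linarith
  have hlast : c * (c' / 2) ^ N * ‖z‖ ^ (N * m) ≤ (C₁ + K * C') * ‖z‖ * ‖z‖ ^ (N * m) := by
    calc c * (c' / 2) ^ N * ‖z‖ ^ (N * m) = c * (c' / 2 * ‖z‖ ^ m) ^ N := by
          rw [mul_pow, ← pow_mul, mul_comm m N]; ring
      _ ≤ c * ‖upd (γ z) k (p k) - p‖ ^ N :=
          mul_le_mul_of_nonneg_left (pow_le_pow_left₀ (by positivity) hdist N) hc.le
      _ ≤ (C₁ + K * C') * ‖z‖ ^ (N * m + 1) := hup
      _ = (C₁ + K * C') * ‖z‖ * ‖z‖ ^ (N * m) := by rw [pow_succ]; ring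
  have hfin := le_of_mul_le_mul_right hlast (by positivity)
  linarith

end MP16b755
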