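import Pool.Agent.Lib.MP_16b755_an.Spec

/-!
# The width function is lower semicontinuous, positive and bounded
-/

set_option autoImplicit false

namespace MP16b755

open MeasureTheory Metric Set Filter Topology

theorem tWd : StmtWd := by
  intro n Ω r k i hD hik
  refine ⟨?_, ?_, ?_⟩
  · intro w y hy
    rcases lt_or_ge y 0 with h0 | h0
    · exact Eventually.of_forall fun w' => lt_of_lt_of_le h0 (wd_nonneg Ω k i w')
    · have hex : ∃ x ∈ Ω, ∃ x' ∈ Ω, x k = w ∧ x' k = w ∧ y < ‖x i - x' i‖ := by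
        by_contra hc
        push Not at hc
        refine absurd hy (not_lt.2 (Metric.diam_le_of_forall_dist_le h0 ?_))
        rintro z ⟨x, hx, hxk, rfl⟩ z' ⟨x', hx', hxk', rfl⟩
        rw [dist_eq_norm]
        exact hc x hx x' hx' hxk hxk'
      obtain ⟨x, hx, x', hx', hxk, hxk', hlt⟩ := hex
      have h1 : ∀ x ∈ Ω, x k = w → ∀ᶠ w' in 𝓝 w, upd x k w' ∈ Ω := by
        intro x hx hxk
        have hc := (continuous_upd_right x k).tendsto w
        have h2 : upd x k w = x := by
          rw [← hxk]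
          exact upd_self x k
        rw [h2] at hc
        exact hc (hD.op.mem_nhds hx)
      filter_upwards [h1 x hx hxk, h1 x' hx' hxk'] with w' h2 h3
      have h4 := dist_le_wd hD.bdd (i := i) h2 h3 (upd_same x k w') (upd_same x' k w')
      rw [upd_ne x k hik w', upd_ne x' k hik w'] at h4
      exact lt_of_lt_of_le hlt h4
  · intro w hw
    obtain ⟨x, hx, hxk⟩ := hD.exists_fib (mem_ball_zero_iff.1 hw)
    obtain ⟨δ, hδ, hb⟩ := Metric.isOpen_iff.1 hD.op x hx
    have h1 : x + EuclideanSpace.single i ((δ / 2 : ℝ) : ℂ) ∈ Ω := by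
      refine hb ?_
      rw [mem_ball_iff_norm, add_sub_cancel_left, PiLp.norm_single, Complex.norm_real,
        Real.norm_eq_abs, abs_of_pos (by positivity)]
      linarith
    have h2 : (x + EuclideanSpace.single i ((δ / 2 : ℝ) : ℂ) : Sp n) k = w := by
      rw [PiLp.add_apply, hxk]
      simp [Ne.symm hik]
    have h3 := dist_le_wd hD.bdd (i := i) h1 hx h2 hxk
    have h4 : (x + EuclideanSpace.single i ((δ / 2 : ℝ) : ℂ) : Sp n) i - x i = ((δ / 2 : ℝ) : ℂ) := by
      rw [PiLp.add_apply]
      simp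
    rw [h4, Complex.norm_real, Real.norm_eq_abs, abs_of_pos (by positivity)] at h3
    linarith
  · obtain ⟨R, hR⟩ := hD.bdd.exists_norm_le
    refine ⟨2 * |R| + 1, by positivity, fun w => Metric.diam_le_of_forall_dist_le (by positivity) ?_⟩
    rintro z ⟨x, hx, -, rfl⟩ z' ⟨x', hx', -, rfl⟩
    have h1 := (PiLp.norm_apply_le x i).trans (hR x hx)
    have h2 := (PiLp.norm_apply_le x' i).trans (hR x' hx')
    have h3 := norm_sub_le (x i) (x' i)
    rw [dist_eq_norm]
    linarith [le_abs_self R]

end MP16b755
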